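import Pool.Agent.HFinG.Dual
import Mathlib.Analysis.InnerProductSpace.ProdL2

/-!
# The Stiefel manifold `V₂(ℝ^(n+2)) = O(n+2)/O(n)`: bracket data

`𝔪 = ℝ ⊕ ℝⁿ ⊕ ℝⁿ`: the element `(a, u, v)` is the skew matrix `X` of size `n + 2` with
`X e₀ = κ (a e₁ + u)`, `X e₁ = κ (-a e₀ + v)`, `κ = 1/√2`, and no component in `𝔰𝔬(n)`.
-/

namespace HFinG

open scoped ContDiff RealInnerProductSpace

/-- `ℝⁿ`. -/
abbrev En (n : ℕ) := EuclideanSpace ℝ (Fin n)

/-- `𝔪 = ℝ ⊕ ℝⁿ ⊕ ℝⁿ`. -/
abbrev Vn (n : ℕ) := WithLp 2 (ℝ × WithLp 2 (En n × En n))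

/-- `n × n` matrices (`A` stands for the element `(A - Aᵀ)/2` of `𝔰𝔬(n)`). -/
abbrev Hn (n : ℕ) := EuclideanSpace ℝ (Fin n × Fin n)

variable {n : ℕ}

/-- The vector `(a, u, v)`. -/
noncomputable def mk3 (a : ℝ) (u v : En n) : Vn n := WithLp.toLp 2 (a, WithLp.toLp 2 (u, v))

/-- The component `a` of `(a, u, v)`. -/
noncomputable def c0 : Vn n →L[ℝ] ℝ := WithLp.fstL 2 ℝ ℝ (WithLp 2 (En n × En n))

/-- The component `u` of `(a, u, v)`. -/
noncomputable def cu : Vn n →L[ℝ] En n :=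
  (WithLp.fstL 2 ℝ (En n) (En n)).comp (WithLp.sndL 2 ℝ ℝ (WithLp 2 (En n × En n)))

/-- The component `v` of `(a, u, v)`. -/
noncomputable def cv : Vn n →L[ℝ] En n :=
  (WithLp.sndL 2 ℝ (En n) (En n)).comp (WithLp.sndL 2 ℝ ℝ (WithLp 2 (En n × En n)))

@[simp] lemma c0_mk3 (a : ℝ) (u v : En n) : c0 (mk3 a u v) = a := rfl
@[simp] lemma cu_mk3 (a : ℝ) (u v : En n) : cu (mk3 a u v) = u := rfl
@[simp] lemma cv_mk3 (a : ℝ) (u v : En n) : cv (mk3 a u v) = v := rfl

lemma mk3_eta (x : Vn n) : mk3 (c0 x) (cu x) (cv x) = x := rfl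

lemma ext3 {x y : Vn n} (h0 : c0 x = c0 y) (hu : cu x = cu y) (hv : cv x = cv y) : x = y := by
  rw [← mk3_eta x, ← mk3_eta y, h0, hu, hv]

@[simp] lemma mk3_add (a b : ℝ) (u v u' v' : En n) :
    mk3 a u v + mk3 b u' v' = mk3 (a + b) (u + u') (v + v') := rfl
@[simp] lemma mk3_smul (c a : ℝ) (u v : En n) : c • mk3 a u v = mk3 (c * a) (c • u) (c • v) := rfl
@[simp] lemma mk3_neg (a : ℝ) (u v : En n) : -mk3 a u v = mk3 (-a) (-u) (-v) := rfl
@[simp] lemma mk3_sub (a b : ℝ) (u v u' v' : En n) :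
    mk3 a u v - mk3 b u' v' = mk3 (a - b) (u - u') (v - v') := rfl
@[simp] lemma mk3_zero : mk3 0 (0 : En n) 0 = 0 := rfl

lemma inner_vn (x y : Vn n) : ⟪x, y⟫ = c0 x * c0 y + ⟪cu x, cu y⟫ + ⟪cv x, cv y⟫ := by
  rw [WithLp.prod_inner_apply, WithLp.prod_inner_apply, ← add_assoc]
  congr 2
  simp [c0, mul_comm]

/-- `κ = 1/√2`. -/
noncomputable def κ : ℝ := (Real.sqrt 2)⁻¹

lemma κ_pos : 0 < κ := by unfold κ; positivity

lemma κ_sq : κ * κ = 1 / 2 := by
  unfold κ
  rw [← mul_inv, Real.mul_self_sqrt (by norm_num)]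
  norm_num

/-- Make a bilinear map of finite-dimensional spaces continuous. -/
noncomputable def toCB {V W Z : Type*} [NormedAddCommGroup V] [NormedSpace ℝ V]
    [FiniteDimensional ℝ V] [NormedAddCommGroup W] [NormedSpace ℝ W] [FiniteDimensional ℝ W]
    [NormedAddCommGroup Z] [NormedSpace ℝ Z]
    (f : V →ₗ[ℝ] W →ₗ[ℝ] Z) : V →L[ℝ] W →L[ℝ] Z :=
  LinearMap.toContinuousLinearMap
    ((LinearMap.toContinuousLinearMap : (W →ₗ[ℝ] Z) ≃ₗ[ℝ] (W →L[ℝ] Z)).toLinearMap ∘ₗ f)

@[simp] lemma toCB_apply {V W Z : Type*} [NormedAddCommGroup V] [NormedSpace ℝ V]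
    [FiniteDimensional ℝ V] [NormedAddCommGroup W] [NormedSpace ℝ W] [FiniteDimensional ℝ W]
    [NormedAddCommGroup Z] [NormedSpace ℝ Z]
    (f : V →ₗ[ℝ] W →ₗ[ℝ] Z) (x : V) (y : W) : toCB f x y = f x y := rfl

/-- `skL A u = (A - Aᵀ)/2 · u`. -/
noncomputable def skL : Hn n →L[ℝ] En n →L[ℝ] En n :=
  toCB (LinearMap.mk₂ ℝ (fun A u => WithLp.toLp 2 fun i =>
      (1 / 2 : ℝ) * ∑ j, (A (i, j) - A (j, i)) * u j)
    (by
      intro A B u
      ext i
      simp only [PiLp.add_apply]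
      rw [← mul_add, ← Finset.sum_add_distrib]
      congr 1
      exact Finset.sum_congr rfl fun j _ => by ring)
    (by
      intro c A u
      ext i
      simp only [PiLp.smul_apply, smul_eq_mul, Finset.mul_sum]
      exact Finset.sum_congr rfl fun j _ => by ring)
    (by
      intro A u v
      ext i
      simp only [PiLp.add_apply]
      rw [← mul_add, ← Finset.sum_add_distrib]
      congr 1
      exact Finset.sum_congr rfl fun j _ => by ring)
    (by
      intro c A u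
      ext i
      simp only [PiLp.smul_apply, smul_eq_mul, Finset.mul_sum]
      exact Finset.sum_congr rfl fun j _ => by ring))

lemma skL_apply (A : Hn n) (u : En n) (i : Fin n) :
    skL A u i = (1 / 2 : ℝ) * ∑ j, (A (i, j) - A (j, i)) * u j := rfl

/-- The bracket data of `V₂(ℝ^(n+2)) = O(n+2)/O(n)`. -/
noncomputable def stf (n : ℕ) : RedData (Vn n) (Hn n) where
  mm := toCB (LinearMap.mk₂ ℝ (fun x y => κ • mk3 (⟪cu x, cv y⟫ - ⟪cv x, cu y⟫)
      (c0 y • cv x - c0 x • cv y) (c0 x • cu y - c0 y • cu x))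
    (by
      intro x x' y
      refine ext3 ?_ ?_ ?_ <;>
        simp only [map_add, mk3_add, mk3_smul, c0_mk3, cu_mk3, cv_mk3, inner_add_left] <;>
        first | ring1 | module)
    (by
      intro c x y
      refine ext3 ?_ ?_ ?_ <;>
        simp only [map_smul, mk3_smul, c0_mk3, cu_mk3, cv_mk3, real_inner_smul_left,
          smul_eq_mul] <;>
        first | ring1 | module)
    (by
      intro x y y'
      refine ext3 ?_ ?_ ?_ <;>
        simp only [map_add, mk3_add, mk3_smul, c0_mk3, cu_mk3, cv_mk3, inner_add_right] <;>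
        first | ring1 | module)
    (by
      intro c x y
      refine ext3 ?_ ?_ ?_ <;>
        simp only [map_smul, mk3_smul, c0_mk3, cu_mk3, cv_mk3, real_inner_smul_right,
          smul_eq_mul] <;>
        first | ring1 | module))
  mh := toCB (LinearMap.mk₂ ℝ (fun x y => WithLp.toLp 2 fun ij : Fin n × Fin n =>
      (1 / 2 : ℝ) * (cu y ij.1 * cu x ij.2 + cv y ij.1 * cv x ij.2
        - cu x ij.1 * cu y ij.2 - cv x ij.1 * cv y ij.2))
    (by
      intro x x' y
      ext ij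
      simp only [map_add, PiLp.add_apply]
      ring)
    (by
      intro c x y
      ext ij
      simp only [map_smul, PiLp.smul_apply, smul_eq_mul]
      ring)
    (by
      intro x y y'
      ext ij
      simp only [map_add, PiLp.add_apply]
      ring)
    (by
      intro c x y
      ext ij
      simp only [map_smul, PiLp.smul_apply, smul_eq_mul]
      ring))
  act := toCB (LinearMap.mk₂ ℝ (fun A x => mk3 0 (skL A (cu x)) (skL A (cv x)))
    (by
      intro A B x
      simp only [map_add, mk3_add, add_zero, _root_.add_apply])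
    (by
      intro c A x
      simp only [map_smul, mk3_smul, mul_zero, _root_.smul_apply])
    (by
      intro A x y
      simp only [map_add, mk3_add, add_zero])
    (by
      intro c A x
      simp only [map_smul, mk3_smul, mul_zero]))
  mm_self := by
    intro x
    refine ext3 ?_ ?_ ?_
    · simp only [toCB_apply, LinearMap.mk₂_apply, mk3_smul, c0_mk3, map_zero]
      rw [real_inner_comm]
      ring
    · simp only [toCB_apply, LinearMap.mk₂_apply, mk3_smul, cu_mk3, map_zero, sub_self, smul_zero]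
    · simp only [toCB_apply, LinearMap.mk₂_apply, mk3_smul, cv_mk3, map_zero, sub_self, smul_zero]
  mh_self := by
    intro x
    ext ij
    simp only [toCB_apply, LinearMap.mk₂_apply, PiLp.zero_apply]
    ring

lemma stf_mm (x y : Vn n) : (stf n).mm x y = κ • mk3 (⟪cu x, cv y⟫ - ⟪cv x, cu y⟫)
    (c0 y • cv x - c0 x • cv y) (c0 x • cu y - c0 y • cu x) := rfl

lemma stf_mh (x y : Vn n) (ij : Fin n × Fin n) : (stf n).mh x y ij =
    (1 / 2 : ℝ) * (cu y ij.1 * cu x ij.2 + cv y ij.1 * cv x ij.2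
        - cu x ij.1 * cu y ij.2 - cv x ij.1 * cv y ij.2) := rfl

lemma stf_act (A : Hn n) (x : Vn n) : (stf n).act A x = mk3 0 (skL A (cu x)) (skL A (cv x)) := rfl

/-- The gradient of `m(x) = (|v|² - |u|²)/2`, `x = (a, u, v)`. -/
noncomputable def swn : Vn n →L[ℝ] Vn n :=
  LinearMap.toContinuousLinearMap
    { toFun := fun x => mk3 0 (-cu x) (cv x)
      map_add' := by
        intro x y
        refine ext3 ?_ ?_ ?_ <;> simp [add_comm]
      map_smul' := by
        intro c x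
        refine ext3 ?_ ?_ ?_ <;> simp }

lemma swn_apply (x : Vn n) : swn x = mk3 0 (-cu x) (cv x) := rfl

/-- `m(x) = (|v|² - |u|²)/2`, `x = (a, u, v)`. -/
noncomputable def mn (x : Vn n) : ℝ := (⟪cv x, cv x⟫ - ⟪cu x, cu x⟫) / 2

/-- The vector `(1, 0, 0)`. -/
noncomputable def e0n : Vn n := mk3 1 0 0

/-- The perturbation `h(x) = -m(x) + a (r - 4 m(x) / r)`, `x = (a, u, v)`, `r = ‖x‖`. -/
noncomputable def hn (x : Vn n) : ℝ := - mn x + c0 x * (‖x‖ - 4 * mn x / ‖x‖)

/-- The gradient of `hn`. -/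
noncomputable def pn (x : Vn n) : Vn n :=
  - swn x + (‖x‖ - 4 * mn x / ‖x‖) • e0n
    + (c0 x / ‖x‖) • x - (4 * c0 x / ‖x‖) • swn x + (4 * c0 x * mn x / ‖x‖ ^ 3) • x

end HFinG
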