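import Pool.Agent.HFinG.B1

/-! MODULE C1 (diff 3): shift invariance of the curvature form.

Notation: `ξ(v) = g_x(x,v) = D(F²/2)(x) v` (`fund_self`), `η = spray D F x`, `'` = derivative at `x`
in the direction `η`, `k = kk1 D F x`.
(a) `N x = η`: by `conn_kk1`, `2 g(N x, u) = ξ([u,x]) - k(x,u)` and `k(x,u) = g'(x,u) + g([x,x],u)
+ g(x,[x,u]) = ξ([x,u])` since `g'(x,u) = D_ηg(x,u) = D_x g(η,u) = 0` (`dfund_symm`,
`dfund_self`).  So `2 g(Nx,u) = 2 ξ([u,x]) = 2 g(η,u)` (`spray_spec`).
(b) `k(w,x) = - g(η,w)` for all `x ≠ 0`, `w` (same computation, `ξ([x,w]) = -ξ([w,x])`).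
(c) `2 g(N w, η) = k°(w,x)`.  Proof: differentiate (b), i.e. `k_y(w,y) = - g_y(η_y,w)`, at `y = x` in
the direction `η`: `k'(w,x) + k(w,η) = - g'(η,w) - g(Dη(η),w)`.  Also `k([x,w],x) = - g(η,[x,w])`,
`k(w,[x,x]) = 0`.  Hence `k°(w,x) = k'(w,x) + k([x,w],x) + 0 = - k(w,η) - g'(η,w) - g(Dη(η),w)
- g(η,[x,w])`.  Differentiate `g_y(η_y,w) = ξ_y([w,y])` (`spray_spec` + `fund_self`) in the
direction `η`: `g'(η,w) + g(Dη(η),w) = g(η,[w,x]) + ξ([w,η])`.  So
`k°(w,x) = - k(w,η) - g(η,[w,x]) - ξ([w,η]) - g(η,[x,w]) = - k(w,η) + ξ([η,w]) = 2 g(Nw,η)` by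
`conn_kk1`.
(d) Expand `curvQ (w + c x)`: `N(w+cx) = Nw + c η`, so
`g(N(w+cx),N(w+cx)) = g(Nw,Nw) + 2c g(Nw,η) + c² g(η,η)`;
`k°(w+cx,w+cx) = k°(w,w) + 2c k°(w,x) + c² k°(x,x) = k°(w,w) + 4c g(Nw,η) + 2c² g(η,η)` ((c) twice);
`mh x (w+cx) = mh x w` (`mh_self`), `g(act x, w+cx) = g(act x,w) + c ξ(act x) = g(act x,w)`
(`hinv`, `fund_symm`, `fund_self`).  Everything cancels.
-/

namespace HFinG

open scoped ContDiff

variable {V H : Type*} [NormedAddCommGroup V] [NormedSpace ℝ V]
  [NormedAddCommGroup H] [NormedSpace ℝ H] [FiniteDimensional ℝ V]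

omit [FiniteDimensional ℝ V] in
theorem C1_ne {x : V} (hx : x ≠ 0) : {x : V | x ≠ 0} ∈ nhds x :=
  isOpen_ne.mem_nhds hx

/-- Product rule for an expression linear in its last argument. -/
theorem C1_prod {f : V → V → ℝ} {x : V}
    (hadd : ∀ᶠ y in nhds x, ∀ u v, f y (u + v) = f y u + f y v)
    (hsmul : ∀ᶠ y in nhds x, ∀ (c : ℝ) v, f y (c • v) = c * f y v)
    (hd : ∀ v, DifferentiableAt ℝ (fun y => f y v) x) {e : V → V}
    (he : DifferentiableAt ℝ e x) (h : V) :
    fderiv ℝ (fun y => f y (e y)) x h =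
      fderiv ℝ (fun y => f y (e x)) x h + f x (fderiv ℝ e x h) := by
  classical
  let b := Module.finBasis ℝ V
  have key : ∀ᶠ y in nhds x, ∀ v, f y v = ∑ i, b.repr v i * f y (b i) := by
    filter_upwards [hadd, hsmul] with y h1 h2 v
    let φ : V →ₗ[ℝ] ℝ :=
      { toFun := f y
        map_add' := h1
        map_smul' := fun c v => by simp [h2] }
    have h3 : φ v = φ (∑ i, b.repr v i • b i) := by rw [b.sum_repr]
    rw [map_sum] at h3
    simp only [map_smul, smul_eq_mul] at h3
    exact h3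
  have hc : ∀ i, HasFDerivAt (fun y => b.repr (e y) i)
      ((LinearMap.toContinuousLinearMap (b.coord i)).comp (fderiv ℝ e x)) x := fun i =>
    (LinearMap.toContinuousLinearMap (b.coord i)).hasFDerivAt.comp x he.hasFDerivAt
  have h1 : HasFDerivAt (fun y => ∑ i, b.repr (e y) i * f y (b i))
      (∑ i, (b.repr (e x) i • fderiv ℝ (fun y => f y (b i)) x + f x (b i) •
        ((LinearMap.toContinuousLinearMap (b.coord i)).comp (fderiv ℝ e x)))) x :=
    HasFDerivAt.fun_sum (fun i _ => (hc i).mul (hd (b i)).hasFDerivAt)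
  have h2 : HasFDerivAt (fun y => ∑ i, b.repr (e x) i * f y (b i))
      (∑ i, (b.repr (e x) i • fderiv ℝ (fun y => f y (b i)) x)) x :=
    HasFDerivAt.fun_sum (fun i _ => (hd (b i)).hasFDerivAt.const_mul _)
  have e1 : (fun y => f y (e y)) =ᶠ[nhds x] (fun y => ∑ i, b.repr (e y) i * f y (b i)) := by
    filter_upwards [key] with y hy using hy _
  have e2 : (fun y => f y (e x)) =ᶠ[nhds x] (fun y => ∑ i, b.repr (e x) i * f y (b i)) := by
    filter_upwards [key] with y hy using hy _
  rw [(h1.congr_of_eventuallyEq e1).fderiv, (h2.congr_of_eventuallyEq e2).fderiv,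
    key.self_of_nhds (fderiv ℝ e x h), Finset.sum_add_distrib]
  simp only [ContinuousLinearMap.add_apply, ContinuousLinearMap.sum_apply,
    ContinuousLinearMap.smul_apply, ContinuousLinearMap.comp_apply,
    LinearMap.coe_toContinuousLinearMap', Module.Basis.coord_apply, smul_eq_mul]
  congr 1
  exact Finset.sum_congr rfl fun i _ => mul_comm _ _

omit [FiniteDimensional ℝ V] in
theorem C1_mm_self (D : RedData V H) {F : V → ℝ} (x u : V) :
    fund F x (D.mm x x) u = 0 := by
  rw [D.mm_self]; simp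

/-- `k(x,u) = g(x,[x,u])`. -/
theorem C1_k (D : RedData V H) {F : V → ℝ} (hF : IsMinkowski F) {x : V} (hx : x ≠ 0) (u : V) :
    kk1 D F x x u = fund F x x (D.mm x u) := by
  unfold kk1
  rw [dfund_symm hF hx x u (spray D F x), dfund_self hF hx, C1_mm_self]
  ring

theorem conn_self (D : RedData V H) {F : V → ℝ} (hF : IsMinkowski F) {x : V} (hx : x ≠ 0) :
    conn D F x x = spray D F x := by
  apply fund_inj hF hx
  intro u
  have h1 := conn_kk1 D hF hx x u
  rw [C1_k D hF hx, mm_anti D x u, map_neg] at h1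
  have h2 := spray_spec D hF hx u
  linarith

theorem kk1_self (D : RedData V H) {F : V → ℝ} (hF : IsMinkowski F) {x : V} (hx : x ≠ 0) (w : V) :
    kk1 D F x w x = - fund F x (spray D F x) w := by
  rw [kk1_symm D hF hx, C1_k D hF hx, spray_spec D hF hx, mm_anti D x w, map_neg]

theorem C1_dfund (D : RedData V H) {F : V → ℝ} (hF : IsMinkowski F) {x : V} (hx : x ≠ 0)
    (w h : V) : fderiv ℝ (fun y => fund F y y (D.mm w y)) x h =
      fund F x h (D.mm w x) + fund F x x (D.mm w h) := by
  have hn := C1_ne hx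
  have hs : ∀ u v, DifferentiableAt ℝ (fun y => fund F y u v) x := fun u v =>
    ((fund_eval_smooth hF u v).contDiffAt hn).differentiableAt (by simp)
  have hid : DifferentiableAt ℝ (fun y : V => y) x := differentiableAt_id
  have hm : DifferentiableAt ℝ (fun y : V => D.mm w y) x := (D.mm w).differentiableAt
  have hfund : DifferentiableAt ℝ (fund F) x :=
    ((fund_smooth hF).contDiffAt hn).differentiableAt (by simp)
  have hs2 : ∀ v, DifferentiableAt ℝ (fun y => fund F y y v) x := fun v =>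
    (hfund.clm_apply hid).clm_apply (differentiableAt_const v)
  have h1 := C1_prod (f := fun y v => fund F y y v) (x := x)
    (Filter.Eventually.of_forall fun y u v => by simp)
    (Filter.Eventually.of_forall fun y c v => by simp)
    hs2 hm h
  have h2 := C1_prod (f := fun y v => fund F y v (D.mm w x)) (x := x)
    (Filter.Eventually.of_forall fun y u v => by simp)
    (Filter.Eventually.of_forall fun y c v => by simp)
    (fun v => hs v _) hid h
  have h3 : fderiv ℝ (fun y => fund F y x (D.mm w x)) x h = 0 := by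
    rw [dfund_symm hF hx, dfund_self hF hx]
  have h4 : fderiv ℝ (fun y : V => y) x h = h := by simp
  have h5 : fderiv ℝ (fun y : V => D.mm w y) x h = D.mm w h := by
    rw [(D.mm w).fderiv]
  simp only [h4, h5] at h1 h2
  rw [h1, h2, h3]
  ring

theorem kk2_self (D : RedData V H) {F : V → ℝ} (hF : IsMinkowski F) {x : V} (hx : x ≠ 0) (w : V) :
    kk2 D F x w x = 2 * fund F x (conn D F x w) (spray D F x) := by
  have hn := C1_ne hx
  have hne : ∀ᶠ y in nhds x, y ≠ 0 := hn
  have hid : DifferentiableAt ℝ (fun y : V => y) x := differentiableAt_id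
  have hadd : ∀ᶠ y in nhds x, ∀ u v, kk1 D F y w (u + v) = kk1 D F y w u + kk1 D F y w v := by
    filter_upwards [hne] with y hy u v
    rw [kk1_symm D hF hy, kk1_add D hF hy, kk1_symm D hF hy u, kk1_symm D hF hy v]
  have hsmul : ∀ᶠ y in nhds x, ∀ (c : ℝ) v, kk1 D F y w (c • v) = c * kk1 D F y w v := by
    filter_upwards [hne] with y hy c v
    rw [kk1_symm D hF hy, kk1_smul D hF hy, kk1_symm D hF hy v]
  have h1 := C1_prod (f := fun y v => kk1 D F y w v) (x := x) hadd hsmul
    (fun v => ((kk1_smooth D hF w v).contDiffAt hn).differentiableAt (by simp)) hid (spray D F x)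
  have h4 : fderiv ℝ (fun y : V => y) x (spray D F x) = spray D F x := by simp
  have h2 : (fun y => kk1 D F y w y) =ᶠ[nhds x] (fun y => - fund F y y (D.mm w y)) := by
    filter_upwards [hne] with y hy
    rw [kk1_self D hF hy, spray_spec D hF hy]
  have h3 : fderiv ℝ (fun y => kk1 D F y w y) x (spray D F x) =
      - (fund F x (spray D F x) (D.mm w x) + fund F x x (D.mm w (spray D F x))) := by
    rw [h2.fderiv_eq, fderiv_fun_neg, ContinuousLinearMap.neg_apply, C1_dfund D hF hx]
  have h5 : kk1 D F x w (D.mm x x) = 0 := by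
    have := hsmul.self_of_nhds 0 0
    rw [D.mm_self]
    simpa using this
  have h6 := conn_kk1 D hF hx w (spray D F x)
  have h7 := kk1_self D hF hx (D.mm x w)
  simp only [h4] at h1
  unfold kk2
  rw [h5, h7, h6, mm_anti D x w, mm_anti D (spray D F x) w, map_neg, map_neg]
  linarith

theorem curv_shift (D : RedData V H) {F : V → ℝ} (hF : IsMinkowski F)
    (hinv : ∀ A x, x ≠ 0 → fderiv ℝ (fun z => F z ^ 2 / 2) x (D.act A x) = 0)
    {x : V} (hx : x ≠ 0) (w : V) (c : ℝ) :
    curvQ D F x (w + c • x) = curvQ D F x w := by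
  have h1 : conn D F x (w + c • x) = conn D F x w + c • spray D F x := by
    rw [conn_add D hF hx, conn_smul D hF hx, conn_self D hF hx]
  have h2 : kk2 D F x (w + c • x) (w + c • x) =
      kk2 D F x w w + 2 * c * kk2 D F x w x + c ^ 2 * kk2 D F x x x := by
    rw [kk2_add D hF hx, kk2_smul D hF hx, kk2_symm D hF hx w, kk2_symm D hF hx x,
      kk2_add D hF hx, kk2_add D hF hx, kk2_smul D hF hx, kk2_smul D hF hx,
      kk2_symm D hF hx x w]
    ring
  have h3 := kk2_self D hF hx w
  have h4 := kk2_self D hF hx x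
  rw [conn_self D hF hx] at h4
  have h5 : ∀ A, fund F x (D.act A x) x = 0 := by
    intro A
    rw [fund_symm hF hx, fund_self hF hx, hinv A x hx]
  have h6 : fund F x (spray D F x) (conn D F x w) = fund F x (conn D F x w) (spray D F x) :=
    fund_symm hF hx _ _
  unfold curvQ
  rw [h1, h2, h3, h4]
  simp only [map_add, map_smul, ContinuousLinearMap.add_apply, ContinuousLinearMap.smul_apply,
    smul_eq_mul, D.mh_self, smul_zero, add_zero, h5, h6]
  ring

end HFinG
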