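import Pool.Agent.HFinG.D1

/-! MODULE D2 (diff 3): Legendre transform.

Let `Λ = L⁻¹` and `E(x) = ⟪x, Λ x⟫ / 2`, `F = √(2 E)`.
* For `x = L ξ ≠ 0`: `⟪x, Λ x⟫ = ⟪L ξ, ξ⟫ = ⟪DL(ξ) ξ, ξ⟫ > 0` (`cofield_euler`, `hL.pos`).
* `E` is smooth off `0` (`inv_smooth`), so is `F` (`ContDiffOn.sqrt`, positivity), and
  `F²/2 = E` everywhere (`E 0 = 0`).
* `DE(x) v = (⟪v, Λ x⟫ + ⟪x, DΛ(x) v⟫)/2 = ⟪Λ x, v⟫`: `DΛ(x)` is the inverse of the symmetric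
  `DL(ξ)`, hence symmetric, and `DΛ(x) x = Λ x` (from `DL(ξ) ξ = L ξ`).
* `D²E(x)(u,v) = ⟪DΛ(x) u, v⟫`, so with `u = DL(ξ) u'` it is `⟪u', v⟫`; positive definite since
  `D²E(x)(DL(ξ) u', DL(ξ) u') = ⟪u', DL(ξ) u'⟫ > 0`, and `DL(ξ)` is onto.
* homogeneity: `inv_smul`, and `F 0 = 0`.
* equivariance: `L (R ξ) = R (L ξ)` gives `Λ (R x) = R (Λ x)` (injectivity of `L`), then
  `E (R x) = E x`.
-/

namespace HFinG

open scoped ContDiff RealInnerProductSpace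

variable {V : Type*} [NormedAddCommGroup V] [InnerProductSpace ℝ V] [FiniteDimensional ℝ V]

theorem D2_pos {L Λ : V → V} (hL : IsCoField L) (h1 : ∀ x, L (Λ x) = x) {x : V} (hx : x ≠ 0) :
    0 < ⟪x, Λ x⟫ := by
  have hξ := inv_ne hL h1 hx
  have h := hL.pos (Λ x) hξ (Λ x) hξ
  rw [cofield_euler hL hξ, h1] at h
  exact h

theorem D2_nonneg {L Λ : V → V} (hL : IsCoField L) (h1 : ∀ x, L (Λ x) = x) (x : V) :
    0 ≤ ⟪x, Λ x⟫ := by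
  by_cases hx : x = 0
  · rw [hx, inner_zero_left]
  · exact (D2_pos hL h1 hx).le

theorem D2_open : IsOpen {x : V | x ≠ 0} := isOpen_compl_singleton

theorem D2_diff {L Λ : V → V} (hL : IsCoField L) (h1 : ∀ x, L (Λ x) = x) {x : V} (hx : x ≠ 0) :
    DifferentiableAt ℝ Λ x :=
  ((inv_smooth hL h1).contDiffAt (D2_open.mem_nhds hx)).differentiableAt (by simp)

theorem D2_smoothE {L Λ : V → V} (hL : IsCoField L) (h1 : ∀ x, L (Λ x) = x) :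
    ContDiffOn ℝ ∞ (fun x : V => ⟪x, Λ x⟫) {x | x ≠ 0} :=
  contDiffOn_id.inner ℝ (inv_smooth hL h1)

/-- the first derivative -/
theorem D2_grad {L Λ : V → V} (hL : IsCoField L) (h1 : ∀ x, L (Λ x) = x) {x : V} (hx : x ≠ 0)
    (v : V) : fderiv ℝ (fun z : V => ⟪z, Λ z⟫ / 2) x v = ⟪Λ x, v⟫ := by
  have hξ := inv_ne hL h1 hx
  have hd := D2_diff hL h1 hx
  have h2 : HasFDerivAt (fun z : V => ⟪z, Λ z⟫ / 2)
      ((2 : ℝ)⁻¹ • ((fderivInnerCLM ℝ (x, Λ x)).comp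
        ((ContinuousLinearMap.id ℝ V).prod (fderiv ℝ Λ x)))) x := by
    have h3 := ((hasFDerivAt_id x).inner ℝ hd.hasFDerivAt).const_smul (2 : ℝ)⁻¹
    refine h3.congr_of_eventuallyEq ?_
    filter_upwards with z
    show ⟪z, Λ z⟫ / 2 = (2 : ℝ)⁻¹ * ⟪z, Λ z⟫
    ring
  rw [h2.fderiv]
  show (2 : ℝ)⁻¹ * (⟪x, fderiv ℝ Λ x v⟫ + ⟪v, Λ x⟫) = ⟪Λ x, v⟫
  have h4 : ⟪x, fderiv ℝ Λ x v⟫ = ⟪Λ x, v⟫ := by
    have h5 := inv_fderiv' hL h1 hξ v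
    rw [h1] at h5
    have h6 : ⟪x, fderiv ℝ Λ x v⟫ = ⟪fderiv ℝ L (Λ x) (Λ x), fderiv ℝ Λ x v⟫ := by
      rw [cofield_euler hL hξ, h1]
    rw [h6, hL.symm _ hξ, h5]
  rw [h4, real_inner_comm v (Λ x)]
  ring

/-- the second derivative -/
theorem D2_hess {L Λ : V → V} (hL : IsCoField L) (h1 : ∀ x, L (Λ x) = x) {x : V} (hx : x ≠ 0)
    (u v : V) : fderiv ℝ (fun y => fderiv ℝ (fun z : V => ⟪z, Λ z⟫ / 2) y) x u v =
      ⟪fderiv ℝ Λ x u, v⟫ := by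
  have hd := D2_diff hL h1 hx
  have hE : ContDiffAt ℝ ∞ (fun z : V => ⟪z, Λ z⟫ / 2) x :=
    ((D2_smoothE hL h1).contDiffAt (D2_open.mem_nhds hx)).div_const 2
  have hG : DifferentiableAt ℝ (fun y => fderiv ℝ (fun z : V => ⟪z, Λ z⟫ / 2) y) x :=
    (hE.fderiv_right (m := 1) (by norm_cast)).differentiableAt (by norm_num)
  have h2 : fderiv ℝ (fun y => fderiv ℝ (fun z : V => ⟪z, Λ z⟫ / 2) y v) x u =
      fderiv ℝ (fun y => fderiv ℝ (fun z : V => ⟪z, Λ z⟫ / 2) y) x u v := by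
    rw [fderiv_clm_apply hG (differentiableAt_const v)]
    simp
  rw [← h2]
  have h3 : (fun y => fderiv ℝ (fun z : V => ⟪z, Λ z⟫ / 2) y v) =ᶠ[nhds x]
      (fun y => ⟪Λ y, v⟫) := by
    filter_upwards [D2_open.mem_nhds hx] with y hy
    exact D2_grad hL h1 hy v
  rw [h3.fderiv_eq]
  rw [fderiv_inner_apply ℝ hd (differentiableAt_const v)]
  simp

theorem legendre {L : V → V} (hL : IsCoField L) :
    ∃ F : V → ℝ, IsMinkowski F ∧ IsDualPair F L ∧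
      ∀ R : V ≃ₗᵢ[ℝ] V, (∀ ξ, L (R ξ) = R (L ξ)) → ∀ x, F (R x) = F x := by
  obtain ⟨Λ, h1, h2⟩ : ∃ Λ : V → V, (∀ x, L (Λ x) = x) ∧ (∀ ξ, Λ (L ξ) = ξ) :=
    ⟨(Equiv.ofBijective L hL.bij).symm, (Equiv.ofBijective L hL.bij).apply_symm_apply,
      (Equiv.ofBijective L hL.bij).symm_apply_apply⟩
  have hF : (fun z : V => Real.sqrt ⟪z, Λ z⟫ ^ 2 / 2) = (fun z : V => ⟪z, Λ z⟫ / 2) := by
    funext z
    rw [Real.sq_sqrt (D2_nonneg hL h1 z)]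
  have hfund : ∀ x, x ≠ 0 → ∀ u v, fund (fun z : V => Real.sqrt ⟪z, Λ z⟫) x u v =
      ⟪fderiv ℝ Λ x u, v⟫ := by
    intro x hx u v
    unfold fund
    rw [hF]
    exact D2_hess hL h1 hx u v
  refine ⟨fun z => Real.sqrt ⟪z, Λ z⟫, ?_, ?_, ?_⟩
  · refine ⟨?_, ?_, ?_, ?_, ?_⟩
    · show Real.sqrt ⟪(0 : V), Λ 0⟫ = 0
      rw [inner_zero_left, Real.sqrt_zero]
    · intro x hx
      exact Real.sqrt_pos.2 (D2_pos hL h1 hx)
    · intro c x hc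
      show Real.sqrt ⟪c • x, Λ (c • x)⟫ = c * Real.sqrt ⟪x, Λ x⟫
      rcases hc.eq_or_lt with h0 | h0
      · rw [← h0, zero_smul, inner_zero_left, Real.sqrt_zero, zero_mul]
      · rw [inv_smul hL h1 h0, real_inner_smul_left, real_inner_smul_right, ← mul_assoc,
          Real.sqrt_mul (mul_self_nonneg c), Real.sqrt_mul_self hc]
    · exact (D2_smoothE hL h1).sqrt (fun x hx => (D2_pos hL h1 hx).ne')
    · intro x v hx hv
      rw [hfund x hx]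
      have hξ := inv_ne hL h1 hx
      have h5 := inv_fderiv' hL h1 hξ v
      rw [h1] at h5
      have hu : fderiv ℝ Λ x v ≠ 0 := by
        intro h0
        rw [h0, map_zero] at h5
        exact hv h5.symm
      have h6 := hL.pos _ hξ _ hu
      rw [h5, real_inner_comm] at h6
      exact h6
  · refine ⟨?_, ?_⟩
    · intro ξ hξ v
      show fderiv ℝ (fun z : V => Real.sqrt ⟪z, Λ z⟫ ^ 2 / 2) (L ξ) v = ⟪ξ, v⟫
      rw [hF, D2_grad hL h1 (cofield_ne hL hξ), h2]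
    · intro ξ hξ u v
      rw [hfund _ (cofield_ne hL hξ), inv_fderiv hL h1 hξ]
  · intro R hR x
    show Real.sqrt ⟪R x, Λ (R x)⟫ = Real.sqrt ⟪x, Λ x⟫
    have h3 : Λ (R x) = R (Λ x) := by
      rw [← h2 (R (Λ x)), hR, h1]
    rw [h3, LinearIsometryEquiv.inner_map_map]

end HFinG
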