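import Pool.Agent.HFinG.H
import Pool.Agent.HFinG.F2
import Pool.Agent.HFinG.D2
import Pool.Agent.HFinG.C1
import Pool.Agent.HFinG.C2
import Pool.Agent.HFinG.C3

/-! MODULE I (diff 2): the abstract existence theorem.
Choose `t` smaller than the bounds of `cofield_small` and `dualP_pos`; `L = Lt p t` is a co-field,
`F` from `legendre`.  Let `x, w` be linearly independent; by `flagK_pos_iff` it suffices that
`curvQ D F x w > 0`.  Let `ξ = L⁻¹ x ≠ 0`, `B = DL(ξ)` (bijective: positive definite), `w = B σ₀`.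
By Euler `B ξ = L ξ = x` (`cofield_euler`).  Put `σ₁ = σ₀ - (⟪ξ,σ₀⟫/‖ξ‖²) ξ ⊥ ξ`, then
`w = Bσ₁ + c x`, so `curvQ x w = curvQ x (Bσ₁)` (`curv_shift`), `σ₁ ≠ 0` by independence.
Scaling: `ξ = |ξ| ξ̂`, `x = |ξ| L ξ̂`, `DL(ξ) = DL(ξ̂)`.  Use `curvQ_smul_left` (C3) with `c = |ξ|`.
Finally `curvQ (L ξ̂) (B (σ₁/‖σ₁‖)) = dualP ξ̂ (σ₁/‖σ₁‖) c > 0` with `B c = coq` (B onto), and
`curvQ_smul`.
The invariance hypothesis of `curv_shift`: `D(F²/2)(Lξ)(act (Lξ)) = ⟪ξ, act(Lξ)⟫` (`grad`)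
`= ⟪ξ,act ξ⟫ + t⟪ξ,act (p ξ)⟫ = 0 - t⟪act ξ,p ξ⟫ = 0` (`act_skew`, `hp.inv`).
Equivariance of `L`: `p (Rξ) = R (p ξ)` gives `L (Rξ) = R (Lξ)`.
-/

namespace HFinG

open scoped ContDiff RealInnerProductSpace

variable {V H : Type*} [NormedAddCommGroup V] [InnerProductSpace ℝ V]
  [NormedAddCommGroup H] [InnerProductSpace ℝ H] [FiniteDimensional ℝ V]

theorem I_surj {L : V → V} (hL : IsCoField L) {ξ : V} (hξ : ξ ≠ 0) :
    Function.Surjective (fderiv ℝ L ξ) := by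
  have hinj : Function.Injective ((fderiv ℝ L ξ : V →L[ℝ] V) : V →ₗ[ℝ] V) := by
    rw [injective_iff_map_eq_zero]
    intro v hv
    by_contra hv0
    have h1 := hL.pos ξ hξ v hv0
    have h2 : fderiv ℝ L ξ v = 0 := hv
    rw [h2, inner_zero_left] at h1
    exact lt_irrefl _ h1
  exact LinearMap.injective_iff_surjective.1 hinj

theorem I_inv {D : RedData V H} (hD : IsNormal D) {p : V → V} (hp : IsPert D p) {t : ℝ} {F : V → ℝ}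
    (hL : IsCoField (Lt p t)) (hFL : IsDualPair F (Lt p t)) (A : H) (x : V) (hx : x ≠ 0) :
    fderiv ℝ (fun z => F z ^ 2 / 2) x (D.act A x) = 0 := by
  obtain ⟨ξ, rfl⟩ := hL.bij.2 x
  have hξ : ξ ≠ 0 := by
    rintro rfl
    exact hx hL.zero
  rw [hFL.grad ξ hξ]
  have h1 : ⟪ξ, D.act A ξ⟫ = 0 := by
    have h := hD.act_skew A ξ ξ
    rw [real_inner_comm] at h
    linarith
  have h2 : ⟪ξ, D.act A (p ξ)⟫ = 0 := by
    have h := hD.act_skew A ξ (p ξ)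
    rw [real_inner_comm, hp.inv A ξ] at h
    linarith
  unfold Lt
  rw [map_add, map_smul, inner_add_right, inner_smul_right, h1, h2]
  ring

theorem I_unit {D : RedData V H} (hD : IsNormal D) {p : V → V} (hp : IsPert D p) {t : ℝ} {F : V → ℝ}
    (hF : IsMinkowski F) (hL : IsCoField (Lt p t)) (hFL : IsDualPair F (Lt p t))
    (ht : ∀ ξ σ c : V, ‖ξ‖ = 1 → ‖σ‖ = 1 → ⟪ξ, σ⟫ = 0 →
      fderiv ℝ (Lt p t) ξ c = coq D (Lt p t) ξ σ → 0 < dualP D (Lt p t) ξ σ c)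
    (ξ w : V) (hξ1 : ‖ξ‖ = 1) (hw : ∀ s : ℝ, w ≠ s • Lt p t ξ) :
    0 < curvQ D F (Lt p t ξ) w := by
  have hξ : ξ ≠ 0 := by
    rintro rfl
    rw [norm_zero] at hξ1
    exact zero_ne_one hξ1
  have hx : Lt p t ξ ≠ 0 := cofield_ne hL hξ
  obtain ⟨σ₀, hσ₀⟩ := I_surj hL hξ w
  obtain ⟨σ₁, hσ₁⟩ : ∃ σ₁, σ₁ = σ₀ - ⟪ξ, σ₀⟫ • ξ := ⟨_, rfl⟩
  have horth : ⟪ξ, σ₁⟫ = 0 := by
    rw [hσ₁, inner_sub_right, inner_smul_right, real_inner_self_eq_norm_sq, hξ1]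
    ring
  have hw1 : w = fderiv ℝ (Lt p t) ξ σ₁ + ⟪ξ, σ₀⟫ • Lt p t ξ := by
    rw [hσ₁, map_sub, map_smul, hσ₀, cofield_euler hL hξ, sub_add_cancel]
  have hσ₁0 : σ₁ ≠ 0 := by
    intro h0
    rw [h0, map_zero, zero_add] at hw1
    exact hw _ hw1
  rw [hw1, curv_shift D hF (I_inv hD hp hL hFL) hx]
  have hm : 0 < ‖σ₁‖ := norm_pos_iff.2 hσ₁0
  obtain ⟨τ, hτ⟩ : ∃ τ, τ = ‖σ₁‖⁻¹ • σ₁ := ⟨_, rfl⟩
  have hτσ : σ₁ = ‖σ₁‖ • τ := by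
    rw [hτ, smul_smul, mul_inv_cancel₀ hm.ne', one_smul]
  have hτ1 : ‖τ‖ = 1 := by
    rw [hτ, norm_smul, norm_inv, norm_norm, inv_mul_cancel₀ hm.ne']
  have hτo : ⟪ξ, τ⟫ = 0 := by
    rw [hτ, inner_smul_right, horth, mul_zero]
  obtain ⟨c, hc⟩ := I_surj hL hξ (coq D (Lt p t) ξ τ)
  have hpos := ht ξ τ c hξ1 hτ1 hτo hc
  rw [← dual_formula hD hF hL hFL hξ τ c hc] at hpos
  have h5 : fderiv ℝ (Lt p t) ξ σ₁ = ‖σ₁‖ • fderiv ℝ (Lt p t) ξ τ := by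
    rw [← map_smul, ← hτσ]
  rw [h5, curvQ_smul D hF hx]
  positivity

theorem exists_pos {D : RedData V H} (hD : IsNormal D) {p : V → V} (hp : IsPert D p)
    (h3 : ∀ ξ σ : V, ‖ξ‖ = 1 → ‖σ‖ = 1 → ⟪ξ, σ⟫ = 0 → D.mm ξ σ = 0 → D.mh ξ σ = 0 →
      D.mh (p ξ) σ = 0 → 0 < P3 D p ξ σ) :
    ∃ F : V → ℝ, IsMinkowski F ∧ PosFlag D F ∧
      (∀ A x, x ≠ 0 → fderiv ℝ (fun z => F z ^ 2 / 2) x (D.act A x) = 0) ∧
      ∀ R : V ≃ₗᵢ[ℝ] V, (∀ ξ, p (R ξ) = R (p ξ)) → ∀ x, F (R x) = F x := by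
  obtain ⟨t0, ht0, hco⟩ := cofield_small hp
  obtain ⟨t1, ht1, hdu⟩ := dualP_pos hD hp h3
  obtain ⟨t, ht⟩ : ∃ t, t = min t0 t1 / 2 := ⟨_, rfl⟩
  have hmin : 0 < min t0 t1 := lt_min ht0 ht1
  have htpos : 0 < t := by rw [ht]; linarith
  have htt0 : t < t0 := by
    have := min_le_left t0 t1
    rw [ht]; linarith
  have htt1 : t < t1 := by
    have := min_le_right t0 t1
    rw [ht]; linarith
  have hL := hco t htpos htt0
  obtain ⟨F, hF, hFL, hR⟩ := legendre hL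
  refine ⟨F, hF, ?_, I_inv hD hp hL hFL, ?_⟩
  · intro x w hli
    rw [flagK_pos_iff D hF hli]
    have hx : x ≠ 0 := by
      have := hli.ne_zero 0
      simpa using this
    obtain ⟨ξ, hξx⟩ := hL.bij.2 x
    have hξ : ξ ≠ 0 := by
      rintro rfl
      exact hx (by rw [← hξx]; exact hL.zero)
    have hr : 0 < ‖ξ‖ := norm_pos_iff.2 hξ
    obtain ⟨ζ, hζ⟩ : ∃ ζ, ζ = ‖ξ‖⁻¹ • ξ := ⟨_, rfl⟩
    have hζξ : ξ = ‖ξ‖ • ζ := by
      rw [hζ, smul_smul, mul_inv_cancel₀ hr.ne', one_smul]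
    have hζ1 : ‖ζ‖ = 1 := by
      rw [hζ, norm_smul, norm_inv, norm_norm, inv_mul_cancel₀ hr.ne']
    have hζ0 : ζ ≠ 0 := by
      rintro h0
      rw [h0, norm_zero] at hζ1
      exact zero_ne_one hζ1
    have hx2 : x = ‖ξ‖ • Lt p t ζ := by
      rw [← hL.smul _ _ hr, ← hζξ, hξx]
    rw [hx2, curvQ_smul_left D hF (cofield_ne hL hζ0) hr]
    have hpos : 0 < curvQ D F (Lt p t ζ) w := by
      refine I_unit hD hp hF hL hFL (fun ξ σ c => hdu t htpos htt1 ξ σ c) ζ w hζ1 ?_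
      intro s hs
      have h1 := (LinearIndependent.pair_iff.1 hli) (s * ‖ξ‖⁻¹) (-1) (by
        rw [hx2, smul_smul, mul_assoc, inv_mul_cancel₀ hr.ne', mul_one, hs, neg_one_smul,
          add_neg_cancel])
      have h2 : (-1 : ℝ) = 0 := h1.2
      norm_num at h2
    positivity
  · intro R hRp
    apply hR R
    intro ξ
    unfold Lt
    rw [hRp, map_add, map_smul]

end HFinG
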