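import Pool.Agent.HFinG.A4

/-! MODULE N0 (diff 2): `N(x,w) = (Dη(x) w - [x,w]_𝔪)/2`.

Differentiate `g_y(η_y,u) = DE(y)([u,y])` (`spray_spec`, `fund_self`, `E = F²/2`) at `y = x` in the
direction `w`: `D_w g(η,u) + g(Dη w,u) = g(w,[u,x]) + DE(x)([u,w])`.  `D_w g(η,u) = D_η g(w,u)`
(`dfund_symm`, `fund_symm`).  Insert in `conn_spec` (`g([u,w],x) = DE(x)[u,w]`):
`2g(Nw,u) = DE(x)[u,w] + g([u,x],w) + g([w,x],u) - D_ηg(w,u) = g(Dη w,u) + g([w,x],u)`. -/

namespace HFinG

variable {V H : Type*} [NormedAddCommGroup V] [NormedSpace ℝ V]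
  [NormedAddCommGroup H] [NormedSpace ℝ H] [FiniteDimensional ℝ V]

theorem N0_anti (D : RedData V H) (x w : V) : D.mm w x = - D.mm x w := by
  have h := D.mm_self (x + w)
  simp only [map_add, add_apply, D.mm_self, zero_add, add_zero] at h
  exact eq_neg_of_add_eq_zero_left (by rw [← h])

theorem N0_spray_diff (D : RedData V H) {F : V → ℝ} (hF : IsMinkowski F) {x : V} (hx : x ≠ 0) :
    DifferentiableAt ℝ (spray D F) x :=
  ((spray_smooth D hF).contDiffAt (A4_open.mem_nhds hx)).differentiableAt (by simp)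

theorem N0_key (D : RedData V H) {F : V → ℝ} (hF : IsMinkowski F) {x : V} (hx : x ≠ 0) (u w : V) :
    fderiv ℝ (fun y => fund F y w u) x (spray D F x) + fund F x (fderiv ℝ (spray D F) x w) u =
      fund F x w (D.mm u x) + fund F x x (D.mm u w) := by
  have h1 : HasFDerivAt (fund F) (fderiv ℝ (fund F) x) x := (A3_fund_diff hF hx).hasFDerivAt
  have h2 : HasFDerivAt (spray D F) (fderiv ℝ (spray D F) x) x := (N0_spray_diff D hF hx).hasFDerivAt
  have h3 := (h1.clm_apply h2).clm_apply (hasFDerivAt_const u x)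
  have h4 : HasFDerivAt (fun y => fderiv ℝ (fun z => F z ^ 2 / 2) y) (fund F x) x :=
    (A1_denergy_diff hF hx).hasFDerivAt
  have h5 := h4.clm_apply (D.mm u).hasFDerivAt
  have h6 : HasFDerivAt (fun y => fund F y (spray D F y) u) _ x := h5.congr_of_eventuallyEq (by
    filter_upwards [A4_open.mem_nhds hx] with y hy
    rw [spray_spec D hF hy, fund_self hF hy])
  have h7 := congrArg (fun f : V →L[ℝ] ℝ => f w) (h3.unique h6)
  have h8 : fderiv ℝ (fun y => fund F y w u) x (spray D F x) = fderiv ℝ (fund F) x w (spray D F x) u := by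
    rw [dfund_symm hF hx w u (spray D F x), A3_fderiv_eval hF hx]
  rw [h8, fund_self hF hx (D.mm u w)]
  simp at h7
  linarith [h7]

theorem conn_eq (D : RedData V H) {F : V → ℝ} (hF : IsMinkowski F) {x : V} (hx : x ≠ 0) (w : V) :
    conn D F x w = (1 / 2 : ℝ) • (fderiv ℝ (spray D F) x w - D.mm x w) := by
  refine fund_inj hF hx (fun u => ?_)
  have h1 := conn_spec D hF hx w u
  have h2 := N0_key D hF hx u w
  rw [fund_symm hF hx (D.mm u w) x, fund_symm hF hx (D.mm u x) w, N0_anti D x w] at h1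
  have h3 : fund F x ((1 / 2 : ℝ) • (fderiv ℝ (spray D F) x w - D.mm x w)) u =
      (1 / 2 : ℝ) * (fund F x (fderiv ℝ (spray D F) x w) u - fund F x (D.mm x w) u) := by
    simp
  rw [h3]
  have h4 : fund F x (-D.mm x w) u = - fund F x (D.mm x w) u := by simp
  rw [h4] at h1
  linarith

end HFinG
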