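import Pool.Agent.HFinG.N2
import Pool.Agent.HFinG.N0

/-! MODULE N3 (diff 3): the Riemann curvature of the spray at `v = 0` is Huang's operator.

Notation `η = spray D F`, `η' u = Dη(y) u`, `η''(u,v) = D²η(y)(u,v)`, `κ(a,b)c = D²Xm(0)[a][b] c`,
`[·,·] = mm`, `S = 2G`, `ρ w = act (mh y w) y`.
* `lG_dxdy` (the derivative of `lG_dx` in `y`, for a FIXED `v`-direction `a`, in the direction `w`, then
  `a = y`; mixed partials commute because `lG` is smooth, `lG_smooth`):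
  `2 D_x(D_yG[w])[y] = κ(y,w)y + κ(y,y)w - ½ η''(w,[y,y]) - ½ η'[y,w] - ½ ρ w - ½ act (mh y y) w
   + ½ [y, η' w] = κ(y,w)y + κ(y,y)w - ½ η'[y,w] - ½ ρ w + ½ [y,η' w]`.
  (For fixed `a`: `2 D_vG(0,y')[a] = κ(a,y')y' - ½ η'_{y'}[a,y'] - ½ act (mh a y') y' + ½[a, η(y')]`.)
* `mc_deriv`: differentiate `mc` (arguments `y, w`) at `v = 0` in the direction `y`:
  `κ(y,w)y - κ(y,y)w = [−½[y,y], w] + [y, −½[y,w]] + 0 − act (−½ mh y w) y = - ½[y,[y,w]] + ½ ρ w`.
* `η` from `2G(0,y) = η(y)` for all `y ≠ 0`: `D_yG w = ½ η' w`, `D_y(D_yG w)[G] = ¼ η''(w,η)`.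
* Sum (definition of `lR`): `R w = 2D_xG[w] - D_x(D_yG[w])[y] + 2 D_y(D_yG w)[G] - D_yG(D_yG w)`
  `= {κ(w,y)y - ½η'[w,y] - ½ act (mh w y) y + ½[w,η]} - ½{κ(y,w)y + κ(y,y)w - ½η'[y,w] - ½ρ w + ½[y,η'w]}
   + ½η''(w,η) - ¼η'η'w`; `κ(w,y)y = κ(y,w)y` (symmetry of `D²Xm(0)`), so the `κ`-part is
  `½(κ(y,w)y - κ(y,y)w) = -¼[y,[y,w]] + ¼ ρ w` and in total (`act (mh w y) y = -ρ w`)
  `R w = ρ w - ¼[y,[y,w]] + ¾η'[y,w] + ½[w,η] - ¼[y,η'w] + ½η''(w,η) - ¼η'η'w`.
* Huang: `N w = ½(η'w - [y,w])` (`conn_eq`, at all base points), so `D_ηN(w) = ½η''(η,w) - ½[η,w]`,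
  `N N w = ¼(η'η'w - η'[y,w] - [y,η'w] + [y,[y,w]])`, `N[y,w] = ½(η'[y,w] - [y,[y,w]])`,
  `[y,Nw] = ½([y,η'w] - [y,[y,w]])`; the sum `ρ w + D_ηN w - NNw + N[y,w] - [y,Nw]` is the same.
-/

namespace HFinG

open scoped ContDiff Topology

variable {V H : Type*} [NormedAddCommGroup V] [NormedSpace ℝ V]
  [NormedAddCommGroup H] [NormedSpace ℝ H] [FiniteDimensional ℝ V]

lemma N3_mixed {W : Type*} [NormedAddCommGroup W] [NormedSpace ℝ W] {G : W → W → W} {v y : W}
    (h : ContDiffAt ℝ ∞ (fun z : W × W => G z.1 z.2) (v, y)) (a w : W) :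
    fderiv ℝ (fun x' => fderiv ℝ (fun y' => G x' y') y w) v a =
      fderiv ℝ (fun y' => fderiv ℝ (fun x' => G x' y') v a) y w := by
  set H := fderiv ℝ (fderiv ℝ (fun z : W × W => G z.1 z.2)) (v, y) with hH
  have h1 : ContDiffAt ℝ 1 (fun z : W × W => G z.1 z.2) (v, y) := h.of_le (by simp)
  have hev : ∀ᶠ z' in 𝓝 (v, y), DifferentiableAt ℝ (fun z : W × W => G z.1 z.2) z' :=
    (h1.eventually (by simp)).mono fun z' hz' => hz'.differentiableAt (by simp)
  have hd2 : HasFDerivAt (fderiv ℝ (fun z : W × W => G z.1 z.2)) H (v, y) :=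
    ((h.fderiv_right (m := ∞) (by simp)).differentiableAt (by simp)).hasFDerivAt
  have e1 : fderiv ℝ (fun x' => fderiv ℝ (fun y' => G x' y') y w) v a = H (a, 0) (0, w) := by
    have hc : Filter.Tendsto (fun x' : W => (x', y)) (𝓝 v) (𝓝 (v, y)) :=
      (Continuous.prodMk_left y).tendsto v
    have hev1 : (fun x' => fderiv ℝ (fun y' => G x' y') y w) =ᶠ[𝓝 v] fun x' =>
        fderiv ℝ (fun z : W × W => G z.1 z.2) (x', y) (0, w) := by
      filter_upwards [hc hev] with x' hx'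
      have hx'' : DifferentiableAt ℝ (fun z : W × W => G z.1 z.2) (x', y) := hx'
      have h2 : HasFDerivAt (fun y' => G x' y')
          ((fderiv ℝ (fun z : W × W => G z.1 z.2) (x', y)).comp (ContinuousLinearMap.inr ℝ W W))
          y :=
        HasFDerivAt.comp y (g := fun z : W × W => G z.1 z.2) (f := fun y' : W => (x', y'))
          hx''.hasFDerivAt (hasFDerivAt_prodMk_right x' y)
      rw [h2.fderiv]
      simp
    have h2 : HasFDerivAt (fun x' => fderiv ℝ (fun z : W × W => G z.1 z.2) (x', y))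
        (H.comp (ContinuousLinearMap.inl ℝ W W)) v :=
      HasFDerivAt.comp v (f := fun x' : W => (x', y)) hd2 (hasFDerivAt_prodMk_left v y)
    have h3 := h2.clm_apply (hasFDerivAt_const ((0, w) : W × W) v)
    rw [hev1.fderiv_eq, h3.fderiv]
    simp
  have e2 : fderiv ℝ (fun y' => fderiv ℝ (fun x' => G x' y') v a) y w = H (0, w) (a, 0) := by
    have hc : Filter.Tendsto (fun y' : W => (v, y')) (𝓝 y) (𝓝 (v, y)) :=
      (Continuous.prodMk_right v).tendsto y
    have hev1 : (fun y' => fderiv ℝ (fun x' => G x' y') v a) =ᶠ[𝓝 y] fun y' =>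
        fderiv ℝ (fun z : W × W => G z.1 z.2) (v, y') (a, 0) := by
      filter_upwards [hc hev] with y' hy'
      have hy'' : DifferentiableAt ℝ (fun z : W × W => G z.1 z.2) (v, y') := hy'
      have h2 : HasFDerivAt (fun x' => G x' y')
          ((fderiv ℝ (fun z : W × W => G z.1 z.2) (v, y')).comp (ContinuousLinearMap.inl ℝ W W))
          v :=
        HasFDerivAt.comp v (g := fun z : W × W => G z.1 z.2) (f := fun x' : W => (x', y'))
          hy''.hasFDerivAt (hasFDerivAt_prodMk_left v y')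
      rw [h2.fderiv]
      simp
    have h2 : HasFDerivAt (fun y' => fderiv ℝ (fun z : W × W => G z.1 z.2) (v, y'))
        (H.comp (ContinuousLinearMap.inr ℝ W W)) y :=
      HasFDerivAt.comp y (f := fun y' : W => (v, y')) hd2 (hasFDerivAt_prodMk_right v y)
    have h3 := h2.clm_apply (hasFDerivAt_const ((a, 0) : W × W) y)
    rw [hev1.fderiv_eq, h3.fderiv]
    simp
  have hs : IsSymmSndFDerivAt ℝ (fun z : W × W => G z.1 z.2) (v, y) :=
    h.isSymmSndFDerivAt (by simp; norm_cast)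
  rw [e1, e2]
  exact hs _ _

lemma N3_anti_mm (D : RedData V H) (a b : V) : D.mm a b = -D.mm b a := by
  have h := D.mm_self (a + b)
  simp only [map_add, ContinuousLinearMap.add_apply, D.mm_self, zero_add, add_zero] at h
  rw [eq_neg_iff_add_eq_zero, ← h]
  abel

lemma N3_anti_mh (D : RedData V H) (a b : V) : D.mh a b = -D.mh b a := by
  have h := D.mh_self (a + b)
  simp only [map_add, ContinuousLinearMap.add_apply, D.mh_self, zero_add, add_zero] at h
  rw [eq_neg_iff_add_eq_zero, ← h]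
  abel

/-- derivative of the Maurer-Cartan equation at `0` -/
lemma N3_mc {D : RedData V H} {Xm : V → V →L[ℝ] V} {Xh : V → V →L[ℝ] H}
    (hX : IsFrame D Xm Xh) (y w : V) :
    fderiv ℝ (fderiv ℝ Xm) 0 y w y - fderiv ℝ (fderiv ℝ Xm) 0 y y w =
      -((1 / 2 : ℝ) • D.mm y (D.mm y w)) + (1 / 2 : ℝ) • D.act (D.mh y w) y := by
  have hm : HasFDerivAt Xm (fderiv ℝ Xm 0) 0 :=
    (hX.smooth_m.differentiable (by simp)).differentiableAt.hasFDerivAt
  have hh : HasFDerivAt Xh (fderiv ℝ Xh 0) 0 :=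
    (hX.smooth_h.differentiable (by simp)).differentiableAt.hasFDerivAt
  have hm2 : HasFDerivAt (fderiv ℝ Xm) (fderiv ℝ (fderiv ℝ Xm) 0) 0 :=
    ((hX.smooth_m.fderiv_right (m := ∞) (by simp)).differentiable
      (by simp)).differentiableAt.hasFDerivAt
  have hL : HasFDerivAt (fun v => fderiv ℝ Xm v w y - fderiv ℝ Xm v y w) _ 0 :=
    ((hm2.clm_apply (hasFDerivAt_const w (0 : V))).clm_apply (hasFDerivAt_const y (0 : V))).sub
      ((hm2.clm_apply (hasFDerivAt_const y (0 : V))).clm_apply (hasFDerivAt_const w (0 : V)))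
  have hmy := hm.clm_apply (hasFDerivAt_const y (0 : V))
  have hmw := hm.clm_apply (hasFDerivAt_const w (0 : V))
  have hhy := hh.clm_apply (hasFDerivAt_const y (0 : V))
  have hhw := hh.clm_apply (hasFDerivAt_const w (0 : V))
  have hR : HasFDerivAt (fun v => D.mm (Xm v y) (Xm v w) + D.act (Xh v y) (Xm v w) -
      D.act (Xh v w) (Xm v y)) _ 0 :=
    (((D.mm.hasFDerivAt.comp (0 : V) hmy).clm_apply hmw).add
      ((D.act.hasFDerivAt.comp (0 : V) hhy).clm_apply hmw)).sub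
      ((D.act.hasFDerivAt.comp (0 : V) hhw).clm_apply hmy)
  have heq : (fun v => fderiv ℝ Xm v w y - fderiv ℝ Xm v y w) =
      fun v => D.mm (Xm v y) (Xm v w) + D.act (Xh v y) (Xm v w) - D.act (Xh v w) (Xm v y) := by
    funext v
    exact hX.mc v y w
  rw [heq] at hL
  have h1 := hL.unique hR
  have h2 := DFunLike.congr_fun h1 y
  simp only [ContinuousLinearMap.sub_apply, ContinuousLinearMap.add_apply,
    ContinuousLinearMap.comp_apply, ContinuousLinearMap.flip_apply, hX.deriv_m, hX.deriv_h,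
    hX.zero_m, hX.zero_h, D.mm_self, D.mh_self, smul_zero, neg_zero, map_zero,
    ContinuousLinearMap.zero_apply, zero_add, add_zero, Function.comp_apply, map_neg, map_smul,
    ContinuousLinearMap.neg_apply, ContinuousLinearMap.smul_apply] at h2
  rw [h2]
  module

theorem lR_frame {D : RedData V H} {F : V → ℝ} (hF : IsMinkowski F)
    (hinv : ∀ A x, x ≠ 0 → fderiv ℝ (fun z => F z ^ 2 / 2) x (D.act A x) = 0)
    {Xm : V → V →L[ℝ] V} {Xh : V → V →L[ℝ] H} (hX : IsFrame D Xm Xh) {y : V} (hy : y ≠ 0) (w : V) :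
    lR (frameE F Xm) 0 y w = curvR D F y w := by
  set η := spray D F with hη
  have hne : ∀ᶠ y' in 𝓝 y, y' ≠ 0 := isOpen_ne.mem_nhds hy
  have hηs : ∀ y' : V, y' ≠ 0 → ContDiffAt ℝ ∞ η y' := fun y' hy' =>
    (spray_smooth D hF).contDiffAt (isOpen_ne.mem_nhds hy')
  have hη1 : ∀ y' : V, y' ≠ 0 → HasFDerivAt η (fderiv ℝ η y') y' := fun y' hy' =>
    ((hηs y' hy').differentiableAt (by simp)).hasFDerivAt
  have hη2 : HasFDerivAt (fderiv ℝ η) (fderiv ℝ (fderiv ℝ η) y) y :=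
    (((hηs y hy).fderiv_right (m := ∞) (by simp)).differentiableAt (by simp)).hasFDerivAt
  set κ := fderiv ℝ (fderiv ℝ Xm) 0 with hκ
  -- `G(0, ·)`
  have hG0 : ∀ y' : V, y' ≠ 0 → lG (frameE F Xm) 0 y' = (1 / 2 : ℝ) • η y' := by
    intro y' hy'
    have h : (2 : ℝ) • lG (frameE F Xm) 0 y' = η y' := lG_zero hF hinv hX hy'
    rw [← h, smul_smul]
    norm_num
  have hG1 : ∀ y' : V, y' ≠ 0 →
      fderiv ℝ (fun y'' => lG (frameE F Xm) 0 y'') y' = (1 / 2 : ℝ) • fderiv ℝ η y' := by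
    intro y' hy'
    have hev : (fun y'' => lG (frameE F Xm) 0 y'') =ᶠ[𝓝 y'] fun y'' => (1 / 2 : ℝ) • η y'' := by
      filter_upwards [isOpen_ne.mem_nhds hy'] with y'' hy''
      exact hG0 y'' hy''
    rw [hev.fderiv_eq]
    exact ((hη1 y' hy').const_smul (1 / 2 : ℝ)).fderiv
  -- T1
  have T1 := lG_dx hF hinv hX hy w
  -- T2
  have hGs := lG_smooth hF hinv hX hy
  have T2 : fderiv ℝ (fun x' => fderiv ℝ (fun y' => lG (frameE F Xm) x' y') y w) 0 y =
      (1 / 2 : ℝ) • (κ y w y + κ y y w - (1 / 2 : ℝ) • fderiv ℝ η y (D.mm y w)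
        - (1 / 2 : ℝ) • D.act (D.mh y w) y + (1 / 2 : ℝ) • D.mm y (fderiv ℝ η y w)) := by
    rw [N3_mixed hGs y w]
    have hev : (fun y' => fderiv ℝ (fun x' => lG (frameE F Xm) x' y') 0 y) =ᶠ[𝓝 y] fun y' =>
        (1 / 2 : ℝ) • (κ y y' y' - (1 / 2 : ℝ) • fderiv ℝ η y' (D.mm y y')
          - (1 / 2 : ℝ) • D.act (D.mh y y') y' + (1 / 2 : ℝ) • D.mm y (η y')) := by
      filter_upwards [hne] with y' hy'
      rw [← lG_dx hF hinv hX hy' y, smul_smul]
      norm_num
    have p1 := ((κ y).hasFDerivAt (x := y)).clm_apply (hasFDerivAt_id y)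
    have p2 := hη2.clm_apply ((D.mm y).hasFDerivAt (x := y))
    have p3 := (D.act.hasFDerivAt.comp y ((D.mh y).hasFDerivAt (x := y))).clm_apply
      (hasFDerivAt_id y)
    have p4 := (D.mm y).hasFDerivAt.comp y (hη1 y hy)
    have p : HasFDerivAt (fun y' => (1 / 2 : ℝ) • (κ y y' y' - (1 / 2 : ℝ) •
        fderiv ℝ η y' (D.mm y y') - (1 / 2 : ℝ) • D.act (D.mh y y') y' +
        (1 / 2 : ℝ) • D.mm y (η y'))) _ y :=
      (((p1.sub (p2.const_smul (1 / 2 : ℝ))).sub (p3.const_smul (1 / 2 : ℝ))).add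
        (p4.const_smul (1 / 2 : ℝ))).const_smul (1 / 2 : ℝ)
    rw [hev.fderiv_eq, p.fderiv]
    simp only [ContinuousLinearMap.sub_apply, ContinuousLinearMap.add_apply,
      ContinuousLinearMap.comp_apply, ContinuousLinearMap.flip_apply,
      ContinuousLinearMap.smul_apply, Function.comp_apply, D.mm_self, D.mh_self, map_zero,
      ContinuousLinearMap.zero_apply, ContinuousLinearMap.id_apply, id_eq]
    module
  -- T3
  have T3 : fderiv ℝ (fun y' => fderiv ℝ (fun y'' => lG (frameE F Xm) 0 y'') y' w) y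
      (lG (frameE F Xm) 0 y) = (1 / 4 : ℝ) • fderiv ℝ (fderiv ℝ η) y (η y) w := by
    have hev : (fun y' => fderiv ℝ (fun y'' => lG (frameE F Xm) 0 y'') y' w) =ᶠ[𝓝 y] fun y' =>
        (1 / 2 : ℝ) • fderiv ℝ η y' w := by
      filter_upwards [hne] with y' hy'
      rw [hG1 y' hy']
      rfl
    have p := (hη2.clm_apply (hasFDerivAt_const w y)).const_smul (1 / 2 : ℝ)
    have p' : HasFDerivAt (fun y' => (1 / 2 : ℝ) • fderiv ℝ η y' w) _ y := p
    rw [hev.fderiv_eq, p'.fderiv, hG0 y hy]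
    simp only [ContinuousLinearMap.smul_apply, ContinuousLinearMap.add_apply,
      ContinuousLinearMap.comp_apply, ContinuousLinearMap.flip_apply, map_smul,
      ContinuousLinearMap.zero_apply, map_zero, zero_add, smul_smul]
    norm_num
  -- T4
  have T4 : fderiv ℝ (fun y' => lG (frameE F Xm) 0 y') y
      (fderiv ℝ (fun y' => lG (frameE F Xm) 0 y') y w) =
      (1 / 4 : ℝ) • fderiv ℝ η y (fderiv ℝ η y w) := by
    rw [hG1 y hy]
    simp only [ContinuousLinearMap.smul_apply, map_smul, smul_smul]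
    norm_num
  -- symmetry and Maurer-Cartan
  have hκs : κ w y = κ y w := by
    have hs : IsSymmSndFDerivAt ℝ Xm 0 :=
      hX.smooth_m.contDiffAt.isSymmSndFDerivAt (by simp; norm_cast)
    exact hs w y
  have hmc := N3_mc hX y w
  rw [← hκ] at hmc
  -- Huang's side
  have hN : ∀ y' : V, y' ≠ 0 → ∀ u, conn D F y' u = (1 / 2 : ℝ) • (fderiv ℝ η y' u - D.mm y' u) :=
    fun y' hy' u => conn_eq D hF hy' u
  have hND : fderiv ℝ (fun y' => conn D F y' w) y (η y) =
      (1 / 2 : ℝ) • (fderiv ℝ (fderiv ℝ η) y (η y) w - D.mm (η y) w) := by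
    have hev : (fun y' => conn D F y' w) =ᶠ[𝓝 y] fun y' =>
        (1 / 2 : ℝ) • (fderiv ℝ η y' w - D.mm y' w) := by
      filter_upwards [hne] with y' hy'
      exact hN y' hy' w
    have p := ((hη2.clm_apply (hasFDerivAt_const w y)).sub
      ((D.mm.hasFDerivAt (x := y)).clm_apply (hasFDerivAt_const w y))).const_smul (1 / 2 : ℝ)
    have p' : HasFDerivAt (fun y' => (1 / 2 : ℝ) • (fderiv ℝ η y' w - D.mm y' w)) _ y := p
    rw [hev.fderiv_eq, p'.fderiv]
    simp only [ContinuousLinearMap.smul_apply, ContinuousLinearMap.add_apply,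
      ContinuousLinearMap.sub_apply, ContinuousLinearMap.comp_apply,
      ContinuousLinearMap.flip_apply, ContinuousLinearMap.zero_apply, map_zero, zero_add]
  unfold lR curvR
  rw [T1, T2, T3, T4, ← hη, hND, hN y hy, hN y hy, hN y hy (D.mm y w), hκs,
    N3_anti_mm D w y, N3_anti_mh D w y, N3_anti_mm D (η y) w]
  have hK : κ y y w = κ y w y + (1 / 2 : ℝ) • D.mm y (D.mm y w)
      - (1 / 2 : ℝ) • D.act (D.mh y w) y := by
    have : κ y y w = κ y w y - (κ y w y - κ y y w) := by abel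
    rw [this, hmc]
    module
  rw [hK]
  simp only [map_smul, map_sub, map_neg, ContinuousLinearMap.neg_apply]
  module

theorem lK_frame {D : RedData V H} {F : V → ℝ} (hF : IsMinkowski F)
    (hinv : ∀ A x, x ≠ 0 → fderiv ℝ (fun z => F z ^ 2 / 2) x (D.act A x) = 0)
    {Xm : V → V →L[ℝ] V} {Xh : V → V →L[ℝ] H} (hX : IsFrame D Xm Xh) {y : V} (hy : y ≠ 0) (w : V) :
    lK (frameE F Xm) 0 y w = flagK D F y w := by
  have h1 : ∀ a b : V, lg (frameE F Xm) 0 y a b = fund F y a b := by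
    intro a b
    rw [lg_frame hF Xm (by rw [hX.zero_m]; exact hy), hX.zero_m, hX.zero_m, hX.zero_m]
  unfold lK flagK
  rw [lR_frame hF hinv hX hy w, h1, h1, h1, h1]

end HFinG
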