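import Pool.Agent.HFinG.O1

/-! MODULE O2 (diff 4): the Riemann curvature is a tensor.

`S(v,y) = 2 lG (compE E φ) v y`, `Ŝ(z,y) = 2 lG E z y`, `T = Dφ(v)`, `φ₂ = D²φ(v)`, `φ₃ = D³φ(v)`.
For all `(v,y)` near `(x,y)`: `T S = Ŝ(φ v, T y) + φ₂(y,y)` (`lG_comp`; its hypotheses hold near `x`).
Everything is smooth (`lG_contDiff`; `S = T⁻¹(...)`, or `compE E φ` is an `IsEnergy` on a neighbourhood).
Differentiate:
 `D_y[w]`:        `T S_y w = Ŝ_y(Tw) + 2φ₂(y,w)`;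
 `D_yy[w,u]`:     `T S_yy(w,u) = Ŝ_yy(Tw,Tu) + 2φ₂(u,w)`;
 `D_x[w]`:        `φ₂(w,S) + T S_x w = Ŝ_x(Tw) + Ŝ_y(φ₂(w,y)) + φ₃(w,y,y)`;
 `D_x(D_y w)[y]`: `φ₂(y,S_y w) + T (S_y w)_x[y] = Ŝ_{yx}(Tw)[Ty] + Ŝ_yy(Tw,φ₂(y,y)) + Ŝ_y(φ₂(y,w)) + 2φ₃(y,y,w)`.
`R' w = S_x w - ½(S_y w)_x[y] + ½ S_yy(w,S) - ¼ S_y(S_y w)`.  Then
`T R'w = [Ŝ_xTw + Ŝ_yφ₂(w,y) + φ₃(w,y,y) - φ₂(w,S)] - ½[Ŝ_{yx}(Tw)[Ty] + Ŝ_yy(Tw,φ₂(y,y)) + Ŝ_yφ₂(y,w)
 + 2φ₃(y,y,w) - φ₂(y,S_yw)] + ½[Ŝ_yy(Tw,TS) + 2φ₂(S,w)] - ¼[Ŝ_y(T S_yw) + 2φ₂(y,S_yw)]`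
and with `TS - φ₂(y,y) = Ŝ`, `T S_y w = Ŝ_y Tw + 2φ₂(y,w)` this is
`Ŝ_xTw - ½Ŝ_{yx}(Tw)[Ty] + ½Ŝ_yy(Tw,Ŝ) - ¼Ŝ_yŜ_yTw = R(Tw)`.
Hint: work with the smooth functions of `z = (v,y) ∈ V' × V'` and their full derivatives; the partial
derivatives in `lR` are compositions with `v ↦ (v,y)` and `y ↦ (v,y)`.
`lK_comp` follows with `lg_comp` (`T` bijective).
-/

namespace HFinG

open scoped ContDiff Topology

section O2core

variable {V : Type*} [NormedAddCommGroup V] [NormedSpace ℝ V]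
  {V' : Type*} [NormedAddCommGroup V'] [NormedSpace ℝ V']

theorem O2_fst {W : Type*} [NormedAddCommGroup W] [NormedSpace ℝ W] {f : V' → W} {z : V' × V'}
    (h : DifferentiableAt ℝ f z.1) :
    HasFDerivAt (fun z : V' × V' => f z.1)
      ((fderiv ℝ f z.1).comp (ContinuousLinearMap.fst ℝ V' V')) z :=
  h.hasFDerivAt.comp z hasFDerivAt_fst

/-- first derivative of the transformation rule -/
theorem O2_first {φ : V' → V} {g : V' × V' → V'} {gh : V × V → V} {z : V' × V'}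
    (h1 : DifferentiableAt ℝ φ z.1) (h2 : DifferentiableAt ℝ (fderiv ℝ φ) z.1)
    (h3 : DifferentiableAt ℝ (fderiv ℝ (fderiv ℝ φ)) z.1)
    (hg : DifferentiableAt ℝ g z)
    (hgh : DifferentiableAt ℝ gh (φ z.1, fderiv ℝ φ z.1 z.2))
    (hid : (fun z : V' × V' => fderiv ℝ φ z.1 (g z)) =ᶠ[𝓝 z] fun z =>
      gh (φ z.1, fderiv ℝ φ z.1 z.2) + (1 / 2 : ℝ) • fderiv ℝ (fderiv ℝ φ) z.1 z.2 z.2)
    (a b : V') :
    fderiv ℝ (fderiv ℝ φ) z.1 a (g z) + fderiv ℝ φ z.1 (fderiv ℝ g z (a, b)) =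
      fderiv ℝ gh (φ z.1, fderiv ℝ φ z.1 z.2)
        (fderiv ℝ φ z.1 a, fderiv ℝ (fderiv ℝ φ) z.1 a z.2 + fderiv ℝ φ z.1 b) +
      (1 / 2 : ℝ) • (fderiv ℝ (fderiv ℝ (fderiv ℝ φ)) z.1 a z.2 z.2 +
        fderiv ℝ (fderiv ℝ φ) z.1 b z.2 + fderiv ℝ (fderiv ℝ φ) z.1 z.2 b) := by
  have e1 : HasFDerivAt (fun z : V' × V' => φ z.1)
      ((fderiv ℝ φ z.1).comp (ContinuousLinearMap.fst ℝ V' V')) z :=
    h1.hasFDerivAt.comp z hasFDerivAt_fst
  have e2 : HasFDerivAt (fun z : V' × V' => fderiv ℝ φ z.1)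
      ((fderiv ℝ (fderiv ℝ φ) z.1).comp (ContinuousLinearMap.fst ℝ V' V')) z :=
    O2_fst h2
  have e3 := O2_fst (W := V' →L[ℝ] V' →L[ℝ] V) (f := fderiv ℝ (fderiv ℝ φ)) (z := z) h3
  have hF := e2.clm_apply hg.hasFDerivAt
  have hs : HasFDerivAt (fun z : V' × V' => z.2) (ContinuousLinearMap.snd ℝ V' V') z :=
    hasFDerivAt_snd
  have hΦ := e1.prodMk (e2.clm_apply hs)
  have hH1 := HasFDerivAt.comp (g := gh) z hgh.hasFDerivAt hΦ
  have hH2 := ((e3.clm_apply hs).clm_apply hs).const_smul (1 / 2 : ℝ)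
  have hH := hH1.add hH2
  have hu := hF.unique (hH.congr_of_eventuallyEq hid)
  have hu' := congrArg (fun L => L (a, b)) hu
  simp only [add_apply, ContinuousLinearMap.coe_comp, Function.comp_apply,
    ContinuousLinearMap.flip_apply, ContinuousLinearMap.coe_fst', ContinuousLinearMap.coe_snd',
    ContinuousLinearMap.prod_apply, smul_apply] at hu'
  rw [add_comm, hu']
  congr 2
  · rw [add_comm (fderiv ℝ φ z.1 b)]
  · abel

/-- second derivative of the transformation rule -/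
theorem O2_second {φ : V' → V} {g : V' × V' → V'} {gh : V × V → V} {z : V' × V'} {w : V'}
    (h1 : DifferentiableAt ℝ φ z.1) (h2 : DifferentiableAt ℝ (fderiv ℝ φ) z.1)
    (h3 : DifferentiableAt ℝ (fderiv ℝ (fderiv ℝ φ)) z.1)
    (hg : DifferentiableAt ℝ (fderiv ℝ g) z)
    (hgh : DifferentiableAt ℝ (fderiv ℝ gh) (φ z.1, fderiv ℝ φ z.1 z.2))
    (hid : (fun z : V' × V' => fderiv ℝ φ z.1 (fderiv ℝ g z (0, w))) =ᶠ[𝓝 z] fun z =>
      fderiv ℝ gh (φ z.1, fderiv ℝ φ z.1 z.2) (0, fderiv ℝ φ z.1 w) +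
        fderiv ℝ (fderiv ℝ φ) z.1 w z.2)
    (a b : V') :
    fderiv ℝ (fderiv ℝ φ) z.1 a (fderiv ℝ g z (0, w)) +
      fderiv ℝ φ z.1 (fderiv ℝ (fderiv ℝ g) z (a, b) (0, w)) =
      fderiv ℝ (fderiv ℝ gh) (φ z.1, fderiv ℝ φ z.1 z.2)
        (fderiv ℝ φ z.1 a, fderiv ℝ (fderiv ℝ φ) z.1 a z.2 + fderiv ℝ φ z.1 b)
        (0, fderiv ℝ φ z.1 w) +
      fderiv ℝ gh (φ z.1, fderiv ℝ φ z.1 z.2) (0, fderiv ℝ (fderiv ℝ φ) z.1 a w) +
      fderiv ℝ (fderiv ℝ (fderiv ℝ φ)) z.1 a w z.2 + fderiv ℝ (fderiv ℝ φ) z.1 w b := by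
  have e1 := O2_fst (W := V) (f := φ) (z := z) h1
  have e2 := O2_fst (W := V' →L[ℝ] V) (f := fderiv ℝ φ) (z := z) h2
  have e3 := O2_fst (W := V' →L[ℝ] V' →L[ℝ] V) (f := fderiv ℝ (fderiv ℝ φ)) (z := z) h3
  have hs : HasFDerivAt (fun z : V' × V' => z.2) (ContinuousLinearMap.snd ℝ V' V') z :=
    hasFDerivAt_snd
  have hcw : HasFDerivAt (fun _ : V' × V' => w) (0 : V' × V' →L[ℝ] V') z := hasFDerivAt_const w z
  have hc0 : HasFDerivAt (fun _ : V' × V' => (0 : V)) (0 : V' × V' →L[ℝ] V) z :=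
    hasFDerivAt_const 0 z
  have hcp : HasFDerivAt (fun _ : V' × V' => ((0, w) : V' × V')) (0 : V' × V' →L[ℝ] V' × V') z :=
    hasFDerivAt_const (0, w) z
  have hF := e2.clm_apply (hg.hasFDerivAt.clm_apply hcp)
  have hΦ := e1.prodMk (e2.clm_apply hs)
  have hG := HasFDerivAt.comp (g := fderiv ℝ gh) z hgh.hasFDerivAt hΦ
  have hH1 := hG.clm_apply (hc0.prodMk (e2.clm_apply hcw))
  have hH2 := (e3.clm_apply hcw).clm_apply hs
  have hH := hH1.add hH2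
  have hu := hF.unique (hH.congr_of_eventuallyEq hid)
  have hu' := congrArg (fun L => L (a, b)) hu
  simp only [add_apply, ContinuousLinearMap.coe_comp, Function.comp_apply,
    ContinuousLinearMap.flip_apply, ContinuousLinearMap.coe_fst', ContinuousLinearMap.coe_snd',
    ContinuousLinearMap.prod_apply, zero_apply, map_zero, zero_add] at hu'
  rw [add_comm, hu']
  rw [add_comm (fderiv ℝ φ z.1 b)]
  abel

/-- the invariant form of the curvature -/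
theorem O2_alg {T : V' →L[ℝ] V} {B : V' →L[ℝ] V' →L[ℝ] V} {B3 : V' →L[ℝ] V' →L[ℝ] V' →L[ℝ] V}
    {Dg : V' × V' →L[ℝ] V'} {D2g : V' × V' →L[ℝ] V' × V' →L[ℝ] V'}
    {Dgh : V × V →L[ℝ] V} {D2gh : V × V →L[ℝ] V × V →L[ℝ] V} {g y w : V'} {gh : V}
    (hB : ∀ a b, B a b = B b a) (hB3 : ∀ a b c, B3 a b c = B3 b a c)
    (h0 : T g = gh + (1 / 2 : ℝ) • B y y)
    (h1 : ∀ a b, B a g + T (Dg (a, b)) = Dgh (T a, B a y + T b) +
      (1 / 2 : ℝ) • (B3 a y y + B b y + B y b))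
    (h2 : ∀ a b, B a (Dg (0, w)) + T (D2g (a, b) (0, w)) =
      D2gh (T a, B a y + T b) (0, T w) + Dgh (0, B a w) + B3 a w y + B w b) :
    T ((2 : ℝ) • Dg (w, 0) - D2g (y, 0) (0, w) + (2 : ℝ) • D2g (0, g) (0, w) -
      Dg (0, Dg (0, w))) =
    (2 : ℝ) • Dgh (T w, 0) - D2gh (T y, 0) (0, T w) + (2 : ℝ) • D2gh (0, gh) (0, T w) -
      Dgh (0, Dgh (0, T w)) := by
  have a1 := h1 w 0
  have a2 := h1 0 (Dg (0, w))
  have a3 := h2 y 0
  have a4 := h2 0 g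
  have a5 := h1 0 w
  simp only [map_zero, zero_apply, zero_add, add_zero, Prod.mk_zero_zero] at a1 a2 a3 a4 a5
  have b1 : Dgh (T w, B w y) = Dgh (T w, 0) + Dgh (0, B w y) := by
    rw [← map_add]; simp
  have b2 : D2gh (T y, B y y) (0, T w) = D2gh (T y, 0) (0, T w) + D2gh (0, B y y) (0, T w) := by
    rw [← add_apply, ← map_add]; simp
  have b3 : D2gh (0, T g) (0, T w) = D2gh (0, gh) (0, T w) +
      (1 / 2 : ℝ) • D2gh (0, B y y) (0, T w) := by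
    have e : ((0, T g) : V × V) = (0, gh) + (1 / 2 : ℝ) • (0, B y y) := by rw [h0]; simp
    rw [e, map_add, map_smul]
    rfl
  have b4 : Dgh (0, T (Dg (0, w))) = Dgh (0, Dgh (0, T w)) + Dgh (0, B w y) := by
    have e : ((0, T (Dg (0, w))) : V × V) = (0, Dgh (0, T w)) + (0, B w y) := by
      rw [a5, hB y w, Prod.mk_add_mk, add_zero]
      congr 1
      module
    rw [e, map_add]
  rw [b1] at a1
  rw [b4] at a2
  rw [b2] at a3
  rw [b3] at a4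
  rw [hB y (Dg (0, w))] at a2 a3
  rw [hB y w] at a3
  rw [hB3 y w y] at a3
  rw [hB w g] at a1 a4
  rw [map_sub, map_add, map_sub, map_smul, map_smul]
  have c1 : T (Dg (w, 0)) = Dgh (T w, 0) + Dgh (0, B w y) + (1 / 2 : ℝ) • B3 w y y - B g w := by
    rw [← a1]; abel
  have c2 : T (Dg (0, Dg (0, w))) = Dgh (0, Dgh (0, T w)) + Dgh (0, B w y) +
      B (Dg (0, w)) y := by
    rw [a2]; module
  have c3 : T (D2g (y, 0) (0, w)) = D2gh (T y, 0) (0, T w) + D2gh (0, B y y) (0, T w) +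
      Dgh (0, B w y) + B3 w y y - B (Dg (0, w)) y := by
    rw [← a3]; abel
  rw [c1, c2, c3, a4]
  module

theorem O2_p1 {W : Type*} [NormedAddCommGroup W] [NormedSpace ℝ W] {g : V × V → W} {x y : V}
    (h : DifferentiableAt ℝ g (x, y)) (w : V) :
    fderiv ℝ (fun x' => g (x', y)) x w = fderiv ℝ g (x, y) (w, 0) := by
  have h1 : HasFDerivAt (fun x' : V => (x', y))
      ((ContinuousLinearMap.id ℝ V).prod (0 : V →L[ℝ] V)) x :=
    (hasFDerivAt_id x).prodMk (hasFDerivAt_const y x)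
  have h2 := HasFDerivAt.comp (g := g) x h.hasFDerivAt h1
  have h3 : fderiv ℝ (fun x' => g (x', y)) x = _ := h2.fderiv
  rw [h3]
  simp

theorem O2_p2 {W : Type*} [NormedAddCommGroup W] [NormedSpace ℝ W] {g : V × V → W} {x y : V}
    (h : DifferentiableAt ℝ g (x, y)) (w : V) :
    fderiv ℝ (fun y' => g (x, y')) y w = fderiv ℝ g (x, y) (0, w) := by
  have h1 : HasFDerivAt (fun y' : V => (x, y'))
      ((0 : V →L[ℝ] V).prod (ContinuousLinearMap.id ℝ V)) y :=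
    (hasFDerivAt_const x y).prodMk (hasFDerivAt_id y)
  have h2 := HasFDerivAt.comp (g := g) y h.hasFDerivAt h1
  have h3 : fderiv ℝ (fun y' => g (x, y')) y = _ := h2.fderiv
  rw [h3]
  simp

theorem O2_ap {g : V × V → V} {z : V × V} (h : DifferentiableAt ℝ (fderiv ℝ g) z) (c d : V × V) :
    DifferentiableAt ℝ (fun z => fderiv ℝ g z c) z ∧
      fderiv ℝ (fun z => fderiv ℝ g z c) z d = fderiv ℝ (fderiv ℝ g) z d c := by
  have hcp : HasFDerivAt (fun _ : V × V => c) (0 : V × V →L[ℝ] V × V) z :=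
    hasFDerivAt_const c z
  have h1 := h.hasFDerivAt.clm_apply hcp
  refine ⟨h1.differentiableAt, ?_⟩
  rw [h1.fderiv]
  simp

/-- the curvature in terms of the full derivatives of the spray coefficients -/
theorem O2_lR_eq {E : V → V → ℝ} {x y : V}
    (h : ContDiffAt ℝ 2 (fun z : V × V => lG E z.1 z.2) (x, y)) (w : V) :
    lR E x y w = (2 : ℝ) • fderiv ℝ (fun z : V × V => lG E z.1 z.2) (x, y) (w, 0) -
      fderiv ℝ (fderiv ℝ (fun z : V × V => lG E z.1 z.2)) (x, y) (y, 0) (0, w) +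
      (2 : ℝ) • fderiv ℝ (fderiv ℝ (fun z : V × V => lG E z.1 z.2)) (x, y) (0, lG E x y) (0, w) -
      fderiv ℝ (fun z : V × V => lG E z.1 z.2) (x, y)
        (0, fderiv ℝ (fun z : V × V => lG E z.1 z.2) (x, y) (0, w)) := by
  set g : V × V → V := fun z => lG E z.1 z.2 with hg
  have hd : ∀ᶠ z in 𝓝 (x, y), DifferentiableAt ℝ g z := by
    filter_upwards [h.eventually (by simp)] with z hz
    exact hz.differentiableAt (by norm_num)
  have hd0 : DifferentiableAt ℝ g (x, y) := hd.self_of_nhds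
  have hd2 : DifferentiableAt ℝ (fderiv ℝ g) (x, y) := by
    have h1 : ContDiffAt ℝ 1 (fderiv ℝ g) (x, y) := h.fderiv_right (by norm_num)
    exact h1.differentiableAt (by norm_num)
  have hx : ∀ᶠ x' in 𝓝 x, DifferentiableAt ℝ g (x', y) := by
    have : Filter.Tendsto (fun x' : V => (x', y)) (𝓝 x) (𝓝 (x, y)) :=
      (continuous_id.prodMk continuous_const).tendsto x
    exact this.eventually hd
  have hy : ∀ᶠ y' in 𝓝 y, DifferentiableAt ℝ g (x, y') := by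
    have : Filter.Tendsto (fun y' : V => (x, y')) (𝓝 y) (𝓝 (x, y)) :=
      (continuous_const.prodMk continuous_id).tendsto y
    exact this.eventually hd
  have t1 : fderiv ℝ (fun x' => lG E x' y) x w = fderiv ℝ g (x, y) (w, 0) := O2_p1 hd0 w
  have t2 : fderiv ℝ (fun x' => fderiv ℝ (fun y' => lG E x' y') y w) x y =
      fderiv ℝ (fderiv ℝ g) (x, y) (y, 0) (0, w) := by
    have e1 : (fun x' => fderiv ℝ (fun y' => lG E x' y') y w) =ᶠ[𝓝 x]
        fun x' => fderiv ℝ g (x', y) (0, w) := by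
      filter_upwards [hx] with x' hx'
      exact O2_p2 hx' w
    rw [e1.fderiv_eq]
    obtain ⟨a1, a2⟩ := O2_ap hd2 (0, w) (y, 0)
    rw [← a2]
    exact O2_p1 (g := fun z => fderiv ℝ g z (0, w)) a1 y
  have t3 : ∀ u : V, fderiv ℝ (fun y' => fderiv ℝ (fun y'' => lG E x y'') y' w) y u =
      fderiv ℝ (fderiv ℝ g) (x, y) (0, u) (0, w) := by
    intro u
    have e1 : (fun y' => fderiv ℝ (fun y'' => lG E x y'') y' w) =ᶠ[𝓝 y]
        fun y' => fderiv ℝ g (x, y') (0, w) := by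
      filter_upwards [hy] with y' hy'
      exact O2_p2 hy' w
    rw [e1.fderiv_eq]
    obtain ⟨a1, a2⟩ := O2_ap hd2 (0, w) (0, u)
    rw [← a2]
    exact O2_p2 (g := fun z => fderiv ℝ g z (0, w)) a1 u
  have t4 : ∀ u : V, fderiv ℝ (fun y' => lG E x y') y u = fderiv ℝ g (x, y) (0, u) :=
    fun u => O2_p2 hd0 u
  unfold lR
  rw [t1, t2, t3, t4, t4]

end O2core

variable {V : Type*} [NormedAddCommGroup V] [NormedSpace ℝ V] [FiniteDimensional ℝ V]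
  {V' : Type*} [NormedAddCommGroup V'] [NormedSpace ℝ V'] [FiniteDimensional ℝ V']

theorem O2_equiv {T : V' →L[ℝ] V} (hT : Function.Bijective T) :
    ∃ e : V' ≃L[ℝ] V, (e : V' →L[ℝ] V) = T := by
  refine ⟨(LinearEquiv.ofBijective (T : V' →ₗ[ℝ] V) hT).toContinuousLinearEquiv, ?_⟩
  ext v
  rfl

theorem O2_bij_near {φ : V' → V} {x : V'} (hφ : ContDiffAt ℝ 1 φ x)
    (hi : Function.Bijective (fderiv ℝ φ x)) :
    ∀ᶠ v in 𝓝 x, Function.Bijective (fderiv ℝ φ v) := by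
  have hcV : CompleteSpace V' := FiniteDimensional.complete ℝ V'
  obtain ⟨e, he⟩ := O2_equiv hi
  have h1 := ContinuousLinearEquiv.nhds e
  rw [he] at h1
  have h2 : ContinuousAt (fderiv ℝ φ) x := (hφ.fderiv_right (m := 0) (by norm_num)).continuousAt
  filter_upwards [h2 h1] with v hv
  obtain ⟨e', he'⟩ := hv
  rw [← he']
  exact e'.bijective

theorem lR_comp {E : V → V → ℝ} {U : Set V} (hE : IsEnergy E U) {φ : V' → V} {x : V'}
    (hφ : ContDiffAt ℝ ∞ φ x) (hi : Function.Bijective (fderiv ℝ φ x)) (hx : φ x ∈ U)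
    {y : V'} (hy : y ≠ 0) (w : V') :
    fderiv ℝ φ x (lR (compE E φ) x y w) = lR E (φ x) (fderiv ℝ φ x y) (fderiv ℝ φ x w) := by
  have hcV : CompleteSpace V' := FiniteDimensional.complete ℝ V'
  -- smoothness of `φ`
  have hφ5 : ContDiffAt ℝ 5 φ x := hφ.of_le (WithTop.coe_le_coe.mpr le_top)
  have hφ1 : ContDiffAt ℝ 4 (fderiv ℝ φ) x := hφ5.fderiv_right (by norm_num)
  have hφ2 : ContDiffAt ℝ 3 (fderiv ℝ (fderiv ℝ φ)) x := hφ1.fderiv_right (by norm_num)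
  have hTy : fderiv ℝ φ x y ≠ 0 := by
    intro h
    exact hy (hi.1 (h.trans (map_zero _).symm))
  set gh : V × V → V := fun z => lG E z.1 z.2 with hgh
  set g : V' × V' → V' := fun z => lG (compE E φ) z.1 z.2 with hg
  have hfst : Filter.Tendsto (Prod.fst : V' × V' → V') (𝓝 (x, y)) (𝓝 x) :=
    continuous_fst.tendsto (x, y)
  have hsnd : Filter.Tendsto (Prod.snd : V' × V' → V') (𝓝 (x, y)) (𝓝 y) :=
    continuous_snd.tendsto (x, y)
  -- smoothness of `gh`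
  have hghc : ContDiffAt ℝ 2 gh (φ x, fderiv ℝ φ x y) := by
    have h1 : (U ×ˢ {y | y ≠ 0} : Set (V × V)) ∈ 𝓝 (φ x, fderiv ℝ φ x y) := by
      apply (hE.isOpen.prod isOpen_ne).mem_nhds
      exact ⟨hx, hTy⟩
    exact ((lG_contDiff hE).contDiffAt h1).of_le (WithTop.coe_le_coe.mpr le_top)
  -- the map `Φ`
  have hΦc : ContDiffAt ℝ 3 (fun z : V' × V' => (φ z.1, fderiv ℝ φ z.1 z.2)) (x, y) := by
    have a1 : ContDiffAt ℝ 3 (fun z : V' × V' => φ z.1) (x, y) :=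
      ContDiffAt.comp (x, y) (hφ5.of_le (by norm_num)) contDiffAt_fst
    have a2 : ContDiffAt ℝ 3 (fun z : V' × V' => fderiv ℝ φ z.1) (x, y) :=
      ContDiffAt.comp (x, y) (hφ1.of_le (by norm_num)) contDiffAt_fst
    exact a1.prodMk (a2.clm_apply contDiffAt_snd)
  -- the relation
  have hrel : ∀ᶠ z in 𝓝 (x, y), fderiv ℝ φ z.1 (g z) =
      gh (φ z.1, fderiv ℝ φ z.1 z.2) + (1 / 2 : ℝ) • fderiv ℝ (fderiv ℝ φ) z.1 z.2 z.2 := by
    have b1 : ∀ᶠ v in 𝓝 x, ContDiffAt ℝ 3 φ v :=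
      (hφ5.of_le (by norm_num : (3 : WithTop ℕ∞) ≤ 5)).eventually (by simp)
    have b2 := O2_bij_near (hφ5.of_le (by norm_num)) hi
    have b3 : ∀ᶠ v in 𝓝 x, φ v ∈ U := hφ5.continuousAt (hE.isOpen.mem_nhds hx)
    have b4 : ∀ᶠ y' in 𝓝 y, y' ≠ 0 := isOpen_ne.mem_nhds hy
    filter_upwards [hfst.eventually b1, hfst.eventually b2, hfst.eventually b3,
      hsnd.eventually b4] with z c1 c2 c3 c4
    have h1 := lG_comp hE c1 c2 c3 c4
    rw [map_smul] at h1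
    have h2 : fderiv ℝ φ z.1 (lG (compE E φ) z.1 z.2) = (1 / 2 : ℝ) •
        ((2 : ℝ) • lG E (φ z.1) (fderiv ℝ φ z.1 z.2) + fderiv ℝ (fderiv ℝ φ) z.1 z.2 z.2) := by
      rw [← h1, smul_smul]
      norm_num
    show fderiv ℝ φ z.1 (lG (compE E φ) z.1 z.2) = lG E (φ z.1) (fderiv ℝ φ z.1 z.2) + _
    rw [h2, smul_add, smul_smul]
    norm_num
  -- smoothness of `g`
  have hgc : ContDiffAt ℝ 2 g (x, y) := by
    obtain ⟨e, he⟩ := O2_equiv hi
    have h1 : ContDiffAt ℝ 2 (ContinuousLinearMap.inverse : (V' →L[ℝ] V) → (V →L[ℝ] V'))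
        (fderiv ℝ φ x) := by
      rw [← he]
      exact contDiffAt_map_inverse e
    have a2 : ContDiffAt ℝ 2 (fun z : V' × V' => fderiv ℝ φ z.1) (x, y) :=
      ContDiffAt.comp (x, y) (hφ1.of_le (by norm_num)) contDiffAt_fst
    have h2 : ContDiffAt ℝ 2 (fun z : V' × V' => (fderiv ℝ φ z.1).inverse) (x, y) :=
      ContDiffAt.comp (g := (ContinuousLinearMap.inverse : (V' →L[ℝ] V) → (V →L[ℝ] V')))
        (f := fun z : V' × V' => fderiv ℝ φ z.1) (x, y) h1 a2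
    have h3 : ContDiffAt ℝ 2 (fun z : V' × V' => gh (φ z.1, fderiv ℝ φ z.1 z.2)) (x, y) :=
      ContDiffAt.comp (g := gh) (f := fun z : V' × V' => (φ z.1, fderiv ℝ φ z.1 z.2)) (x, y)
        hghc (hΦc.of_le (by norm_num))
    have h4 : ContDiffAt ℝ 2 (fun z : V' × V' => fderiv ℝ (fderiv ℝ φ) z.1 z.2 z.2) (x, y) := by
      have a3 : ContDiffAt ℝ 2 (fun z : V' × V' => fderiv ℝ (fderiv ℝ φ) z.1) (x, y) :=
        ContDiffAt.comp (x, y) (hφ2.of_le (by norm_num)) contDiffAt_fst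
      exact (a3.clm_apply contDiffAt_snd).clm_apply contDiffAt_snd
    have h5 := h2.clm_apply (h3.add (contDiffAt_const.smul h4 :
      ContDiffAt ℝ 2 (fun z : V' × V' => (1 / 2 : ℝ) • fderiv ℝ (fderiv ℝ φ) z.1 z.2 z.2) (x, y)))
    refine h5.congr_of_eventuallyEq ?_
    filter_upwards [hrel, hfst.eventually (O2_bij_near (hφ5.of_le (by norm_num)) hi)] with z c1 c2
    obtain ⟨e', he'⟩ := O2_equiv c2
    show g z = (fderiv ℝ φ z.1).inverse (gh (φ z.1, fderiv ℝ φ z.1 z.2) +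
      (1 / 2 : ℝ) • fderiv ℝ (fderiv ℝ φ) z.1 z.2 z.2)
    rw [← c1, ← he', ContinuousLinearMap.inverse_equiv]
    simp
  -- differentiability near the point
  have d1 : ∀ᶠ z in 𝓝 (x, y), DifferentiableAt ℝ φ (z : V' × V').1 := by
    refine hfst.eventually ?_
    filter_upwards [hφ5.eventually (by norm_num)] with v hv
    exact hv.differentiableAt (by norm_num)
  have d2 : ∀ᶠ z in 𝓝 (x, y), DifferentiableAt ℝ (fderiv ℝ φ) (z : V' × V').1 := by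
    refine hfst.eventually ?_
    filter_upwards [hφ1.eventually (by norm_num)] with v hv
    exact hv.differentiableAt (by norm_num)
  have d3 : ∀ᶠ z in 𝓝 (x, y), DifferentiableAt ℝ (fderiv ℝ (fderiv ℝ φ)) (z : V' × V').1 := by
    refine hfst.eventually ?_
    filter_upwards [hφ2.eventually (by norm_num)] with v hv
    exact hv.differentiableAt (by norm_num)
  have d4 : ∀ᶠ z in 𝓝 (x, y), DifferentiableAt ℝ g z := by
    filter_upwards [hgc.eventually (by norm_num)] with z hz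
    exact hz.differentiableAt (by norm_num)
  have d5 : ∀ᶠ z in 𝓝 (x, y),
      DifferentiableAt ℝ gh (φ (z : V' × V').1, fderiv ℝ φ z.1 z.2) := by
    have h1 : ∀ᶠ z' in 𝓝 (φ x, fderiv ℝ φ x y), DifferentiableAt ℝ gh z' := by
      filter_upwards [hghc.eventually (by norm_num)] with z hz
      exact hz.differentiableAt (by norm_num)
    exact hΦc.continuousAt.eventually h1
  have d6 : DifferentiableAt ℝ (fderiv ℝ g) (x, y) :=
    (hgc.fderiv_right (m := 1) (by norm_num)).differentiableAt (by norm_num)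
  have d7 : DifferentiableAt ℝ (fderiv ℝ gh) (φ x, fderiv ℝ φ x y) :=
    (hghc.fderiv_right (m := 1) (by norm_num)).differentiableAt (by norm_num)
  have hsym : ∀ᶠ z in 𝓝 (x, y), ∀ a b : V',
      fderiv ℝ (fderiv ℝ φ) (z : V' × V').1 a b = fderiv ℝ (fderiv ℝ φ) z.1 b a := by
    have h1 : ∀ᶠ v in 𝓝 x, ∀ a b : V', fderiv ℝ (fderiv ℝ φ) v a b =
        fderiv ℝ (fderiv ℝ φ) v b a := by
      filter_upwards [hφ5.eventually (by norm_num)] with v hv a b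
      exact (hv.isSymmSndFDerivAt (by
        rw [minSmoothness_of_isRCLikeNormedField]
        norm_num)) a b
    exact hfst.eventually h1
  have hsym3 : ∀ a b c : V', fderiv ℝ (fderiv ℝ (fderiv ℝ φ)) x a b c =
      fderiv ℝ (fderiv ℝ (fderiv ℝ φ)) x b a c := by
    intro a b c
    have h1 := (hφ1.isSymmSndFDerivAt (by
      rw [minSmoothness_of_isRCLikeNormedField]
      norm_num)) a b
    rw [h1]
  -- first order relations
  have hfirst : ∀ᶠ z in 𝓝 (x, y), ∀ a b : V',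
      fderiv ℝ (fderiv ℝ φ) z.1 a (g z) + fderiv ℝ φ z.1 (fderiv ℝ g z (a, b)) =
      fderiv ℝ gh (φ z.1, fderiv ℝ φ z.1 z.2)
        (fderiv ℝ φ z.1 a, fderiv ℝ (fderiv ℝ φ) z.1 a z.2 + fderiv ℝ φ z.1 b) +
      (1 / 2 : ℝ) • (fderiv ℝ (fderiv ℝ (fderiv ℝ φ)) z.1 a z.2 z.2 +
        fderiv ℝ (fderiv ℝ φ) z.1 b z.2 + fderiv ℝ (fderiv ℝ φ) z.1 z.2 b) := by
    filter_upwards [eventually_eventually_nhds.mpr hrel, d1, d2, d3, d4, d5] with z c c1 c2 c3 c4 c5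
    exact fun a b => O2_first c1 c2 c3 c4 c5 c a b
  have hid2 : (fun z : V' × V' => fderiv ℝ φ z.1 (fderiv ℝ g z (0, w))) =ᶠ[𝓝 (x, y)] fun z =>
      fderiv ℝ gh (φ z.1, fderiv ℝ φ z.1 z.2) (0, fderiv ℝ φ z.1 w) +
        fderiv ℝ (fderiv ℝ φ) z.1 w z.2 := by
    filter_upwards [hfirst, hsym] with z c1 c2
    have h1 := c1 0 w
    simp only [map_zero, zero_apply, zero_add] at h1
    rw [h1, c2 z.2 w]
    module
  have hsecond := O2_second (z := (x, y)) (w := w) d1.self_of_nhds d2.self_of_nhds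
    d3.self_of_nhds d6 d7 hid2
  have h0 := hrel.self_of_nhds
  have hfirst0 := hfirst.self_of_nhds
  have hsym0 := hsym.self_of_nhds
  rw [O2_lR_eq hgc w, O2_lR_eq hghc (fderiv ℝ φ x w)]
  exact O2_alg (T := fderiv ℝ φ x) (B := fderiv ℝ (fderiv ℝ φ) x)
    (B3 := fderiv ℝ (fderiv ℝ (fderiv ℝ φ)) x) (Dg := fderiv ℝ g (x, y))
    (D2g := fderiv ℝ (fderiv ℝ g) (x, y)) (Dgh := fderiv ℝ gh (φ x, fderiv ℝ φ x y))
    (D2gh := fderiv ℝ (fderiv ℝ gh) (φ x, fderiv ℝ φ x y)) (g := g (x, y)) (y := y) (w := w)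
    (gh := gh (φ x, fderiv ℝ φ x y)) hsym0 hsym3 h0 hfirst0 hsecond

theorem lK_comp {E : V → V → ℝ} {U : Set V} (hE : IsEnergy E U) {φ : V' → V} {x : V'}
    (hφ : ContDiffAt ℝ ∞ φ x) (hi : Function.Bijective (fderiv ℝ φ x)) (hx : φ x ∈ U)
    {y : V'} (hy : y ≠ 0) (w : V') :
    lK (compE E φ) x y w = lK E (φ x) (fderiv ℝ φ x y) (fderiv ℝ φ x w) := by
  have hφ2 : ContDiffAt ℝ 3 φ x := hφ.of_le (WithTop.coe_le_coe.mpr le_top)
  unfold lK
  rw [lg_comp hE hφ2 hi hx hy, lg_comp hE hφ2 hi hx hy, lg_comp hE hφ2 hi hx hy,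
    lg_comp hE hφ2 hi hx hy, lR_comp hE hφ hi hx hy]

end HFinG
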