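import Pool.Agent.HFinG.Loc

/-! MODULE O3 (diff 1): `lg, lG, lR, lK` at `(x,·)` depend only on `E` near `x`.

If `E x' = E' x'` (as functions of `y`) for all `x'` near `x`, all four quantities agree at `x` (and
`lg`, `lG` agree at all `x'` near `x`): `Filter.EventuallyEq.fderiv_eq`, and for nested derivatives the
eventual equality near each nearby point (`eventually_eventually_nhds`). -/

namespace HFinG

open scoped Topology

variable {V : Type*} [NormedAddCommGroup V] [NormedSpace ℝ V]

theorem lg_congr {E E' : V → V → ℝ} {x : V} (h : ∀ᶠ x' in 𝓝 x, E x' = E' x') (y : V) :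
    lg E x y = lg E' x y := by
  unfold lg
  rw [h.self_of_nhds]

theorem lG_congr {E E' : V → V → ℝ} {x : V} (h : ∀ᶠ x' in 𝓝 x, E x' = E' x') (y : V) :
    lG E x y = lG E' x y := by
  unfold lG
  have h1 : ∀ u, fderiv ℝ (fun x' => fderiv ℝ (E x') y u) x
      = fderiv ℝ (fun x' => fderiv ℝ (E' x') y u) x := by
    intro u
    apply Filter.EventuallyEq.fderiv_eq
    filter_upwards [h] with x' hx'
    rw [hx']
  have h2 : fderiv ℝ (fun x' => E x' y) x = fderiv ℝ (fun x' => E' x' y) x := by
    apply Filter.EventuallyEq.fderiv_eq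
    filter_upwards [h] with x' hx'
    rw [hx']
  rw [lg_congr h y, h2]
  simp only [h1]

theorem O3_lG_eventually {E E' : V → V → ℝ} {x : V} (h : ∀ᶠ x' in 𝓝 x, E x' = E' x') :
    ∀ᶠ x' in 𝓝 x, ∀ y, lG E x' y = lG E' x' y := by
  filter_upwards [eventually_eventually_nhds.mpr h] with x' hx' y
  exact lG_congr hx' y

theorem O3_lR_congr {E E' : V → V → ℝ} {x : V} (h : ∀ᶠ x' in 𝓝 x, E x' = E' x') (y w : V) :
    lR E x y w = lR E' x y w := by
  have hG := O3_lG_eventually h
  have hG0 : lG E x = lG E' x := funext fun y => lG_congr h y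
  have h1 : fderiv ℝ (fun x' => lG E x' y) x = fderiv ℝ (fun x' => lG E' x' y) x := by
    apply Filter.EventuallyEq.fderiv_eq
    filter_upwards [hG] with x' hx'
    exact hx' y
  have h2 : fderiv ℝ (fun x' => fderiv ℝ (fun y' => lG E x' y') y w) x
      = fderiv ℝ (fun x' => fderiv ℝ (fun y' => lG E' x' y') y w) x := by
    apply Filter.EventuallyEq.fderiv_eq
    filter_upwards [hG] with x' hx'
    rw [funext hx']
  unfold lR
  rw [h1, h2, hG0]

theorem lK_congr {E E' : V → V → ℝ} {x : V} (h : ∀ᶠ x' in 𝓝 x, E x' = E' x') (y w : V) :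
    lK E x y w = lK E' x y w := by
  unfold lK
  rw [lg_congr h y, O3_lR_congr h y w]

end HFinG
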