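import Pool.Agent.HFinG.KDefs
import Pool.Agent.HFinG.A4

/-! MODULE B1 (diff 1-2): elementary properties of `k = kk1`.

`k_x(u,v) = D_η g(u,v) + g([x,u],v) + g(u,[x,v])` is symmetric and bilinear in `(u,v)` and smooth in
`x ≠ 0`; the formula `conn_kk1` is `conn_spec` rewritten with `fund_self`-free terms:
`2 g(Nw,u) = g(x,[u,w]) - k(w,u)` because `g([u,x],w) + g([w,x],u) - D_ηg(w,u) = - k(w,u)`
(`[w,x] = -[x,w]` from `D.mm_self`).
-/

namespace HFinG

open scoped ContDiff

variable {V H : Type*} [NormedAddCommGroup V] [NormedSpace ℝ V]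
  [NormedAddCommGroup H] [NormedSpace ℝ H]

theorem mm_anti (D : RedData V H) (x y : V) : D.mm x y = -D.mm y x := by
  have h := D.mm_self (x + y)
  rw [map_add, map_add, ContinuousLinearMap.add_apply, ContinuousLinearMap.add_apply, D.mm_self,
    D.mm_self, zero_add, add_zero] at h
  exact eq_neg_of_add_eq_zero_right h

theorem mh_anti (D : RedData V H) (x y : V) : D.mh x y = -D.mh y x := by
  have h := D.mh_self (x + y)
  rw [map_add, map_add, ContinuousLinearMap.add_apply, ContinuousLinearMap.add_apply, D.mh_self,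
    D.mh_self, zero_add, add_zero] at h
  exact eq_neg_of_add_eq_zero_right h

theorem B1_ev {x : V} (hx : x ≠ 0) {P : V → Prop} (h : ∀ y, y ≠ 0 → P y) : ∀ᶠ y in nhds x, P y :=
  (isOpen_ne.mem_nhds hx : {y : V | y ≠ 0} ∈ nhds x) |> fun hh => Filter.mem_of_superset hh h

theorem B1_diff {W : Type*} [NormedAddCommGroup W] [NormedSpace ℝ W] {f : V → W}
    (hf : ContDiffOn ℝ ∞ f {x | x ≠ 0}) {x : V} (hx : x ≠ 0) : DifferentiableAt ℝ f x :=
  (hf.contDiffAt (isOpen_ne.mem_nhds hx)).differentiableAt (by simp)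

variable [FiniteDimensional ℝ V]

theorem kk1_symm (D : RedData V H) {F : V → ℝ} (hF : IsMinkowski F) {x : V} (hx : x ≠ 0) (u v : V) :
    kk1 D F x u v = kk1 D F x v u := by
  unfold kk1
  have h1 : (fun y => fund F y u v) =ᶠ[nhds x] fun y => fund F y v u :=
    B1_ev hx fun y hy => fund_symm hF hy u v
  rw [h1.fderiv_eq, fund_symm hF hx (D.mm x u) v, fund_symm hF hx u (D.mm x v)]
  ring

theorem kk1_add (D : RedData V H) {F : V → ℝ} (hF : IsMinkowski F) {x : V} (hx : x ≠ 0)
    (u u' v : V) : kk1 D F x (u + u') v = kk1 D F x u v + kk1 D F x u' v := by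
  unfold kk1
  have h1 : (fun y => fund F y (u + u') v) =
      (fun y => fund F y u v) + fun y => fund F y u' v := by
    funext y
    simp
  rw [h1, fderiv_add (B1_diff (fund_eval_smooth hF u v) hx) (B1_diff (fund_eval_smooth hF u' v) hx)]
  simp only [map_add, ContinuousLinearMap.add_apply]
  ring

theorem kk1_smul (D : RedData V H) {F : V → ℝ} (hF : IsMinkowski F) {x : V} (hx : x ≠ 0)
    (c : ℝ) (u v : V) : kk1 D F x (c • u) v = c * kk1 D F x u v := by
  unfold kk1
  have h1 : (fun y => fund F y (c • u) v) = c • fun y => fund F y u v := by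
    funext y
    simp
  rw [h1, fderiv_const_smul (B1_diff (fund_eval_smooth hF u v) hx)]
  simp only [map_smul, ContinuousLinearMap.smul_apply, smul_eq_mul]
  ring

theorem kk1_smooth (D : RedData V H) {F : V → ℝ} (hF : IsMinkowski F) (u v : V) :
    ContDiffOn ℝ ∞ (fun y => kk1 D F y u v) {x | x ≠ 0} := by
  unfold kk1
  have h0 := (fund_eval_smooth hF u v).fderiv_of_isOpen (m := ∞) isOpen_ne (by simp)
  have h1 : ContDiffOn ℝ ∞ (fun y => fderiv ℝ (fun y => fund F y u v) y (spray D F y))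
      {x | x ≠ 0} := h0.clm_apply (spray_smooth D hF)
  have h2 : ContDiffOn ℝ ∞ (fun y : V => D.mm y u) {x | x ≠ 0} :=
    (D.mm.contDiff.clm_apply contDiff_const).contDiffOn
  have h3 : ContDiffOn ℝ ∞ (fun y : V => D.mm y v) {x | x ≠ 0} :=
    (D.mm.contDiff.clm_apply contDiff_const).contDiffOn
  have h4 : ContDiffOn ℝ ∞ (fun y => fund F y (D.mm y u) v) {x | x ≠ 0} :=
    ((fund_smooth hF).clm_apply h2).clm_apply contDiffOn_const
  have h5 : ContDiffOn ℝ ∞ (fun y => fund F y u (D.mm y v)) {x | x ≠ 0} :=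
    ((fund_smooth hF).clm_apply contDiffOn_const).clm_apply h3
  exact (h1.add h4).add h5

theorem kk2_symm (D : RedData V H) {F : V → ℝ} (hF : IsMinkowski F) {x : V} (hx : x ≠ 0) (u v : V) :
    kk2 D F x u v = kk2 D F x v u := by
  unfold kk2
  have h1 : (fun y => kk1 D F y u v) =ᶠ[nhds x] fun y => kk1 D F y v u :=
    B1_ev hx fun y hy => kk1_symm D hF hy u v
  rw [h1.fderiv_eq, kk1_symm D hF hx (D.mm x u) v, kk1_symm D hF hx u (D.mm x v)]
  ring

theorem kk2_add (D : RedData V H) {F : V → ℝ} (hF : IsMinkowski F) {x : V} (hx : x ≠ 0)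
    (u u' v : V) : kk2 D F x (u + u') v = kk2 D F x u v + kk2 D F x u' v := by
  unfold kk2
  have h1 : (fun y => kk1 D F y (u + u') v) =ᶠ[nhds x]
      (fun y => kk1 D F y u v) + fun y => kk1 D F y u' v :=
    B1_ev hx fun y hy => kk1_add D hF hy u u' v
  rw [h1.fderiv_eq, fderiv_add (B1_diff (kk1_smooth D hF u v) hx)
    (B1_diff (kk1_smooth D hF u' v) hx), map_add, kk1_add D hF hx, kk1_add D hF hx]
  simp only [ContinuousLinearMap.add_apply]
  ring

theorem kk2_smul (D : RedData V H) {F : V → ℝ} (hF : IsMinkowski F) {x : V} (hx : x ≠ 0)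
    (c : ℝ) (u v : V) : kk2 D F x (c • u) v = c * kk2 D F x u v := by
  unfold kk2
  have h1 : (fun y => kk1 D F y (c • u) v) =ᶠ[nhds x] c • fun y => kk1 D F y u v :=
    B1_ev hx fun y hy => kk1_smul D hF hy c u v
  rw [h1.fderiv_eq, fderiv_const_smul (B1_diff (kk1_smooth D hF u v) hx), map_smul,
    kk1_smul D hF hx, kk1_smul D hF hx]
  simp only [ContinuousLinearMap.smul_apply, smul_eq_mul]
  ring

/-- `2 g(Nw, u) = g(x, [u,w]) - k(w,u)`. -/
theorem conn_kk1 (D : RedData V H) {F : V → ℝ} (hF : IsMinkowski F) {x : V} (hx : x ≠ 0)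
    (w u : V) : 2 * fund F x (conn D F x w) u = fund F x x (D.mm u w) - kk1 D F x w u := by
  rw [conn_spec D hF hx]
  unfold kk1
  rw [fund_symm hF hx (D.mm u w) x, mm_anti D u x, mm_anti D w x, map_neg, map_neg,
    ContinuousLinearMap.neg_apply, ContinuousLinearMap.neg_apply,
    fund_symm hF hx (D.mm x u) w]
  ring

end HFinG
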