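import Pool.Agent.HFinG.B1

/-! MODULE B2 (diff 3): the curvature formula
`g(R_x w, w) = g(Nw, Nw) - k°(w,w)/2 + [x,w]_𝔥 g([h₀,x],w)`.

Proof.  Write `n = N(x,w)`, `ξ(v) = g_x(x,v)`, `'` for the derivative at `x` in the direction
`η = spray D F x`.  By `conn_kk1` (for all base points `y` near `x`, fixed `w, u`)
`2 g_y(N(y,w),u) = g_y(y,[u,w]) - k_y(w,u)`.  Put `u = w`: `2 g_y(N(y,w),w) = - k_y(w,w)`.
Differentiate in the direction `η`:
`2 g'(n,w) + 2 g(D_ηN(w), w) = - k'(w,w)`.        (1)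
Also by `conn_kk1`, for every `u`:
`2 g(N u, w) = ξ([w,u]) - k(u,w)` and `2 g(n,u) = ξ([u,w]) - k(w,u)`, so
`g(N u, w) = - g(n,u) - k(w,u)`   (add the two lines, `[w,u] = -[u,w]`).          (2)
Now `g(R w,w) = mh x w * g(act x,w) + g(D_ηN w,w) - g(N n,w) + g(N[x,w],w) - g([x,n],w)`.
By (2) `- g(N n, w) = g(n,n) + k(w,n)` and `g(N[x,w],w) = - g(n,[x,w]) - k(w,[x,w])`.
By the definition of `k`, `k(w,n) = g'(w,n) + g([x,w],n) + g(w,[x,n])`.
Sum: `mh x w * g(act x,w) - k'(w,w)/2 - g'(n,w) + g(n,n) + k(w,n) - g(n,[x,w]) - k(w,[x,w])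
- g([x,n],w) = mh x w * g(act x,w) + g(n,n) - k'(w,w)/2 - k(w,[x,w])`, and
`k°(w,w) = k'(w,w) + k([x,w],w) + k(w,[x,w]) = k'(w,w) + 2 k(w,[x,w])` (`kk1_symm`).  QED.
Here `g'(u,v) = fderiv ℝ (fun y => fund F y u v) x η`.  For (1) use the product rule for
`y ↦ fund F y (conn D F y w) w` (differentiable by `fund_smooth`, `conn_smooth`).
-/

namespace HFinG

open scoped ContDiff

variable {V H : Type*} [NormedAddCommGroup V] [NormedSpace ℝ V]
  [NormedAddCommGroup H] [NormedSpace ℝ H] [FiniteDimensional ℝ V]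

omit [NormedSpace ℝ V] [FiniteDimensional ℝ V] in
theorem B2_nhds {x : V} (hx : x ≠ 0) : {x : V | x ≠ 0} ∈ nhds x :=
  isOpen_ne.mem_nhds hx

omit [FiniteDimensional ℝ V] in
theorem B2_diff {W : Type*} [NormedAddCommGroup W] [NormedSpace ℝ W] {f : V → W}
    (hf : ContDiffOn ℝ ∞ f {x | x ≠ 0}) {x : V} (hx : x ≠ 0) : DifferentiableAt ℝ f x :=
  (hf.contDiffAt (B2_nhds hx)).differentiableAt (by simp)

theorem B2_deriv (D : RedData V H) {F : V → ℝ} (hF : IsMinkowski F) {x : V} (hx : x ≠ 0)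
    (w e : V) :
    2 * fderiv ℝ (fun y => fund F y (conn D F x w) w) x e +
      2 * fund F x (fderiv ℝ (fun y => conn D F y w) x e) w =
      - fderiv ℝ (fun y => kk1 D F y w w) x e := by
  have hg : HasFDerivAt (fund F) (fderiv ℝ (fund F) x) x :=
    (B2_diff (fund_smooth hF) hx).hasFDerivAt
  have hN : HasFDerivAt (fun y => conn D F y w) (fderiv ℝ (fun y => conn D F y w) x) x :=
    (B2_diff (conn_smooth D hF w) hx).hasFDerivAt
  have h1 := hg.clm_apply hN
  have h2 := h1.clm_apply (hasFDerivAt_const w x)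
  have h3 : HasFDerivAt (fun y => fund F y (conn D F x w) w)
      _ x := (hg.clm_apply (hasFDerivAt_const (conn D F x w) x)).clm_apply (hasFDerivAt_const w x)
  have hk : HasFDerivAt (fun y => kk1 D F y w w) (fderiv ℝ (fun y => kk1 D F y w w) x) x :=
    (B2_diff (kk1_smooth D hF w w) hx).hasFDerivAt
  have hev : (fun y => 2 * fund F y (conn D F y w) w) =ᶠ[nhds x] fun y => -kk1 D F y w w := by
    filter_upwards [B2_nhds hx] with y hy
    have := conn_kk1 D hF hy w w
    rw [D.mm_self] at this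
    simpa using this
  have h4 := (h2.const_mul 2).congr_of_eventuallyEq hev.symm
  have h5 := h4.unique hk.neg
  rw [h3.fderiv]
  have h6 := congrArg (fun L => L e) h5
  simp at h6 ⊢
  linarith

theorem curv_formula (D : RedData V H) {F : V → ℝ} (hF : IsMinkowski F) {x : V} (hx : x ≠ 0)
    (w : V) : fund F x (curvR D F x w) w = curvQ D F x w := by
  set n := conn D F x w with hn
  have key : ∀ u, fund F x (conn D F x u) w = - fund F x n u - kk1 D F x w u := by
    intro u
    have h1 := conn_kk1 D hF hx u w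
    have h2 := conn_kk1 D hF hx w u
    rw [mm_anti D w u, map_neg, kk1_symm D hF hx u w] at h1
    linarith
  have h1 := B2_deriv D hF hx w (spray D F x)
  have h2 := key n
  have h3 := key (D.mm x w)
  have h4 : kk1 D F x w n = fderiv ℝ (fun y => fund F y w n) x (spray D F x)
      + fund F x (D.mm x w) n + fund F x w (D.mm x n) := rfl
  have h5 : kk2 D F x w w = fderiv ℝ (fun y => kk1 D F y w w) x (spray D F x)
      + kk1 D F x (D.mm x w) w + kk1 D F x w (D.mm x w) := rfl
  have h6 := kk1_symm D hF hx (D.mm x w) w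
  have h7 : fderiv ℝ (fun y => fund F y w n) x (spray D F x) =
      fderiv ℝ (fun y => fund F y n w) x (spray D F x) := by
    have : (fun y => fund F y w n) =ᶠ[nhds x] fun y => fund F y n w := by
      filter_upwards [B2_nhds hx] with y hy
      exact fund_symm hF hy w n
    rw [this.fderiv_eq]
  have h8 := fund_symm hF hx (D.mm x w) n
  have h9 := fund_symm hF hx w (D.mm x n)
  simp only [curvR, curvQ, map_add, map_sub, map_smul, add_apply, sub_apply, smul_apply,
    smul_eq_mul, ← hn] at *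
  linarith

end HFinG
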