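import Pool.Agent.HFinG.Dual

/-! MODULE D1 (diff 2-3): the inverse of a co-field.

`L` is bijective, `L 0 = 0`, smooth off `0`, positively homogeneous, with `DL(ξ)` symmetric positive
definite (hence invertible) for `ξ ≠ 0`.  Let `Λ = L⁻¹` (`Function.surjInv` or `Function.invFun` or
`(Equiv.ofBijective L hL.bij).symm`; the statements below are for any two-sided inverse).
At `ξ ≠ 0`, `L` has a strict derivative which is a continuous linear equivalence `B`; the local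
inverse `g` of the inverse function theorem (`ContDiffAt.toOpenPartialHomeomorph`/
`HasStrictFDerivAt.localInverse`) is smooth at `L ξ` and satisfies `L (g y) = y` near `L ξ`, so
`Λ = g` near `L ξ` because `L` is injective.  Hence `Λ` is smooth off `0` and
`DΛ(L ξ) ∘ DL(ξ) = id`.
-/

namespace HFinG

open scoped ContDiff RealInnerProductSpace

variable {V : Type*} [NormedAddCommGroup V] [InnerProductSpace ℝ V] [FiniteDimensional ℝ V]

theorem cofield_ne {L : V → V} (hL : IsCoField L) {ξ : V} (hξ : ξ ≠ 0) : L ξ ≠ 0 := by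
  intro h
  exact hξ (hL.bij.1 (by rw [h, hL.zero]))

theorem D1_left {L Λ : V → V} (hL : IsCoField L) (h1 : ∀ x, L (Λ x) = x) (ξ : V) :
    Λ (L ξ) = ξ := hL.bij.1 (h1 (L ξ))

theorem D1_contDiffAt {L : V → V} (hL : IsCoField L) {ξ : V} (hξ : ξ ≠ 0) :
    ContDiffAt ℝ ∞ L ξ :=
  hL.smooth.contDiffAt (isOpen_ne.mem_nhds hξ)

theorem D1_hasFDerivAt {L : V → V} (hL : IsCoField L) {ξ : V} (hξ : ξ ≠ 0) :
    HasFDerivAt L (fderiv ℝ L ξ) ξ :=
  ((D1_contDiffAt hL hξ).differentiableAt (by simp)).hasFDerivAt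

theorem inv_ne {L Λ : V → V} (hL : IsCoField L) (h1 : ∀ x, L (Λ x) = x) {x : V} (hx : x ≠ 0) :
    Λ x ≠ 0 := by
  intro h
  apply hx
  rw [← h1 x, h, hL.zero]

theorem D1_equiv {L : V → V} (hL : IsCoField L) {ξ : V} (hξ : ξ ≠ 0) :
    ∃ e : V ≃L[ℝ] V, (e : V →L[ℝ] V) = fderiv ℝ L ξ := by
  have hinj : Function.Injective ((fderiv ℝ L ξ) : V →ₗ[ℝ] V) := by
    rw [injective_iff_map_eq_zero]
    intro v hv
    by_contra hne
    have := hL.pos ξ hξ v hne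
    have h0 : fderiv ℝ L ξ v = 0 := hv
    rw [h0, inner_zero_left] at this
    exact lt_irrefl _ this
  refine ⟨(LinearEquiv.ofInjectiveEndo _ hinj).toContinuousLinearEquiv, ?_⟩
  ext v
  rfl

theorem D1_inv_contDiffAt {L Λ : V → V} (hL : IsCoField L) (h1 : ∀ x, L (Λ x) = x) {ξ : V}
    (hξ : ξ ≠ 0) : ContDiffAt ℝ ∞ Λ (L ξ) := by
  obtain ⟨e, he⟩ := D1_equiv hL hξ
  have hc := D1_contDiffAt hL hξ
  have hd : HasFDerivAt L (e : V →L[ℝ] V) ξ := by rw [he]; exact D1_hasFDerivAt hL hξ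
  have h2 := hc.to_localInverse hd (by simp)
  refine h2.congr_of_eventuallyEq ?_
  have h3 := (hc.hasStrictFDerivAt' hd (by simp)).eventually_right_inverse
  filter_upwards [h3] with y hy
  apply hL.bij.1
  rw [h1 y]
  exact hy.symm

theorem inv_smooth {L Λ : V → V} (hL : IsCoField L) (h1 : ∀ x, L (Λ x) = x) :
    ContDiffOn ℝ ∞ Λ {x | x ≠ 0} := by
  intro x hx
  have h := D1_inv_contDiffAt hL h1 (inv_ne hL h1 hx)
  rw [h1 x] at h
  exact h.contDiffWithinAt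

theorem inv_smul {L Λ : V → V} (hL : IsCoField L) (h1 : ∀ x, L (Λ x) = x) {c : ℝ} (hc : 0 < c)
    (x : V) : Λ (c • x) = c • Λ x := by
  apply hL.bij.1
  rw [h1, hL.smul c _ hc, h1]

theorem D1_inv_hasFDerivAt {L Λ : V → V} (hL : IsCoField L) (h1 : ∀ x, L (Λ x) = x) {ξ : V}
    (hξ : ξ ≠ 0) : HasFDerivAt Λ (fderiv ℝ Λ (L ξ)) (L ξ) :=
  ((D1_inv_contDiffAt hL h1 hξ).differentiableAt (by simp)).hasFDerivAt

theorem inv_fderiv {L Λ : V → V} (hL : IsCoField L) (h1 : ∀ x, L (Λ x) = x) {ξ : V} (hξ : ξ ≠ 0)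
    (u : V) : fderiv ℝ Λ (L ξ) (fderiv ℝ L ξ u) = u := by
  have hc := (D1_inv_hasFDerivAt hL h1 hξ).comp ξ (D1_hasFDerivAt hL hξ)
  have he : Λ ∘ L = id := by
    funext x
    exact D1_left hL h1 x
  rw [he] at hc
  have := hc.unique (hasFDerivAt_id ξ)
  have h3 := congrArg (fun T : V →L[ℝ] V => T u) this
  simpa using h3

theorem inv_fderiv' {L Λ : V → V} (hL : IsCoField L) (h1 : ∀ x, L (Λ x) = x) {ξ : V} (hξ : ξ ≠ 0)
    (u : V) : fderiv ℝ L ξ (fderiv ℝ Λ (L ξ) u) = u := by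
  have hd : HasFDerivAt L (fderiv ℝ L ξ) (Λ (L ξ)) := by
    rw [D1_left hL h1 ξ]; exact D1_hasFDerivAt hL hξ
  have hc := hd.comp (L ξ) (D1_inv_hasFDerivAt hL h1 hξ)
  have he : L ∘ Λ = id := by
    funext x
    exact h1 x
  rw [he] at hc
  have := hc.unique (hasFDerivAt_id (L ξ))
  have h3 := congrArg (fun T : V →L[ℝ] V => T u) this
  simpa using h3

/-- Euler: `DL(ξ) ξ = L ξ`. -/
theorem cofield_euler {L : V → V} (hL : IsCoField L) {ξ : V} (hξ : ξ ≠ 0) :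
    fderiv ℝ L ξ ξ = L ξ := by
  have h1 : HasDerivAt (fun t : ℝ => t • ξ) ξ 1 := by
    simpa using (hasDerivAt_id (1 : ℝ)).smul_const ξ
  have h2 : HasFDerivAt L (fderiv ℝ L ξ) ((1 : ℝ) • ξ) := by
    rw [one_smul]; exact D1_hasFDerivAt hL hξ
  have h3 : HasDerivAt (fun t : ℝ => L (t • ξ)) (fderiv ℝ L ξ ξ) 1 := h2.comp_hasDerivAt 1 h1
  have h4 : HasDerivAt (fun t : ℝ => t • L ξ) (L ξ) 1 := by
    simpa using (hasDerivAt_id (1 : ℝ)).smul_const (L ξ)
  have h5 : (fun t : ℝ => L (t • ξ)) =ᶠ[nhds 1] (fun t : ℝ => t • L ξ) := by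
    filter_upwards [lt_mem_nhds (show (0 : ℝ) < 1 by norm_num)] with t ht
    exact hL.smul t ξ ht
  exact h3.unique (h4.congr_of_eventuallyEq h5)

end HFinG
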