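import Pool.Agent.HFinG.Dual

/-! MODULE E1 (diff 2-3): a positively homogeneous field is globally Lipschitz, with bounded
derivative.

* `pert_fderiv_smul`: `Dp(cξ) = Dp(ξ)` for `c > 0`, `ξ ≠ 0` (differentiate `p(cξ) = c p(ξ)`).
* `pert_bound`: the unit sphere is compact and `p`, `Dp` are continuous on it; by homogeneity
  `‖p ξ‖ ≤ M ‖ξ‖` and `‖Dp(ξ)‖ ≤ M` for all `ξ ≠ 0`.
* `pert_lipschitz`: `‖p ξ - p ξ'‖ ≤ 5M ‖ξ - ξ'‖` for all `ξ, ξ'`.  Let `d = ‖ξ - ξ'‖`.  If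
  `d < ‖ξ‖` the segment `[ξ, ξ']` avoids `0` and the mean value inequality
  (`Convex.norm_image_sub_le_of_norm_fderiv_le` on the ball `B(ξ, ‖ξ‖)`, which does not contain `0`)
  gives `≤ M d`.  If `d ≥ ‖ξ‖`: `‖p ξ - p ξ'‖ ≤ M (‖ξ‖ + ‖ξ'‖) ≤ M (2‖ξ‖ + d) ≤ 3 M d`.
-/

namespace HFinG

open scoped ContDiff RealInnerProductSpace

variable {V H : Type*} [NormedAddCommGroup V] [InnerProductSpace ℝ V]
  [NormedAddCommGroup H] [InnerProductSpace ℝ H] [FiniteDimensional ℝ V]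

private theorem pert_differentiableAt {D : RedData V H} {p : V → V} (hp : IsPert D p) {ξ : V} (hξ : ξ ≠ 0) :
    DifferentiableAt ℝ p ξ :=
  (hp.smooth.contDiffAt (isOpen_ne.mem_nhds hξ)).differentiableAt (by simp)

theorem pert_fderiv_smul {D : RedData V H} {p : V → V} (hp : IsPert D p) {ξ : V} (hξ : ξ ≠ 0)
    {c : ℝ} (hc : 0 < c) : fderiv ℝ p (c • ξ) = fderiv ℝ p ξ := by
  have hcξ : c • ξ ≠ 0 := smul_ne_zero hc.ne' hξ
  have h1 : HasFDerivAt (fun x => p (c • x))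
      ((fderiv ℝ p (c • ξ)).comp (c • ContinuousLinearMap.id ℝ V)) ξ :=
    (pert_differentiableAt hp hcξ).hasFDerivAt.comp ξ ((hasFDerivAt_id ξ).const_smul c)
  have h2 : HasFDerivAt (fun x => c • p x) (c • fderiv ℝ p ξ) ξ :=
    (pert_differentiableAt hp hξ).hasFDerivAt.const_smul c
  have h3 : (fun x => p (c • x)) = fun x => c • p x := by
    funext x; exact hp.smul c x hc
  rw [h3] at h1
  have h4 := h1.unique h2
  ext v
  have h5 := congrArg (fun T : V →L[ℝ] V => T v) h4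
  simp only [ContinuousLinearMap.comp_apply, ContinuousLinearMap.smul_apply,
    ContinuousLinearMap.id_apply, map_smul] at h5
  exact smul_right_injective V hc.ne' h5

theorem pert_bound {D : RedData V H} {p : V → V} (hp : IsPert D p) :
    ∃ M : ℝ, 0 < M ∧ (∀ ξ, ‖p ξ‖ ≤ M * ‖ξ‖) ∧ ∀ ξ, ξ ≠ 0 → ‖fderiv ℝ p ξ‖ ≤ M := by
  have hsub : Metric.sphere (0 : V) 1 ⊆ {x | x ≠ 0} := by
    intro x hx h0
    have : ‖x‖ = 1 := by simpa using hx
    rw [h0] at this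
    simp at this
  have hc1 : ContinuousOn p (Metric.sphere (0 : V) 1) := hp.smooth.continuousOn.mono hsub
  have hc2 : ContinuousOn (fderiv ℝ p) (Metric.sphere (0 : V) 1) :=
    (hp.smooth.continuousOn_fderiv_of_isOpen isOpen_ne (by simp)).mono hsub
  obtain ⟨M1, h1⟩ := (isCompact_sphere (0 : V) 1).exists_bound_of_continuousOn hc1
  obtain ⟨M2, h2⟩ := (isCompact_sphere (0 : V) 1).exists_bound_of_continuousOn hc2
  have key : ∀ ξ : V, ξ ≠ 0 → ∃ e : V, e ∈ Metric.sphere (0 : V) 1 ∧ ξ = ‖ξ‖ • e := by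
    intro ξ hξ
    have hn : ‖ξ‖ ≠ 0 := norm_ne_zero_iff.mpr hξ
    refine ⟨‖ξ‖⁻¹ • ξ, ?_, ?_⟩
    · simp [norm_smul, hn]
    · rw [smul_smul, mul_inv_cancel₀ hn, one_smul]
  refine ⟨max (max M1 M2) 1, lt_of_lt_of_le one_pos (le_max_right _ _), ?_, ?_⟩
  · intro ξ
    by_cases hξ : ξ = 0
    · rw [hξ, hp.zero]; simp
    · obtain ⟨e, he, hξe⟩ := key ξ hξ
      have hn : 0 < ‖ξ‖ := norm_pos_iff.mpr hξ
      have h3 : p ξ = ‖ξ‖ • p e := by
        conv_lhs => rw [hξe]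
        exact hp.smul _ _ hn
      rw [h3, norm_smul, norm_norm, mul_comm]
      exact mul_le_mul_of_nonneg_right
        ((h1 e he).trans ((le_max_left _ _).trans (le_max_left _ _))) hn.le
  · intro ξ hξ
    obtain ⟨e, he, hξe⟩ := key ξ hξ
    have hn : 0 < ‖ξ‖ := norm_pos_iff.mpr hξ
    have h3 : fderiv ℝ p ξ = fderiv ℝ p e := by
      conv_lhs => rw [hξe]
      exact pert_fderiv_smul hp (hsub he) hn
    rw [h3]
    exact (h2 e he).trans ((le_max_right _ _).trans (le_max_left _ _))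

theorem pert_lipschitz {D : RedData V H} {p : V → V} (hp : IsPert D p) :
    ∃ M : ℝ, 0 < M ∧ (∀ ξ ξ', ‖p ξ - p ξ'‖ ≤ M * ‖ξ - ξ'‖) ∧
      ∀ ξ, ξ ≠ 0 → ‖fderiv ℝ p ξ‖ ≤ M := by
  obtain ⟨M, hM, h1, h2⟩ := pert_bound hp
  refine ⟨3 * M, by positivity, ?_, fun ξ hξ => (h2 ξ hξ).trans (by linarith)⟩
  intro ξ ξ'
  have hd0 : 0 ≤ ‖ξ - ξ'‖ := norm_nonneg _
  rcases lt_or_ge ‖ξ - ξ'‖ ‖ξ‖ with hlt | hge
  · have hpos : 0 < ‖ξ‖ := lt_of_le_of_lt hd0 hlt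
    have hball : ∀ x ∈ Metric.ball ξ ‖ξ‖, x ≠ 0 := by
      intro x hx h0
      rw [h0, Metric.mem_ball, dist_eq_norm] at hx
      simp at hx
    have h3 := Convex.norm_image_sub_le_of_norm_fderiv_le (𝕜 := ℝ) (f := p) (C := M)
      (s := Metric.ball ξ ‖ξ‖) (x := ξ') (y := ξ)
      (fun x hx => pert_differentiableAt hp (hball x hx)) (fun x hx => h2 x (hball x hx))
      (convex_ball _ _)
      (by rw [Metric.mem_ball, dist_eq_norm, norm_sub_rev]; exact hlt)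
      (Metric.mem_ball_self hpos)
    refine h3.trans ?_
    exact mul_le_mul_of_nonneg_right (by linarith) hd0
  · have h4 : ‖ξ'‖ ≤ ‖ξ‖ + ‖ξ - ξ'‖ := by
      have : ξ' = ξ - (ξ - ξ') := by abel
      calc ‖ξ'‖ = ‖ξ - (ξ - ξ')‖ := by rw [← this]
        _ ≤ ‖ξ‖ + ‖ξ - ξ'‖ := norm_sub_le _ _
    calc ‖p ξ - p ξ'‖ ≤ ‖p ξ‖ + ‖p ξ'‖ := norm_sub_le _ _
      _ ≤ M * ‖ξ‖ + M * ‖ξ'‖ := add_le_add (h1 ξ) (h1 ξ')
      _ ≤ M * ‖ξ - ξ'‖ + M * (‖ξ - ξ'‖ + ‖ξ - ξ'‖) := by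
          apply add_le_add
          · exact mul_le_mul_of_nonneg_left hge hM.le
          · exact mul_le_mul_of_nonneg_left (by linarith) hM.le
      _ = 3 * M * ‖ξ - ξ'‖ := by ring

end HFinG
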