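import Pool.Agent.HFinG.E1

/-! MODULE E2 (diff 2): small perturbations of the identity are co-fields.

Take `t0 = 1/(2M)` with `M` from `pert_lipschitz`; `L = Lt p t = id + t p`.
* `fderiv_Lt`: `DL(ξ) v = v + t Dp(ξ) v` for `ξ ≠ 0`.
* symmetry is clear; `⟪DL(ξ) v, v⟫ ≥ ‖v‖² - tM‖v‖² > 0`.
* injective: `‖L ξ - L ξ'‖ ≥ (1 - tM) ‖ξ - ξ'‖`.
* surjective: for `x`, the map `ξ ↦ x - t p ξ` is a contraction of the complete space `V`
  (`ContractingWith.exists_fixedPoint'` / `ContractingWith.fixedPoint`), its fixed point satisfies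
  `L ξ = x`.
-/

namespace HFinG

open scoped ContDiff RealInnerProductSpace

variable {V H : Type*} [NormedAddCommGroup V] [InnerProductSpace ℝ V]
  [NormedAddCommGroup H] [InnerProductSpace ℝ H] [FiniteDimensional ℝ V]

theorem fderiv_Lt {D : RedData V H} {p : V → V} (hp : IsPert D p) (t : ℝ) {ξ : V} (hξ : ξ ≠ 0)
    (v : V) : fderiv ℝ (Lt p t) ξ v = v + t • fderiv ℝ p ξ v := by
  have hd : DifferentiableAt ℝ p ξ :=
    (hp.smooth.contDiffAt (isOpen_ne.mem_nhds hξ)).differentiableAt (by simp)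
  have h1 : HasFDerivAt (Lt p t) (ContinuousLinearMap.id ℝ V + t • fderiv ℝ p ξ) ξ :=
    (hasFDerivAt_id ξ).add (hd.hasFDerivAt.const_smul t)
  rw [h1.fderiv]
  rfl

theorem cofield_small {D : RedData V H} {p : V → V} (hp : IsPert D p) :
    ∃ t0 : ℝ, 0 < t0 ∧ ∀ t, 0 < t → t < t0 → IsCoField (Lt p t) := by
  obtain ⟨M, hM, hlip, hbd⟩ := pert_lipschitz hp
  refine ⟨1 / (2 * M), by positivity, fun t ht ht0 => ?_⟩
  have htM : t * M < 1 / 2 := by
    rw [lt_div_iff₀ (by positivity)] at ht0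
    linarith
  refine ⟨?_, ?_, ?_, ?_, ?_, ?_, ?_⟩
  · simp [Lt, hp.zero]
  · intro c ξ hc
    simp only [Lt, hp.smul c ξ hc, smul_add, smul_smul, mul_comm]
  · exact contDiffOn_id.add (hp.smooth.const_smul t)
  · intro ξ hξ u v
    rw [fderiv_Lt hp t hξ, fderiv_Lt hp t hξ, inner_add_left, inner_add_right, inner_smul_left,
      inner_smul_right, hp.symm ξ hξ]
    simp
  · intro ξ hξ v hv
    rw [fderiv_Lt hp t hξ, inner_add_left, inner_smul_left, real_inner_self_eq_norm_sq]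
    have h1 : |⟪fderiv ℝ p ξ v, v⟫| ≤ M * ‖v‖ ^ 2 := by
      refine (abs_real_inner_le_norm _ _).trans ?_
      have := (fderiv ℝ p ξ).le_of_opNorm_le (hbd ξ hξ) v
      nlinarith [norm_nonneg v]
    have h2 : 0 < ‖v‖ ^ 2 := by
      have := norm_pos_iff.2 hv
      positivity
    have h3 := neg_abs_le ⟪fderiv ℝ p ξ v, v⟫
    simp only [conj_trivial]
    nlinarith
  · intro ξ ξ' h
    have h1 : ξ - ξ' = t • (p ξ' - p ξ) := by
      have h2 : ξ + t • p ξ = ξ' + t • p ξ' := h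
      rw [smul_sub, sub_eq_sub_iff_add_eq_add]
      rw [h2]
      abel
    have h2 : ‖ξ - ξ'‖ ≤ t * (M * ‖ξ' - ξ‖) := by
      conv_lhs => rw [h1, norm_smul, Real.norm_eq_abs, abs_of_pos ht]
      exact mul_le_mul_of_nonneg_left (hlip ξ' ξ) ht.le
    rw [norm_sub_rev ξ' ξ] at h2
    have h3 : ‖ξ - ξ'‖ = 0 := by
      have := norm_nonneg (ξ - ξ')
      nlinarith
    exact sub_eq_zero.1 (norm_eq_zero.1 h3)
  · intro x
    have hK : ContractingWith (1 / 2 : NNReal) (fun ξ : V => x - t • p ξ) := by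
      refine ⟨by
        rw [← NNReal.coe_lt_coe]
        norm_num, ?_⟩
      refine LipschitzWith.of_dist_le_mul fun ξ ξ' => ?_
      rw [dist_eq_norm, dist_eq_norm]
      have h1 : x - t • p ξ - (x - t • p ξ') = t • (p ξ' - p ξ) := by
        rw [smul_sub]
        abel
      rw [h1, norm_smul, Real.norm_eq_abs, abs_of_pos ht]
      have h2 := hlip ξ' ξ
      rw [norm_sub_rev ξ' ξ] at h2
      have h3 := norm_nonneg (ξ - ξ')
      have h4 : t * ‖p ξ' - p ξ‖ ≤ t * (M * ‖ξ - ξ'‖) := mul_le_mul_of_nonneg_left h2 ht.le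
      have h5 : ((1 / 2 : NNReal) : ℝ) = 1 / 2 := by norm_num
      rw [h5]
      nlinarith
    have h1 : x - t • p (ContractingWith.fixedPoint _ hK) = ContractingWith.fixedPoint _ hK :=
      hK.fixedPoint_isFixedPt
    refine ⟨ContractingWith.fixedPoint _ hK, ?_⟩
    rw [sub_eq_iff_eq_add] at h1
    exact h1.symm

end HFinG
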