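import Pool.Agent.HFinG.D1
import Pool.Agent.HFinG.B1

/-! MODULE F1 (diff 3): the forms `k`, `k°` in dual variables.

Fix `ξ ≠ 0`, `x = L ξ ≠ 0` (`cofield_ne`), `B = DL(ξ)`, `ζ = [x, ξ]_𝔪 = D.mm (L ξ) ξ`.
`hFL.hess`: `g_x(B u, v) = ⟪u, v⟫`.  `hFL.grad` + `fund_self`: `g_x(x, v) = ⟪ξ, v⟫`.
(a) `spray_dual`: `spray D F x = B ζ`: `g_x(B ζ, v) = ⟪[x,ξ], v⟫ = ⟪ξ, [v,x]⟫ = g_x(x,[v,x])`
(`hD.skew`: `⟪[x,ξ],v⟫ = -⟪ξ,[x,v]⟫ = ⟪ξ,[v,x]⟫`), then `fund_inj`, `spray_spec`.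
(b) `fderiv_transport`: for `f` differentiable at `L ξ`,
`Df(x)(spray) = D(f ∘ L)(ξ)(ζ)` (chain rule).
(c) `dg_dual`: differentiate `g_{L y}(DL(y) a, b) = ⟪a,b⟫` (all `y ≠ 0`) at `ξ` in the direction `ζ`:
`D_η g(B a, b) = - g_x(B'a, b)`, `B'a = D(y ↦ DL(y) a)(ξ)(ζ)`.
(d) `kk1_dual`: `k_x(B a, b) = - g_x(q a, b)` with `q a = B'a - [x,Ba] + B[x,a]` (`coq`): indeed
`g(Ba,[x,b]) = ⟪a,[x,b]⟫ = -⟪[x,a],b⟫ = - g(B[x,a],b)`.
(e) `kk2_dual`: `k°_x(B a, b) = - 2 k_x(q a, b) - g_x(qq a, b)`, `qq = coqq`.  Proof: (d) holds at all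
`y ≠ 0`: `k_{Ly}(DL(y) a, b) = - g_{Ly}(q_y a, b)`.  Differentiate at `ξ` in the direction `ζ`:
`D_ηk(Ba,b) + k(B'a,b) = - D_ηg(qa,b) - g(q'a,b)`, where `q'a = D(y ↦ q_y a)(ξ)(ζ)` and
`D_ηg(qa,b) = k(qa,b) - g([x,qa],b) - g(qa,[x,b])` by definition of `k`.  Hence
`k°(Ba,b) = D_ηk(Ba,b) + k([x,Ba],b) + k(Ba,[x,b])
 = - k(B'a - [x,Ba], b) - k(qa,b) + g([x,qa],b) + g(qa,[x,b]) - g(q'a,b) - g(qa,[x,b])`
and `B'a - [x,Ba] = qa - B[x,a]`, `k(B[x,a],b) = - g(q[x,a],b)`; the sum is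
`- 2k(qa,b) - g(q'a - [x,qa] + q[x,a], b)`.  QED
All functions involved are differentiable since `L` is smooth off `0` (`coq` is smooth in `ξ`).
-/

namespace HFinG

open scoped ContDiff RealInnerProductSpace

variable {V H : Type*} [NormedAddCommGroup V] [InnerProductSpace ℝ V]
  [NormedAddCommGroup H] [InnerProductSpace ℝ H] [FiniteDimensional ℝ V]

/-- Product rule for an expression linear in its last argument. -/
theorem F1_prod {f : V → V → ℝ} {x : V}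
    (hadd : ∀ᶠ y in nhds x, ∀ u v, f y (u + v) = f y u + f y v)
    (hsmul : ∀ᶠ y in nhds x, ∀ (c : ℝ) v, f y (c • v) = c * f y v)
    (hd : ∀ v, DifferentiableAt ℝ (fun y => f y v) x) {e : V → V}
    (he : DifferentiableAt ℝ e x) (h : V) :
    fderiv ℝ (fun y => f y (e y)) x h =
      fderiv ℝ (fun y => f y (e x)) x h + f x (fderiv ℝ e x h) := by
  classical
  let b := Module.finBasis ℝ V
  have key : ∀ᶠ y in nhds x, ∀ v, f y v = ∑ i, b.repr v i * f y (b i) := by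
    filter_upwards [hadd, hsmul] with y h1 h2 v
    let φ : V →ₗ[ℝ] ℝ :=
      { toFun := f y
        map_add' := h1
        map_smul' := fun c v => by simp [h2] }
    have h3 : φ v = φ (∑ i, b.repr v i • b i) := by rw [b.sum_repr]
    rw [map_sum] at h3
    simp only [map_smul, smul_eq_mul] at h3
    exact h3
  have hc : ∀ i, HasFDerivAt (fun y => b.repr (e y) i)
      ((LinearMap.toContinuousLinearMap (b.coord i)).comp (fderiv ℝ e x)) x := fun i =>
    (LinearMap.toContinuousLinearMap (b.coord i)).hasFDerivAt.comp x he.hasFDerivAt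
  have h1 : HasFDerivAt (fun y => ∑ i, b.repr (e y) i * f y (b i))
      (∑ i, (b.repr (e x) i • fderiv ℝ (fun y => f y (b i)) x + f x (b i) •
        ((LinearMap.toContinuousLinearMap (b.coord i)).comp (fderiv ℝ e x)))) x :=
    HasFDerivAt.fun_sum (fun i _ => (hc i).mul (hd (b i)).hasFDerivAt)
  have h2 : HasFDerivAt (fun y => ∑ i, b.repr (e x) i * f y (b i))
      (∑ i, (b.repr (e x) i • fderiv ℝ (fun y => f y (b i)) x)) x :=
    HasFDerivAt.fun_sum (fun i _ => (hd (b i)).hasFDerivAt.const_mul _)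
  have e1 : (fun y => f y (e y)) =ᶠ[nhds x] (fun y => ∑ i, b.repr (e y) i * f y (b i)) := by
    filter_upwards [key] with y hy using hy _
  have e2 : (fun y => f y (e x)) =ᶠ[nhds x] (fun y => ∑ i, b.repr (e x) i * f y (b i)) := by
    filter_upwards [key] with y hy using hy _
  rw [(h1.congr_of_eventuallyEq e1).fderiv, (h2.congr_of_eventuallyEq e2).fderiv,
    key.self_of_nhds (fderiv ℝ e x h), Finset.sum_add_distrib]
  simp only [add_apply, sum_apply, smul_apply, ContinuousLinearMap.comp_apply,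
    LinearMap.coe_toContinuousLinearMap', Module.Basis.coord_apply, smul_eq_mul]
  congr 1
  exact Finset.sum_congr rfl fun i _ => mul_comm _ _

theorem F1_fderiv_smooth {L : V → V} (hL : IsCoField L) (a : V) :
    ContDiffOn ℝ ∞ (fun y => fderiv ℝ L y a) {x | x ≠ 0} :=
  (hL.smooth.fderiv_of_isOpen isOpen_ne (by simp)).clm_apply contDiffOn_const

theorem coq_smooth {D : RedData V H} {L : V → V} (hL : IsCoField L) (σ : V) :
    ContDiffOn ℝ ∞ (fun y => coq D L y σ) {x | x ≠ 0} := by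
  have h0 := hL.smooth.fderiv_of_isOpen (m := ∞) isOpen_ne (by simp)
  have h1 := F1_fderiv_smooth hL σ
  have h2 := h1.fderiv_of_isOpen (m := ∞) isOpen_ne (by simp)
  have h3 : ContDiffOn ℝ ∞ (fun y => D.mm (L y)) {x : V | x ≠ 0} :=
    D.mm.contDiff.comp_contDiffOn hL.smooth
  unfold coq
  exact ((h2.clm_apply (h3.clm_apply contDiffOn_id)).sub (h3.clm_apply h1)).add
    (h0.clm_apply (h3.clm_apply contDiffOn_const))

theorem fund_self_dual {F : V → ℝ} (hF : IsMinkowski F) {L : V → V} (hL : IsCoField L)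
    (hFL : IsDualPair F L) {ξ : V} (hξ : ξ ≠ 0) (v : V) :
    fund F (L ξ) (L ξ) v = ⟪ξ, v⟫ := by
  rw [fund_self hF (cofield_ne hL hξ), hFL.grad ξ hξ]

theorem spray_dual {D : RedData V H} (hD : IsNormal D) {F : V → ℝ} (hF : IsMinkowski F)
    {L : V → V} (hL : IsCoField L) (hFL : IsDualPair F L) {ξ : V} (hξ : ξ ≠ 0) :
    spray D F (L ξ) = fderiv ℝ L ξ (D.mm (L ξ) ξ) := by
  have hx := cofield_ne hL hξ
  apply fund_inj hF hx
  intro v
  rw [spray_spec D hF hx, fund_self_dual hF hL hFL hξ, hFL.hess ξ hξ, hD.skew, mm_anti D v,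
    inner_neg_right]

/-- Chain rule and product rule together. -/
theorem F1_chain {f : V → V → ℝ} {L : V → V} (hL : IsCoField L) {ξ : V} (hξ : ξ ≠ 0)
    (hadd : ∀ x, x ≠ 0 → ∀ u v, f x (u + v) = f x u + f x v)
    (hsmul : ∀ x, x ≠ 0 → ∀ (c : ℝ) v, f x (c • v) = c * f x v)
    (hd : ∀ v, DifferentiableAt ℝ (fun x => f x v) (L ξ)) {e : V → V}
    (he : DifferentiableAt ℝ e ξ) (h : V) :
    fderiv ℝ (fun y => f (L y) (e y)) ξ h =
      fderiv ℝ (fun x => f x (e ξ)) (L ξ) (fderiv ℝ L ξ h) + f (L ξ) (fderiv ℝ e ξ h) := by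
  have hne : ∀ᶠ y in nhds ξ, y ≠ 0 := isOpen_ne.mem_nhds hξ
  have hLd : DifferentiableAt ℝ L ξ :=
    (hL.smooth.contDiffAt (isOpen_ne.mem_nhds hξ)).differentiableAt (by simp)
  have hcomp : ∀ v, HasFDerivAt (fun y => f (L y) v)
      ((fderiv ℝ (fun x => f x v) (L ξ)).comp (fderiv ℝ L ξ)) ξ := fun v =>
    (hd v).hasFDerivAt.comp ξ hLd.hasFDerivAt
  have h1 := F1_prod (f := fun y v => f (L y) v) (x := ξ)
    (by filter_upwards [hne] with y hy using hadd _ (cofield_ne hL hy))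
    (by filter_upwards [hne] with y hy using hsmul _ (cofield_ne hL hy))
    (fun v => (hcomp v).differentiableAt) he h
  rw [h1, (hcomp (e ξ)).fderiv]
  rfl

theorem F1_dg {F : V → ℝ} (hF : IsMinkowski F) {L : V → V} (hL : IsCoField L)
    {ξ : V} (hξ : ξ ≠ 0) (b : V) {e : V → V} (he : DifferentiableAt ℝ e ξ) (h : V) :
    fderiv ℝ (fun y => fund F (L y) (e y) b) ξ h =
      fderiv ℝ (fun x => fund F x (e ξ) b) (L ξ) (fderiv ℝ L ξ h) +
        fund F (L ξ) (fderiv ℝ e ξ h) b :=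
  F1_chain (f := fun x v => fund F x v b) hL hξ (fun x _ u v => by simp)
    (fun x _ c v => by simp)
    (fun v => ((fund_eval_smooth hF v b).contDiffAt
      (isOpen_ne.mem_nhds (cofield_ne hL hξ))).differentiableAt (by simp)) he h

theorem kk1_dual {D : RedData V H} (hD : IsNormal D) {F : V → ℝ} (hF : IsMinkowski F)
    {L : V → V} (hL : IsCoField L) (hFL : IsDualPair F L) {ξ : V} (hξ : ξ ≠ 0) (a b : V) :
    kk1 D F (L ξ) (fderiv ℝ L ξ a) b = - fund F (L ξ) (coq D L ξ a) b := by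
  have hne : ∀ᶠ y in nhds ξ, y ≠ 0 := isOpen_ne.mem_nhds hξ
  have he : DifferentiableAt ℝ (fun y => fderiv ℝ L y a) ξ :=
    ((F1_fderiv_smooth hL a).contDiffAt (isOpen_ne.mem_nhds hξ)).differentiableAt (by simp)
  have h1 := F1_dg hF hL hξ b he (D.mm (L ξ) ξ)
  have h2 : (fun y => fund F (L y) (fderiv ℝ L y a) b) =ᶠ[nhds ξ] fun _ => ⟪a, b⟫ := by
    filter_upwards [hne] with y hy using hFL.hess y hy a b
  rw [h2.fderiv_eq, fderiv_fun_const] at h1
  simp only [Pi.zero_apply, zero_apply] at h1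
  rw [← spray_dual hD hF hL hFL hξ] at h1
  have h3 : fund F (L ξ) (fderiv ℝ L ξ a) (D.mm (L ξ) b) =
      - fund F (L ξ) (fderiv ℝ L ξ (D.mm (L ξ) a)) b := by
    rw [hFL.hess ξ hξ, hFL.hess ξ hξ, hD.skew, neg_neg]
  unfold kk1 coq
  rw [h3]
  simp only [map_add, map_sub, add_apply, sub_apply]
  linarith

theorem kk2_dual {D : RedData V H} (hD : IsNormal D) {F : V → ℝ} (hF : IsMinkowski F)
    {L : V → V} (hL : IsCoField L) (hFL : IsDualPair F L) {ξ : V} (hξ : ξ ≠ 0) (a b : V) :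
    kk2 D F (L ξ) (fderiv ℝ L ξ a) b =
      - 2 * kk1 D F (L ξ) (coq D L ξ a) b - fund F (L ξ) (coqq D L ξ a) b := by
  have hne : ∀ᶠ y in nhds ξ, y ≠ 0 := isOpen_ne.mem_nhds hξ
  have hx := cofield_ne hL hξ
  have he : DifferentiableAt ℝ (fun y => fderiv ℝ L y a) ξ :=
    ((F1_fderiv_smooth hL a).contDiffAt (isOpen_ne.mem_nhds hξ)).differentiableAt (by simp)
  have hq : DifferentiableAt ℝ (fun y => coq D L y a) ξ :=
    ((coq_smooth (D := D) hL a).contDiffAt (isOpen_ne.mem_nhds hξ)).differentiableAt (by simp)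
  have hadd : ∀ x : V, x ≠ 0 → ∀ u v, kk1 D F x (u + v) b = kk1 D F x u b + kk1 D F x v b :=
    fun x hx u v => kk1_add D hF hx u v b
  have hsmul : ∀ x : V, x ≠ 0 → ∀ (c : ℝ) v, kk1 D F x (c • v) b = c * kk1 D F x v b :=
    fun x hx c v => kk1_smul D hF hx c v b
  have h1 := F1_chain (f := fun x v => kk1 D F x v b) hL hξ hadd hsmul
    (fun v => ((kk1_smooth D hF v b).contDiffAt (isOpen_ne.mem_nhds hx)).differentiableAt
      (by simp)) he (D.mm (L ξ) ξ)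
  have h2 := F1_dg hF hL hξ b hq (D.mm (L ξ) ξ)
  have h3 : (fun y => kk1 D F (L y) (fderiv ℝ L y a) b) =ᶠ[nhds ξ]
      fun y => - fund F (L y) (coq D L y a) b := by
    filter_upwards [hne] with y hy using kk1_dual hD hF hL hFL hy a b
  rw [h3.fderiv_eq, fderiv_fun_neg, neg_apply, h2, ← spray_dual hD hF hL hFL hξ] at h1
  have h4 := kk1_dual hD hF hL hFL hξ a (D.mm (L ξ) b)
  have h5 := kk1_dual hD hF hL hFL hξ (D.mm (L ξ) a) b
  have h6 : kk1 D F (L ξ) (coq D L ξ a) b =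
      kk1 D F (L ξ) (fderiv ℝ (fun y => fderiv ℝ L y a) ξ (D.mm (L ξ) ξ)) b
        - kk1 D F (L ξ) (D.mm (L ξ) (fderiv ℝ L ξ a)) b
        + kk1 D F (L ξ) (fderiv ℝ L ξ (D.mm (L ξ) a)) b := by
    have e1 : ∀ u v w : V, kk1 D F (L ξ) (u - v + w) b =
        kk1 D F (L ξ) u b - kk1 D F (L ξ) v b + kk1 D F (L ξ) w b := by
      intro u v w
      have e2 : u - v = u + (-1 : ℝ) • v := by simp [sub_eq_add_neg]
      rw [e2, hadd _ hx, hadd _ hx, hsmul _ hx]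
      ring
    exact e1 _ _ _
  have h7 : kk1 D F (L ξ) (coq D L ξ a) b =
      fderiv ℝ (fun y => fund F y (coq D L ξ a) b) (L ξ) (spray D F (L ξ))
        + fund F (L ξ) (D.mm (L ξ) (coq D L ξ a)) b
        + fund F (L ξ) (coq D L ξ a) (D.mm (L ξ) b) := rfl
  have h8 : fund F (L ξ) (coqq D L ξ a) b =
      fund F (L ξ) (fderiv ℝ (fun y => coq D L y a) ξ (D.mm (L ξ) ξ)) b
        - fund F (L ξ) (D.mm (L ξ) (coq D L ξ a)) b
        + fund F (L ξ) (coq D L ξ (D.mm (L ξ) a)) b := by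
    unfold coqq
    simp only [map_add, map_sub, add_apply, sub_apply]
  unfold kk2
  rw [h4, h8]
  linarith

end HFinG
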