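import Pool.Agent.HFinG.P5

/-! MODULE P6 (diff 3-4): every local parametrization is locally `psi A ∘ φ`.

Let `ψ v = z ∈ Stiefel`, `A` with `A ea = z.1`, `A eb = z.2` (`stiefel_trans`), `psi A 0 = z`.
Consider `Φ : Vn n × (ℝ × ℝ × ℝ) → Wn n × Wn n`,
`Φ(y, s, t, r) = (s • (psi A y).1, t • (psi A y).2 + r • (psi A y).1)`, smooth.  At `(0, 1, 1, 0)` its
derivative is `(y, s', t', r') ↦ (A(Y ea + s' ea), A(Y eb + t' eb + r' ea))`, `Y = ι y` (`psi_fderiv`,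
`cayC_zero`, `Xop 0 y = ι y`).  It is injective: `⟪ea, ·⟫` of the first component gives `s' = 0`, so
`Y ea = 0`; `⟪eb, ·⟫` of the second gives `t' = 0`, `⟪ea, ·⟫` gives `r' = -⟪ea, Y eb⟫ = ⟪Y ea, eb⟫ = 0`; so
`Y eb = 0` and `y = prm Y = 0`.  Dimensions: `(2n+1) + 3 = 2(n+2)`, so it is bijective, and the inverse
function theorem (`ContDiffAt.toOpenPartialHomeomorph` / `HasStrictFDerivAt.toOpenPartialHomeomorph`,
`ContDiffAt.to_localInverse`) gives a smooth local inverse `g` near `z` with `Φ(g w) = w`,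
`g z = (0,1,1,0)`.  Put `(φ, s, t, r) = g ∘ ψ` near `v`: smooth at `v`, `φ v = 0`.
For `v'` near `v`: `ψ v' = Φ(φ, s, t, r) ∈ Stiefel` with `psi A (φ v') ∈ Stiefel` (`psi_mem`): `|s| = 1` and `s`
near `1` so `s = 1`; `⟪x, t x' + r x⟫ = r = 0`; `|t| = 1` so `t = 1`.  So `ψ v' = psi A (φ v')`.
`Dψ(v) = Dpsi(0) ∘ Dφ(v)` is injective, so `Dφ(v)` is injective, hence bijective (`hV`; `dim Vn n = 2n+1`:
`finrank_Vn`).
-/

namespace HFinG

open scoped ContDiff RealInnerProductSpace Topology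

variable {n : ℕ}

theorem finrank_Vn (n : ℕ) : Module.finrank ℝ (Vn n) = 2 * n + 1 := by
  have e1 : Vn n ≃ₗ[ℝ] ℝ × WithLp 2 (En n × En n) := WithLp.linearEquiv 2 ℝ _
  have e2 : WithLp 2 (En n × En n) ≃ₗ[ℝ] En n × En n := WithLp.linearEquiv 2 ℝ _
  rw [e1.finrank_eq, Module.finrank_prod, e2.finrank_eq, Module.finrank_prod]
  simp
  ring

/-- the auxiliary map `(y, s, t, r) ↦ (s • (psi A y).1, t • (psi A y).2 + r • (psi A y).1)` -/
noncomputable def P6_Phi (A : Wn n ≃ₗᵢ[ℝ] Wn n) (p : Vn n × (ℝ × ℝ × ℝ)) : Wn n × Wn n :=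
  (p.2.1 • (psi A p.1).1, p.2.2.1 • (psi A p.1).2 + p.2.2.2 • (psi A p.1).1)

theorem P6_Phi_smooth (A : Wn n ≃ₗᵢ[ℝ] Wn n) : ContDiff ℝ ∞ (P6_Phi A) := by
  have h0 : ContDiff ℝ ∞ (fun p : Vn n × (ℝ × ℝ × ℝ) => psi A p.1) :=
    (psi_smooth A).comp contDiff_fst
  have hx : ContDiff ℝ ∞ (fun p : Vn n × (ℝ × ℝ × ℝ) => (psi A p.1).1) := contDiff_fst.comp h0
  have hx' : ContDiff ℝ ∞ (fun p : Vn n × (ℝ × ℝ × ℝ) => (psi A p.1).2) := contDiff_snd.comp h0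
  have hs : ContDiff ℝ ∞ (fun p : Vn n × (ℝ × ℝ × ℝ) => p.2.1) := contDiff_fst.comp contDiff_snd
  have hb : ContDiff ℝ ∞ (fun p : Vn n × (ℝ × ℝ × ℝ) => p.2.2) := contDiff_snd.comp contDiff_snd
  have ht : ContDiff ℝ ∞ (fun p : Vn n × (ℝ × ℝ × ℝ) => p.2.2.1) := contDiff_fst.comp hb
  have hr : ContDiff ℝ ∞ (fun p : Vn n × (ℝ × ℝ × ℝ) => p.2.2.2) := contDiff_snd.comp hb
  exact (hs.smul hx).prodMk ((ht.smul hx').add (hr.smul hx))

theorem P6_Phi_base (A : Wn n ≃ₗᵢ[ℝ] Wn n) : P6_Phi A (0, (1, 1, 0)) = (A ea, A eb) := by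
  simp [P6_Phi, psi_zero]

theorem P6_psi_fderiv_zero (A : Wn n ≃ₗᵢ[ℝ] Wn n) (y : Vn n) :
    fderiv ℝ (psi A) 0 y = (A (iotaL y ea), A (iotaL y eb)) := by
  rw [psi_fderiv]
  have : Xop 0 y = iotaL y := by
    rw [Xop, cayP_zero, cayQ_zero, one_mul, mul_one]
  rw [this, cayC_zero]
  rfl

theorem P6_Phi_fderiv (A : Wn n ≃ₗᵢ[ℝ] Wn n) (p : Vn n × (ℝ × ℝ × ℝ)) :
    fderiv ℝ (P6_Phi A) (0, (1, 1, 0)) p =
      (A (iotaL p.1 ea + p.2.1 • ea), A (iotaL p.1 eb + p.2.2.1 • eb + p.2.2.2 • ea)) := by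
  have hd : HasFDerivAt (psi A) (fderiv ℝ (psi A) 0) 0 :=
    ((psi_smooth A).differentiable (by simp)).differentiableAt.hasFDerivAt
  have h0 : HasFDerivAt (fun p : Vn n × (ℝ × ℝ × ℝ) => psi A p.1)
      ((fderiv ℝ (psi A) 0).comp (ContinuousLinearMap.fst ℝ (Vn n) (ℝ × ℝ × ℝ))) (0, (1, 1, 0)) :=
    HasFDerivAt.comp (g := psi A) ((0 : Vn n), ((1 : ℝ), (1 : ℝ), (0 : ℝ))) hd hasFDerivAt_fst
  have hx := h0.fst
  have hx' := h0.snd
  have hS : HasFDerivAt (fun p : Vn n × (ℝ × ℝ × ℝ) => p.2)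
    (ContinuousLinearMap.snd ℝ (Vn n) (ℝ × ℝ × ℝ))
    ((0 : Vn n), ((1 : ℝ), (1 : ℝ), (0 : ℝ))) := hasFDerivAt_snd
  have hs := hS.fst
  have hb := hS.snd
  have ht := hb.fst
  have hr := hb.snd
  have hΦ := (hs.smul hx).prodMk ((ht.smul hx').add (hr.smul hx))
  have e : P6_Phi A = fun p : Vn n × (ℝ × ℝ × ℝ) => (p.2.1 • (psi A p.1).1,
    p.2.2.1 • (psi A p.1).2 + p.2.2.2 • (psi A p.1).1) := rfl
  rw [e]
  have h1 := hΦ.fderiv
  have h2 := congrArg (fun f : Vn n × (ℝ × ℝ × ℝ) →L[ℝ] Wn n × Wn n => f p) h1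
  refine Eq.trans h2 ?_
  have z1 := P6_psi_fderiv_zero A p.1
  refine Prod.ext ?_ ?_
  · simp [psi_zero, z1]
  · simp [psi_zero, z1]

theorem P6_inj (A : Wn n ≃ₗᵢ[ℝ] Wn n) :
    Function.Injective (fderiv ℝ (P6_Phi A) (0, (1, 1, 0))) := by
  rw [injective_iff_map_eq_zero]
  intro p hp
  rw [P6_Phi_fderiv] at hp
  have h1 : iotaL p.1 ea + p.2.1 • ea = 0 := by
    have := congrArg Prod.fst hp
    have h3 : A (iotaL p.1 ea + p.2.1 • ea) = 0 := this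
    exact (map_eq_zero_iff A A.injective).mp h3
  have h2 : iotaL p.1 eb + p.2.2.1 • eb + p.2.2.2 • ea = 0 := by
    have := congrArg Prod.snd hp
    have h3 : A (iotaL p.1 eb + p.2.2.1 • eb + p.2.2.2 • ea) = 0 := this
    exact (map_eq_zero_iff A A.injective).mp h3
  rw [iota_ea] at h1
  rw [iota_eb] at h2
  have k := κ_pos.ne'
  have hea : (ea : Wn n) ≠ 0 := by
    intro h
    have := norm_ea (n := n)
    rw [h, norm_zero] at this
    exact zero_ne_one this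
  have heb : (eb : Wn n) ≠ 0 := by
    intro h
    have := norm_eb (n := n)
    rw [h, norm_zero] at this
    exact zero_ne_one this
  have a1 := congrArg (fun q => ⟪(ea : Wn n), q⟫) h1
  have a2 := congrArg (fun q => ⟪(eb : Wn n), q⟫) h1
  have a3 := congrArg (fun q => Jt q) h1
  have b1 := congrArg (fun q => ⟪(ea : Wn n), q⟫) h2
  have b2 := congrArg (fun q => ⟪(eb : Wn n), q⟫) h2
  have b3 := congrArg (fun q => Jt q) h2
  simp [inner_add_right, real_inner_smul_right, k, hea, heb] at a1 a2 a3 b1 b2 b3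
  rw [a2] at b1
  simp [hea] at b1
  refine Prod.ext (ext3 ?_ ?_ ?_) (Prod.ext a1 (Prod.ext b2 b1))
  · simpa using a2
  · simpa using a3
  · simpa using b3

theorem P6_equiv (A : Wn n ≃ₗᵢ[ℝ] Wn n) :
    ∃ e : (Vn n × (ℝ × ℝ × ℝ)) ≃L[ℝ] (Wn n × Wn n),
      (e : (Vn n × (ℝ × ℝ × ℝ)) →L[ℝ] (Wn n × Wn n)) = fderiv ℝ (P6_Phi A) (0, (1, 1, 0)) := by
  have hr : Module.finrank ℝ (Vn n × (ℝ × ℝ × ℝ)) = Module.finrank ℝ (Wn n × Wn n) := by
    rw [Module.finrank_prod, Module.finrank_prod, finrank_Vn]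
    simp
    ring
  have hinj := P6_inj A
  have hsurj : Function.Surjective (fderiv ℝ (P6_Phi A) (0, (1, 1, 0))) :=
    (LinearMap.injective_iff_surjective_of_finrank_eq_finrank
      (f := (fderiv ℝ (P6_Phi A) (0, (1, 1, 0)) : (Vn n × (ℝ × ℝ × ℝ)) →ₗ[ℝ] (Wn n × Wn n)))
      hr).mp hinj
  exact ⟨ContinuousLinearEquiv.ofBijective (fderiv ℝ (P6_Phi A) (0, (1, 1, 0)))
    (LinearMap.ker_eq_bot.mpr hinj) (LinearMap.range_eq_top.mpr hsurj),
    ContinuousLinearEquiv.coe_ofBijective _ _ _⟩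

/-- on the Stiefel manifold the auxiliary parameters are trivial -/
theorem P6_rigid {A : Wn n ≃ₗᵢ[ℝ] Wn n} {p : Vn n × (ℝ × ℝ × ℝ)}
    (h : P6_Phi A p ∈ Stiefel (n + 2)) (hs : 0 < p.2.1) (ht : 0 < p.2.2.1) :
    P6_Phi A p = psi A p.1 := by
  obtain ⟨h1, h2, h3⟩ := h
  obtain ⟨g1, g2, g3⟩ := psi_mem A p.1
  have e1 : (P6_Phi A p).1 = p.2.1 • (psi A p.1).1 := rfl
  have e2 : (P6_Phi A p).2 = p.2.2.1 • (psi A p.1).2 + p.2.2.2 • (psi A p.1).1 := rfl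
  have hs1 : p.2.1 = 1 := by
    rw [e1, norm_smul, g1, mul_one, Real.norm_eq_abs, abs_of_pos hs] at h1
    exact h1
  have hr0 : p.2.2.2 = 0 := by
    rw [e1, e2, hs1, one_smul, inner_add_right, real_inner_smul_right, real_inner_smul_right,
      g3, real_inner_self_eq_norm_sq, g1] at h3
    simpa using h3
  have ht1 : p.2.2.1 = 1 := by
    rw [e2, hr0, zero_smul, add_zero, norm_smul, g2, mul_one, Real.norm_eq_abs,
      abs_of_pos ht] at h2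
    exact h2
  refine Prod.ext ?_ ?_
  · rw [e1, hs1, one_smul]
  · rw [e2, hr0, ht1, one_smul, zero_smul, add_zero]

theorem param_local {V' : Type*} [NormedAddCommGroup V'] [NormedSpace ℝ V']
    [FiniteDimensional ℝ V'] (hV : Module.finrank ℝ V' = 2 * n + 1) {U : Set V'}
    {ψ : V' → Wn n × Wn n} (hψ : IsParam (Stiefel (n + 2)) U ψ) {v : V'} (hv : v ∈ U) :
    ∃ (A : Wn n ≃ₗᵢ[ℝ] Wn n) (φ : V' → Vn n), ContDiffAt ℝ ∞ φ v ∧ φ v = 0 ∧
      Function.Bijective (fderiv ℝ φ v) ∧ ∀ᶠ v' in 𝓝 v, ψ v' = psi A (φ v') := by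
  obtain ⟨A, hA1, hA2⟩ := stiefel_trans (hψ.mem v hv)
  obtain ⟨e, he⟩ := P6_equiv A
  have hsm : ContDiffAt ℝ ∞ (P6_Phi A) (0, (1, 1, 0)) := (P6_Phi_smooth A).contDiffAt
  have hfd : HasFDerivAt (P6_Phi A) (e : (Vn n × (ℝ × ℝ × ℝ)) →L[ℝ] (Wn n × Wn n))
      (0, (1, 1, 0)) := by
    rw [he]
    exact (hsm.differentiableAt (by simp)).hasFDerivAt
  have hbase : P6_Phi A (0, (1, 1, 0)) = ψ v := by
    rw [P6_Phi_base, hA1, hA2]
  have hne : (∞ : WithTop ℕ∞) ≠ 0 := by simp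
  set g := hsm.localInverse hfd hne with hg
  have hg0 : g (ψ v) = (0, (1, 1, 0)) := by
    rw [← hbase]
    exact hsm.localInverse_apply_image hfd hne
  have hgs : ContDiffAt ℝ ∞ g (ψ v) := by
    rw [← hbase]
    exact hsm.to_localInverse hfd hne
  have hgr : ∀ᶠ w in 𝓝 (ψ v), P6_Phi A (g w) = w := by
    rw [← hbase]
    exact (hsm.hasStrictFDerivAt' hfd hne).eventually_right_inverse
  have hψs : ContDiffAt ℝ ∞ ψ v := hψ.smooth.contDiffAt (hψ.isOpen.mem_nhds hv)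
  have hq : ContDiffAt ℝ ∞ (fun v' => g (ψ v')) v := ContDiffAt.comp (g := g) v hgs hψs
  have hφ : ContDiffAt ℝ ∞ (fun v' => (g (ψ v')).1) v := contDiffAt_fst.comp v hq
  have hev : ∀ᶠ v' in 𝓝 v, ψ v' = psi A (g (ψ v')).1 := by
    have c1 : ∀ᶠ v' in 𝓝 v, P6_Phi A (g (ψ v')) = ψ v' := hψs.continuousAt.eventually hgr
    have c2 : ∀ᶠ v' in 𝓝 v, v' ∈ U := hψ.isOpen.mem_nhds hv
    have hs : ContinuousAt (fun v' => (g (ψ v')).2.1) v :=
      (continuous_fst.comp continuous_snd).continuousAt.comp hq.continuousAt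
    have ht : ContinuousAt (fun v' => (g (ψ v')).2.2.1) v :=
      (continuous_fst.comp (continuous_snd.comp continuous_snd)).continuousAt.comp hq.continuousAt
    have c3 : ∀ᶠ v' in 𝓝 v, 0 < (g (ψ v')).2.1 := by
      refine hs.eventually (lt_mem_nhds ?_)
      show 0 < (g (ψ v)).2.1
      rw [hg0]
      exact one_pos
    have c4 : ∀ᶠ v' in 𝓝 v, 0 < (g (ψ v')).2.2.1 := by
      refine ht.eventually (lt_mem_nhds ?_)
      show 0 < (g (ψ v)).2.2.1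
      rw [hg0]
      exact one_pos
    filter_upwards [c1, c2, c3, c4] with v' d1 d2 d3 d4
    have hmem : P6_Phi A (g (ψ v')) ∈ Stiefel (n + 2) := by
      rw [d1]
      exact hψ.mem v' d2
    rw [← P6_rigid hmem d3 d4, d1]
  have hφ0 : (g (ψ v)).1 = 0 := by rw [hg0]
  refine ⟨A, fun v' => (g (ψ v')).1, hφ, hφ0, ?_, hev⟩
  have hd1 : HasFDerivAt (fun v' => (g (ψ v')).1) (fderiv ℝ (fun v' => (g (ψ v')).1) v) v :=
    (hφ.differentiableAt (by simp)).hasFDerivAt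
  have hd2 : HasFDerivAt (psi A) (fderiv ℝ (psi A) (g (ψ v)).1) (g (ψ v)).1 :=
    ((psi_smooth A).differentiable (by simp)).differentiableAt.hasFDerivAt
  have hd3 : HasFDerivAt (fun v' => psi A (g (ψ v')).1)
      ((fderiv ℝ (psi A) (g (ψ v)).1).comp (fderiv ℝ (fun v' => (g (ψ v')).1) v)) v :=
    HasFDerivAt.comp (g := psi A) (f := fun v' => (g (ψ v')).1) v hd2 hd1
  have hev' : ψ =ᶠ[𝓝 v] fun v' => psi A (g (ψ v')).1 := hev
  have hfe : fderiv ℝ ψ v =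
      (fderiv ℝ (psi A) (g (ψ v)).1).comp (fderiv ℝ (fun v' => (g (ψ v')).1) v) := by
    rw [hev'.fderiv_eq, hd3.fderiv]
  have hinj : Function.Injective (fderiv ℝ (fun v' => (g (ψ v')).1) v) := by
    have h1 := hψ.inj v hv
    rw [hfe, ContinuousLinearMap.coe_comp] at h1
    exact h1.of_comp
  have hr : Module.finrank ℝ V' = Module.finrank ℝ (Vn n) := by rw [hV, finrank_Vn]
  exact ⟨hinj, (LinearMap.injective_iff_surjective_of_finrank_eq_finrank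
    (f := (fderiv ℝ (fun v' => (g (ψ v')).1) v : V' →ₗ[ℝ] Vn n)) hr).mp hinj⟩

end HFinG
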