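import Pool.Agent.HFinG.P5

/-! MODULE P7 (diff 2-3): the frame energy is an energy; comparison of energies.

* `frame_energy`: for `v` in a neighbourhood `U` of `0` where `XmC v` is injective (`frame_inj`,
  `cay_frame`; take `U` open): `(v,y) ↦ F(XmC v y)²/2` is smooth where `XmC v y ≠ 0`
  (`XmC` smooth, `F` smooth off `0`), and `lg_frame` gives
  `lg E v y u u = fund F (Xm y) (Xm u) (Xm u) > 0` (`IsMinkowski.conv`).
* `pullE_eq`: if `ψ = psi A ∘ φ` near `v` with `φ` smooth at `v`, then for all `v'` near `v` also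
  `Dψ(v') = Dpsi(φ v') ∘ Dφ(v')` (chain rule), so by `FS_psi`
  `pullE (FS F) ψ v' y = F(XmC (φ v') (Dφ(v') y))²/2 = compE (frameE F XmC) φ v' y`, and
  `FS F (ψ v') (Dψ(v') y) = F (XmC (φ v') (Dφ(v') y))`.
* `FS_smoothAt`: hence `(v',y') ↦ FS F (ψ v') (Dψ(v') y')` is smooth at `(v,y)`, `y ≠ 0`, if `φ v = 0` and
  `Dφ(v)` is injective (`XmC 0 = id`).
-/

namespace HFinG

open scoped ContDiff RealInnerProductSpace Topology

variable {n : ℕ}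

theorem frame_energy {Fm : Vn n → ℝ} (hF : IsMinkowski Fm) :
    ∃ U : Set (Vn n), (0 : Vn n) ∈ U ∧ IsEnergy (frameE Fm (XmC : Vn n → Vn n →L[ℝ] Vn n)) U := by
  have hX := cay_frame n
  obtain ⟨U, hU, hUo, h0⟩ := mem_nhds_iff.1 (frame_inj hX)
  have hne : ∀ v ∈ U, ∀ y : Vn n, y ≠ 0 → XmC v y ≠ 0 := by
    intro v hv y hy h
    apply hy
    have hi : Function.Injective (XmC v) := hU hv
    apply hi
    rw [h, map_zero]
  refine ⟨U, h0, hUo, ?_, ?_⟩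
  · have h1 : ContDiff ℝ ∞ (fun z : Vn n × Vn n => XmC z.1 z.2) :=
      (hX.smooth_m.comp contDiff_fst).clm_apply contDiff_snd
    have h2 : ContDiffOn ℝ ∞ (fun z : Vn n × Vn n => Fm (XmC z.1 z.2)) (U ×ˢ {y | y ≠ 0}) := by
      apply hF.smooth.comp h1.contDiffOn
      rintro ⟨v, y⟩ ⟨hv, hy⟩
      exact hne v hv y hy
    exact (h2.pow 2).div_const 2
  · intro v hv y u hy hu
    rw [lg_frame hF XmC (hne v hv y hy)]
    exact hF.conv _ _ (hne v hv y hy) (hne v hv u hu)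

variable {V' : Type*} [NormedAddCommGroup V'] [NormedSpace ℝ V'] [FiniteDimensional ℝ V']

theorem FS_near {Fm : Vn n → ℝ}
    (hrot : ∀ (B : En n ≃ₗᵢ[ℝ] En n) x, Fm (rotV B x) = Fm x) (A : Wn n ≃ₗᵢ[ℝ] Wn n)
    {ψ : V' → Wn n × Wn n} {φ : V' → Vn n} {v : V'} (hφ : ContDiffAt ℝ ∞ φ v)
    (h : ∀ᶠ v' in 𝓝 v, ψ v' = psi A (φ v')) :
    ∀ᶠ v' in 𝓝 v, ∀ y, FS Fm (ψ v') (fderiv ℝ ψ v' y) = Fm (XmC (φ v') (fderiv ℝ φ v' y)) := by
  have h1 : ∀ᶠ v' in 𝓝 v, ContDiffAt ℝ 1 φ v' :=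
    (hφ.of_le (by exact_mod_cast le_top)).eventually (by decide)
  filter_upwards [h.eventually_nhds, h1] with v' h2 h3 y
  have hd : DifferentiableAt ℝ φ v' := h3.differentiableAt (by norm_num)
  have e1 : fderiv ℝ ψ v' = (fderiv ℝ (psi A) (φ v')).comp (fderiv ℝ φ v') := by
    have e2 : ψ =ᶠ[𝓝 v'] (psi A ∘ φ) := h2
    rw [e2.fderiv_eq]
    exact fderiv_comp v' ((psi_smooth A).differentiable (by simp) _) hd
  rw [e1, h2.self_of_nhds, ContinuousLinearMap.comp_apply]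
  exact FS_psi hrot A (φ v') (fderiv ℝ φ v' y)

theorem pullE_eq {Fm : Vn n → ℝ}
    (hrot : ∀ (B : En n ≃ₗᵢ[ℝ] En n) x, Fm (rotV B x) = Fm x) (A : Wn n ≃ₗᵢ[ℝ] Wn n)
    {ψ : V' → Wn n × Wn n} {φ : V' → Vn n} {v : V'} (hφ : ContDiffAt ℝ ∞ φ v)
    (h : ∀ᶠ v' in 𝓝 v, ψ v' = psi A (φ v')) :
    ∀ᶠ v' in 𝓝 v, pullE (FS Fm) ψ v' = compE (frameE Fm XmC) φ v' := by
  filter_upwards [FS_near hrot A hφ h] with v' h1
  funext y
  unfold pullE compE frameE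
  rw [h1 y]

theorem FS_smoothAt {Fm : Vn n → ℝ} (hF : IsMinkowski Fm)
    (hrot : ∀ (B : En n ≃ₗᵢ[ℝ] En n) x, Fm (rotV B x) = Fm x) (A : Wn n ≃ₗᵢ[ℝ] Wn n)
    {ψ : V' → Wn n × Wn n} {φ : V' → Vn n} {v : V'} (hφ : ContDiffAt ℝ ∞ φ v) (h0 : φ v = 0)
    (hi : Function.Bijective (fderiv ℝ φ v))
    (h : ∀ᶠ v' in 𝓝 v, ψ v' = psi A (φ v')) {y : V'} (hy : y ≠ 0) :
    ContDiffAt ℝ ∞ (fun z : V' × V' => FS Fm (ψ z.1) (fderiv ℝ ψ z.1 z.2)) (v, y) := by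
  have hX := cay_frame n
  have e : (fun z : V' × V' => FS Fm (ψ z.1) (fderiv ℝ ψ z.1 z.2)) =ᶠ[𝓝 (v, y)]
      (fun z : V' × V' => Fm (XmC (φ z.1) (fderiv ℝ φ z.1 z.2))) := by
    have h1 := (continuous_fst.tendsto (v, y)).eventually (FS_near hrot A hφ h)
    filter_upwards [h1] with z hz
    exact hz z.2
  refine ContDiffAt.congr_of_eventuallyEq ?_ e
  have hy' : fderiv ℝ φ v y ≠ 0 := by
    intro hcon
    apply hy
    apply hi.1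
    rw [hcon, map_zero]
  have hval : XmC (φ v) (fderiv ℝ φ v y) = fderiv ℝ φ v y := by
    rw [h0, hX.zero_m]
  have hφ1 : ContDiffAt ℝ ∞ (fun z : V' × V' => φ z.1) (v, y) :=
    ContDiffAt.comp (v, y) (g := φ) (f := Prod.fst) hφ contDiffAt_fst
  have hφ2 : ContDiffAt ℝ ∞ (fderiv ℝ φ) v := hφ.fderiv_right (m := ∞) (by simp)
  have hφ3 : ContDiffAt ℝ ∞ (fun z : V' × V' => fderiv ℝ φ z.1) (v, y) :=
    ContDiffAt.comp (v, y) (g := fderiv ℝ φ) (f := Prod.fst) hφ2 contDiffAt_fst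
  have hφ4 : ContDiffAt ℝ ∞ (fun z : V' × V' => fderiv ℝ φ z.1 z.2) (v, y) :=
    hφ3.clm_apply contDiffAt_snd
  have hX1 : ContDiffAt ℝ ∞ (fun z : V' × V' => XmC (φ z.1)) (v, y) :=
    ContDiffAt.comp (v, y) (g := (XmC : Vn n → Vn n →L[ℝ] Vn n)) (f := fun z : V' × V' => φ z.1)
      hX.smooth_m.contDiffAt hφ1
  have hX2 : ContDiffAt ℝ ∞ (fun z : V' × V' => XmC (φ z.1) (fderiv ℝ φ z.1 z.2)) (v, y) :=
    hX1.clm_apply hφ4
  have hFm : ContDiffAt ℝ ∞ Fm (XmC (φ v) (fderiv ℝ φ v y)) := by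
    rw [hval]
    exact hF.smooth.contDiffAt (isOpen_ne.mem_nhds hy')
  exact ContDiffAt.comp (v, y) (g := Fm)
    (f := fun z : V' × V' => XmC (φ z.1) (fderiv ℝ φ z.1 z.2)) hFm hX2

end HFinG
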