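import Pool.Agent.HFinG.K4
import Pool.Agent.HFinG.N3
import Pool.Agent.HFinG.O2
import Pool.Agent.HFinG.O3
import Pool.Agent.HFinG.P6
import Pool.Agent.HFinG.P7

/-! Assembly. -/

namespace HFinG

open scoped ContDiff RealInnerProductSpace Topology

variable {n : ℕ}

theorem finsler_of_norm {V' : Type*} [NormedAddCommGroup V'] [NormedSpace ℝ V']
    [FiniteDimensional ℝ V'] (hV : Module.finrank ℝ V' = 2 * n + 1)
    {Fm : Vn n → ℝ} (hF : IsMinkowski Fm)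
    (hrot : ∀ (B : En n ≃ₗᵢ[ℝ] En n) x, Fm (rotV B x) = Fm x) :
    IsFinslerOn V' (Stiefel (n + 2)) (FS Fm) := by
  have hX := cay_frame n
  refine ⟨?_, ?_, ?_, ?_⟩
  · intro U ψ hψ v hv y hy
    obtain ⟨A, φ, hφ, h0, hi, h⟩ := param_local hV hψ hv
    rw [(FS_near hrot A hφ h).self_of_nhds y, h0, hX.zero_m]
    refine hF.pos _ fun h1 => hy (hi.1 ?_)
    rw [h1, map_zero]
  · intro U ψ hψ v hv y c hc
    exact FS_smul hF hrot (hψ.mem v hv) c hc _
  · rintro U ψ hψ ⟨v, y⟩ ⟨hv, hy⟩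
    obtain ⟨A, φ, hφ, h0, hi, h⟩ := param_local hV hψ hv
    exact (FS_smoothAt hF hrot A hφ h0 hi h hy).contDiffWithinAt
  · intro U ψ hψ v hv y u hy hu
    obtain ⟨A, φ, hφ, h0, hi, h⟩ := param_local hV hψ hv
    obtain ⟨U0, hU0, hE⟩ := frame_energy (n := n) hF
    rw [lg_congr (pullE_eq hrot A hφ h) y,
      lg_comp hE (hφ.of_le (WithTop.coe_le_coe.mpr le_top)) hi (by rw [h0]; exact hU0) hy]
    refine hE.conv _ (by rw [h0]; exact hU0) _ _ ?_ ?_
    · exact fun h1 => hy (hi.1 (by rw [h1, map_zero]))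
    · exact fun h1 => hu (hi.1 (by rw [h1, map_zero]))

theorem posFlag_of_norm {V' : Type*} [NormedAddCommGroup V'] [NormedSpace ℝ V']
    [FiniteDimensional ℝ V'] (hV : Module.finrank ℝ V' = 2 * n + 1)
    {Fm : Vn n → ℝ} (hF : IsMinkowski Fm)
    (hrot : ∀ (B : En n ≃ₗᵢ[ℝ] En n) x, Fm (rotV B x) = Fm x)
    (hinv : ∀ A x, x ≠ 0 → fderiv ℝ (fun z => Fm z ^ 2 / 2) x ((stf n).act A x) = 0)
    (hpos : PosFlag (stf n) Fm) :
    PosFlagOn V' (Stiefel (n + 2)) (FS Fm) := by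
  intro U ψ hψ v hv y w hyw
  obtain ⟨A, φ, hφ, h0, hi, h⟩ := param_local hV hψ hv
  obtain ⟨U0, hU0, hE⟩ := frame_energy (n := n) hF
  have hy : y ≠ 0 := by simpa using hyw.ne_zero 0
  rw [lK_congr (pullE_eq hrot A hφ h) y w, lK_comp hE hφ hi (by rw [h0]; exact hU0) hy, h0,
    lK_frame hF hinv (cay_frame n) (fun h1 => hy (hi.1 (by rw [h1, map_zero])))]
  apply hpos
  rw [LinearIndependent.pair_iff] at hyw ⊢
  intro s t hst
  apply hyw s t
  apply hi.1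
  rw [map_add, map_smul, map_smul, map_zero]
  exact hst

theorem param_exists {V' : Type*} [NormedAddCommGroup V'] [NormedSpace ℝ V']
    [FiniteDimensional ℝ V'] (hV : Module.finrank ℝ V' = 2 * n + 1) {z : Wn n × Wn n}
    (hz : z ∈ Stiefel (n + 2)) :
    ∃ (U : Set V') (ψ : V' → Wn n × Wn n), IsParam (Stiefel (n + 2)) U ψ ∧ z ∈ ψ '' U := by
  obtain ⟨A, ha, hb⟩ := stiefel_trans hz
  obtain ⟨U0, h0, hU0⟩ := psi_param A
  let e : V' ≃L[ℝ] Vn n := ContinuousLinearEquiv.ofFinrankEq (hV.trans (finrank_Vn n).symm)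
  refine ⟨e ⁻¹' U0, psi A ∘ e, ⟨hU0.isOpen.preimage e.continuous, ?_, ?_, ?_⟩, ?_⟩
  · exact hU0.smooth.comp e.contDiff.contDiffOn (fun x hx => hx)
  · intro v hv
    exact hU0.mem (e v) hv
  · intro v hv
    have hd : DifferentiableAt ℝ (psi A) (e v) :=
      ((psi_smooth A).contDiffAt (x := e v)).differentiableAt (by simp)
    rw [fderiv_comp v hd e.differentiableAt, e.fderiv]
    exact (hU0.inj (e v) hv).comp e.injective
  · refine ⟨0, ?_, ?_⟩
    · rw [Set.mem_preimage, map_zero]; exact h0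
    · rw [Function.comp_apply, map_zero, psi_zero, ha, hb]

theorem stiefel_positive (m : ℕ) (hm : 4 ≤ m) :
    ∃ F : EuclideanSpace ℝ (Fin m) × EuclideanSpace ℝ (Fin m) →
        EuclideanSpace ℝ (Fin m) × EuclideanSpace ℝ (Fin m) → ℝ,
      IsFinslerOn (EuclideanSpace ℝ (Fin (2 * m - 3))) (Stiefel m) F ∧ OInvariant m F ∧
      PosFlagOn (EuclideanSpace ℝ (Fin (2 * m - 3))) (Stiefel m) F ∧
      ∀ z ∈ Stiefel m, ∃ (U : Set (EuclideanSpace ℝ (Fin (2 * m - 3))))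
        (ψ : EuclideanSpace ℝ (Fin (2 * m - 3)) →
          EuclideanSpace ℝ (Fin m) × EuclideanSpace ℝ (Fin m)),
        IsParam (Stiefel m) U ψ ∧ z ∈ ψ '' U := by
  obtain ⟨n, rfl⟩ : ∃ n, m = n + 2 := ⟨m - 2, by omega⟩
  obtain ⟨Fm, hF, hpos, hinv, hrot⟩ := stf_exists (n := n) (by omega)
  have hV : Module.finrank ℝ (EuclideanSpace ℝ (Fin (2 * (n + 2) - 3))) = 2 * n + 1 := by
    rw [finrank_euclideanSpace, Fintype.card_fin]
    omega
  exact ⟨FS Fm, finsler_of_norm hV hF hrot, FS_inv hrot, posFlag_of_norm hV hF hrot hinv hpos,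
    fun z hz => param_exists hV hz⟩

end HFinG
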