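import Pool.Agent.HFinG.GDefs
import Pool.Agent.HFinG.E2

/-! MODULE G1 (diff 2): `q` and `q°` for `L = id + t p`.

At `y ≠ 0`: `D.mm (L y) y = t • D.mm (p y) y` (`mm_self`), `DL(y) v = v + t β_y v` (`fderiv_Lt`).
* `coq_Lt`: the derivative of `y ↦ DL(y) σ = σ + t β_y σ` at `ξ` in the direction `t η` is
  `t² β̇ σ`; the rest is expansion: `coq = t q₁ + t² q₂`.
* `coqq_Lt`: by `coq_Lt` near `ξ`, `D(y ↦ coq y σ)(ξ)(t η) = t² q₁' + t³ q₂'`, with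
  `q₁' = D(y ↦ q₁ y σ)(ξ) η`, `q₂' = D(y ↦ q₂ y σ)(ξ) η`; then expand
  `- [L ξ, coq σ] + coq [L ξ, σ]`.  (`qq1_smooth`, `qq2_smooth` give differentiability.)
* `qq1_deriv`: product rule:
  `q₁' = - [η, βσ] - [ξ, β̇σ] + β̇ [ξ,σ] + β [η,σ]`.
-/

namespace HFinG

open scoped ContDiff RealInnerProductSpace

variable {V H : Type*} [NormedAddCommGroup V] [InnerProductSpace ℝ V]
  [NormedAddCommGroup H] [InnerProductSpace ℝ H] [FiniteDimensional ℝ V]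

theorem G1_ev {x : V} (hx : x ≠ 0) {P : V → Prop} (h : ∀ y, y ≠ 0 → P y) : ∀ᶠ y in nhds x, P y :=
  Filter.mem_of_superset (isOpen_ne.mem_nhds hx : {y : V | y ≠ 0} ∈ nhds x) h

theorem G1_diff {W : Type*} [NormedAddCommGroup W] [NormedSpace ℝ W] {f : V → W}
    (hf : ContDiffOn ℝ ∞ f {x | x ≠ 0}) {x : V} (hx : x ≠ 0) : DifferentiableAt ℝ f x :=
  (hf.contDiffAt (isOpen_ne.mem_nhds hx)).differentiableAt (by simp)

theorem G1_fd {D : RedData V H} {p : V → V} (hp : IsPert D p) :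
    ContDiffOn ℝ ∞ (fderiv ℝ p) {x | x ≠ 0} :=
  hp.smooth.fderiv_of_isOpen (m := ∞) isOpen_ne (by simp)

theorem G1_fda {D : RedData V H} {p : V → V} (hp : IsPert D p) (σ : V) :
    ContDiffOn ℝ ∞ (fun y => fderiv ℝ p y σ) {x | x ≠ 0} :=
  (G1_fd hp).clm_apply contDiffOn_const

theorem G1_bd {D : RedData V H} {p : V → V} (hp : IsPert D p) {ξ : V} (hξ : ξ ≠ 0) (a η : V) :
    fderiv ℝ (fun y => fderiv ℝ p y a) ξ η = fderiv ℝ (fderiv ℝ p) ξ η a := by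
  have hB : HasFDerivAt (fderiv ℝ p) (fderiv ℝ (fderiv ℝ p) ξ) ξ :=
    (G1_diff (G1_fd hp) hξ).hasFDerivAt
  have h1 : HasFDerivAt (fun y => fderiv ℝ p y a)
      ((ContinuousLinearMap.apply ℝ V a).comp (fderiv ℝ (fderiv ℝ p) ξ)) ξ :=
    (ContinuousLinearMap.apply ℝ V a).hasFDerivAt.comp ξ hB
  rw [h1.fderiv]
  rfl

theorem G1_qq1_lin (D : RedData V H) (p : V → V) (t : ℝ) (ξ a b : V) :
    qq1 D p ξ (a + t • b) = qq1 D p ξ a + t • qq1 D p ξ b := by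
  unfold qq1
  simp only [map_add, map_smul, smul_add, smul_neg]
  abel

theorem G1_qq2_lin {D : RedData V H} {p : V → V} (hp : IsPert D p) (t : ℝ) {ξ : V} (hξ : ξ ≠ 0)
    (a b : V) : qq2 D p ξ (a + t • b) = qq2 D p ξ a + t • qq2 D p ξ b := by
  unfold qq2
  rw [G1_bd hp hξ, G1_bd hp hξ, G1_bd hp hξ]
  simp only [map_add, map_smul, smul_add, smul_sub]
  abel

theorem qq1_smooth {D : RedData V H} {p : V → V} (hp : IsPert D p) (σ : V) :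
    ContDiffOn ℝ ∞ (fun y => qq1 D p y σ) {x | x ≠ 0} := by
  unfold qq1
  have h2 : ContDiffOn ℝ ∞ (fun y : V => D.mm y σ) {x | x ≠ 0} :=
    (D.mm.contDiff.clm_apply contDiff_const).contDiffOn
  have h3 : ContDiffOn ℝ ∞ (fun y : V => D.mm y (fderiv ℝ p y σ)) {x | x ≠ 0} :=
    D.mm.contDiff.contDiffOn.clm_apply (G1_fda hp σ)
  exact h3.neg.add ((G1_fd hp).clm_apply h2)

theorem G1_mmp {D : RedData V H} {p : V → V} (hp : IsPert D p) :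
    ContDiffOn ℝ ∞ (fun y : V => D.mm (p y)) {x | x ≠ 0} :=
  D.mm.contDiff.comp_contDiffOn hp.smooth

theorem qq2_smooth {D : RedData V H} {p : V → V} (hp : IsPert D p) (σ : V) :
    ContDiffOn ℝ ∞ (fun y => qq2 D p y σ) {x | x ≠ 0} := by
  unfold qq2
  have h0 := (G1_fda hp σ).fderiv_of_isOpen (m := ∞) isOpen_ne (by simp)
  have h1 : ContDiffOn ℝ ∞ (fun y => fderiv ℝ (fun y => fderiv ℝ p y σ) y (D.mm (p y) y))
      {x | x ≠ 0} := h0.clm_apply ((G1_mmp hp).clm_apply contDiffOn_id)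
  have h2 : ContDiffOn ℝ ∞ (fun y : V => D.mm (p y) (fderiv ℝ p y σ)) {x | x ≠ 0} :=
    (G1_mmp hp).clm_apply (G1_fda hp σ)
  have h3 : ContDiffOn ℝ ∞ (fun y : V => fderiv ℝ p y (D.mm (p y) σ)) {x | x ≠ 0} :=
    (G1_fd hp).clm_apply ((G1_mmp hp).clm_apply contDiffOn_const)
  exact (h1.sub h2).add h3

theorem G1_mmL (D : RedData V H) (p : V → V) (t : ℝ) (ξ : V) :
    D.mm (Lt p t ξ) ξ = t • D.mm (p ξ) ξ := by
  unfold Lt
  simp [D.mm_self]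

theorem coq_Lt {D : RedData V H} {p : V → V} (hp : IsPert D p) (t : ℝ) {ξ : V} (hξ : ξ ≠ 0)
    (σ : V) : coq D (Lt p t) ξ σ = t • qq1 D p ξ σ + t ^ 2 • qq2 D p ξ σ := by
  have h1 : (fun y => fderiv ℝ (Lt p t) y σ) =ᶠ[nhds ξ]
      fun y => σ + t • fderiv ℝ p y σ := G1_ev hξ fun y hy => fderiv_Lt hp t hy σ
  have h2 : HasFDerivAt (fun y => σ + t • fderiv ℝ p y σ)
      (t • fderiv ℝ (fun y => fderiv ℝ p y σ) ξ) ξ :=
    ((G1_diff (G1_fda hp σ) hξ).hasFDerivAt.const_smul t).const_add σ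
  unfold coq qq1 qq2
  rw [h1.fderiv_eq, h2.fderiv, G1_mmL, fderiv_Lt hp t hξ, fderiv_Lt hp t hξ]
  unfold Lt
  simp only [map_add, map_smul, smul_add, smul_sub, smul_neg, ContinuousLinearMap.add_apply,
    ContinuousLinearMap.smul_apply, smul_smul, pow_two]
  abel

theorem coqq_Lt {D : RedData V H} {p : V → V} (hp : IsPert D p) (t : ℝ) {ξ : V} (hξ : ξ ≠ 0)
    (σ : V) : coqq D (Lt p t) ξ σ =
      t • (- D.mm ξ (qq1 D p ξ σ) + qq1 D p ξ (D.mm ξ σ))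
      + t ^ 2 • (fderiv ℝ (fun y => qq1 D p y σ) ξ (D.mm (p ξ) ξ)
          - D.mm ξ (qq2 D p ξ σ) + qq2 D p ξ (D.mm ξ σ)
          - D.mm (p ξ) (qq1 D p ξ σ) + qq1 D p ξ (D.mm (p ξ) σ))
      + t ^ 3 • (fderiv ℝ (fun y => qq2 D p y σ) ξ (D.mm (p ξ) ξ)
          - D.mm (p ξ) (qq2 D p ξ σ) + qq2 D p ξ (D.mm (p ξ) σ)) := by
  have h1 : (fun y => coq D (Lt p t) y σ) =ᶠ[nhds ξ]
      fun y => t • qq1 D p y σ + t ^ 2 • qq2 D p y σ :=
    G1_ev hξ fun y hy => coq_Lt hp t hy σ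
  have h2 : HasFDerivAt (fun y => t • qq1 D p y σ + t ^ 2 • qq2 D p y σ)
      (t • fderiv ℝ (fun y => qq1 D p y σ) ξ + t ^ 2 • fderiv ℝ (fun y => qq2 D p y σ) ξ) ξ :=
    ((G1_diff (qq1_smooth hp σ) hξ).hasFDerivAt.const_smul t).add
      ((G1_diff (qq2_smooth hp σ) hξ).hasFDerivAt.const_smul (t ^ 2))
  have h3 : D.mm (Lt p t ξ) σ = D.mm ξ σ + t • D.mm (p ξ) σ := by
    unfold Lt
    simp
  unfold coqq
  rw [h1.fderiv_eq, h2.fderiv, G1_mmL, coq_Lt hp t hξ, coq_Lt hp t hξ, h3, G1_qq1_lin,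
    G1_qq2_lin hp t hξ]
  unfold Lt
  simp only [map_add, map_smul, smul_add, smul_sub, smul_neg, ContinuousLinearMap.add_apply,
    ContinuousLinearMap.smul_apply, smul_smul]
  have e1 : t * t = t ^ 2 := by ring
  have e2 : t * t ^ 2 = t ^ 3 := by ring
  have e3 : t ^ 2 * t = t ^ 3 := by ring
  simp only [e1, e2, e3]
  abel

theorem qq1_deriv {D : RedData V H} {p : V → V} (hp : IsPert D p) {ξ : V} (hξ : ξ ≠ 0) (σ : V) :
    fderiv ℝ (fun y => qq1 D p y σ) ξ (D.mm (p ξ) ξ) =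
      - D.mm (D.mm (p ξ) ξ) (fderiv ℝ p ξ σ) - D.mm ξ (bdot D p ξ σ)
      + bdot D p ξ (D.mm ξ σ) + fderiv ℝ p ξ (D.mm (D.mm (p ξ) ξ) σ) := by
  have hB : HasFDerivAt (fderiv ℝ p) (fderiv ℝ (fderiv ℝ p) ξ) ξ :=
    (G1_diff (G1_fd hp) hξ).hasFDerivAt
  have hσ : HasFDerivAt (fun y => fderiv ℝ p y σ) (fderiv ℝ (fun y => fderiv ℝ p y σ) ξ) ξ :=
    (G1_diff (G1_fda hp σ) hξ).hasFDerivAt
  have h1 : HasFDerivAt (fun y => D.mm y (fderiv ℝ p y σ)) _ ξ :=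
    D.mm.hasFDerivAt.clm_apply hσ
  have h2 : HasFDerivAt (fun y : V => D.mm y σ) _ ξ :=
    D.mm.hasFDerivAt.clm_apply (hasFDerivAt_const σ ξ)
  have h3 : HasFDerivAt (fun y => fderiv ℝ p y (D.mm y σ)) _ ξ := hB.clm_apply h2
  have h4 : HasFDerivAt (fun y => qq1 D p y σ) _ ξ := h1.neg.add h3
  rw [h4.fderiv]
  unfold bdot
  rw [G1_bd hp hξ (D.mm ξ σ)]
  simp
  abel

end HFinG
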