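import Pool.Agent.HFinG.GDefs

/-! MODULE G2 (diff 1-2): symmetry facts.

`β = Dp(ξ)` is symmetric (`hp.symm`); `β̇` is symmetric (differentiate
`⟪β_y u, v⟫ = ⟪u, β_y v⟫`); `q₁`, `q₂` are symmetric operators:
`⟪q₁ u, v⟫ = -⟪[ξ,βu],v⟫ + ⟪β[ξ,u],v⟫ = ⟪βu,[ξ,v]⟫ + ⟪[ξ,u],βv⟫`, symmetric in `u,v`; same for
`q₂` with `p` in place of `ξ` plus `β̇`.
`jacobi_use`: the Jacobi identity for `ξ, p, σ` with `⟪act ξ, p⟫ = 0`, in the form (with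
`η = [p,ξ]`, `λ = ⟪σ, act ξ⟫`, `ν = ⟪σ, act p⟫`)
`[η,σ] + [ξ,[p,σ]] = [p,[ξ,σ]] + ν act ξ - λ act p`.
Check: `hD.jacobi ξ p σ`: `[ξ,[p,σ]] + [p,[σ,ξ]] + [σ,[ξ,p]]
 = ⟪act p,σ⟫ act ξ + ⟪act σ,ξ⟫ act p + ⟪act ξ,p⟫ act σ`, where `⟪act σ,ξ⟫ = -⟪σ,act ξ⟫ = -λ`,
`[p,[σ,ξ]] = -[p,[ξ,σ]]`, `[σ,[ξ,p]] = [[p,ξ],σ]` (two sign changes).
-/

namespace HFinG

open scoped ContDiff RealInnerProductSpace

variable {V H : Type*} [NormedAddCommGroup V] [InnerProductSpace ℝ V]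
  [NormedAddCommGroup H] [InnerProductSpace ℝ H] [FiniteDimensional ℝ V]

theorem mm_anti' (D : RedData V H) (x y : V) : D.mm x y = -D.mm y x := by
  have h := D.mm_self (x + y)
  simp only [map_add, add_apply, D.mm_self, zero_add, add_zero] at h
  exact eq_neg_of_add_eq_zero_right h

theorem mh_anti' (D : RedData V H) (x y : V) : D.mh x y = -D.mh y x := by
  have h := D.mh_self (x + y)
  simp only [map_add, add_apply, D.mh_self, zero_add, add_zero] at h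
  exact eq_neg_of_add_eq_zero_right h

theorem bdot_symm {D : RedData V H} {p : V → V} (hp : IsPert D p) {ξ : V} (hξ : ξ ≠ 0) (u v : V) :
    ⟪bdot D p ξ u, v⟫ = ⟪u, bdot D p ξ v⟫ := by
  have hop : IsOpen {x : V | x ≠ 0} := isOpen_ne
  have hsm : ContDiffOn ℝ ∞ (fderiv ℝ p) {x | x ≠ 0} :=
    hp.smooth.fderiv_of_isOpen hop (by simp)
  have hd : DifferentiableAt ℝ (fderiv ℝ p) ξ :=
    (hsm.contDiffAt (hop.mem_nhds hξ)).differentiableAt (by simp)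
  have hdu : ∀ w, DifferentiableAt ℝ (fun y => fderiv ℝ p y w) ξ := fun w =>
    hd.clm_apply (differentiableAt_const w)
  have e1 : (fun y => ⟪fderiv ℝ p y u, v⟫) =ᶠ[nhds ξ] (fun y => ⟪u, fderiv ℝ p y v⟫) := by
    filter_upwards [hop.mem_nhds hξ] with y hy
    exact hp.symm y hy u v
  have e2 := e1.fderiv_eq (𝕜 := ℝ)
  have e3 := congrArg (fun L => L (D.mm (p ξ) ξ)) e2
  have e4 : fderiv ℝ (fun y => ⟪fderiv ℝ p y u, v⟫) ξ (D.mm (p ξ) ξ)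
      = ⟪bdot D p ξ u, v⟫ := by
    rw [fderiv_inner_apply ℝ (hdu u) (differentiableAt_const v)]
    simp [bdot]
  have e5 : fderiv ℝ (fun y => ⟪u, fderiv ℝ p y v⟫) ξ (D.mm (p ξ) ξ)
      = ⟪u, bdot D p ξ v⟫ := by
    rw [fderiv_inner_apply ℝ (differentiableAt_const u) (hdu v)]
    simp [bdot]
  rw [← e4, ← e5]
  exact e3

theorem qq1_symm {D : RedData V H} (hD : IsNormal D) {p : V → V} (hp : IsPert D p) {ξ : V}
    (hξ : ξ ≠ 0) (u v : V) : ⟪qq1 D p ξ u, v⟫ = ⟪u, qq1 D p ξ v⟫ := by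
  unfold qq1
  have e1 : ⟪D.mm ξ (fderiv ℝ p ξ u), v⟫ = -⟪u, fderiv ℝ p ξ (D.mm ξ v)⟫ := by
    rw [hD.skew, hp.symm ξ hξ]
  have e2 : ⟪fderiv ℝ p ξ (D.mm ξ u), v⟫ = -⟪u, D.mm ξ (fderiv ℝ p ξ v)⟫ := by
    rw [hp.symm ξ hξ, hD.skew]
  rw [inner_add_left, inner_neg_left, e1, e2, inner_add_right, inner_neg_right]
  ring

theorem qq2_symm {D : RedData V H} (hD : IsNormal D) {p : V → V} (hp : IsPert D p) {ξ : V}
    (hξ : ξ ≠ 0) (u v : V) : ⟪qq2 D p ξ u, v⟫ = ⟪u, qq2 D p ξ v⟫ := by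
  unfold qq2
  have e0 : ⟪fderiv ℝ (fun y => fderiv ℝ p y u) ξ (D.mm (p ξ) ξ), v⟫
      = ⟪u, fderiv ℝ (fun y => fderiv ℝ p y v) ξ (D.mm (p ξ) ξ)⟫ := bdot_symm hp hξ u v
  have e1 : ⟪D.mm (p ξ) (fderiv ℝ p ξ u), v⟫ = -⟪u, fderiv ℝ p ξ (D.mm (p ξ) v)⟫ := by
    rw [hD.skew, hp.symm ξ hξ]
  have e2 : ⟪fderiv ℝ p ξ (D.mm (p ξ) u), v⟫ = -⟪u, D.mm (p ξ) (fderiv ℝ p ξ v)⟫ := by
    rw [hp.symm ξ hξ, hD.skew]
  rw [inner_add_left, inner_sub_left, e0, e1, e2, inner_add_right, inner_sub_right]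
  ring

theorem jacobi_use {D : RedData V H} (hD : IsNormal D) {p : V → V} (hp : IsPert D p) (ξ σ : V) :
    D.mm (D.mm (p ξ) ξ) σ + D.mm ξ (D.mm (p ξ) σ) =
      D.mm (p ξ) (D.mm ξ σ) + D.act (D.mh (p ξ) σ) ξ - D.act (D.mh ξ σ) (p ξ) := by
  have h := hD.jacobi ξ (p ξ) σ
  have h1 : D.mh ξ (p ξ) = 0 := by
    have : ∀ A : H, ⟪A, D.mh ξ (p ξ)⟫ = 0 := by
      intro A
      rw [hD.mh_eq, real_inner_comm]
      exact hp.inv A ξ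
    exact inner_self_eq_zero.mp (this _)
  have h2 : D.mh σ ξ = -D.mh ξ σ := mh_anti' D σ ξ
  have h3 : D.mm (p ξ) (D.mm σ ξ) = - D.mm (p ξ) (D.mm ξ σ) := by
    rw [mm_anti' D σ ξ, map_neg]
  have h4 : D.mm σ (D.mm ξ (p ξ)) = D.mm (D.mm (p ξ) ξ) σ := by
    rw [mm_anti' D ξ (p ξ), map_neg, mm_anti' D σ (D.mm (p ξ) ξ), neg_neg]
  rw [h1, h2, h3, h4] at h
  simp only [map_zero, map_neg, _root_.zero_apply, _root_.neg_apply, add_zero] at h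
  rw [← sub_eq_zero] at h ⊢
  rw [← h]
  abel

end HFinG
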