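import Pool.Agent.HFinG.G1
import Pool.Agent.HFinG.G2

/-! MODULE G3 (diff 3): the polynomial identity.

Notation (fixed `ξ ≠ 0`, `σ`): `β = Dp(ξ)`, `a = [ξ,σ]`, `r = [ξ,βσ]`, `s = [p,σ]`, `η = [p,ξ]`,
`u₁ = q₁σ = -r + βa`, `u₂ = q₂σ`, `bd = β̇σ`, `λ = ⟪σ,act ξ⟫`, `ν = ⟪σ,act p⟫`,
`ν₂ = ⟪βσ,act p⟫`, `q₂' = D(y ↦ q₂ y σ)(ξ)η`.  Then

`polyP = ‖a‖²/4 + λ² + t (3/4 ⟪βa,a⟫ + 3λν)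
 + t² (3ν² + ⟪βσ,[p,a]⟫ + ⟪u₂,a⟫/2 + ⟪βa,s⟫ + ⟪bd,a⟫ + 3/2 ⟪r,βa⟫ - 3/4 ⟪βa,βa⟫)
 + t³ (⟪q₂',σ⟫/2 + ⟪u₂,s⟫ - 3/4(2⟪u₁,u₂⟫ - ⟪βu₁,u₁⟫) + ⟪βr,r⟫/4 - ⟪r,u₂⟫/2 + νν₂)
 + t⁴ (-3/4 ⟪u₂,u₂⟫ + 3/2 ⟪βu₁,u₂⟫) + t⁵ (3/4 ⟪βu₂,u₂⟫)`.

Proof.  `coq = t u₁ + t² u₂` (`coq_Lt`).  `DL σ = σ + tβσ`, `[ξ,DLσ] = a + t r`.
Terms of `⟪coqq σ, σ⟫/2` (`coqq_Lt`; `[ξ,·]`, `[p,·]` are skew, `q₁, q₂` symmetric (`G2`)):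
 order t : `(⟪-[ξ,q₁σ],σ⟫ + ⟪q₁a,σ⟫)/2 = (⟪q₁σ,a⟫ + ⟪a,q₁σ⟫)/2 = ⟪u₁,a⟫`;
 order t²: `⟪q₁',σ⟫/2 + ⟪u₂,a⟫ + ⟪u₁,s⟫` where by `qq1_deriv`
   `⟪q₁',σ⟫/2 = (⟪βσ,[η,σ]⟫ + ⟪bd,a⟫ + ⟪a,bd⟫ + ⟪[η,σ],βσ⟫)/2 = ⟪βσ,[η,σ]⟫ + ⟪bd,a⟫`;
 order t³: `⟪q₂',σ⟫/2 + ⟪u₂,s⟫`.
`-3/4(‖q‖² - t⟪βq,q⟫)` with `q = t u₁ + t² u₂`: orders t²..t⁵: `-3/4⟪u₁,u₁⟫`,
 `-3/4(2⟪u₁,u₂⟫ - ⟪βu₁,u₁⟫)`, `-3/4(⟪u₂,u₂⟫ - 2⟪βu₁,u₂⟫)`, `+3/4⟪βu₂,u₂⟫`.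
`⟪(1+tβ)(a+tr),a+tr⟫/4 = ⟪a,a⟫/4 + t(⟪a,r⟫/2 + ⟪βa,a⟫/4) + t²(⟪r,r⟫/4 + ⟪βa,r⟫/2) + t³⟪βr,r⟫/4`.
`-⟪a+tr, t u₁+t² u₂⟫/2 = -t⟪a,u₁⟫/2 - t²(⟪a,u₂⟫+⟪r,u₁⟫)/2 - t³⟪r,u₂⟫/2`.
Last product: `act (L ξ) = act ξ + t act p`, `⟪σ,·⟫ = λ + tν`; `⟪βσ,act ξ⟫ = ⟪σ,β act ξ⟫ =
⟪σ,act p⟫ = ν` (`hp.symm`, `hp.equi`), so `⟪DLσ,·⟫ = λ + tν + t(ν + tν₂)`: product
`(λ+tν)(λ+2tν+t²ν₂) = λ² + 3tλν + t²(2ν²+λν₂) + t³νν₂`.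
Order t: `⟪u₁,a⟫ + ⟪a,r⟫/2 + ⟪βa,a⟫/4 - ⟪a,u₁⟫/2` with `u₁ = -r+βa` gives `3/4⟪βa,a⟫`.
Order t²: `⟪βσ,[η,σ]⟫ + ⟪bd,a⟫ + ⟪u₂,a⟫ + ⟪u₁,s⟫ - 3/4⟪u₁,u₁⟫ + ⟪r,r⟫/4 + ⟪βa,r⟫/2 - ⟪a,u₂⟫/2
 - ⟪r,u₁⟫/2 + 2ν² + λν₂`.  With `u₁ = -r+βa`: `-3/4⟪u₁,u₁⟫+⟪r,r⟫/4+⟪βa,r⟫/2-⟪r,u₁⟫/2
 = 3/2⟪r,βa⟫ - 3/4⟪βa,βa⟫`, `⟪u₁,s⟫ = -⟪r,s⟫ + ⟪βa,s⟫`, and
 `⟪βσ,[η,σ]⟫ - ⟪r,s⟫ = ⟪βσ,[η,σ]+[ξ,s]⟫ = ⟪βσ,[p,a]⟫ + ν⟪βσ,act ξ⟫ - λ⟪βσ,act p⟫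
 = ⟪βσ,[p,a]⟫ + ν² - λν₂` (`jacobi_use`; `⟪r,s⟫ = ⟪[ξ,βσ],s⟫ = -⟪βσ,[ξ,s]⟫`).  QED
-/

namespace HFinG

open scoped ContDiff RealInnerProductSpace

variable {V H : Type*} [NormedAddCommGroup V] [InnerProductSpace ℝ V]
  [NormedAddCommGroup H] [InnerProductSpace ℝ H] [FiniteDimensional ℝ V]

theorem polyP_eq {D : RedData V H} (hD : IsNormal D) {p : V → V} (hp : IsPert D p) (t : ℝ)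
    {ξ : V} (hξ : ξ ≠ 0) (σ a r s u1 u2 bs : V) (ha : a = D.mm ξ σ)
    (hbs : bs = fderiv ℝ p ξ σ) (hr : r = D.mm ξ bs) (hs : s = D.mm (p ξ) σ)
    (hu1 : u1 = qq1 D p ξ σ) (hu2 : u2 = qq2 D p ξ σ) :
    polyP D p t ξ σ =
      ⟪a, a⟫ / 4 + ‖D.mh ξ σ‖ ^ 2
      + t * (3 / 4 * ⟪fderiv ℝ p ξ a, a⟫ + 3 * ⟪D.mh ξ σ, D.mh (p ξ) σ⟫)
      + t ^ 2 * (3 * ‖D.mh (p ξ) σ‖ ^ 2 + ⟪bs, D.mm (p ξ) a⟫ + ⟪u2, a⟫ / 2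
          + ⟪fderiv ℝ p ξ a, s⟫ + ⟪bdot D p ξ σ, a⟫ + 3 / 2 * ⟪r, fderiv ℝ p ξ a⟫
          - 3 / 4 * ⟪fderiv ℝ p ξ a, fderiv ℝ p ξ a⟫)
      + t ^ 3 * (⟪fderiv ℝ (fun y => qq2 D p y σ) ξ (D.mm (p ξ) ξ), σ⟫ / 2 + ⟪u2, s⟫
          - 3 / 4 * (2 * ⟪u1, u2⟫ - ⟪fderiv ℝ p ξ u1, u1⟫) + ⟪fderiv ℝ p ξ r, r⟫ / 4
          - ⟪r, u2⟫ / 2 + ⟪D.mh (p ξ) σ, D.mh (p ξ) bs⟫)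
      + t ^ 4 * (- 3 / 4 * ⟪u2, u2⟫ + 3 / 2 * ⟪fderiv ℝ p ξ u1, u2⟫)
      + t ^ 5 * (3 / 4 * ⟪fderiv ℝ p ξ u2, u2⟫) := by
  set β := fderiv ℝ p ξ with hβ
  have hbsym : ∀ u v, ⟪β u, v⟫ = ⟪u, β v⟫ := hp.symm ξ hξ
  have hu1' : u1 = -r + β a := by
    rw [hu1, hr, hbs, ha]; rfl
  have hcoq : coq D (Lt p t) ξ σ = t • u1 + t ^ 2 • u2 := by
    rw [coq_Lt hp t hξ, hu1, hu2]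
  set bd := bdot D p ξ σ with hbd
  set η := D.mm (p ξ) ξ with hη
  set q2' := fderiv ℝ (fun y => qq2 D p y σ) ξ η with hq2'
  -- the second derivative term
  have hq1' : ⟪fderiv ℝ (fun y => qq1 D p y σ) ξ η, σ⟫ = 2 * ⟪bs, D.mm η σ⟫ + 2 * ⟪bd, a⟫ := by
    rw [hη, qq1_deriv hp hξ]
    rw [← hη, ← hβ, ← hbs, ← hbd, ← ha]
    have f1 : ⟪D.mm η bs, σ⟫ = -⟪bs, D.mm η σ⟫ := hD.skew _ _ _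
    have f2 : ⟪D.mm ξ bd, σ⟫ = -⟪bd, a⟫ := by rw [hD.skew, ← ha]
    have f3 : ⟪bdot D p ξ a, σ⟫ = ⟪bd, a⟫ := by rw [bdot_symm hp hξ, ← hbd, real_inner_comm]
    have f4 : ⟪β (D.mm η σ), σ⟫ = ⟪bs, D.mm η σ⟫ := by rw [hbsym, ← hbs, real_inner_comm]
    rw [inner_add_left, inner_add_left, inner_sub_left, inner_neg_left, f1, f2, f3, f4]
    ring
  have hP1 : ⟪coqq D (Lt p t) ξ σ, σ⟫ = t * (2 * ⟪u1, a⟫)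
      + t ^ 2 * (2 * ⟪bs, D.mm η σ⟫ + 2 * ⟪bd, a⟫ + 2 * ⟪u2, a⟫ + 2 * ⟪u1, s⟫)
      + t ^ 3 * (⟪q2', σ⟫ + 2 * ⟪u2, s⟫) := by
    rw [coqq_Lt hp t hξ]
    rw [← hη, ← hu1, ← hu2, ← ha, ← hs, ← hq2']
    have e1 : ⟪qq1 D p ξ a, σ⟫ = ⟪u1, a⟫ := by
      rw [qq1_symm hD hp hξ, ← hu1, real_inner_comm]
    have e2 : ⟪qq2 D p ξ a, σ⟫ = ⟪u2, a⟫ := by
      rw [qq2_symm hD hp hξ, ← hu2, real_inner_comm]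
    have e3 : ⟪qq1 D p ξ s, σ⟫ = ⟪u1, s⟫ := by
      rw [qq1_symm hD hp hξ, ← hu1, real_inner_comm]
    have e4 : ⟪qq2 D p ξ s, σ⟫ = ⟪u2, s⟫ := by
      rw [qq2_symm hD hp hξ, ← hu2, real_inner_comm]
    have e5 : ⟪D.mm ξ u1, σ⟫ = -⟪u1, a⟫ := by rw [hD.skew, ← ha]
    have e6 : ⟪D.mm ξ u2, σ⟫ = -⟪u2, a⟫ := by rw [hD.skew, ← ha]
    have e7 : ⟪D.mm (p ξ) u1, σ⟫ = -⟪u1, s⟫ := by rw [hD.skew, ← hs]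
    have e8 : ⟪D.mm (p ξ) u2, σ⟫ = -⟪u2, s⟫ := by rw [hD.skew, ← hs]
    simp only [inner_add_left, inner_sub_left, inner_neg_left, real_inner_smul_left, e1, e2, e3, e4,
      e5, e6, e7, e8, hq1']
    ring
  have hP2 : ⟪coq D (Lt p t) ξ σ, coq D (Lt p t) ξ σ⟫
      = t ^ 2 * ⟪u1, u1⟫ + 2 * t ^ 3 * ⟪u1, u2⟫ + t ^ 4 * ⟪u2, u2⟫ := by
    rw [hcoq]
    simp only [inner_add_left, inner_add_right, real_inner_smul_left, real_inner_smul_right,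
      real_inner_comm u1 u2]
    ring
  have hP2b : ⟪β (coq D (Lt p t) ξ σ), coq D (Lt p t) ξ σ⟫
      = t ^ 2 * ⟪β u1, u1⟫ + 2 * t ^ 3 * ⟪β u1, u2⟫ + t ^ 4 * ⟪β u2, u2⟫ := by
    rw [hcoq]
    have e1 : ⟪β u2, u1⟫ = ⟪β u1, u2⟫ := by rw [hbsym, real_inner_comm]
    simp only [map_add, map_smul, inner_add_left, inner_add_right, real_inner_smul_left,
      real_inner_smul_right, e1]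
    ring
  have hDL : ∀ v, fderiv ℝ (Lt p t) ξ v = v + t • β v := fun v => by
    rw [fderiv_Lt hp t hξ]
  have hm : D.mm ξ (fderiv ℝ (Lt p t) ξ σ) = a + t • r := by
    rw [hDL, ← hbs, map_add, map_smul, ← ha, ← hr]
  have hP3 : ⟪fderiv ℝ (Lt p t) ξ (D.mm ξ (fderiv ℝ (Lt p t) ξ σ)),
        D.mm ξ (fderiv ℝ (Lt p t) ξ σ)⟫
      = ⟪a, a⟫ + 2 * t * ⟪a, r⟫ + t ^ 2 * ⟪r, r⟫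
        + t * (⟪β a, a⟫ + 2 * t * ⟪r, β a⟫ + t ^ 2 * ⟪β r, r⟫) := by
    rw [hm, hDL]
    have e1 : ⟪β r, a⟫ = ⟪r, β a⟫ := hbsym r a
    have e2 : ⟪β a, r⟫ = ⟪r, β a⟫ := real_inner_comm _ _
    have e3 : ⟪r, a⟫ = ⟪a, r⟫ := real_inner_comm _ _
    simp only [map_add, map_smul, inner_add_left, inner_add_right, real_inner_smul_left,
      real_inner_smul_right, e1, e2, e3]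
    ring
  have hP4 : ⟪D.mm ξ (fderiv ℝ (Lt p t) ξ σ), coq D (Lt p t) ξ σ⟫
      = t * ⟪u1, a⟫ + t ^ 2 * ⟪u2, a⟫ + t ^ 2 * ⟪r, u1⟫ + t ^ 3 * ⟪r, u2⟫ := by
    rw [hm, hcoq]
    have e1 : ⟪a, u1⟫ = ⟪u1, a⟫ := real_inner_comm _ _
    have e2 : ⟪a, u2⟫ = ⟪u2, a⟫ := real_inner_comm _ _
    simp only [inner_add_left, inner_add_right, real_inner_smul_left,
      real_inner_smul_right, e1, e2]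
    ring
  have hν : D.mh ξ bs = D.mh (p ξ) σ := by
    apply ext_inner_left ℝ
    intro A
    rw [hD.mh_eq, hD.mh_eq, real_inner_comm, hbs, hbsym, hβ, hp.equi A ξ hξ, real_inner_comm]
  have hP5 : ⟪D.mh (Lt p t ξ) σ, D.mh (Lt p t ξ) (fderiv ℝ (Lt p t) ξ σ)⟫
      = ‖D.mh ξ σ‖ ^ 2 + 3 * t * ⟪D.mh ξ σ, D.mh (p ξ) σ⟫
        + t ^ 2 * (2 * ‖D.mh (p ξ) σ‖ ^ 2 + ⟪D.mh ξ σ, D.mh (p ξ) bs⟫)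
        + t ^ 3 * ⟪D.mh (p ξ) σ, D.mh (p ξ) bs⟫ := by
    have e1 : ∀ v, D.mh (Lt p t ξ) v = D.mh ξ v + t • D.mh (p ξ) v := by
      intro v
      rw [Lt, map_add, map_smul, _root_.add_apply, _root_.smul_apply]
    rw [e1, e1, hDL, ← hbs, map_add, map_add, map_smul, map_smul, hν, ← real_inner_self_eq_norm_sq,
      ← real_inner_self_eq_norm_sq]
    have e2 : ⟪D.mh (p ξ) σ, D.mh ξ σ⟫ = ⟪D.mh ξ σ, D.mh (p ξ) σ⟫ := real_inner_comm _ _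
    simp only [inner_add_left, inner_add_right, real_inner_smul_left,
      real_inner_smul_right, smul_add, e2]
    ring
  have hJ : ⟪bs, D.mm η σ⟫ - ⟪r, s⟫ = ⟪bs, D.mm (p ξ) a⟫
      + ‖D.mh (p ξ) σ‖ ^ 2 - ⟪D.mh ξ σ, D.mh (p ξ) bs⟫ := by
    have e1 := congrArg (fun v => ⟪bs, v⟫) (jacobi_use hD hp ξ σ)
    simp only [inner_add_right, inner_sub_right] at e1
    rw [← hη, ← hs, ← ha, real_inner_comm (D.act (D.mh (p ξ) σ) ξ) bs,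
      real_inner_comm (D.act (D.mh ξ σ) (p ξ)) bs, ← hD.mh_eq, ← hD.mh_eq, hν,
      real_inner_self_eq_norm_sq] at e1
    have e2 : ⟪r, s⟫ = -⟪bs, D.mm ξ s⟫ := by rw [hr, hD.skew]
    rw [e2]
    linear_combination e1
  have h1 : ⟪u1, s⟫ = -⟪r, s⟫ + ⟪β a, s⟫ := by
    rw [hu1', inner_add_left, inner_neg_left]
  have h2 : ⟪u1, u1⟫ = ⟪r, r⟫ - 2 * ⟪r, β a⟫ + ⟪β a, β a⟫ := by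
    rw [hu1', inner_add_left, inner_neg_left, inner_add_right, inner_neg_right, inner_add_right,
      inner_neg_right, real_inner_comm r (β a)]
    ring
  have h3 : ⟪u1, a⟫ = -⟪a, r⟫ + ⟪β a, a⟫ := by
    rw [hu1', inner_add_left, inner_neg_left, real_inner_comm a r]
  have h4 : ⟪r, u1⟫ = -⟪r, r⟫ + ⟪r, β a⟫ := by
    rw [hu1', inner_add_right, inner_neg_right]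
  unfold polyP
  rw [hP1, hP2, ← hβ, hP2b, hP3, hP4, hP5, h1, h2, h3, h4]
  linear_combination t ^ 2 * hJ

end HFinG
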