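import Pool.Agent.HFinG.G1

/-! MODULE G4 (diff 2): uniform bounds on the unit sphere, continuity of `P3`.

All the maps `(ξ,σ) ↦ β_ξ σ, bdot, qq2, D(qq2 · σ)(ξ)(η)` are continuous on `{ξ ≠ 0} × V` (they are
built from `p` and its first three derivatives, jointly smooth in `(ξ,σ)`: e.g.
`(ξ,σ) ↦ fderiv ℝ p ξ σ` is smooth because `ξ ↦ fderiv ℝ p ξ ∈ V →L V` is smooth on `{ξ ≠ 0}` and
evaluation is bilinear; `fderiv ℝ (fun y => fderiv ℝ p y σ) ξ v = (fderiv ℝ (fderiv ℝ p) ξ v) σ`).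
Suggested route for `qq2'`: `Q y := (the linear map σ ↦ qq2 D p y σ) ∈ V →L[ℝ] V` is a smooth function
of `y ≠ 0` (sum of compositions of smooth operator-valued maps), then
`fderiv ℝ (fun y => qq2 D p y σ) ξ v = (fderiv ℝ Q ξ v) σ`.
The set of unit vectors is compact, so everything is bounded there.
-/

namespace HFinG

open scoped ContDiff RealInnerProductSpace

variable {V H : Type*} [NormedAddCommGroup V] [InnerProductSpace ℝ V]
  [NormedAddCommGroup H] [InnerProductSpace ℝ H] [FiniteDimensional ℝ V]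

omit [InnerProductSpace ℝ V] [FiniteDimensional ℝ V] in
theorem G4_nhds {x : V} (hx : x ≠ 0) : {x : V | x ≠ 0} ∈ nhds x :=
  isOpen_ne.mem_nhds hx

/-- `β` as an operator valued map. -/
noncomputable def G4_B (p : V → V) (y : V) : V →L[ℝ] V := fderiv ℝ p y

/-- `η`. -/
noncomputable def G4_eta (D : RedData V H) (p : V → V) (y : V) : V := D.mm (p y) y

/-- `β̇` as an operator valued map. -/
noncomputable def G4_Bd (D : RedData V H) (p : V → V) (y : V) : V →L[ℝ] V :=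
  fderiv ℝ (G4_B p) y (G4_eta D p y)

/-- `q₁` as an operator valued map. -/
noncomputable def G4_Q1 (D : RedData V H) (p : V → V) (y : V) : V →L[ℝ] V :=
  - (D.mm y).comp (G4_B p y) + (G4_B p y).comp (D.mm y)

/-- `q₂` as an operator valued map. -/
noncomputable def G4_Q2 (D : RedData V H) (p : V → V) (y : V) : V →L[ℝ] V :=
  G4_Bd D p y - (D.mm (p y)).comp (G4_B p y) + (G4_B p y).comp (D.mm (p y))

/-- `q₂'` as an operator valued map. -/
noncomputable def G4_Q2d (D : RedData V H) (p : V → V) (y : V) : V →L[ℝ] V :=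
  fderiv ℝ (G4_Q2 D p) y (G4_eta D p y)

omit [FiniteDimensional ℝ V] in
theorem G4_B_smooth {D : RedData V H} {p : V → V} (hp : IsPert D p) :
    ContDiffOn ℝ ∞ (G4_B p) {x | x ≠ 0} :=
  hp.smooth.fderiv_of_isOpen isOpen_ne (by simp)

omit [FiniteDimensional ℝ V] in
theorem G4_eta_smooth {D : RedData V H} {p : V → V} (hp : IsPert D p) :
    ContDiffOn ℝ ∞ (G4_eta D p) {x | x ≠ 0} :=
  (D.mm.contDiff.comp_contDiffOn hp.smooth).clm_apply contDiffOn_id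

omit [FiniteDimensional ℝ V] in
theorem G4_Bd_smooth {D : RedData V H} {p : V → V} (hp : IsPert D p) :
    ContDiffOn ℝ ∞ (G4_Bd D p) {x | x ≠ 0} :=
  ((G4_B_smooth hp).fderiv_of_isOpen isOpen_ne (by simp)).clm_apply (G4_eta_smooth hp)

omit [FiniteDimensional ℝ V] in
theorem G4_Q1_smooth {D : RedData V H} {p : V → V} (hp : IsPert D p) :
    ContDiffOn ℝ ∞ (G4_Q1 D p) {x | x ≠ 0} := by
  have h1 : ContDiffOn ℝ ∞ (fun y : V => D.mm y) {x | x ≠ 0} := D.mm.contDiff.contDiffOn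
  exact ((h1.clm_comp (G4_B_smooth hp)).neg).add ((G4_B_smooth hp).clm_comp h1)

omit [FiniteDimensional ℝ V] in
theorem G4_Q2_smooth {D : RedData V H} {p : V → V} (hp : IsPert D p) :
    ContDiffOn ℝ ∞ (G4_Q2 D p) {x | x ≠ 0} := by
  have h1 : ContDiffOn ℝ ∞ (fun y : V => D.mm (p y)) {x | x ≠ 0} :=
    D.mm.contDiff.comp_contDiffOn hp.smooth
  exact ((G4_Bd_smooth hp).sub (h1.clm_comp (G4_B_smooth hp))).add
    ((G4_B_smooth hp).clm_comp h1)

omit [FiniteDimensional ℝ V] in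
theorem G4_Q2d_smooth {D : RedData V H} {p : V → V} (hp : IsPert D p) :
    ContDiffOn ℝ ∞ (G4_Q2d D p) {x | x ≠ 0} :=
  ((G4_Q2_smooth hp).fderiv_of_isOpen isOpen_ne (by simp)).clm_apply (G4_eta_smooth hp)

omit [FiniteDimensional ℝ V] in
theorem G4_eval {W : Type*} [NormedAddCommGroup W] [NormedSpace ℝ W] {A : V → W →L[ℝ] W}
    (hA : ContDiffOn ℝ ∞ A {x | x ≠ 0}) {ξ : V} (hξ : ξ ≠ 0) (σ : W) (v : V) :
    fderiv ℝ (fun y => A y σ) ξ v = (fderiv ℝ A ξ v) σ := by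
  have hd : HasFDerivAt A (fderiv ℝ A ξ) ξ :=
    ((hA.contDiffAt (G4_nhds hξ)).differentiableAt (by simp)).hasFDerivAt
  rw [(hd.clm_apply (hasFDerivAt_const σ ξ)).fderiv]
  simp

omit [FiniteDimensional ℝ V] in
theorem G4_bdot {D : RedData V H} {p : V → V} (hp : IsPert D p) {ξ : V} (hξ : ξ ≠ 0) (σ : V) :
    bdot D p ξ σ = G4_Bd D p ξ σ :=
  G4_eval (G4_B_smooth hp) hξ σ _

omit [FiniteDimensional ℝ V] in
theorem G4_qq1 {D : RedData V H} {p : V → V} (ξ σ : V) :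
    qq1 D p ξ σ = G4_Q1 D p ξ σ := by
  simp [qq1, G4_Q1, G4_B]

omit [FiniteDimensional ℝ V] in
theorem G4_qq2 {D : RedData V H} {p : V → V} (hp : IsPert D p) {ξ : V} (hξ : ξ ≠ 0) (σ : V) :
    qq2 D p ξ σ = G4_Q2 D p ξ σ := by
  have h := G4_bdot hp hξ σ
  unfold bdot at h
  unfold qq2 G4_Q2
  rw [h]
  simp [G4_B]

omit [FiniteDimensional ℝ V] in
theorem G4_qq2d {D : RedData V H} {p : V → V} (hp : IsPert D p) {ξ : V} (hξ : ξ ≠ 0) (σ : V) :
    fderiv ℝ (fun y => qq2 D p y σ) ξ (D.mm (p ξ) ξ) = G4_Q2d D p ξ σ := by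
  have h : (fun y => qq2 D p y σ) =ᶠ[nhds ξ] fun y => G4_Q2 D p y σ := by
    filter_upwards [G4_nhds hξ] with y hy
    exact G4_qq2 hp hy σ
  rw [h.fderiv_eq]
  exact G4_eval (G4_Q2_smooth hp) hξ σ _

omit [FiniteDimensional ℝ V] in
theorem G4_cont {A : V → V →L[ℝ] V} (hA : ContDiffOn ℝ ∞ A {x | x ≠ 0}) {f : V × V → V}
    (hf : ContinuousOn f {z : V × V | z.1 ≠ 0}) :
    ContinuousOn (fun z : V × V => A z.1 (f z)) {z : V × V | z.1 ≠ 0} := by
  have h1 : ContinuousOn (fun z : V × V => A z.1) {z : V × V | z.1 ≠ 0} :=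
    hA.continuousOn.comp continuous_fst.continuousOn (fun z hz => hz)
  exact h1.clm_apply hf

omit [FiniteDimensional ℝ V] in
theorem P3_cont {D : RedData V H} {p : V → V} (hp : IsPert D p) :
    ContinuousOn (fun z : V × V => P3 D p z.1 z.2) {z | z.1 ≠ 0} := by
  have hs : ContinuousOn (fun z : V × V => z.2) {z : V × V | z.1 ≠ 0} :=
    continuous_snd.continuousOn
  have hx : ContinuousOn (fun z : V × V => z.1) {z : V × V | z.1 ≠ 0} :=
    continuous_fst.continuousOn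
  have hpc : ContinuousOn (fun z : V × V => p z.1) {z : V × V | z.1 ≠ 0} :=
    hp.smooth.continuousOn.comp continuous_fst.continuousOn (fun z hz => hz)
  have hB := G4_cont (G4_B_smooth hp) hs
  have hQ := G4_cont (G4_Q2_smooth hp) hs
  have hQd := G4_cont (G4_Q2d_smooth hp) hs
  have hmp : ContinuousOn (fun z : V × V => D.mm (p z.1) z.2) {z : V × V | z.1 ≠ 0} :=
    (D.mm.continuous.comp_continuousOn hpc).clm_apply hs
  have hmB : ContinuousOn (fun z : V × V => D.mm z.1 (G4_B p z.1 z.2))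
      {z : V × V | z.1 ≠ 0} :=
    (D.mm.continuous.comp_continuousOn hx).clm_apply hB
  have hBm := G4_cont (G4_B_smooth hp) hmB
  have hap : ContinuousOn (fun z : V × V => D.mh (p z.1)) {z : V × V | z.1 ≠ 0} :=
    D.mh.continuous.comp_continuousOn hpc
  have e1 := (ContinuousOn.inner (𝕜 := ℝ) hQd hs).div_const 2
  have e2 := ContinuousOn.inner (𝕜 := ℝ) hQ (hmp.add hmB)
  have e3 := ContinuousOn.inner (𝕜 := ℝ) hBm hmB
  have e4 := ContinuousOn.inner (𝕜 := ℝ) (hap.clm_apply hs) (hap.clm_apply hB)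
  have h2 := ((e1.add e2).add e3).add e4
  refine h2.congr ?_
  rintro ⟨ξ, σ⟩ hz
  simp only [P3]
  rw [G4_qq2 hp hz, G4_qq2d hp hz]
  rfl

theorem G4_sphere_bound {W : Type*} [NormedAddCommGroup W] {A : V → W}
    (hA : ContinuousOn A {x | x ≠ 0}) :
    ∃ M : ℝ, 0 ≤ M ∧ ∀ ξ : V, ‖ξ‖ = 1 → ‖A ξ‖ ≤ M := by
  have hc : ContinuousOn A (Metric.sphere (0 : V) 1) := hA.mono (by
    intro x hx h0
    rw [h0] at hx
    simp at hx)
  obtain ⟨C, hC⟩ := (isCompact_sphere (0 : V) 1).exists_bound_of_continuousOn hc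
  refine ⟨|C|, abs_nonneg C, fun ξ hξ => (hC ξ (by simpa using hξ)).trans (le_abs_self C)⟩

theorem unif_bound {D : RedData V H} {p : V → V} (hp : IsPert D p) :
    ∃ M : ℝ, 1 ≤ M ∧ ∀ ξ : V, ‖ξ‖ = 1 → ‖p ξ‖ ≤ M ∧ (∀ v, ‖fderiv ℝ p ξ v‖ ≤ M * ‖v‖) ∧
      ∀ σ : V, ‖σ‖ = 1 → ‖bdot D p ξ σ‖ ≤ M ∧ ‖qq1 D p ξ σ‖ ≤ M ∧ ‖qq2 D p ξ σ‖ ≤ M ∧
        ‖fderiv ℝ (fun y => qq2 D p y σ) ξ (D.mm (p ξ) ξ)‖ ≤ M := by
  obtain ⟨M0, h0, hM0⟩ := G4_sphere_bound hp.smooth.continuousOn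
  obtain ⟨M1, h1, hM1⟩ := G4_sphere_bound (G4_B_smooth hp).continuousOn
  obtain ⟨M2, h2, hM2⟩ := G4_sphere_bound (G4_Bd_smooth hp).continuousOn
  obtain ⟨M3, h3, hM3⟩ := G4_sphere_bound (G4_Q1_smooth hp).continuousOn
  obtain ⟨M4, h4, hM4⟩ := G4_sphere_bound (G4_Q2_smooth hp).continuousOn
  obtain ⟨M5, h5, hM5⟩ := G4_sphere_bound (G4_Q2d_smooth hp).continuousOn
  refine ⟨1 + M0 + M1 + M2 + M3 + M4 + M5, by linarith, fun ξ hξ => ?_⟩
  have hne : ξ ≠ 0 := by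
    intro h
    rw [h, norm_zero] at hξ
    exact zero_ne_one hξ
  have a0 := hM0 ξ hξ
  have a1 := hM1 ξ hξ
  have a2 := hM2 ξ hξ
  have a3 := hM3 ξ hξ
  have a4 := hM4 ξ hξ
  have a5 := hM5 ξ hξ
  refine ⟨by linarith, fun v => ?_, fun σ hσ => ?_⟩
  · have := (G4_B p ξ).le_opNorm v
    refine this.trans (mul_le_mul_of_nonneg_right (by linarith) (norm_nonneg v))
  · rw [G4_bdot hp hne, G4_qq1, G4_qq2 hp hne, G4_qq2d hp hne]
    have b2 := (G4_Bd D p ξ).le_opNorm σ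
    have b3 := (G4_Q1 D p ξ).le_opNorm σ
    have b4 := (G4_Q2 D p ξ).le_opNorm σ
    have b5 := (G4_Q2d D p ξ).le_opNorm σ
    rw [hσ, mul_one] at b2 b3 b4 b5
    exact ⟨by linarith, by linarith, by linarith, by linarith⟩

end HFinG
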