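import Pool.Agent.HFinG.G3
import Pool.Agent.HFinG.G4

/-! MODULE G5 (diff 2-3): the expansion with error terms.

Let `q = coq D (Lt p t) ξ σ = t u₁ + t² u₂`, `c` with `c + tβc = q` (`fderiv_Lt`).
(a) `c = q - tβc = q - tβq + t²β(βc)`, so `⟪c,q⟫ = ⟪q,q⟫ - t⟪βq,q⟫ + t²⟪ββc,q⟫` and
`dualP = polyP - 3/4 t² ⟪β(βc),q⟫`.  For `t ≤ 1/(2M)`: `‖c‖ ≤ 2‖q‖`, `‖q‖ ≤ 2Mt`, so the last
term is `O(t⁴)`.
(b) `polyP_eq`; the coefficient of `t³` differs from `P3 D p ξ σ` by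
`-3/2⟪βa,u₂⟫ - 3/2⟪βr,βa⟫ + 3/4⟪β(βa),βa⟫ = O(‖a‖)` (put `u₁ = -r + βa`, `⟪βr,βa⟫`-terms use the
symmetry of `β`; `P3 = ⟪q₂',σ⟫/2 + ⟪u₂,s+r⟫ + ⟪βr,r⟫ + νν₂`), the bracket of `t²` is
`3ν² + O(‖a‖)` (all other terms are inner products with one factor `a` or `βa`), the bracket of `t`
is `3λν + O(‖a‖²)`, the coefficients of `t⁴, t⁵` are bounded.
(c) collect: error `≤ K (t‖a‖² + t²‖a‖ + t⁴)` for `0 < t < t0 ≤ 1`
(`t³‖a‖ ≤ t²‖a‖`, `t⁵ ≤ t⁴`).  `‖a‖ ≤ ‖D.mm‖` is bounded, as are `‖r‖`, `‖s‖`.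
-/

namespace HFinG

open scoped ContDiff RealInnerProductSpace

variable {V H : Type*} [NormedAddCommGroup V] [InnerProductSpace ℝ V]
  [NormedAddCommGroup H] [InnerProductSpace ℝ H] [FiniteDimensional ℝ V]

theorem G5_le {K B A X : ℝ} (h : K ≤ B) (hA : 0 ≤ A) (hX : X = K * A) : X ≤ B * A :=
  hX ▸ mul_le_mul_of_nonneg_right h hA

theorem G5_low {X Y s : ℝ} (hs : 0 ≤ s) (h : |X| ≤ Y) : -(s * Y) ≤ s * X := by
  have := (abs_le.1 h).1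
  nlinarith

omit [FiniteDimensional ℝ V] in
theorem G5_inner {x y : V} {a b Y : ℝ} (hx : ‖x‖ ≤ a) (hy : ‖y‖ ≤ b) (hY : a * b ≤ Y) :
    |⟪x, y⟫| ≤ Y := by
  have h1 := abs_real_inner_le_norm x y
  have h2 : ‖x‖ * ‖y‖ ≤ a * b :=
    mul_le_mul hx hy (norm_nonneg _) ((norm_nonneg _).trans hx)
  linarith

/-- the purely real part -/
theorem G5_real {t A B LL LN NN P X1 X2 X3 X4 X5 X6 X7 Y1 Y2 Y3 Z1 Z2 Z3 W : ℝ}
    (ht : 0 ≤ t) (ht1 : t ≤ 1) (hA : 0 ≤ A) (hB : 0 ≤ B)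
    (h1 : |X1| ≤ B * A ^ 2) (h2 : |X2| ≤ B * A) (h3 : |X3| ≤ B * A) (h4 : |X4| ≤ B * A)
    (h5 : |X5| ≤ B * A) (h6 : |X6| ≤ B * A) (h7 : |X7| ≤ B * A) (k1 : |Y1| ≤ B * A)
    (k2 : |Y2| ≤ B * A) (k3 : |Y3| ≤ B * A) (l1 : |Z1| ≤ B) (l2 : |Z2| ≤ B) (l3 : |Z3| ≤ B)
    (w : |W| ≤ 8 * B * t ^ 4) :
    A ^ 2 / 4 + (LL + 3 * t * LN + 3 * t ^ 2 * NN) + t ^ 3 * P
      - 10 * B * (t * A ^ 2 + t ^ 2 * A + t ^ 4) ≤
    A ^ 2 / 4 + LL + t * (3 / 4 * X1 + 3 * LN)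
      + t ^ 2 * (3 * NN + X2 + X3 / 2 + X4 + X5 + 3 / 2 * X6 - 3 / 4 * X7)
      + t ^ 3 * (P - 3 / 2 * Y1 - 3 / 2 * Y2 + 3 / 4 * Y3)
      + t ^ 4 * (- 3 / 4 * Z1 + 3 / 2 * Z2) + t ^ 5 * (3 / 4 * Z3) - 3 / 4 * W := by
  have a1 := G5_low ht h1
  have ht2 : 0 ≤ t ^ 2 := by positivity
  have ht3 : 0 ≤ t ^ 3 := by positivity
  have ht4 : 0 ≤ t ^ 4 := by positivity
  have ht5 : 0 ≤ t ^ 5 := by positivity
  have a2 := G5_low ht2 h2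
  have a3 := G5_low ht2 h3
  have a4 := G5_low ht2 h4
  have a5 := G5_low ht2 h5
  have a6 := G5_low ht2 h6
  have a7 := G5_low ht2 (by rwa [abs_neg] : |(-X7)| ≤ B * A)
  have b1 := G5_low ht3 (by rwa [abs_neg] : |(-Y1)| ≤ B * A)
  have b2 := G5_low ht3 (by rwa [abs_neg] : |(-Y2)| ≤ B * A)
  have b3 := G5_low ht3 k3
  have c1 := G5_low ht4 (by rwa [abs_neg] : |(-Z1)| ≤ B)
  have c2 := G5_low ht4 l2
  have c3 := G5_low ht5 l3
  have w1 := (abs_le.1 w).2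
  have d1 : t ^ 3 * (B * A) ≤ t ^ 2 * (B * A) := by
    apply mul_le_mul_of_nonneg_right _ (mul_nonneg hB hA)
    exact pow_le_pow_of_le_one ht ht1 (by norm_num)
  have d2 : t ^ 5 * B ≤ t ^ 4 * B := by
    apply mul_le_mul_of_nonneg_right _ hB
    exact pow_le_pow_of_le_one ht ht1 (by norm_num)
  have e1 : 0 ≤ t * (B * A ^ 2) := by positivity
  have e2 : 0 ≤ t ^ 2 * (B * A) := by positivity
  have e3 : 0 ≤ t ^ 4 * B := by positivity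
  linarith [a1, a2, a3, a4, a5, a6, a7, b1, b2, b3, c1, c2, c3, w1, d1, d2, e1, e2, e3]

omit [FiniteDimensional ℝ V] in
theorem G5_mm {D : RedData V H} {x y : V} {a b : ℝ} (hx : ‖x‖ ≤ a) (hy : ‖y‖ ≤ b) :
    ‖D.mm x y‖ ≤ (‖D.mm‖ + 1) * a * b := by
  have h1 := D.mm.le_opNorm₂ x y
  have ha : 0 ≤ a := (norm_nonneg _).trans hx
  have hb : 0 ≤ b := (norm_nonneg _).trans hy
  have h2 : ‖D.mm‖ * ‖x‖ * ‖y‖ ≤ ‖D.mm‖ * a * b := by
    apply mul_le_mul _ hy (norm_nonneg _) (by positivity)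
    exact mul_le_mul_of_nonneg_left hx (norm_nonneg D.mm)
  have h3 : ‖D.mm‖ * a * b ≤ (‖D.mm‖ + 1) * a * b := by
    apply mul_le_mul_of_nonneg_right _ hb
    apply mul_le_mul_of_nonneg_right _ ha
    linarith
  linarith

set_option maxHeartbeats 4000000 in
theorem expansion {D : RedData V H} (hD : IsNormal D) {p : V → V} (hp : IsPert D p) :
    ∃ K t0 : ℝ, 0 < K ∧ 0 < t0 ∧ ∀ t, 0 < t → t < t0 → ∀ ξ σ c : V, ‖ξ‖ = 1 → ‖σ‖ = 1 →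
      ⟪ξ, σ⟫ = 0 → fderiv ℝ (Lt p t) ξ c = coq D (Lt p t) ξ σ →
      ‖D.mm ξ σ‖ ^ 2 / 4
        + (‖D.mh ξ σ‖ ^ 2 + 3 * t * ⟪D.mh ξ σ, D.mh (p ξ) σ⟫
            + 3 * t ^ 2 * ‖D.mh (p ξ) σ‖ ^ 2)
        + t ^ 3 * P3 D p ξ σ
        - K * (t * ‖D.mm ξ σ‖ ^ 2 + t ^ 2 * ‖D.mm ξ σ‖ + t ^ 4) ≤ dualP D (Lt p t) ξ σ c := by
  obtain ⟨M, hM1, hM⟩ := unif_bound (D := D) hp
  set C : ℝ := ‖D.mm‖ + 1 with hC
  have hC1 : 1 ≤ C := by rw [hC]; linarith [norm_nonneg D.mm]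
  set B : ℝ := C * M ^ 4 with hB
  have hM0 : 0 < M := by linarith
  have hC0 : 0 < C := by linarith
  have hB0 : 0 < B := by positivity
  -- comparison of monomials with `B`
  have m1 : M ≤ M ^ 4 := le_self_pow₀ hM1 (by norm_num)
  have m2 : M ^ 2 ≤ M ^ 4 := pow_le_pow_right₀ hM1 (by norm_num)
  have m3 : M ^ 3 ≤ M ^ 4 := pow_le_pow_right₀ hM1 (by norm_num)
  have m4 : 0 < M ^ 4 := by positivity
  have n4 : M ^ 4 ≤ B := by rw [hB]; nlinarith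
  have n1 : M ≤ B := by linarith
  have n2 : M ^ 2 ≤ B := by linarith
  have n3 : M ^ 3 ≤ B := by linarith
  have q1 : C * M ≤ B := by rw [hB]; exact mul_le_mul_of_nonneg_left m1 hC0.le
  have q2 : C * M ^ 2 ≤ B := by rw [hB]; exact mul_le_mul_of_nonneg_left m2 hC0.le
  have q3 : C * M ^ 3 ≤ B := by rw [hB]; exact mul_le_mul_of_nonneg_left m3 hC0.le
  refine ⟨10 * B, min 1 (1 / (2 * M)), by positivity, by positivity, ?_⟩
  intro t ht0 ht ξ σ c hξ1 hσ1 _ hc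
  have ht1 : t ≤ 1 := (ht.trans_le (min_le_left _ _)).le
  have htM : t * M ≤ 1 / 2 := by
    have h : t < 1 / (2 * M) := ht.trans_le (min_le_right _ _)
    rw [lt_div_iff₀ (by positivity)] at h
    linarith
  have hξ : ξ ≠ 0 := by
    intro h
    rw [h, norm_zero] at hξ1
    exact zero_ne_one hξ1
  obtain ⟨hp1, hβ, hM'⟩ := hM ξ hξ1
  obtain ⟨hbd, hu1, hu2, _⟩ := hM' σ hσ1
  set β := fderiv ℝ p ξ with hβdef
  set a := D.mm ξ σ with ha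
  set bs := β σ with hbs
  set r := D.mm ξ bs with hr
  set s := D.mm (p ξ) σ with hs
  set u1 := qq1 D p ξ σ with hu1d
  set u2 := qq2 D p ξ σ with hu2d
  set q := coq D (Lt p t) ξ σ with hq
  have hu1e : u1 = -r + β a := rfl
  have hsym : ∀ u v, ⟪β u, v⟫ = ⟪u, β v⟫ := hp.symm ξ hξ
  set A := ‖a‖ with hA
  have hA0 : 0 ≤ A := norm_nonneg _
  -- norms
  have na : ‖a‖ ≤ C := by
    have := G5_mm (D := D) hξ1.le hσ1.le
    simpa using this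
  have nbs : ‖bs‖ ≤ M := by
    have := hβ σ
    rw [hσ1, mul_one] at this
    exact this
  have nr : ‖r‖ ≤ C * M := by
    have := G5_mm (D := D) hξ1.le nbs
    rw [← hC] at this
    linarith
  have ns : ‖s‖ ≤ C * M := by
    have := G5_mm (D := D) hp1 hσ1.le
    rw [← hC] at this
    linarith
  have nba : ‖β a‖ ≤ M * A := hβ a
  have npa : ‖D.mm (p ξ) a‖ ≤ C * M * A := G5_mm (D := D) hp1 (le_refl _)
  have nbba : ‖β (β a)‖ ≤ M * (M * A) := (hβ _).trans (mul_le_mul_of_nonneg_left nba hM0.le)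
  have nbr : ‖β r‖ ≤ M * (C * M) := (hβ _).trans (mul_le_mul_of_nonneg_left nr hM0.le)
  have nbu1 : ‖β u1‖ ≤ M * M := (hβ _).trans (mul_le_mul_of_nonneg_left hu1 hM0.le)
  have nbu2 : ‖β u2‖ ≤ M * M := (hβ _).trans (mul_le_mul_of_nonneg_left hu2 hM0.le)
  have hAC : M ^ 2 * A ≤ M ^ 2 * C := mul_le_mul_of_nonneg_left na (by positivity)
  -- bounds of the products
  have h1 : |⟪β a, a⟫| ≤ B * A ^ 2 := G5_inner nba le_rfl (G5_le n1 (sq_nonneg A) (by ring))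
  have h2 : |⟪bs, D.mm (p ξ) a⟫| ≤ B * A := G5_inner nbs npa (G5_le q2 hA0 (by ring))
  have h3 : |⟪u2, a⟫| ≤ B * A := G5_inner hu2 le_rfl (G5_le n1 hA0 (by ring))
  have h4 : |⟪β a, s⟫| ≤ B * A := G5_inner nba ns (G5_le q2 hA0 (by ring))
  have h5 : |⟪bdot D p ξ σ, a⟫| ≤ B * A := G5_inner hbd le_rfl (G5_le n1 hA0 (by ring))
  have h6 : |⟪r, β a⟫| ≤ B * A := G5_inner nr nba (G5_le q2 hA0 (by ring))
  have h7 : |⟪β a, β a⟫| ≤ B * A := G5_inner nba nba (by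
    have : M * A * (M * A) = (M ^ 2 * A) * A := by ring
    rw [this]
    apply mul_le_mul_of_nonneg_right _ hA0
    linarith)
  have k1 : |⟪β a, u2⟫| ≤ B * A := G5_inner nba hu2 (G5_le n2 hA0 (by ring))
  have k2 : |⟪β r, β a⟫| ≤ B * A := G5_inner nbr nba (by
    have : M * (C * M) * (M * A) = (C * M ^ 3) * A := by ring
    rw [this]
    exact mul_le_mul_of_nonneg_right q3 hA0)
  have k3 : |⟪β (β a), β a⟫| ≤ B * A := G5_inner nbba nba (by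
    have : M * (M * A) * (M * A) = (M * (M ^ 2 * A)) * A := by ring
    rw [this]
    apply mul_le_mul_of_nonneg_right _ hA0
    have : M * (M ^ 2 * A) ≤ M * (M ^ 2 * C) := mul_le_mul_of_nonneg_left hAC hM0.le
    linarith)
  have l1 : |⟪u2, u2⟫| ≤ B := G5_inner hu2 hu2 (by linarith)
  have l2 : |⟪β u1, u2⟫| ≤ B := G5_inner nbu1 hu2 (by linarith)
  have l3 : |⟪β u2, u2⟫| ≤ B := G5_inner nbu2 hu2 (by linarith)
  -- the remainder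
  have hcq : c + t • β c = q := by
    rw [← hc, fderiv_Lt hp t hξ]
  have hqe : q = t • u1 + t ^ 2 • u2 := coq_Lt hp t hξ σ
  have nq : ‖q‖ ≤ 2 * M * t := by
    rw [hqe]
    have e1 : ‖t • u1‖ ≤ t * M := by
      rw [norm_smul, Real.norm_of_nonneg ht0.le]
      exact mul_le_mul_of_nonneg_left hu1 ht0.le
    have e2 : ‖t ^ 2 • u2‖ ≤ t ^ 2 * M := by
      rw [norm_smul, Real.norm_of_nonneg (by positivity)]
      exact mul_le_mul_of_nonneg_left hu2 (by positivity)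
    have e3 : t ^ 2 * M ≤ t * M := by
      exact mul_le_mul_of_nonneg_right (pow_le_of_le_one ht0.le ht1 two_ne_zero) hM0.le
    linarith [norm_add_le (t • u1) (t ^ 2 • u2)]
  have nc : ‖c‖ ≤ 4 * M * t := by
    have e1 : c = q - t • β c := by rw [← hcq]; abel
    have e2 : ‖t • β c‖ ≤ t * (M * ‖c‖) := by
      rw [norm_smul, Real.norm_of_nonneg ht0.le]
      exact mul_le_mul_of_nonneg_left (hβ c) ht0.le
    have e3 : ‖c‖ ≤ ‖q‖ + ‖t • β c‖ := by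
      conv_lhs => rw [e1]
      exact norm_sub_le _ _
    have e4 : t * (M * ‖c‖) ≤ 1 / 2 * ‖c‖ := by
      rw [← mul_assoc]
      exact mul_le_mul_of_nonneg_right htM (norm_nonneg _)
    linarith
  have nbbc : ‖β (β c)‖ ≤ M * (M * (4 * M * t)) :=
    (hβ _).trans (mul_le_mul_of_nonneg_left ((hβ c).trans
      (mul_le_mul_of_nonneg_left nc hM0.le)) hM0.le)
  have w0 : |⟪β (β c), q⟫| ≤ 8 * B * t ^ 2 := G5_inner nbbc nq (by
    have : M * (M * (4 * M * t)) * (2 * M * t) = 8 * M ^ 4 * t ^ 2 := by ring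
    rw [this]
    apply mul_le_mul_of_nonneg_right _ (by positivity)
    linarith)
  have w : |t ^ 2 * ⟪β (β c), q⟫| ≤ 8 * B * t ^ 4 := by
    rw [abs_mul, abs_of_nonneg (by positivity : (0 : ℝ) ≤ t ^ 2)]
    have := mul_le_mul_of_nonneg_left w0 (by positivity : (0 : ℝ) ≤ t ^ 2)
    calc t ^ 2 * |⟪β (β c), q⟫| ≤ t ^ 2 * (8 * B * t ^ 2) := this
      _ = 8 * B * t ^ 4 := by ring
  have hcq2 : ⟪c, q⟫ = ⟪q, q⟫ - t * ⟪β q, q⟫ + t ^ 2 * ⟪β (β c), q⟫ := by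
    have e1 : c = q - t • β q + t ^ 2 • β (β c) := by
      have e2 : β c + t • β (β c) = β q := by rw [← hcq, map_add, map_smul]
      rw [← e2, ← hcq, smul_add, smul_smul, sq]
      abel
    conv_lhs => rw [e1]
    rw [inner_add_left, inner_sub_left, real_inner_smul_left, real_inner_smul_left]
  have hdual : dualP D (Lt p t) ξ σ c = polyP D p t ξ σ - 3 / 4 * (t ^ 2 * ⟪β (β c), q⟫) := by
    rw [dualP, polyP, ← hq, hcq2]
    ring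
  have hpoly := polyP_eq hD hp t hξ σ a r s u1 u2 bs ha rfl hr hs hu1d hu2d
  rw [← hβdef] at hpoly
  have hu12 : ⟪u1, u2⟫ = -⟪r, u2⟫ + ⟪β a, u2⟫ := by
    rw [hu1e, inner_add_left, inner_neg_left]
  have hbu11 : ⟪β u1, u1⟫ = ⟪β r, r⟫ - 2 * ⟪β r, β a⟫ + ⟪β (β a), β a⟫ := by
    rw [hu1e, map_add, map_neg, inner_add_left, inner_add_right, inner_add_right, inner_neg_left,
      inner_neg_right, inner_neg_left, inner_neg_right, hsym (β a) r, real_inner_comm (β r) (β a)]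
    ring
  have hP3 : P3 D p ξ σ = ⟪fderiv ℝ (fun y => qq2 D p y σ) ξ (D.mm (p ξ) ξ), σ⟫ / 2
      + (⟪u2, s⟫ + ⟪r, u2⟫) + ⟪β r, r⟫ + ⟪D.mh (p ξ) σ, D.mh (p ξ) bs⟫ := by
    rw [P3, ← hβdef, ← hbs, ← hr, ← hs, ← hu2d, inner_add_right, real_inner_comm u2 r]
  have hmain := G5_real (t := t) (A := A) (B := B) (LL := ‖D.mh ξ σ‖ ^ 2)
    (LN := ⟪D.mh ξ σ, D.mh (p ξ) σ⟫) (NN := ‖D.mh (p ξ) σ‖ ^ 2) (P := P3 D p ξ σ) ht0.le ht1 hA0 hB0.le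
    h1 h2 h3 h4 h5 h6 h7 k1 k2 k3 l1 l2 l3 w
  rw [hdual, hpoly, hu12, hbu11]
  have haa : ⟪a, a⟫ = A ^ 2 := real_inner_self_eq_norm_sq a
  rw [haa]
  refine hmain.trans (le_of_eq ?_)
  rw [hP3]
  ring

end HFinG
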