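import Pool.Agent.HFinG.Dual

/-! Definitions for the expansion (modules G1-G5). -/

namespace HFinG

open scoped ContDiff RealInnerProductSpace

variable {V H : Type*} [NormedAddCommGroup V] [InnerProductSpace ℝ V]
  [NormedAddCommGroup H] [InnerProductSpace ℝ H]

/-- `β̇ σ`: the derivative of `β = Dp` in the direction `η = [p ξ, ξ]_𝔪`, applied to `σ`. -/
noncomputable def bdot (D : RedData V H) (p : V → V) (ξ σ : V) : V :=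
  fderiv ℝ (fun y => fderiv ℝ p y σ) ξ (D.mm (p ξ) ξ)

/-- `q₁ ξ σ = - [ξ, βσ]_𝔪 + β [ξ,σ]_𝔪`. -/
noncomputable def qq1 (D : RedData V H) (p : V → V) (ξ σ : V) : V :=
  - D.mm ξ (fderiv ℝ p ξ σ) + fderiv ℝ p ξ (D.mm ξ σ)

/-- The polynomial part of `dualP D (Lt p t) ξ σ c`. -/
noncomputable def polyP (D : RedData V H) (p : V → V) (t : ℝ) (ξ σ : V) : ℝ :=
  ⟪coqq D (Lt p t) ξ σ, σ⟫ / 2
    - 3 / 4 * (⟪coq D (Lt p t) ξ σ, coq D (Lt p t) ξ σ⟫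
        - t * ⟪fderiv ℝ p ξ (coq D (Lt p t) ξ σ), coq D (Lt p t) ξ σ⟫)
    + ⟪fderiv ℝ (Lt p t) ξ (D.mm ξ (fderiv ℝ (Lt p t) ξ σ)),
        D.mm ξ (fderiv ℝ (Lt p t) ξ σ)⟫ / 4
    - ⟪D.mm ξ (fderiv ℝ (Lt p t) ξ σ), coq D (Lt p t) ξ σ⟫ / 2
    + ⟪D.mh (Lt p t ξ) σ, D.mh (Lt p t ξ) (fderiv ℝ (Lt p t) ξ σ)⟫

end HFinG
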