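import Mathlib

/-!
# Finsler metrics and their flag curvature in local coordinates, and on submanifolds

`V` is the coordinate space, `E x y = F(x,y)²/2` the energy of a Finsler metric, `x` the point and
`y` the tangent vector.
-/

namespace HFinG

open scoped ContDiff

section local_
variable {V : Type*} [NormedAddCommGroup V] [NormedSpace ℝ V]

/-- The fundamental tensor `g_{(x,y)}(u,v) = ∂²E/∂y∂y (x,y)(u,v)`. -/
noncomputable def lg (E : V → V → ℝ) (x y : V) : V →L[ℝ] V →L[ℝ] ℝ :=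
  fderiv ℝ (fun y' => fderiv ℝ (E x) y') y

/-- The spray coefficients `G(x,y)` (geodesics are the solutions of `c'' = -2 G(c,c')`):
`2 g(G,u) = y^k ∂²E/∂x^k∂y (u) - ∂E/∂x (u)`. -/
noncomputable def lG (E : V → V → ℝ) (x y : V) : V :=
  Classical.epsilon fun G => ∀ u, 2 * lg E x y G u =
    fderiv ℝ (fun x' => fderiv ℝ (E x') y u) x y - fderiv ℝ (fun x' => E x' y) x u

/-- The Riemann curvature
`R^i_k = 2 ∂G^i/∂x^k - y^j ∂²G^i/∂x^j∂y^k + 2 G^j ∂²G^i/∂y^j∂y^k - ∂G^i/∂y^j ∂G^j/∂y^k`. -/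
noncomputable def lR (E : V → V → ℝ) (x y w : V) : V :=
  (2 : ℝ) • fderiv ℝ (fun x' => lG E x' y) x w
    - fderiv ℝ (fun x' => fderiv ℝ (fun y' => lG E x' y') y w) x y
    + (2 : ℝ) • fderiv ℝ (fun y' => fderiv ℝ (fun y'' => lG E x y'') y' w) y (lG E x y)
    - fderiv ℝ (fun y' => lG E x y') y (fderiv ℝ (fun y' => lG E x y') y w)

/-- The flag curvature with flagpole `y` and flag `span(y,w)` at `x`. -/
noncomputable def lK (E : V → V → ℝ) (x y w : V) : ℝ :=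
  lg E x y (lR E x y w) w / (lg E x y y y * lg E x y w w - lg E x y y w ^ 2)

end local_

section global
variable {V W : Type*} [NormedAddCommGroup V] [NormedSpace ℝ V]
  [NormedAddCommGroup W] [NormedSpace ℝ W]

/-- `ψ : U → M` is a smooth immersion of the open set `U ⊆ V` into `W` with image in `M`.
(If `M` is a submanifold of dimension `dim V`, these are the local parametrizations of `M`.) -/
structure IsParam (M : Set W) (U : Set V) (ψ : V → W) : Prop where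
  isOpen : IsOpen U
  smooth : ContDiffOn ℝ ∞ ψ U
  mem : ∀ v ∈ U, ψ v ∈ M
  inj : ∀ v ∈ U, Function.Injective (fderiv ℝ ψ v)

/-- The energy `F²/2` in the coordinates given by `ψ`. -/
noncomputable def pullE (F : W → W → ℝ) (ψ : V → W) (v y : V) : ℝ :=
  F (ψ v) (fderiv ℝ ψ v y) ^ 2 / 2

/-- `F` is a (not necessarily reversible) Finsler metric on the `dim V`-dimensional submanifold `M`
of `W`; `F p ẏ` is the length of the tangent vector `ẏ` at `p ∈ M`. -/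
structure IsFinslerOn (V : Type*) [NormedAddCommGroup V] [NormedSpace ℝ V] (M : Set W)
    (F : W → W → ℝ) : Prop where
  pos : ∀ (U : Set V) (ψ : V → W), IsParam M U ψ → ∀ v ∈ U, ∀ y : V, y ≠ 0 →
    0 < F (ψ v) (fderiv ℝ ψ v y)
  smul : ∀ (U : Set V) (ψ : V → W), IsParam M U ψ → ∀ v ∈ U, ∀ y : V, ∀ c : ℝ, 0 ≤ c →
    F (ψ v) (c • fderiv ℝ ψ v y) = c * F (ψ v) (fderiv ℝ ψ v y)
  smooth : ∀ (U : Set V) (ψ : V → W), IsParam M U ψ →
    ContDiffOn ℝ ∞ (fun z : V × V => F (ψ z.1) (fderiv ℝ ψ z.1 z.2)) (U ×ˢ {y | y ≠ 0})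
  conv : ∀ (U : Set V) (ψ : V → W), IsParam M U ψ → ∀ v ∈ U, ∀ y u : V, y ≠ 0 → u ≠ 0 →
    0 < lg (pullE F ψ) v y u u

/-- All flag curvatures of `F` are positive. -/
def PosFlagOn (V : Type*) [NormedAddCommGroup V] [NormedSpace ℝ V] (M : Set W)
    (F : W → W → ℝ) : Prop :=
  ∀ (U : Set V) (ψ : V → W), IsParam M U ψ → ∀ v ∈ U, ∀ y w : V, LinearIndependent ℝ ![y, w] →
    0 < lK (pullE F ψ) v y w

end global

/-- The Stiefel manifold `V₂(ℝᵐ) = O(m)/O(m-2) = SO(m)/SO(m-2)` (`m ≥ 3`) of orthonormal `2`-frames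
of `ℝᵐ`, which is the unit tangent bundle of the sphere `S^(m-1)`. -/
def Stiefel (m : ℕ) : Set (EuclideanSpace ℝ (Fin m) × EuclideanSpace ℝ (Fin m)) :=
  {z | ‖z.1‖ = 1 ∧ ‖z.2‖ = 1 ∧ inner ℝ z.1 z.2 = 0}

/-- Invariance under `O(m)`: `F` has the same value at the tangent vector `w = (ẋ, v̇)` of the
Stiefel manifold at `z = (x, v)` and at `(A ẋ, A v̇)` at `(A x, A v)`. -/
def OInvariant (m : ℕ) (F : EuclideanSpace ℝ (Fin m) × EuclideanSpace ℝ (Fin m) →
    EuclideanSpace ℝ (Fin m) × EuclideanSpace ℝ (Fin m) → ℝ) : Prop :=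
  ∀ A : EuclideanSpace ℝ (Fin m) ≃ₗᵢ[ℝ] EuclideanSpace ℝ (Fin m), ∀ z ∈ Stiefel m,
    ∀ w : EuclideanSpace ℝ (Fin m) × EuclideanSpace ℝ (Fin m),
      inner ℝ z.1 w.1 = 0 → inner ℝ z.2 w.2 = 0 → inner ℝ z.1 w.2 + inner ℝ w.1 z.2 = 0 →
        F (A z.1, A z.2) (A w.1, A w.2) = F z w

end HFinG
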