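import Pool.Agent.HFinG.Model
import Pool.Agent.HFinG.Loc

/-! Definitions for the geometric part: the local section (Cayley transform) and the metric. -/

namespace HFinG

open scoped ContDiff RealInnerProductSpace

/-- `ℝ^(n+2)`. -/
abbrev Wn (n : ℕ) := EuclideanSpace ℝ (Fin (n + 2))

variable {n : ℕ}

/-- The first basis vector. -/
noncomputable def ea : Wn n := EuclideanSpace.single 0 1

/-- The second basis vector. -/
noncomputable def eb : Wn n := EuclideanSpace.single 1 1

/-- The embedding `ℝⁿ → ℝ^(n+2)` as the orthogonal complement of `ea, eb`. -/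
noncomputable def Jn : En n →L[ℝ] Wn n :=
  LinearMap.toContinuousLinearMap
    { toFun := fun u => WithLp.toLp 2 (Fin.cons 0 (Fin.cons 0 u))
      map_add' := by
        intro u v
        ext i
        refine Fin.cases ?_ (fun i => Fin.cases ?_ (fun i => ?_) i) i <;> simp
      map_smul' := by
        intro c u
        ext i
        refine Fin.cases ?_ (fun i => Fin.cases ?_ (fun i => ?_) i) i <;> simp }

/-- The adjoint of `Jn`. -/
noncomputable def Jt : Wn n →L[ℝ] En n :=
  LinearMap.toContinuousLinearMap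
    { toFun := fun q => WithLp.toLp 2 fun i => q i.succ.succ
      map_add' := by
        intro u v
        ext i
        simp
      map_smul' := by
        intro c u
        ext i
        simp }

lemma Jt_apply (q : Wn n) (i : Fin n) : Jt q i = q i.succ.succ := rfl

/-- The skew operator of `ℝ^(n+2)` corresponding to `y ∈ 𝔪`. -/
noncomputable def iotaL : Vn n →L[ℝ] Wn n →L[ℝ] Wn n :=
  toCB (LinearMap.mk₂ ℝ (fun y q => κ • (c0 y • (⟪ea, q⟫ • eb - ⟪eb, q⟫ • ea)
      + (⟪ea, q⟫ • Jn (cu y) - ⟪Jn (cu y), q⟫ • ea)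
      + (⟪eb, q⟫ • Jn (cv y) - ⟪Jn (cv y), q⟫ • eb)))
    (by
      intro y y' q
      simp only [map_add, inner_add_left]
      module)
    (by
      intro c y q
      simp only [map_smul, real_inner_smul_left, smul_eq_mul]
      module)
    (by
      intro y q q'
      simp only [inner_add_right]
      module)
    (by
      intro c y q
      simp only [real_inner_smul_right]
      module))

lemma iotaL_apply (y : Vn n) (q : Wn n) : iotaL y q =
    κ • (c0 y • (⟪ea, q⟫ • eb - ⟪eb, q⟫ • ea)
      + (⟪ea, q⟫ • Jn (cu y) - ⟪Jn (cu y), q⟫ • ea)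
      + (⟪eb, q⟫ • Jn (cv y) - ⟪Jn (cv y), q⟫ • eb)) := rfl

/-- The skew operator of `ℝ^(n+2)` corresponding to `A ∈ 𝔥`. -/
noncomputable def hatL : Hn n →L[ℝ] Wn n →L[ℝ] Wn n :=
  toCB (LinearMap.mk₂ ℝ (fun A q => Jn (skL A (Jt q)))
    (by intro A B q; simp only [map_add, _root_.add_apply])
    (by intro c A q; simp only [map_smul, _root_.smul_apply])
    (by intro A q q'; simp only [map_add])
    (by intro c A q; simp only [map_smul]))

lemma hatL_apply (A : Hn n) (q : Wn n) : hatL A q = Jn (skL A (Jt q)) := rfl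

/-- The coordinates of a tangent vector `(ẋ, v̇)` of the Stiefel manifold at `(ea, eb)`. -/
noncomputable def cmn : Wn n × Wn n →L[ℝ] Vn n :=
  LinearMap.toContinuousLinearMap
    { toFun := fun w => κ⁻¹ • mk3 ⟪eb, w.1⟫ (Jt w.1) (Jt w.2)
      map_add' := by
        intro w w'
        simp only [Prod.fst_add, Prod.snd_add, map_add, inner_add_right, ← smul_add, mk3_add]
      map_smul' := by
        intro c w
        simp only [Prod.smul_fst, Prod.smul_snd, map_smul, real_inner_smul_right, RingHom.id_apply,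
          mk3_smul, smul_comm c, mul_left_comm c] }

lemma cmn_apply (w : Wn n × Wn n) : cmn w = κ⁻¹ • mk3 ⟪eb, w.1⟫ (Jt w.1) (Jt w.2) := rfl

/-- The `𝔪`-part of a skew operator of `ℝ^(n+2)`. -/
noncomputable def prm : (Wn n →L[ℝ] Wn n) →L[ℝ] Vn n :=
  LinearMap.toContinuousLinearMap
    { toFun := fun S => cmn (S ea, S eb)
      map_add' := by
        intro S T
        rw [← map_add]
        rfl
      map_smul' := by
        intro c S
        rw [RingHom.id_apply, ← map_smul]
        rfl }

lemma prm_apply (S : Wn n →L[ℝ] Wn n) : prm S = cmn (S ea, S eb) := rfl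

/-- The `𝔥`-part of a skew operator of `ℝ^(n+2)`. -/
noncomputable def prh : (Wn n →L[ℝ] Wn n) →L[ℝ] Hn n :=
  LinearMap.toContinuousLinearMap
    { toFun := fun S => WithLp.toLp 2 fun ij : Fin n × Fin n =>
        ⟪Jn (EuclideanSpace.single ij.1 1), S (Jn (EuclideanSpace.single ij.2 1))⟫
      map_add' := by
        intro S T
        ext ij
        simp only [_root_.add_apply, inner_add_right, PiLp.add_apply]
      map_smul' := by
        intro c S
        ext ij
        simp only [_root_.smul_apply, real_inner_smul_right, PiLp.smul_apply, RingHom.id_apply,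
          smul_eq_mul] }

lemma prh_apply (S : Wn n →L[ℝ] Wn n) (ij : Fin n × Fin n) : prh S ij =
    ⟪Jn (EuclideanSpace.single ij.1 1), S (Jn (EuclideanSpace.single ij.2 1))⟫ := rfl

/-- `(1 - ½ ι v)⁻¹`. -/
noncomputable def cayP (v : Vn n) : Wn n →L[ℝ] Wn n := Ring.inverse (1 - (1 / 2 : ℝ) • iotaL v)

/-- `(1 + ½ ι v)⁻¹`. -/
noncomputable def cayQ (v : Vn n) : Wn n →L[ℝ] Wn n := Ring.inverse (1 + (1 / 2 : ℝ) • iotaL v)

/-- The Cayley transform `(1 + ½ ι v)(1 - ½ ι v)⁻¹ ∈ O(n+2)`. -/
noncomputable def cayC (v : Vn n) : Wn n →L[ℝ] Wn n := (1 + (1 / 2 : ℝ) • iotaL v) * cayP v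

/-- `A⁻¹ DA y` for the Cayley transform `A`. -/
noncomputable def Xop (v y : Vn n) : Wn n →L[ℝ] Wn n := cayQ v * iotaL y * cayP v

lemma mul_smul_mul' (Q S P : Wn n →L[ℝ] Wn n) (c : ℝ) : Q * (c • S) * P = c • (Q * S * P) := by
  ext1 q
  change Q ((c • S) (P q)) = c • Q (S (P q))
  rw [_root_.smul_apply, map_smul]

/-- The `𝔪`-part of `Xop`. -/
noncomputable def XmC (v : Vn n) : Vn n →L[ℝ] Vn n :=
  LinearMap.toContinuousLinearMap
    { toFun := fun y => prm (Xop v y)
      map_add' := by
        intro y y'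
        simp only [Xop, map_add, mul_add, add_mul]
      map_smul' := by
        intro c y
        simp only [Xop, map_smul, mul_smul_mul', RingHom.id_apply] }

lemma XmC_apply (v y : Vn n) : XmC v y = prm (Xop v y) := rfl

/-- The `𝔥`-part of `Xop`. -/
noncomputable def XhC (v : Vn n) : Vn n →L[ℝ] Hn n :=
  LinearMap.toContinuousLinearMap
    { toFun := fun y => prh (Xop v y)
      map_add' := by
        intro y y'
        simp only [Xop, map_add, mul_add, add_mul]
      map_smul' := by
        intro c y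
        simp only [Xop, map_smul, mul_smul_mul', RingHom.id_apply] }

lemma XhC_apply (v y : Vn n) : XhC v y = prh (Xop v y) := rfl

/-- The parametrization of the Stiefel manifold near `(A ea, A eb)`. -/
noncomputable def psi (A : Wn n ≃ₗᵢ[ℝ] Wn n) (v : Vn n) : Wn n × Wn n :=
  (A (cayC v ea), A (cayC v eb))

/-- The isotropy action of `B ∈ O(n)` on `𝔪`. -/
noncomputable def rotV (B : En n ≃ₗᵢ[ℝ] En n) (x : Vn n) : Vn n :=
  mk3 (c0 x) (B (cu x)) (B (cv x))

open Classical in
/-- The `O(n+2)`-invariant extension of a norm `Fm` on `𝔪` to the Stiefel manifold. -/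
noncomputable def FS (Fm : Vn n → ℝ) (z w : Wn n × Wn n) : ℝ :=
  if h : ∃ A : Wn n ≃ₗᵢ[ℝ] Wn n, A ea = z.1 ∧ A eb = z.2 then
    Fm (cmn (h.choose.symm w.1, h.choose.symm w.2)) else 0

end HFinG
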