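import Pool.Agent.HFinG.Model

/-! MODULE J1 (diff 2): normality of the bracket data of `V₂(ℝ^(n+2))`.

Write `x = (a, u, v)`, `y = (b, u', v')`, `z = (c, u'', v'')` (`c0, cu, cv`); `inner_vn`, `stf_mm`,
`stf_mh`, `stf_act`, `κ_sq`.
* `skL_skew`: `⟪skL A u, v⟫ = -⟪u, skL A v⟫` (sums; swap the two sums, `Finset.sum_comm`).
* `skL_mh`: `skL (mh y z) w = ½(⟪u',w⟫u'' + ⟪v',w⟫v'' - ⟪u'',w⟫u' - ⟪v'',w⟫v')` (coordinates: the matrix
  `mh y z` is skew, and `∑_j u'_j w_j = ⟪u',w⟫`).
* `mh_eq`: `⟪A, mh x y⟫ = ∑_{ij} A_ij ½(u'_i u_j + v'_i v_j - u_i u'_j - v_i v'_j)` and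
  `⟪act A x, y⟫ = ⟪skL A u, u'⟫ + ⟪skL A v, v'⟫`, swap sums.
* `skew`: expand `inner_vn`, linear.
* `jacobi`: use `ext3`, `skL_mh`, `κ_sq`: the `c0`-component of
  `[x,[y,z]]` is `κ²(⟪u, c0 y u'' - c0 z u'⟫ - ⟪v, c0 z v' - c0 y v''⟫)`-type; everything is
  bilinear in inner products; finish the vector components with `module` after rewriting
  `κ * κ = 1/2` (e.g. `smul_smul, κ_sq`) and the `c0`-component with `ring`/`linear_combination`.
  (All identities were checked numerically.)
-/

namespace HFinG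

open scoped RealInnerProductSpace

variable {n : ℕ}

private theorem J1_inner {ι : Type*} [Fintype ι] (u v : EuclideanSpace ℝ ι) :
    ⟪u, v⟫ = ∑ i, u i * v i := by
  rw [PiLp.inner_apply]
  refine Finset.sum_congr rfl (fun i _ => ?_)
  simp [mul_comm]

private theorem J1_skL (A : Hn n) (u v : En n) :
    ⟪skL A u, v⟫ = ∑ i, ∑ j, A (i, j) * ((1 / 2 : ℝ) * (v i * u j - u i * v j)) := by
  rw [J1_inner]
  have e : ∀ i, skL A u i * v i =
      (∑ j, A (i, j) * ((1 / 2 : ℝ) * (v i * u j))) - ∑ j, A (j, i) * ((1 / 2 : ℝ) * (v i * u j)) := by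
    intro i
    rw [skL_apply, Finset.mul_sum, Finset.sum_mul, ← Finset.sum_sub_distrib]
    exact Finset.sum_congr rfl (fun j _ => by ring)
  rw [Finset.sum_congr rfl (fun i _ => e i), Finset.sum_sub_distrib,
    Finset.sum_comm (f := fun i j => A (j, i) * ((1 / 2 : ℝ) * (v i * u j))),
    ← Finset.sum_sub_distrib]
  refine Finset.sum_congr rfl (fun i _ => ?_)
  rw [← Finset.sum_sub_distrib]
  exact Finset.sum_congr rfl (fun j _ => by ring)

theorem skL_skew (A : Hn n) (u v : En n) : ⟪skL A u, v⟫ = -⟪u, skL A v⟫ := by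
  rw [real_inner_comm (skL A v) u, J1_skL, J1_skL, ← Finset.sum_neg_distrib]
  refine Finset.sum_congr rfl (fun i _ => ?_)
  rw [← Finset.sum_neg_distrib]
  exact Finset.sum_congr rfl (fun j _ => by ring)

theorem skL_mh (y z : Vn n) (w : En n) : skL ((stf n).mh y z) w =
    (1 / 2 : ℝ) • (⟪cu y, w⟫ • cu z + ⟪cv y, w⟫ • cv z - ⟪cu z, w⟫ • cu y - ⟪cv z, w⟫ • cv y) := by
  ext i
  rw [skL_apply]
  simp only [PiLp.smul_apply, PiLp.sub_apply, PiLp.add_apply, smul_eq_mul, J1_inner, stf_mh]
  congr 1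
  rw [Finset.sum_mul, Finset.sum_mul, Finset.sum_mul, Finset.sum_mul, ← Finset.sum_add_distrib,
    ← Finset.sum_sub_distrib, ← Finset.sum_sub_distrib]
  exact Finset.sum_congr rfl (fun j _ => by ring)

theorem stf_normal (n : ℕ) : IsNormal (stf n) where
  skew := by
    intro x y z
    rw [stf_mm, stf_mm, real_inner_smul_left, real_inner_smul_right, inner_vn, inner_vn]
    simp only [c0_mk3, cu_mk3, cv_mk3, inner_sub_left, inner_sub_right, real_inner_smul_left,
      real_inner_smul_right]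
    rw [real_inner_comm (cv x) (cu y), real_inner_comm (cu x) (cv y)]
    ring
  act_skew := by
    intro A x y
    rw [stf_act, stf_act, inner_vn, inner_vn]
    simp only [c0_mk3, cu_mk3, cv_mk3]
    rw [skL_skew A (cu x) (cu y), skL_skew A (cv x) (cv y)]
    ring
  mh_eq := by
    intro A x y
    rw [stf_act, inner_vn]
    simp only [c0_mk3, cu_mk3, cv_mk3]
    rw [J1_skL, J1_skL, J1_inner, Fintype.sum_prod_type, zero_mul, zero_add,
      ← Finset.sum_add_distrib]
    refine Finset.sum_congr rfl (fun i _ => ?_)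
    rw [← Finset.sum_add_distrib]
    refine Finset.sum_congr rfl (fun j _ => ?_)
    rw [stf_mh]
    ring
  jacobi := by
    intro x y z
    refine ext3 ?_ ?_ ?_
    · simp only [stf_mm, stf_act, map_add, map_smul, c0_mk3, cu_mk3, cv_mk3, inner_sub_right,
        real_inner_smul_right, smul_eq_mul]
      rw [real_inner_comm (cu z) (cu x), real_inner_comm (cv z) (cv x),
        real_inner_comm (cu z) (cu y), real_inner_comm (cv z) (cv y),
        real_inner_comm (cu y) (cu x), real_inner_comm (cv y) (cv x)]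
      ring
    · simp only [stf_mm, stf_act, map_add, map_smul, c0_mk3, cu_mk3, cv_mk3, skL_mh,
        smul_smul, smul_sub, smul_add, sub_smul, κ_sq]
      rw [real_inner_comm (cu y) (cv z), real_inner_comm (cu z) (cv x),
        real_inner_comm (cu x) (cv y), real_inner_comm (cu x) (cu y),
        real_inner_comm (cu y) (cu z), real_inner_comm (cu x) (cu z)]
      module
    · simp only [stf_mm, stf_act, map_add, map_smul, c0_mk3, cu_mk3, cv_mk3, skL_mh,
        smul_smul, smul_sub, smul_add, sub_smul, κ_sq]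
      rw [real_inner_comm (cv y) (cu z), real_inner_comm (cv z) (cu x),
        real_inner_comm (cv x) (cu y), real_inner_comm (cv x) (cv y),
        real_inner_comm (cv y) (cv z), real_inner_comm (cv x) (cv z)]
      module

end HFinG
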