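import Pool.Agent.HFinG.J1

/-! MODULE J2 (diff 3): `pn` is an admissible perturbation field.

This is the analogue of module J2 of the first wave (`/team-store/hfin_J2.lean`, the case of `V5`, whose
proof can be adapted: `sw ↦ swn`, `mf ↦ mn`, `e₀ ↦ e0n`, `x 0 ↦ c0 x`).
* `hn` is smooth off `0` and `D hn(x) v = ⟪pn x, v⟫` (`hn_grad`): product rule with
  `D‖·‖(x) v = ⟪x,v⟫/‖x‖`, `D mn(x) v = ⟪swn x, v⟫`, `c0 v = ⟪e0n, v⟫`.
* `smooth`: norms are smooth off `0`, `swn`, `c0` are continuous linear, `mn` is quadratic.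
* `symm`: `⟪Dp(ξ) u, v⟫ = D²hn(ξ)(u,v)`: second derivative symmetry.
* `inv`: `⟪pn ξ, act A ξ⟫ = 0`: `⟪ξ, act A ξ⟫ = 0`, `⟪swn ξ, act A ξ⟫ = 0` (`skL_skew`), `⟪e0n, act A ξ⟫ = 0`.
* `equi`: with `f = ‖x‖ - 4 mn x/‖x‖` one has `Df(x)(act A x) = 0`, `D‖·‖(x)(act A x) = 0`,
  `swn (act A x) = act A (swn x)`, `act A e0n = 0`, `c0 (act A x) = 0`, so the product rule gives the
  claim term by term.
* `rotV_iso`: `rotV B` is (the coercion of) a linear isometry; `pn_rot`: `mn`, `‖·‖`, `c0` are invariant and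
  `swn`, `e0n` equivariant under `rotV B`.
-/

namespace HFinG

open scoped ContDiff RealInnerProductSpace

variable {n : ℕ}

lemma J2_swn_inner (x v : Vn n) : ⟪swn x, v⟫ = ⟪cv x, cv v⟫ - ⟪cu x, cu v⟫ := by
  rw [inner_vn, swn_apply]
  simp only [c0_mk3, cu_mk3, cv_mk3, inner_neg_left]
  ring

lemma J2_e0_inner (v : Vn n) : ⟪(e0n : Vn n), v⟫ = c0 v := by
  rw [inner_vn, e0n]
  simp only [c0_mk3, cu_mk3, cv_mk3, inner_zero_left]
  ring

lemma J2_mn (x : Vn n) : HasFDerivAt (mn : Vn n → ℝ) (innerSL ℝ (swn x)) x := by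
  have hv : HasFDerivAt (fun y : Vn n => cv y) (cv : Vn n →L[ℝ] En n) x := cv.hasFDerivAt
  have hu : HasFDerivAt (fun y : Vn n => cu y) (cu : Vn n →L[ℝ] En n) x := cu.hasFDerivAt
  have h1 := hv.inner ℝ hv
  have h2 := hu.inner ℝ hu
  have h3 := (h1.sub h2).mul_const (2⁻¹ : ℝ)
  have e : (mn : Vn n → ℝ) = fun y => (⟪cv y, cv y⟫ - ⟪cu y, cu y⟫) * (2⁻¹ : ℝ) := by
    funext y
    simp [mn, div_eq_mul_inv]
  rw [e]
  refine h3.congr_fderiv ?_
  ext v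
  rw [innerSL_apply_apply, J2_swn_inner]
  simp [real_inner_comm]
  ring

lemma J2_norm {x : Vn n} (hx : x ≠ 0) :
    HasFDerivAt (fun y : Vn n => ‖y‖) ((1 / ‖x‖) • innerSL ℝ x) x := by
  have h1 : HasFDerivAt (fun y : Vn n => ‖y‖ ^ 2) ((2 : ℝ) • innerSL ℝ x) x := by
    have := (hasStrictFDerivAt_norm_sq (F := Vn n) x).hasFDerivAt
    refine this.congr_fderiv ?_
    rw [two_smul, two_smul]
  have hx0 : (0 : ℝ) < ‖x‖ := norm_pos_iff.mpr hx
  have h2 := h1.sqrt (by positivity)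
  have h3 : (fun y : Vn n => Real.sqrt (‖y‖ ^ 2)) = fun y => ‖y‖ := by
    funext y
    exact Real.sqrt_sq (norm_nonneg y)
  rw [h3] at h2
  refine h2.congr_fderiv ?_
  ext v
  simp [Real.sqrt_sq (norm_nonneg x)]
  field_simp

theorem hn_hasFDerivAt {x : Vn n} (hx : x ≠ 0) :
    HasFDerivAt (hn : Vn n → ℝ) (innerSL ℝ (pn x)) x := by
  have hx0 : (0 : ℝ) < ‖x‖ := norm_pos_iff.mpr hx
  have hn' := J2_norm hx
  have hinv : HasFDerivAt (fun y : Vn n => ‖y‖⁻¹) (-(‖x‖ ^ 2)⁻¹ • ((1 / ‖x‖) • innerSL ℝ x)) x :=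
    (hasDerivAt_inv hx0.ne').comp_hasFDerivAt x hn'
  have hm := J2_mn x
  have hc : HasFDerivAt (fun y : Vn n => c0 y) (c0 : Vn n →L[ℝ] ℝ) x := c0.hasFDerivAt
  have h := hm.neg.add (hc.mul (hn'.sub ((hm.const_mul 4).mul hinv)))
  have e : (hn : Vn n → ℝ) = fun y : Vn n => - mn y + c0 y * (‖y‖ - 4 * mn y * ‖y‖⁻¹) := by
    funext y
    simp [hn, div_eq_mul_inv]
  rw [e]
  refine h.congr_fderiv ?_
  ext v
  simp only [innerSL_apply_apply, pn, inner_add_left, inner_sub_left, inner_neg_left,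
    inner_smul_left, J2_e0_inner]
  simp
  field_simp
  ring

theorem hn_grad {x : Vn n} (hx : x ≠ 0) (v : Vn n) : fderiv ℝ hn x v = ⟪pn x, v⟫ := by
  rw [(hn_hasFDerivAt hx).fderiv]
  simp

lemma J2_norm_smooth : ContDiffOn ℝ ∞ (fun x : Vn n => ‖x‖) {x | x ≠ 0} := by
  intro x hx
  exact (contDiffAt_norm ℝ hx).contDiffWithinAt

lemma J2_mn_smooth : ContDiff ℝ ∞ (mn : Vn n → ℝ) := by
  have hv : ContDiff ℝ ∞ (fun y : Vn n => cv y) := cv.contDiff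
  have hu : ContDiff ℝ ∞ (fun y : Vn n => cu y) := cu.contDiff
  have h := ((hv.inner ℝ hv).sub (hu.inner ℝ hu)).mul (contDiff_const (c := (2⁻¹ : ℝ)))
  have e : (mn : Vn n → ℝ) = fun y => (⟪cv y, cv y⟫ - ⟪cu y, cu y⟫) * (2⁻¹ : ℝ) := by
    funext y
    simp [mn, div_eq_mul_inv]
  rw [e]
  exact h

theorem pn_smooth : ContDiffOn ℝ ∞ (pn : Vn n → Vn n) {x | x ≠ 0} := by
  have h0 : ContDiffOn ℝ ∞ (fun y : Vn n => c0 y) {x | x ≠ 0} := c0.contDiff.contDiffOn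
  have hm : ContDiffOn ℝ ∞ (mn : Vn n → ℝ) {x : Vn n | x ≠ 0} := J2_mn_smooth.contDiffOn
  have hs : ContDiffOn ℝ ∞ (fun y : Vn n => swn y) {x : Vn n | x ≠ 0} := swn.contDiff.contDiffOn
  have hn' := J2_norm_smooth (n := n)
  have hne : ∀ x ∈ {x : Vn n | x ≠ 0}, ‖x‖ ≠ 0 := fun x hx => norm_ne_zero_iff.mpr hx
  have hne3 : ∀ x ∈ {x : Vn n | x ≠ 0}, ‖x‖ ^ 3 ≠ 0 := fun x hx => pow_ne_zero _ (hne x hx)
  have hid : ContDiffOn ℝ ∞ (fun y : Vn n => y) {x | x ≠ 0} := contDiffOn_id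
  have h4 : ContDiffOn ℝ ∞ (fun _ : Vn n => (4 : ℝ)) {x | x ≠ 0} := contDiffOn_const
  have he : ContDiffOn ℝ ∞ (fun _ : Vn n => (e0n : Vn n)) {x | x ≠ 0} := contDiffOn_const
  exact ((((hs.neg).add ((hn'.sub ((h4.mul hm).div hn' hne)).smul he)).add
    ((h0.div hn' hne).smul hid)).sub (((h4.mul h0).div hn' hne).smul hs)).add
    ((((h4.mul h0).mul hm).div (hn'.pow 3) hne3).smul hid)

/-- The rotation as a linear map. -/
noncomputable def J2_rotL (B : En n ≃ₗᵢ[ℝ] En n) : Vn n →ₗ[ℝ] Vn n where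
  toFun := fun x => mk3 (c0 x) (B (cu x)) (B (cv x))
  map_add' := by
    intro x y
    simp only [map_add, mk3_add]
  map_smul' := by
    intro c x
    simp only [map_smul, mk3_smul, smul_eq_mul, RingHom.id_apply]

lemma J2_rotL_apply (B : En n ≃ₗᵢ[ℝ] En n) (x : Vn n) :
    J2_rotL B x = mk3 (c0 x) (B (cu x)) (B (cv x)) := rfl

lemma J2_rotL_inner (B : En n ≃ₗᵢ[ℝ] En n) (x y : Vn n) : ⟪J2_rotL B x, J2_rotL B y⟫ = ⟪x, y⟫ := by
  rw [inner_vn, inner_vn x y, J2_rotL_apply, J2_rotL_apply]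
  simp only [c0_mk3, cu_mk3, cv_mk3, LinearIsometryEquiv.inner_map_map]

lemma J2_rotL_norm (B : En n ≃ₗᵢ[ℝ] En n) (x : Vn n) : ‖J2_rotL B x‖ = ‖x‖ := by
  have h := J2_rotL_inner B x x
  rw [real_inner_self_eq_norm_sq, real_inner_self_eq_norm_sq] at h
  exact (sq_eq_sq₀ (norm_nonneg _) (norm_nonneg _)).mp h

theorem rotV_iso (B : En n ≃ₗᵢ[ℝ] En n) :
    ∃ R : Vn n ≃ₗᵢ[ℝ] Vn n, ∀ x, R x = mk3 (c0 x) (B (cu x)) (B (cv x)) := by
  refine ⟨LinearIsometry.toLinearIsometryEquiv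
    { J2_rotL B with norm_map' := J2_rotL_norm B } rfl, ?_⟩
  intro x
  rfl

lemma J2_mn_rot (B : En n ≃ₗᵢ[ℝ] En n) (x : Vn n) : mn (J2_rotL B x) = mn x := by
  rw [mn, mn, J2_rotL_apply]
  simp only [cu_mk3, cv_mk3, LinearIsometryEquiv.inner_map_map]

lemma J2_swn_rot (B : En n ≃ₗᵢ[ℝ] En n) (x : Vn n) : swn (J2_rotL B x) = J2_rotL B (swn x) := by
  rw [swn_apply, swn_apply, J2_rotL_apply, J2_rotL_apply]
  simp only [c0_mk3, cu_mk3, cv_mk3, map_neg]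

lemma J2_e0_rot (B : En n ≃ₗᵢ[ℝ] En n) : J2_rotL B e0n = e0n := by
  rw [J2_rotL_apply, e0n]
  simp only [c0_mk3, cu_mk3, cv_mk3, map_zero]

lemma J2_c0_rot (B : En n ≃ₗᵢ[ℝ] En n) (x : Vn n) : c0 (J2_rotL B x) = c0 x := rfl

theorem pn_rot (B : En n ≃ₗᵢ[ℝ] En n) (x : Vn n) :
    pn (mk3 (c0 x) (B (cu x)) (B (cv x))) = mk3 (c0 (pn x)) (B (cu (pn x))) (B (cv (pn x))) := by
  rw [← J2_rotL_apply, ← J2_rotL_apply]
  simp only [pn, J2_rotL_norm, J2_mn_rot, J2_swn_rot, J2_c0_rot, map_add, map_sub, map_neg,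
    map_smul, J2_e0_rot]

lemma J2_diff {x : Vn n} (hx : x ≠ 0) : DifferentiableAt ℝ (pn : Vn n → Vn n) x := by
  have hopen : IsOpen {x : Vn n | x ≠ 0} := isOpen_ne
  exact (pn_smooth.contDiffAt (hopen.mem_nhds hx)).differentiableAt (by simp)

lemma J2_skL_self (A : Hn n) (u : En n) : ⟪u, skL A u⟫ = 0 := by
  have h := skL_skew A u u
  have h2 : ⟪skL A u, u⟫ = ⟪u, skL A u⟫ := real_inner_comm _ _
  linarith

lemma J2_x_act (A : Hn n) (x : Vn n) : ⟪x, (stf n).act A x⟫ = 0 := by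
  rw [inner_vn, stf_act]
  simp only [c0_mk3, cu_mk3, cv_mk3, J2_skL_self]
  ring

lemma J2_sw_act (A : Hn n) (x : Vn n) : ⟪swn x, (stf n).act A x⟫ = 0 := by
  rw [J2_swn_inner, stf_act]
  simp only [cu_mk3, cv_mk3, J2_skL_self]
  ring

lemma J2_e0_act (A : Hn n) (x : Vn n) : ⟪(e0n : Vn n), (stf n).act A x⟫ = 0 := by
  rw [J2_e0_inner, stf_act, c0_mk3]

lemma J2_swn_act (A : Hn n) (x : Vn n) : swn ((stf n).act A x) = (stf n).act A (swn x) := by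
  rw [stf_act, stf_act, swn_apply, swn_apply]
  simp only [cu_mk3, cv_mk3, map_neg]

lemma J2_act_e0 (A : Hn n) : (stf n).act A e0n = 0 := by
  rw [stf_act, e0n]
  simp only [cu_mk3, cv_mk3, map_zero, mk3_zero]

theorem pn_pert (n : ℕ) : IsPert (stf n) pn := by
  refine ⟨?_, ?_, pn_smooth, ?_, ?_, ?_⟩
  · have h1 : mn (0 : Vn n) = 0 := by simp [mn]
    simp [pn]
  · intro c ξ hc
    have e1 : ‖c • ξ‖ = c * ‖ξ‖ := by rw [norm_smul, Real.norm_eq_abs, abs_of_pos hc]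
    have e2 : mn (c • ξ) = c ^ 2 * mn ξ := by
      simp only [mn, map_smul, real_inner_smul_left, real_inner_smul_right]
      ring
    have e3 : swn (c • ξ) = c • swn ξ := map_smul _ _ _
    have e4 : c0 (c • ξ) = c * c0 ξ := by simp
    rcases eq_or_ne ξ 0 with h | h
    · subst h
      simp [pn]
    · have hn : ‖ξ‖ ≠ 0 := norm_ne_zero_iff.mpr h
      simp only [pn, e1, e2, e3, e4, smul_add, smul_sub, smul_smul, smul_neg]
      congr 1
      · congr 1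
        · congr 1
          · congr 1
            congr 1
            field_simp
          · congr 1
            field_simp
        · congr 1
          field_simp
      · congr 1
        field_simp
  · intro ξ hξ u v
    have hopen : IsOpen {x : Vn n | x ≠ 0} := isOpen_ne
    have h1 : ∀ᶠ y in nhds ξ, HasFDerivAt (hn : Vn n → ℝ) (innerSL ℝ (pn y)) y := by
      filter_upwards [hopen.mem_nhds hξ] with y hy
      exact hn_hasFDerivAt hy
    have h2 : HasFDerivAt (fun y : Vn n => innerSL ℝ (pn y))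
        ((innerSL ℝ).comp (fderiv ℝ pn ξ)) ξ :=
      (innerSL ℝ : Vn n →L[ℝ] Vn n →L[ℝ] ℝ).hasFDerivAt.comp ξ (J2_diff hξ).hasFDerivAt
    have h3 := second_derivative_symmetric_of_eventually h1 h2 u v
    simp only [ContinuousLinearMap.comp_apply, innerSL_apply_apply] at h3
    rw [h3, real_inner_comm]
  · intro A ξ
    simp only [pn, inner_add_left, inner_sub_left, inner_neg_left, real_inner_smul_left,
      J2_x_act, J2_sw_act, J2_e0_act]
    ring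
  · intro A ξ hξ
    have hx0 : (0 : ℝ) < ‖ξ‖ := norm_pos_iff.mpr hξ
    have hn' := J2_norm hξ
    have hinv : HasFDerivAt (fun y : Vn n => ‖y‖⁻¹)
        (-(‖ξ‖ ^ 2)⁻¹ • ((1 / ‖ξ‖) • innerSL ℝ ξ)) ξ :=
      (hasDerivAt_inv hx0.ne').comp_hasFDerivAt ξ hn'
    have hinv3 := (hinv.mul hinv).mul hinv
    have hm := J2_mn ξ
    have hc : HasFDerivAt (fun y : Vn n => c0 y) (c0 : Vn n →L[ℝ] ℝ) ξ := c0.hasFDerivAt
    have hs : HasFDerivAt (fun y : Vn n => swn y) (swn : Vn n →L[ℝ] Vn n) ξ := swn.hasFDerivAt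
    have hid : HasFDerivAt (fun y : Vn n => y) (ContinuousLinearMap.id ℝ (Vn n)) ξ :=
      hasFDerivAt_id ξ
    have h := ((((hs.neg).add ((hn'.sub ((hm.const_mul 4).mul hinv)).smul_const (e0n : Vn n))).add
      ((hc.mul hinv).smul hid)).sub (((hc.const_mul 4).mul hinv).smul hs)).add
      ((((hc.const_mul 4).mul hm).mul hinv3).smul hid)
    have e : (pn : Vn n → Vn n) = fun y : Vn n => - swn y + (‖y‖ - 4 * mn y * ‖y‖⁻¹) • e0n
        + (c0 y * ‖y‖⁻¹) • y - (4 * c0 y * ‖y‖⁻¹) • swn y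
        + (4 * c0 y * mn y * (‖y‖⁻¹ * ‖y‖⁻¹ * ‖y‖⁻¹)) • y := by
      funext y
      simp only [pn, div_eq_mul_inv]
      congr 3
      rw [← inv_pow]
      ring
    have key : ∀ D : Vn n →L[ℝ] Vn n, HasFDerivAt (fun y : Vn n => - swn y
        + (‖y‖ - 4 * mn y * ‖y‖⁻¹) • e0n
        + (c0 y * ‖y‖⁻¹) • y - (4 * c0 y * ‖y‖⁻¹) • swn y
        + (4 * c0 y * mn y * (‖y‖⁻¹ * ‖y‖⁻¹ * ‖y‖⁻¹)) • y) D ξ → fderiv ℝ pn ξ = D := by
      intro D hD
      rw [e]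
      exact hD.fderiv
    rw [key _ h]
    have k1 : (c0 : Vn n →L[ℝ] ℝ) ((stf n).act A ξ) = 0 := by rw [stf_act, c0_mk3]
    simp [-WithLp.prod_inner_apply, J2_x_act, J2_sw_act, k1, J2_swn_act]
    simp only [pn, map_add, map_sub, map_neg, map_smul, J2_act_e0, div_eq_mul_inv]
    simp only [smul_zero, add_zero]
    congr 3
    rw [← inv_pow]
    ring

end HFinG
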