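import Pool.Agent.HFinG.KD

/-! MODULE K1 (diff 2-3): every flat lies in some `emb5 f f'`.

Write `ξ = (a, u, v)`, `σ = (b, u', v')`.
* `mm ξ σ = 0` (`stf_mm`, `κ ≠ 0`) gives `b v = a v'`, `a u' = b u`; `mh ξ σ = 0` gives, for all `w : En n`
  (multiply `stf_mh` by `w_j` and sum, or use that all entries vanish):
  `⟪u,w⟫u' + ⟪v,w⟫v' = ⟪u',w⟫u + ⟪v',w⟫v`.
* Claim: `u, v, u', v'` lie in a subspace of dimension `≤ 2`.  If `a ≠ 0` then `u', v' ∈ span(u,v)`; same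
  if `b ≠ 0`.  If `a = b = 0`: if `u, v` are linearly independent choose `w` with `⟪u,w⟫ = 1, ⟪v,w⟫ = 0`
  (and vice versa), so `u', v' ∈ span(u,v)`; if `u', v'` are independent, symmetric; otherwise
  `dim span(u,v) ≤ 1` and `dim span(u',v') ≤ 1`.
  (This part does not need `‖ξ‖ = 1` etc.)
* As `n ≥ 2` that subspace is contained in one of dimension exactly `2`, which has an orthonormal basis
  `f, f'`; so `u = u₁ f + u₂ f'` etc., and `ξ = emb5 f f' x` with `x 0 = a`, `x 1 = κ(u₁ - v₂)`,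
  `x 3 = -κ(u₁ + v₂)`, `x 2 = κ(u₂ + v₁)`, `x 4 = κ(v₁ - u₂)` (`κ_sq`), the same for `σ`.
-/

namespace HFinG

open scoped RealInnerProductSpace

variable {n : ℕ}

/-- `x` is a combination of `p` and `q` -/
def K1_In (p q x : En n) : Prop := ∃ s t : ℝ, x = s • p + t • q

lemma K1_In_left (p q : En n) : K1_In p q p := ⟨1, 0, by simp⟩
lemma K1_In_right (p q : En n) : K1_In p q q := ⟨0, 1, by simp⟩
lemma K1_In_zero (p q : En n) : K1_In p q 0 := ⟨0, 0, by simp⟩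

lemma K1_In_smul {p q x : En n} (h : K1_In p q x) (c : ℝ) : K1_In p q (c • x) := by
  obtain ⟨s, t, rfl⟩ := h
  exact ⟨c * s, c * t, by module⟩

lemma K1_In_add {p q x y : En n} (h : K1_In p q x) (h' : K1_In p q y) : K1_In p q (x + y) := by
  obtain ⟨s, t, rfl⟩ := h
  obtain ⟨s', t', rfl⟩ := h'
  exact ⟨s + s', t + t', by module⟩

lemma K1_In_trans {p q f f' x : En n} (h : K1_In p q x) (hp : K1_In f f' p) (hq : K1_In f f' q) :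
    K1_In f f' x := by
  obtain ⟨s, t, rfl⟩ := h
  exact K1_In_add (K1_In_smul hp s) (K1_In_smul hq t)

lemma K1_orth (hn : 2 ≤ n) (f : En n) : ∃ f' : En n, ‖f'‖ = 1 ∧ ⟪f, f'⟫ = 0 := by
  have hne : (ℝ ∙ f)ᗮ ≠ ⊥ := by
    intro h
    rw [Submodule.orthogonal_eq_bot_iff] at h
    have h1 : Module.finrank ℝ (ℝ ∙ f) ≤ 1 := by
      have := finrank_span_le_card (R := ℝ) ({f} : Set (En n))
      simpa using this
    rw [h, finrank_top, finrank_euclideanSpace_fin] at h1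
    omega
  obtain ⟨w, hw, hw0⟩ := Submodule.exists_mem_ne_zero_of_ne_bot hne
  have hw1 : ⟪f, w⟫ = 0 := Submodule.mem_orthogonal_singleton_iff_inner_right.1 hw
  have hwn : ‖w‖ ≠ 0 := norm_ne_zero_iff.2 hw0
  refine ⟨‖w‖⁻¹ • w, ?_, ?_⟩
  · rw [norm_smul, norm_inv, norm_norm, inv_mul_cancel₀ hwn]
  · rw [real_inner_smul_right, hw1, mul_zero]

lemma K1_unit {p : En n} (hp : p ≠ 0) : ‖‖p‖⁻¹ • p‖ = 1 ∧ p = ‖p‖ • (‖p‖⁻¹ • p) := by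
  have h : ‖p‖ ≠ 0 := norm_ne_zero_iff.2 hp
  constructor
  · rw [norm_smul, norm_inv, norm_norm, inv_mul_cancel₀ h]
  · rw [smul_smul, mul_inv_cancel₀ h, one_smul]

/-- extend one vector -/
lemma K1_one (hn : 2 ≤ n) (f q : En n) (hf : ‖f‖ = 1) :
    ∃ f' : En n, ‖f'‖ = 1 ∧ ⟪f, f'⟫ = 0 ∧ K1_In f f' q := by
  by_cases h : q - ⟪f, q⟫ • f = 0
  · obtain ⟨f', h1, h2⟩ := K1_orth hn f
    refine ⟨f', h1, h2, ⟨⟪f, q⟫, 0, ?_⟩⟩
    rw [sub_eq_zero.1 h]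
    simp [real_inner_smul_right, real_inner_self_eq_norm_sq, hf]
  · obtain ⟨h1, h2⟩ := K1_unit h
    refine ⟨_, h1, ?_, ⟨⟪f, q⟫, ‖q - ⟪f, q⟫ • f‖, ?_⟩⟩
    · rw [real_inner_smul_right, inner_sub_right, real_inner_smul_right,
        real_inner_self_eq_norm_sq, hf]
      ring
    · rw [← h2]
      abel

lemma K1_pair (hn : 2 ≤ n) (p q : En n) : ∃ f f' : En n, ‖f‖ = 1 ∧ ‖f'‖ = 1 ∧ ⟪f, f'⟫ = 0 ∧
    K1_In f f' p ∧ K1_In f f' q := by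
  by_cases hp : p = 0
  · by_cases hq : q = 0
    · obtain ⟨f, h1, _⟩ := K1_orth hn (0 : En n)
      obtain ⟨f', h3, h4⟩ := K1_orth hn f
      exact ⟨f, f', h1, h3, h4, hp ▸ K1_In_zero _ _, hq ▸ K1_In_zero _ _⟩
    · obtain ⟨h1, h2⟩ := K1_unit hq
      obtain ⟨f', h3, h4⟩ := K1_orth hn (‖q‖⁻¹ • q)
      refine ⟨_, f', h1, h3, h4, hp ▸ K1_In_zero _ _, ?_⟩
      exact ⟨‖q‖, 0, by rw [← h2]; simp⟩
  · obtain ⟨h1, h2⟩ := K1_unit hp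
    obtain ⟨f', h3, h4, h5⟩ := K1_one hn (‖p‖⁻¹ • p) q h1
    refine ⟨_, f', h1, h3, h4, ?_, h5⟩
    exact ⟨‖p‖, 0, by rw [← h2]; simp⟩

/-- the vanishing of the `h` part -/
lemma K1_mh {u v u' v' : En n} (h : ∀ i j, u' i * u j + v' i * v j - u i * u' j - v i * v' j = 0)
    (w : En n) : ⟪u, w⟫ • u' + ⟪v, w⟫ • v' = ⟪u', w⟫ • u + ⟪v', w⟫ • v := by
  ext i
  have hin : ∀ z : En n, ⟪z, w⟫ = ∑ j, z j * w j := by
    intro z
    rw [PiLp.inner_apply]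
    refine Finset.sum_congr rfl fun j _ => ?_
    simp [mul_comm]
  simp only [PiLp.add_apply, PiLp.smul_apply, smul_eq_mul, hin, Finset.sum_mul]
  rw [← Finset.sum_add_distrib, ← Finset.sum_add_distrib]
  refine Finset.sum_congr rfl fun j _ => ?_
  have := h i j
  linear_combination (w j) * this

lemma K1_dep {u v : En n} (h : ⟪u, u⟫ * ⟪v, v⟫ - ⟪u, v⟫ * ⟪u, v⟫ = 0) :
    ∃ p : En n, (∃ s : ℝ, u = s • p) ∧ ∃ t : ℝ, v = t • p := by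
  by_cases hu : u = 0
  · exact ⟨v, ⟨0, by simp [hu]⟩, ⟨1, by simp⟩⟩
  · refine ⟨u, ⟨1, by simp⟩, ⟨⟪u, v⟫ / ⟪u, u⟫, ?_⟩⟩
    have hu1 : ⟪u, u⟫ ≠ 0 := by
      rw [real_inner_self_eq_norm_sq]
      exact pow_ne_zero 2 (norm_ne_zero_iff.2 hu)
    have h1 : ⟪⟪u, u⟫ • v - ⟪u, v⟫ • u, ⟪u, u⟫ • v - ⟪u, v⟫ • u⟫ = 0 := by
      simp only [inner_sub_left, inner_sub_right, real_inner_smul_left, real_inner_smul_right]
      rw [real_inner_comm u v]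
      linear_combination ⟪u, u⟫ * h
    have h2 : ⟪u, u⟫ • v - ⟪u, v⟫ • u = 0 := inner_self_eq_zero.1 h1
    have h3 : ⟪u, u⟫ • v = ⟪u, v⟫ • u := sub_eq_zero.1 h2
    rw [div_eq_inv_mul, mul_smul, ← h3, smul_smul, inv_mul_cancel₀ hu1, one_smul]

/-- `u', v'` are combinations of `u, v` if these are independent -/
lemma K1_ind {u v u' v' : En n}
    (h : ∀ w : En n, ⟪u, w⟫ • u' + ⟪v, w⟫ • v' = ⟪u', w⟫ • u + ⟪v', w⟫ • v)
    (hd : ⟪u, u⟫ * ⟪v, v⟫ - ⟪u, v⟫ * ⟪u, v⟫ ≠ 0) : K1_In u v u' ∧ K1_In u v v' := by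
  set D : ℝ := ⟪u, u⟫ * ⟪v, v⟫ - ⟪u, v⟫ * ⟪u, v⟫ with hD
  have h1 := h (⟪v, v⟫ • u - ⟪u, v⟫ • v)
  have h2 := h (⟪u, u⟫ • v - ⟪u, v⟫ • u)
  have e1 : ⟪u, ⟪v, v⟫ • u - ⟪u, v⟫ • v⟫ = D := by
    rw [inner_sub_right, real_inner_smul_right, real_inner_smul_right, hD]; ring
  have e2 : ⟪v, ⟪v, v⟫ • u - ⟪u, v⟫ • v⟫ = 0 := by
    rw [inner_sub_right, real_inner_smul_right, real_inner_smul_right, real_inner_comm u v]; ring
  have e3 : ⟪u, ⟪u, u⟫ • v - ⟪u, v⟫ • u⟫ = 0 := by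
    rw [inner_sub_right, real_inner_smul_right, real_inner_smul_right]; ring
  have e4 : ⟪v, ⟪u, u⟫ • v - ⟪u, v⟫ • u⟫ = D := by
    rw [inner_sub_right, real_inner_smul_right, real_inner_smul_right, real_inner_comm u v, hD]
  rw [e1, e2, zero_smul, add_zero] at h1
  rw [e3, e4, zero_smul, zero_add] at h2
  constructor
  · refine ⟨D⁻¹ * ⟪u', ⟪v, v⟫ • u - ⟪u, v⟫ • v⟫, D⁻¹ * ⟪v', ⟪v, v⟫ • u - ⟪u, v⟫ • v⟫, ?_⟩
    rw [mul_smul, mul_smul, ← smul_add, ← h1, smul_smul, inv_mul_cancel₀ hd, one_smul]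
  · refine ⟨D⁻¹ * ⟪u', ⟪u, u⟫ • v - ⟪u, v⟫ • u⟫, D⁻¹ * ⟪v', ⟪u, u⟫ • v - ⟪u, v⟫ • u⟫, ?_⟩
    rw [mul_smul, mul_smul, ← smul_add, ← h2, smul_smul, inv_mul_cancel₀ hd, one_smul]

lemma K1_emb (f f' : En n) (ξ : Vn n) (hu : K1_In f f' (cu ξ)) (hv : K1_In f f' (cv ξ)) :
    ∃ x : HFin.V5, ξ = emb5 f f' x := by
  obtain ⟨u1, u2, hu⟩ := hu
  obtain ⟨v1, v2, hv⟩ := hv
  refine ⟨!₂[c0 ξ, κ * (u1 - v2), κ * (u2 + v1), -(κ * (u1 + v2)), κ * (v1 - u2)], ?_⟩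
  rw [emb5_apply]
  have hk := κ_sq
  refine ext3 ?_ ?_ ?_
  · simp
  · rw [cu_mk3, hu]
    have e1 : κ * (κ * (u1 - v2) - -(κ * (u1 + v2))) = u1 := by linear_combination (2 * u1) * hk
    have e2 : κ * (κ * (u2 + v1) - κ * (v1 - u2)) = u2 := by linear_combination (2 * u2) * hk
    rw [smul_add, smul_smul, smul_smul]
    show u1 • f + u2 • f' = (κ * (κ * (u1 - v2) - -(κ * (u1 + v2)))) • f +
      (κ * (κ * (u2 + v1) - κ * (v1 - u2))) • f'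
    rw [e1, e2]
  · rw [cv_mk3, hv]
    have e1 : κ * (κ * (u2 + v1) + κ * (v1 - u2)) = v1 := by linear_combination (2 * v1) * hk
    have e2 : κ * (κ * (u1 - v2) + -(κ * (u1 + v2))) = -v2 := by linear_combination (-2 * v2) * hk
    rw [smul_sub, smul_smul, smul_smul]
    show v1 • f + v2 • f' = (κ * (κ * (u2 + v1) + κ * (v1 - u2))) • f -
      (κ * (κ * (u1 - v2) + -(κ * (u1 + v2)))) • f'
    rw [e1, e2]
    module

theorem flat_emb (hn : 2 ≤ n) (ξ σ : Vn n) (h1 : (stf n).mm ξ σ = 0) (h2 : (stf n).mh ξ σ = 0) :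
    ∃ f f' : En n, ‖f‖ = 1 ∧ ‖f'‖ = 1 ∧ ⟪f, f'⟫ = 0 ∧
      ∃ x y : HFin.V5, ξ = emb5 f f' x ∧ σ = emb5 f f' y := by
  rw [stf_mm] at h1
  have h3 := (smul_eq_zero.1 h1).resolve_left κ_pos.ne'
  have hcu : c0 σ • cv ξ - c0 ξ • cv σ = 0 := by
    have := congrArg (fun z => cu z) h3
    simpa using this
  have hcv : c0 ξ • cu σ - c0 σ • cu ξ = 0 := by
    have := congrArg (fun z => cv z) h3
    simpa using this
  have hmh : ∀ w : En n, ⟪cu ξ, w⟫ • cu σ + ⟪cv ξ, w⟫ • cv σ =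
      ⟪cu σ, w⟫ • cu ξ + ⟪cv σ, w⟫ • cv ξ := by
    apply K1_mh
    intro i j
    have h4 : (stf n).mh ξ σ (i, j) = 0 := by rw [h2]; rfl
    rw [stf_mh] at h4
    linarith
  -- two vectors spanning everything
  have key : ∃ p q : En n, K1_In p q (cu ξ) ∧ K1_In p q (cv ξ) ∧ K1_In p q (cu σ) ∧
      K1_In p q (cv σ) := by
    by_cases ha : c0 ξ = 0
    · by_cases hb : c0 σ = 0
      · by_cases hd : ⟪cu ξ, cu ξ⟫ * ⟪cv ξ, cv ξ⟫ - ⟪cu ξ, cv ξ⟫ * ⟪cu ξ, cv ξ⟫ = 0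
        · by_cases hd' : ⟪cu σ, cu σ⟫ * ⟪cv σ, cv σ⟫ - ⟪cu σ, cv σ⟫ * ⟪cu σ, cv σ⟫ = 0
          · obtain ⟨p, ⟨s, hs⟩, ⟨t, ht⟩⟩ := K1_dep hd
            obtain ⟨q, ⟨s', hs'⟩, ⟨t', ht'⟩⟩ := K1_dep hd'
            refine ⟨p, q, ?_, ?_, ?_, ?_⟩
            · rw [hs]; exact K1_In_smul (K1_In_left _ _) _
            · rw [ht]; exact K1_In_smul (K1_In_left _ _) _
            · rw [hs']; exact K1_In_smul (K1_In_right _ _) _
            · rw [ht']; exact K1_In_smul (K1_In_right _ _) _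
          · obtain ⟨e1, e2⟩ := K1_ind (fun w => (hmh w).symm) hd'
            exact ⟨cu σ, cv σ, e1, e2, K1_In_left _ _, K1_In_right _ _⟩
        · obtain ⟨e1, e2⟩ := K1_ind hmh hd
          exact ⟨cu ξ, cv ξ, K1_In_left _ _, K1_In_right _ _, e1, e2⟩
      · refine ⟨cu σ, cv σ, ?_, ?_, K1_In_left _ _, K1_In_right _ _⟩
        · have e : cu ξ = ((c0 σ)⁻¹ * c0 ξ) • cu σ := by
            rw [mul_smul, sub_eq_zero.1 hcv, smul_smul, inv_mul_cancel₀ hb, one_smul]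
          rw [e]; exact K1_In_smul (K1_In_left _ _) _
        · have e : cv ξ = ((c0 σ)⁻¹ * c0 ξ) • cv σ := by
            rw [mul_smul, ← sub_eq_zero.1 hcu, smul_smul, inv_mul_cancel₀ hb, one_smul]
          rw [e]; exact K1_In_smul (K1_In_right _ _) _
    · refine ⟨cu ξ, cv ξ, K1_In_left _ _, K1_In_right _ _, ?_, ?_⟩
      · have e : cu σ = ((c0 ξ)⁻¹ * c0 σ) • cu ξ := by
          rw [mul_smul, ← sub_eq_zero.1 hcv, smul_smul, inv_mul_cancel₀ ha, one_smul]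
        rw [e]; exact K1_In_smul (K1_In_left _ _) _
      · have e : cv σ = ((c0 ξ)⁻¹ * c0 σ) • cv ξ := by
          rw [mul_smul, sub_eq_zero.1 hcu, smul_smul, inv_mul_cancel₀ ha, one_smul]
        rw [e]; exact K1_In_smul (K1_In_right _ _) _
  obtain ⟨p, q, k1, k2, k3, k4⟩ := key
  obtain ⟨f, f', hf, hf', hff, hp, hq⟩ := K1_pair hn p q
  obtain ⟨x, hx⟩ := K1_emb f f' ξ (K1_In_trans k1 hp hq) (K1_In_trans k2 hp hq)
  obtain ⟨y, hy⟩ := K1_emb f f' σ (K1_In_trans k3 hp hq) (K1_In_trans k4 hp hq)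
  exact ⟨f, f', hf, hf', hff, x, y, hx, hy⟩

end HFinG
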