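import Pool.Agent.HFinG.KD

/-! MODULE K2 (diff 2): `emb5 f f'` is an isometric embedding of the data (`f, f'` orthonormal).

`κ_eq`: `(1:ℕ)/nrm 1 1 = κ` (`nrm 1 1 = √(1² + 1²) = √2`).  With it the coefficients in
`HFin.su2_mm 1 1`, `HFin.su2_mh 1 1`, `HFin.su2_act 1 1` are all `κ`.
* `emb5_inner`: `⟪emb x, emb y⟫ = ⟪x, y⟫` (`inner_vn`, `κ_sq`, bilinearity; sum over `Fin 5`).
* `emb5_mm`: `mm (emb x) (emb y) = emb (mm x y)` (compare components; `module`, `κ_sq`).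
* `emb5_mh`: `mh (emb x) (emb y) (i,j) = -κ (su2 1 1).mh x y (f_i f'_j - f'_i f_j)`; hence
  `emb5_mh_zero`: if `mh (emb x) (emb y) = 0` then `(su2 1 1).mh x y = 0` (the matrix
  `f_i f'_j - f'_i f_j` is nonzero: multiply by `f_i f'_j` and sum to get `1`), and
  `emb5_mh_zero'`: the converse.
* `emb5_sw`: `swn (emb y) = emb (HFin.sw y)`; `mn (emb y) = HFin.mf y`; `‖emb y‖ = ‖y‖`; `c0 (emb y) = y 0`;
  `e0n = emb (EuclideanSpace.single 0 1)`.
* `emb5_pn`: `pn (emb y) = emb (HFin.pmod y)` (the formulas of `pn` and `HFin.pmod` correspond).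
  (All checked numerically.)
-/

namespace HFinG

open scoped RealInnerProductSpace

variable {n : ℕ}

theorem κ_eq : (((1 : ℕ) : ℝ) / HFin.nrm 1 1) = κ := by
  unfold HFin.nrm κ
  rw [Nat.cast_one, one_div]
  congr 2
  norm_num

lemma K2_inner {f f' : En n} (hf : ‖f‖ = 1) (hf' : ‖f'‖ = 1) (h : ⟪f, f'⟫ = 0) (a b c d : ℝ) :
    ⟪a • f + b • f', c • f + d • f'⟫ = a * c + b * d := by
  have h1 : ⟪f, f⟫ = 1 := by rw [real_inner_self_eq_norm_sq, hf]; norm_num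
  have h2 : ⟪f', f'⟫ = 1 := by rw [real_inner_self_eq_norm_sq, hf']; norm_num
  have h3 : ⟪f', f⟫ = 0 := by rw [real_inner_comm]; exact h
  simp only [inner_add_left, inner_add_right, real_inner_smul_left, real_inner_smul_right,
    h1, h2, h, h3]
  ring

lemma K2_inner' {f f' : En n} (hf : ‖f‖ = 1) (hf' : ‖f'‖ = 1) (h : ⟪f, f'⟫ = 0) (a b c d : ℝ) :
    ⟪κ • (a • f + b • f'), κ • (c • f + d • f')⟫ = (a * c + b * d) / 2 := by
  rw [real_inner_smul_left, real_inner_smul_right, K2_inner hf hf' h, ← mul_assoc, κ_sq]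
  ring

lemma K2_emb (f f' : En n) (y : HFin.V5) : emb5 f f' y =
    mk3 (y 0) (κ • ((y 1 - y 3) • f + (y 2 - y 4) • f'))
      (κ • ((y 2 + y 4) • f + (-(y 1 + y 3)) • f')) := by
  rw [emb5_apply, neg_smul, ← sub_eq_add_neg]

theorem emb5_inner {f f' : En n} (hf : ‖f‖ = 1) (hf' : ‖f'‖ = 1) (h : ⟪f, f'⟫ = 0)
    (x y : HFin.V5) : ⟪emb5 f f' x, emb5 f f' y⟫ = ⟪x, y⟫ := by
  rw [inner_vn, K2_emb, K2_emb]
  simp only [c0_mk3, cu_mk3, cv_mk3, K2_inner' hf hf' h]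
  rw [HFin.J1_inner]
  ring

theorem emb5_norm {f f' : En n} (hf : ‖f‖ = 1) (hf' : ‖f'‖ = 1) (h : ⟪f, f'⟫ = 0)
    (x : HFin.V5) : ‖emb5 f f' x‖ = ‖x‖ := by
  have e := emb5_inner hf hf' h x x
  rw [real_inner_self_eq_norm_sq, real_inner_self_eq_norm_sq] at e
  exact (sq_eq_sq₀ (norm_nonneg _) (norm_nonneg _)).1 e

theorem emb5_mm {f f' : En n} (hf : ‖f‖ = 1) (hf' : ‖f'‖ = 1) (h : ⟪f, f'⟫ = 0)
    (x y : HFin.V5) :
    (stf n).mm (emb5 f f' x) (emb5 f f' y) = emb5 f f' ((HFin.su2 1 1).mm x y) := by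
  have hm := HFin.su2_mm 1 1 x y
  rw [κ_eq] at hm
  have m0 : ((HFin.su2 1 1).mm x y) 0 =
    κ * (x 1 * y 2 - x 2 * y 1) - κ * (x 3 * y 4 - x 4 * y 3) := by rw [hm]; simp
  have m1 : ((HFin.su2 1 1).mm x y) 1 = κ * (x 2 * y 0 - x 0 * y 2) := by rw [hm]; simp
  have m2 : ((HFin.su2 1 1).mm x y) 2 = κ * (x 0 * y 1 - x 1 * y 0) := by rw [hm]; simp
  have m3 : ((HFin.su2 1 1).mm x y) 3 = -κ * (x 4 * y 0 - x 0 * y 4) := by rw [hm]; simp
  have m4 : ((HFin.su2 1 1).mm x y) 4 = -κ * (x 0 * y 3 - x 3 * y 0) := by rw [hm]; simp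
  rw [stf_mm, K2_emb, K2_emb, K2_emb, m0, m1, m2, m3, m4]
  simp only [c0_mk3, cu_mk3, cv_mk3, K2_inner' hf hf' h, mk3_smul]
  refine ext3 ?_ ?_ ?_
  · simp only [c0_mk3]
    ring
  · simp only [cu_mk3]
    module
  · simp only [cv_mk3]
    module

theorem emb5_mh {f f' : En n} (hf : ‖f‖ = 1) (hf' : ‖f'‖ = 1) (h : ⟪f, f'⟫ = 0)
    (x y : HFin.V5) (i j : Fin n) : (stf n).mh (emb5 f f' x) (emb5 f f' y) (i, j) =
      -κ * (HFin.su2 1 1).mh x y * (f i * f' j - f' i * f j) := by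
  have hm := HFin.su2_mh 1 1 x y
  rw [κ_eq] at hm
  rw [stf_mh, K2_emb, K2_emb, hm]
  simp only [cu_mk3, cv_mk3, PiLp.smul_apply, PiLp.add_apply, smul_eq_mul]
  ring

theorem emb5_mh_zero {f f' : En n} (hf : ‖f‖ = 1) (hf' : ‖f'‖ = 1) (h : ⟪f, f'⟫ = 0)
    (x y : HFin.V5) :
    (stf n).mh (emb5 f f' x) (emb5 f f' y) = 0 ↔ (HFin.su2 1 1).mh x y = 0 := by
  have hκ : κ ≠ 0 := κ_pos.ne'
  constructor
  · intro h0
    by_contra hne
    have h1 : ∀ i j, f i * f' j - f' i * f j = 0 := by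
      intro i j
      have e := emb5_mh hf hf' h x y i j
      rw [h0] at e
      have e2 : -κ * (HFin.su2 1 1).mh x y * (f i * f' j - f' i * f j) = 0 := by
        rw [← e]
        rfl
      rcases mul_eq_zero.1 e2 with e3 | e3
      · exact absurd e3 (mul_ne_zero (neg_ne_zero.2 hκ) hne)
      · exact e3
    have hff : ∑ i, f i * f i = 1 := by
      have e : ⟪f, f⟫ = 1 := by rw [real_inner_self_eq_norm_sq, hf]; norm_num
      rw [PiLp.inner_apply] at e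
      rw [← e]
      exact Finset.sum_congr rfl (fun i _ => rfl)
    have hff' : ∑ i, f i * f' i = 0 := by
      rw [← h, PiLp.inner_apply]
      exact Finset.sum_congr rfl (fun i _ => mul_comm _ _)
    have hz : f' = 0 := by
      ext j
      have e : ∑ i, f i * (f i * f' j - f' i * f j) = f' j := by
        have : ∀ i, f i * (f i * f' j - f' i * f j) =
          f' j * (f i * f i) - f j * (f i * f' i) := fun i => by ring
        simp only [this]
        rw [Finset.sum_sub_distrib, ← Finset.mul_sum, ← Finset.mul_sum, hff, hff']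
        ring
      rw [← e]
      simp only [h1, mul_zero, Finset.sum_const_zero]
      rfl
    rw [hz, norm_zero] at hf'
    exact one_ne_zero hf'.symm
  · intro h0
    ext ij
    obtain ⟨i, j⟩ := ij
    rw [emb5_mh hf hf' h, h0, mul_zero, zero_mul]
    rfl

lemma emb5_sw (f f' : En n) (y : HFin.V5) : swn (emb5 f f' y) = emb5 f f' (HFin.sw y) := by
  have s0 : (HFin.sw y) 0 = 0 := by simp [HFin.sw]
  have s1 : (HFin.sw y) 1 = y 3 := by simp [HFin.sw]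
  have s2 : (HFin.sw y) 2 = y 4 := by simp [HFin.sw]
  have s3 : (HFin.sw y) 3 = y 1 := by simp [HFin.sw]
  have s4 : (HFin.sw y) 4 = y 2 := by simp [HFin.sw]
  rw [swn_apply, K2_emb, K2_emb, s0, s1, s2, s3, s4]
  simp only [cu_mk3, cv_mk3]
  refine ext3 ?_ ?_ ?_
  · simp only [c0_mk3]
  · simp only [cu_mk3]
    module
  · simp only [cv_mk3]
    module

lemma emb5_mn {f f' : En n} (hf : ‖f‖ = 1) (hf' : ‖f'‖ = 1) (h : ⟪f, f'⟫ = 0)
    (y : HFin.V5) : mn (emb5 f f' y) = HFin.mf y := by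
  unfold mn HFin.mf
  rw [K2_emb]
  simp only [cu_mk3, cv_mk3, K2_inner' hf hf' h]
  ring

lemma emb5_e0 (f f' : En n) :
    emb5 f f' (EuclideanSpace.single (0 : Fin 5) (1 : ℝ)) = e0n := by
  rw [K2_emb]
  unfold e0n
  refine ext3 ?_ ?_ ?_
  · simp
  · simp
  · simp

theorem emb5_pn {f f' : En n} (hf : ‖f‖ = 1) (hf' : ‖f'‖ = 1) (h : ⟪f, f'⟫ = 0)
    (y : HFin.V5) : pn (emb5 f f' y) = emb5 f f' (HFin.pmod y) := by
  have hc : c0 (emb5 f f' y) = y 0 := rfl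
  unfold pn HFin.pmod
  rw [emb5_norm hf hf' h, emb5_mn hf hf' h, hc, emb5_sw]
  simp only [map_add, map_sub, map_neg, map_smul, emb5_e0]

end HFinG
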