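import Pool.Agent.HFinG.K1
import Pool.Agent.HFinG.K2
import Pool.Agent.HFinG.J2
import Pool.Agent.HFinG.G1
import Pool.Agent.HFin.G1

/-! MODULE K3 (diff 3): transfer of `P3`.

Fix `f, f'` orthonormal, `ι = emb5 f f'` (continuous linear, isometric).  For `y ≠ 0` in `V5`
(then `ι y ≠ 0`):
* `D pn(ι y)(ι v) = ι (D pmod(y) v)`: both sides are the derivative of `pn ∘ ι = ι ∘ pmod` (`emb5_pn`) at `y`
  (chain rule; `pn_smooth`, `HFin.pmod_smooth`).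
* `bdot`: `D(z ↦ D pn(z)(ι v))(ι y)(ι w) = ι (D(z ↦ D pmod(z) v)(y) w)`: same argument, the identity
  `D pn(ι z)(ι v) = ι (D pmod(z) v)` holds for all `z ≠ 0`; chain rule for `z ↦ D pn(z)(ι v)` (smooth off
  `0`).
* `qq2 (stf n) pn (ι y) (ι v) = ι (HFin.qq2 (su2 1 1) pmod y v)` (`emb5_mm`).
* `D(z ↦ qq2 pn z (ι σ))(ι ξ)(ι η) = ι (D(z ↦ HFin.qq2 .. z σ)(ξ) η)` (`qq2_smooth` (G1),
  `HFin.qq2_smooth`), `η = [p ξ, ξ]`.
* `P3` (G3-form of the definitions `P3`, `HFin.P3`): all inner products are preserved (`emb5_inner`), and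
  the last terms `⟪mh (p ξ) σ, ..⟫` and `⟪σ, act (p ξ)⟫ * ..` vanish by hypothesis
  (`HFin.su2_normal`: `(su2 1 1).mh x y = ⟪act x, y⟫`).
* `stf_P3_pos`: `flat_emb` gives `ξ = ι x`, `σ = ι y`; the hypotheses transfer to `x, y` (`emb5_norm`,
  `emb5_inner`, `emb5_mm` and injectivity of `ι`, `emb5_mh_zero`, `emb5_pn`), conclude by
  `HFin.P3_pos`.
-/

namespace HFinG

open scoped ContDiff RealInnerProductSpace

variable {n : ℕ}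

theorem K3_tr {ι : HFin.V5 →L[ℝ] Vn n} (hι : ∀ y, y ≠ 0 → ι y ≠ 0) {g : Vn n → Vn n}
    {G : HFin.V5 → HFin.V5} (hg : ContDiffOn ℝ ∞ g {x | x ≠ 0})
    (hG : ContDiffOn ℝ ∞ G {x | x ≠ 0}) (h : ∀ y, y ≠ 0 → g (ι y) = ι (G y))
    {y : HFin.V5} (hy : y ≠ 0) (v : HFin.V5) :
    fderiv ℝ g (ι y) (ι v) = ι (fderiv ℝ G y v) := by
  have h1 : HasFDerivAt (fun z => g (ι z)) ((fderiv ℝ g (ι y)).comp ι) y :=
    (G1_diff hg (hι y hy)).hasFDerivAt.comp y ι.hasFDerivAt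
  have h2 : HasFDerivAt (fun z => ι (G z)) (ι.comp (fderiv ℝ G y)) y :=
    ι.hasFDerivAt.comp y (HFin.G1_diff hG hy).hasFDerivAt
  have h3 : (fun z => g (ι z)) =ᶠ[nhds y] fun z => ι (G z) := HFin.G1_ev hy h
  have h4 := (h2.congr_of_eventuallyEq h3).unique h1
  exact (congrArg (fun L : HFin.V5 →L[ℝ] Vn n => L v) h4).symm

theorem K3_ne {f f' : En n} (hf : ‖f‖ = 1) (hf' : ‖f'‖ = 1) (h : ⟪f, f'⟫ = 0)
    (y : HFin.V5) (hy : y ≠ 0) : emb5 f f' y ≠ 0 := by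
  intro h0
  apply hy
  rw [← norm_eq_zero, ← emb5_norm hf hf' h, h0, norm_zero]

theorem K3_A {f f' : En n} (hf : ‖f‖ = 1) (hf' : ‖f'‖ = 1) (h : ⟪f, f'⟫ = 0)
    {y : HFin.V5} (hy : y ≠ 0) (v : HFin.V5) :
    fderiv ℝ pn (emb5 f f' y) (emb5 f f' v) = emb5 f f' (fderiv ℝ HFin.pmod y v) :=
  K3_tr (K3_ne hf hf' h) pn_smooth HFin.pmod_smooth (fun y _ => emb5_pn hf hf' h y) hy v

theorem K3_B {f f' : En n} (hf : ‖f‖ = 1) (hf' : ‖f'‖ = 1) (h : ⟪f, f'⟫ = 0)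
    {y : HFin.V5} (hy : y ≠ 0) (v w : HFin.V5) :
    fderiv ℝ (fun z => fderiv ℝ pn z (emb5 f f' v)) (emb5 f f' y) (emb5 f f' w) =
      emb5 f f' (fderiv ℝ (fun z => fderiv ℝ HFin.pmod z v) y w) :=
  K3_tr (K3_ne hf hf' h) (G1_fda (pn_pert n) (emb5 f f' v)) (HFin.G1_fda HFin.pmod_pert v)
    (fun y hy => K3_A hf hf' h hy v) hy w

theorem K3_C {f f' : En n} (hf : ‖f‖ = 1) (hf' : ‖f'‖ = 1) (h : ⟪f, f'⟫ = 0)
    {y : HFin.V5} (hy : y ≠ 0) (v : HFin.V5) :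
    qq2 (stf n) pn (emb5 f f' y) (emb5 f f' v) =
      emb5 f f' (HFin.qq2 (HFin.su2 1 1) HFin.pmod y v) := by
  unfold qq2 HFin.qq2
  rw [emb5_pn hf hf' h, emb5_mm hf hf' h, K3_B hf hf' h hy, K3_A hf hf' h hy,
    emb5_mm hf hf' h, emb5_mm hf hf' h, K3_A hf hf' h hy, map_add, map_sub]

theorem K3_D {f f' : En n} (hf : ‖f‖ = 1) (hf' : ‖f'‖ = 1) (h : ⟪f, f'⟫ = 0)
    {y : HFin.V5} (hy : y ≠ 0) (v w : HFin.V5) :
    fderiv ℝ (fun z => qq2 (stf n) pn z (emb5 f f' v)) (emb5 f f' y) (emb5 f f' w) =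
      emb5 f f' (fderiv ℝ (fun z => HFin.qq2 (HFin.su2 1 1) HFin.pmod z v) y w) :=
  K3_tr (K3_ne hf hf' h) (qq2_smooth (pn_pert n) (emb5 f f' v))
    (HFin.qq2_smooth HFin.pmod_pert v) (fun y hy => K3_C hf hf' h hy v) hy w

theorem K3_normal : HFin.IsNormal (HFin.su2 1 1) := HFin.su2_normal 1 1 (by norm_num)

theorem P3_emb {f f' : En n} (hf : ‖f‖ = 1) (hf' : ‖f'‖ = 1) (h : ⟪f, f'⟫ = 0)
    {ξ σ : HFin.V5} (hξ : ξ ≠ 0) (hν : ⟪σ, (HFin.su2 1 1).act (HFin.pmod ξ)⟫ = 0) :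
    P3 (stf n) pn (emb5 f f' ξ) (emb5 f f' σ) = HFin.P3 (HFin.su2 1 1) HFin.pmod ξ σ := by
  have h0 : (stf n).mh (emb5 f f' (HFin.pmod ξ)) (emb5 f f' σ) = 0 := by
    rw [emb5_mh_zero hf hf' h, K3_normal.mh_eq, real_inner_comm, hν]
  unfold P3 HFin.P3
  rw [emb5_pn hf hf' h, emb5_mm hf hf' h, K3_D hf hf' h hξ, K3_C hf hf' h hξ,
    K3_A hf hf' h hξ, emb5_mm hf hf' h, emb5_mm hf hf' h, K3_A hf hf' h hξ, ← map_add,
    emb5_inner hf hf' h, emb5_inner hf hf' h, emb5_inner hf hf' h, h0, hν, inner_zero_left,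
    zero_mul]

theorem stf_P3_pos (hn : 2 ≤ n) (ξ σ : Vn n) (hξ : ‖ξ‖ = 1) (hσ : ‖σ‖ = 1) (hξσ : ⟪ξ, σ⟫ = 0)
    (h1 : (stf n).mm ξ σ = 0) (h2 : (stf n).mh ξ σ = 0) (h3 : (stf n).mh (pn ξ) σ = 0) :
    0 < P3 (stf n) pn ξ σ := by
  obtain ⟨f, f', hf, hf', hff, x, y, rfl, rfl⟩ := flat_emb hn ξ σ h1 h2
  have hx : ‖x‖ = 1 := by rw [← emb5_norm hf hf' hff, hξ]
  have hy : ‖y‖ = 1 := by rw [← emb5_norm hf hf' hff, hσ]
  have hxy : ⟪x, y⟫ = 0 := by rw [← emb5_inner hf hf' hff, hξσ]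
  have hx0 : x ≠ 0 := by
    intro h0
    rw [h0, norm_zero] at hx
    exact zero_ne_one hx
  have k1 : (HFin.su2 1 1).mm x y = 0 := by
    rw [emb5_mm hf hf' hff] at h1
    rw [← norm_eq_zero, ← emb5_norm hf hf' hff, h1, norm_zero]
  have k2 : ⟪y, (HFin.su2 1 1).act x⟫ = 0 := by
    rw [emb5_mh_zero hf hf' hff, K3_normal.mh_eq, real_inner_comm] at h2
    exact h2
  have k3 : ⟪y, (HFin.su2 1 1).act (HFin.pmod x)⟫ = 0 := by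
    rw [emb5_pn hf hf' hff, emb5_mh_zero hf hf' hff, K3_normal.mh_eq, real_inner_comm] at h3
    exact h3
  rw [P3_emb hf hf' hff hx0 k3]
  exact HFin.P3_pos x y hx hy hxy k1 k2 k3

end HFinG
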