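import Pool.Agent.HFinG.K3
import Pool.Agent.HFinG.I
import Pool.Agent.HFinG.Geo

/-! The homogeneous metric on the level of `𝔪`. -/

namespace HFinG

variable {n : ℕ}

theorem stf_exists (hn : 2 ≤ n) :
    ∃ F : Vn n → ℝ, IsMinkowski F ∧ PosFlag (stf n) F ∧
      (∀ A x, x ≠ 0 → fderiv ℝ (fun z => F z ^ 2 / 2) x ((stf n).act A x) = 0) ∧
      ∀ (B : En n ≃ₗᵢ[ℝ] En n) (x : Vn n), F (rotV B x) = F x := by
  obtain ⟨F, hF, hpos, hinv, hR⟩ := exists_pos (stf_normal n) (pn_pert n)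
    (fun ξ σ h1 h2 h3 h4 h5 h6 => stf_P3_pos hn ξ σ h1 h2 h3 h4 h5 h6)
  refine ⟨F, hF, hpos, hinv, fun B x => ?_⟩
  obtain ⟨R, hRB⟩ := rotV_iso B
  have h : rotV B x = R x := (hRB x).symm
  rw [h]
  exact hR R (fun ξ => by rw [hRB, hRB, pn_rot]) x

end HFinG
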