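import Pool.Agent.HFinG.Model
import Pool.Agent.HFin.K3

/-! The embeddings of the model for `V₂(ℝ⁴)` (in the coordinates `V5` of `su2 1 1`) in the model for
`V₂(ℝ^(n+2))`. -/

namespace HFinG

variable {n : ℕ}

/-- For `f, f'` orthonormal, the isometric embedding with image
`{(a, u, v) : u, v ∈ span (f, f')}`. -/
noncomputable def emb5 (f f' : En n) : HFin.V5 →L[ℝ] Vn n :=
  LinearMap.toContinuousLinearMap
    { toFun := fun y => mk3 (y 0) (κ • ((y 1 - y 3) • f + (y 2 - y 4) • f'))
        (κ • ((y 2 + y 4) • f - (y 1 + y 3) • f'))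
      map_add' := by
        intro x y
        simp only [PiLp.add_apply, mk3_add]
        refine ext3 ?_ ?_ ?_
        · simp
        · simp only [cu_mk3]; module
        · simp only [cv_mk3]; module
      map_smul' := by
        intro c y
        simp only [PiLp.smul_apply, smul_eq_mul, RingHom.id_apply, mk3_smul]
        refine ext3 ?_ ?_ ?_
        · simp
        · simp only [cu_mk3]; module
        · simp only [cv_mk3]; module }

lemma emb5_apply (f f' : En n) (y : HFin.V5) : emb5 f f' y =
    mk3 (y 0) (κ • ((y 1 - y 3) • f + (y 2 - y 4) • f'))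
      (κ • ((y 2 + y 4) • f - (y 1 + y 3) • f')) := rfl

end HFinG
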