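import Pool.Agent.HFinG.NDefs
import Pool.Agent.HFinG.A4

/-! MODULE N1 (diff 3): the spray coefficients in the frame coordinates.

`E = frameE F Xm`, `ξ_Y(u) = D(F²/2)(Y) u`.
* `frame_inj`: `Xm 0 = id`, so `Xm v` is injective for `v` near `0` (`Xm` continuous; injective maps form
  an open set, or `‖Xm v - id‖ < 1`).
* `lg_frame`: `lg E v y a b = fund F (Xm v y) (Xm v a) (Xm v b)` if `Xm v y ≠ 0` (chain rule; for fixed `v`
  the map `y ↦ Xm v y` is linear).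
* `lG_frame`: for `v` near `0`, `y ≠ 0`, with `Y = Xm v y`:
  `Xm v (2 G) = D_vXm(v)[y] y + spray Y + act (Xh v y) Y`.
  Proof: `E_y u = ξ_Y(Xm v u)`, so `D_x(E_y u)[y] = g_Y(D_vXm[y] y, Xm v u) + ξ_Y(D_vXm[y] u)` and
  `E_x[u] = ξ_Y(D_vXm[u] y)`.  By `mc` (with `y, w` replaced by `u, y`: `fderiv Xm v y u - fderiv Xm v u y =
  mm (Xm u) (Xm y) + act (Xh u) (Xm y) - act (Xh y) (Xm u)`) and `U = Xm v u`:
  `ξ_Y(D_vXm[y] u - D_vXm[u] y) = ξ_Y([U,Y]) + ξ_Y(act (Xh u) Y) - ξ_Y(act (Xh y) U)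
   = g_Y(spray Y, U) + 0 + g_Y(act (Xh y) Y, U)` (`spray_spec`, `fund_self`; invariance
  `ξ_Y(act A Y) = 0` for all `Y ≠ 0`, whose derivative is `g_Y(act A Y,U) + ξ_Y(act A U) = 0`).
  So the vector `G` with `Xm v (2G) = ...` (exists: `Xm v` bijective) satisfies the defining property of
  `lG` (`lg_frame`), and the defining property determines `G` (`lg` nondegenerate).
-/

namespace HFinG

open scoped ContDiff Topology

variable {V H : Type*} [NormedAddCommGroup V] [NormedSpace ℝ V]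
  [NormedAddCommGroup H] [NormedSpace ℝ H] [FiniteDimensional ℝ V]

omit [FiniteDimensional ℝ V] in
theorem N1_zero {D : RedData V H} {Xm : V → V →L[ℝ] V} {Xh : V → V →L[ℝ] H}
    (hX : IsFrame D Xm Xh) :
    Xm 0 = ((ContinuousLinearEquiv.refl ℝ V : V ≃L[ℝ] V) : V →L[ℝ] V) := by
  ext y
  simpa using hX.zero_m y

/-- `Xm v` is (the coercion of) a continuous linear equivalence for `v` near `0` -/
theorem N1_equiv {D : RedData V H} {Xm : V → V →L[ℝ] V} {Xh : V → V →L[ℝ] H}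
    (hX : IsFrame D Xm Xh) :
    ∀ᶠ v in 𝓝 (0 : V), ∃ e : V ≃L[ℝ] V, (e : V →L[ℝ] V) = Xm v := by
  have : CompleteSpace V := FiniteDimensional.complete ℝ V
  have h1 := ContinuousLinearEquiv.nhds (ContinuousLinearEquiv.refl ℝ V)
  rw [← N1_zero hX] at h1
  have hc : ContinuousAt Xm 0 := hX.smooth_m.continuous.continuousAt
  exact hc.eventually h1

theorem frame_inj {D : RedData V H} {Xm : V → V →L[ℝ] V} {Xh : V → V →L[ℝ] H}
    (hX : IsFrame D Xm Xh) : ∀ᶠ v in 𝓝 (0 : V), Function.Injective (Xm v) := by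
  filter_upwards [N1_equiv hX] with v hv
  obtain ⟨e, he⟩ := hv
  rw [← he]
  exact e.injective

omit [FiniteDimensional ℝ V] in
/-- the vertical derivative of the energy -/
theorem N1_denergy {F : V → ℝ} (hF : IsMinkowski F) (Xm : V → V →L[ℝ] V) {v y : V}
    (h : Xm v y ≠ 0) :
    fderiv ℝ (frameE F Xm v) y = (fderiv ℝ (fun z => F z ^ 2 / 2) (Xm v y)).comp (Xm v) := by
  have h1 : HasFDerivAt (fun y' => F (Xm v y') ^ 2 / 2)
      ((fderiv ℝ (fun z => F z ^ 2 / 2) (Xm v y)).comp (Xm v)) y :=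
    (A1_energy_diff hF h).hasFDerivAt.comp y (Xm v).hasFDerivAt
  exact h1.fderiv

theorem lg_frame {F : V → ℝ} (hF : IsMinkowski F) (Xm : V → V →L[ℝ] V) {v y : V}
    (h : Xm v y ≠ 0) (a b : V) :
    lg (frameE F Xm) v y a b = fund F (Xm v y) (Xm v a) (Xm v b) := by
  have h2 : HasFDerivAt (fun y' => fderiv ℝ (fun z => F z ^ 2 / 2) (Xm v y'))
      ((fund F (Xm v y)).comp (Xm v)) y :=
    (A1_denergy_diff hF h).hasFDerivAt.comp y (Xm v).hasFDerivAt
  have h3 := h2.clm_comp (hasFDerivAt_const (Xm v) y)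
  have h30 : (fun y' => fderiv ℝ (frameE F Xm v) y') =ᶠ[𝓝 y]
      fun y' => (fderiv ℝ (fun z => F z ^ 2 / 2) (Xm v y')).comp (Xm v) := by
    have hopen : {y' : V | Xm v y' ≠ 0} ∈ 𝓝 y :=
      (isOpen_ne.preimage (Xm v).continuous).mem_nhds h
    filter_upwards [hopen] with y' hy'
    exact N1_denergy hF Xm hy'
  unfold lg
  rw [h30.fderiv_eq, h3.fderiv]
  simp

omit [FiniteDimensional ℝ V] in
/-- the infinitesimal invariance, differentiated -/
theorem N1_inv {D : RedData V H} {F : V → ℝ} (hF : IsMinkowski F)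
    (hinv : ∀ A x, x ≠ 0 → fderiv ℝ (fun z => F z ^ 2 / 2) x (D.act A x) = 0)
    (A : H) {Y : V} (hY : Y ≠ 0) (U : V) :
    fund F Y (D.act A Y) U + fderiv ℝ (fun z => F z ^ 2 / 2) Y (D.act A U) = 0 := by
  have h1 : HasFDerivAt (fun z => fderiv ℝ (fun z => F z ^ 2 / 2) z (D.act A z))
      _ Y := (A1_denergy_diff hF hY).hasFDerivAt.clm_apply (D.act A).hasFDerivAt
  have h2 : HasFDerivAt (fun z => fderiv ℝ (fun z => F z ^ 2 / 2) z (D.act A z))
      (0 : V →L[ℝ] ℝ) Y := by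
    refine (hasFDerivAt_const (0 : ℝ) Y).congr_of_eventuallyEq ?_
    filter_upwards [A1_open.mem_nhds hY] with z hz
    exact hinv A z hz
  have h3 := congrArg (fun f : V →L[ℝ] ℝ => f U) (h1.unique h2)
  simp at h3
  have h4 : fund F Y U (D.act A Y) = fund F Y (D.act A Y) U := fund_symm hF hY _ _
  rw [← h4]
  unfold fund
  linarith

theorem N1_rhs {D : RedData V H} {F : V → ℝ} (hF : IsMinkowski F)
    (hinv : ∀ A x, x ≠ 0 → fderiv ℝ (fun z => F z ^ 2 / 2) x (D.act A x) = 0)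
    {Xm : V → V →L[ℝ] V} {Xh : V → V →L[ℝ] H} (hX : IsFrame D Xm Xh) {v y : V}
    (h : Xm v y ≠ 0) (u : V) :
    fderiv ℝ (fun x' => fderiv ℝ (frameE F Xm x') y u) v y -
        fderiv ℝ (fun x' => frameE F Xm x' y) v u =
      fund F (Xm v y) (fderiv ℝ Xm v y y + spray D F (Xm v y) + D.act (Xh v y) (Xm v y))
        (Xm v u) := by
  have hd : HasFDerivAt Xm (fderiv ℝ Xm v) v :=
    (hX.smooth_m.differentiable (by simp)).differentiableAt.hasFDerivAt
  have hy : HasFDerivAt (fun x' => Xm x' y) _ v := hd.clm_apply (hasFDerivAt_const y v)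
  have hu : HasFDerivAt (fun x' => Xm x' u) _ v := hd.clm_apply (hasFDerivAt_const u v)
  -- first term
  have h1 : HasFDerivAt (fun x' => fderiv ℝ (fun z => F z ^ 2 / 2) (Xm x' y)) _ v :=
    (A1_denergy_diff hF h).hasFDerivAt.comp v hy
  have h2 : HasFDerivAt (fun x' => fderiv ℝ (fun z => F z ^ 2 / 2) (Xm x' y) (Xm x' u)) _ v :=
    h1.clm_apply hu
  have h3 : (fun x' => fderiv ℝ (frameE F Xm x') y u) =ᶠ[𝓝 v]
      fun x' => fderiv ℝ (fun z => F z ^ 2 / 2) (Xm x' y) (Xm x' u) := by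
    have hopen : {x' : V | Xm x' y ≠ 0} ∈ 𝓝 v :=
      hy.continuousAt.eventually_ne h
    filter_upwards [hopen] with x' hx'
    rw [N1_denergy hF Xm hx']
    rfl
  -- second term
  have h4 : HasFDerivAt (fun x' => F (Xm x' y) ^ 2 / 2)
      ((fderiv ℝ (fun z => F z ^ 2 / 2) (Xm v y)).comp
        ((Xm v).comp (0 : V →L[ℝ] V) + (fderiv ℝ Xm v).flip y)) v := by
    have h5 : HasFDerivAt (fun z => F z ^ 2 / 2) (fderiv ℝ (fun z => F z ^ 2 / 2) (Xm v y))
      (Xm v y) := (A1_energy_diff hF h).hasFDerivAt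
    exact HasFDerivAt.comp (g := fun z => F z ^ 2 / 2) v h5 hy
  have h40 : (fun x' => frameE F Xm x' y) = fun x' => F (Xm x' y) ^ 2 / 2 := rfl
  rw [h3.fderiv_eq, h2.fderiv, h40, h4.fderiv]
  have hmc := hX.mc v u y
  have hi := N1_inv hF hinv (Xh v y) h (Xm v u)
  have hi2 := hinv (Xh v u) (Xm v y) h
  have hs := spray_spec D hF h (Xm v u)
  have hse := fund_self hF h (D.mm (Xm v u) (Xm v y))
  have key : fderiv ℝ (fun z => F z ^ 2 / 2) (Xm v y) (fderiv ℝ Xm v y u) -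
      fderiv ℝ (fun z => F z ^ 2 / 2) (Xm v y) (fderiv ℝ Xm v u y) =
      fderiv ℝ (fun z => F z ^ 2 / 2) (Xm v y) (D.mm (Xm v u) (Xm v y) +
        D.act (Xh v u) (Xm v y) - D.act (Xh v y) (Xm v u)) := by
    rw [← hmc, map_sub]
  rw [map_sub, map_add, hi2, ← hse, ← hs] at key
  simp only [map_add, add_apply]
  simp
  unfold fund at *
  linarith

theorem lG_frame {D : RedData V H} {F : V → ℝ} (hF : IsMinkowski F)
    (hinv : ∀ A x, x ≠ 0 → fderiv ℝ (fun z => F z ^ 2 / 2) x (D.act A x) = 0)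
    {Xm : V → V →L[ℝ] V} {Xh : V → V →L[ℝ] H} (hX : IsFrame D Xm Xh) :
    ∀ᶠ v in 𝓝 (0 : V), ∀ y, y ≠ 0 → Xm v ((2 : ℝ) • lG (frameE F Xm) v y) =
      fderiv ℝ Xm v y y + spray D F (Xm v y) + D.act (Xh v y) (Xm v y) := by
  filter_upwards [N1_equiv hX] with v hv y hy
  obtain ⟨e, he⟩ := hv
  have hY : Xm v y ≠ 0 := by
    rw [← he]
    simpa using hy
  set T := fderiv ℝ Xm v y y + spray D F (Xm v y) + D.act (Xh v y) (Xm v y) with hT
  have hex : ∃ G, ∀ u, 2 * lg (frameE F Xm) v y G u =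
      fderiv ℝ (fun x' => fderiv ℝ (frameE F Xm x') y u) v y -
        fderiv ℝ (fun x' => frameE F Xm x' y) v u := by
    refine ⟨(1 / 2 : ℝ) • e.symm T, fun u => ?_⟩
    rw [N1_rhs hF hinv hX hY u, lg_frame hF Xm hY, ← hT]
    have : Xm v ((1 / 2 : ℝ) • e.symm T) = (1 / 2 : ℝ) • T := by
      rw [map_smul, ← he]
      simp
    rw [this, map_smul]
    simp
  have hspec : ∀ u, 2 * lg (frameE F Xm) v y (lG (frameE F Xm) v y) u =
      fderiv ℝ (fun x' => fderiv ℝ (frameE F Xm x') y u) v y -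
        fderiv ℝ (fun x' => frameE F Xm x' y) v u := Classical.epsilon_spec hex
  refine fund_inj hF hY fun U => ?_
  obtain ⟨u, rfl⟩ : ∃ u, Xm v u = U := ⟨e.symm U, by rw [← he]; simp⟩
  have h1 := hspec u
  rw [N1_rhs hF hinv hX hY u, lg_frame hF Xm hY, ← hT] at h1
  rw [← h1, map_smul, map_smul]
  simp

end HFinG
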