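import Pool.Agent.HFinG.N1

/-! MODULE N2 (diff 3): first derivatives of the spray coefficients at `v = 0`.

`S(v,y) = 2 lG(v,y)`; by `lG_frame`, near `v = 0`:  `Xm v (S(v,y)) = T(v,y)` with
`T(v,y) = D_vXm(v)[y] y + spray (Xm v y) + act (Xh v y) (Xm v y)`.
* `lG_smooth`: `(v,y) ↦ lG(v,y)` is smooth at every `(0,y)`, `y ≠ 0`: `S(v,y) = (Xm v)⁻¹ T(v,y)`, inversion
  is smooth at `Xm 0 = id` (`contDiffAt_map_inverse`), `T` is smooth (`spray_smooth`).
* `S(0,y) = T(0,y) = spray y` since `D_vXm(0)[y] y = -[y,y]/2 = 0`, `Xh 0 = 0` (`lG_zero`).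
* `lG_dx`: differentiate `Xm v (S(v,y)) = T(v,y)` in `v` at `0` in the direction `w`:
  `D_vXm(0)[w] (spray y) + D_vS[w] = D²Xm(0)[w][y] y + Dspray(y)(D_vXm(0)[w] y) + act (D_vXh(0)[w] y) y`,
  i.e. with `deriv_m`, `deriv_h`:
  `D_vS[w] = D²Xm(0)[w][y] y - (1/2) Dspray(y)[w,y] - (1/2) act (mh w y) y + (1/2)[w, spray y]`.
-/

namespace HFinG

open scoped ContDiff Topology

variable {V H : Type*} [NormedAddCommGroup V] [NormedSpace ℝ V]
  [NormedAddCommGroup H] [NormedSpace ℝ H] [FiniteDimensional ℝ V]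

/-- the right-hand side `T(v,y)` is smooth at `(0,y)` -/
theorem N2_T_smooth {D : RedData V H} {F : V → ℝ} (hF : IsMinkowski F)
    {Xm : V → V →L[ℝ] V} {Xh : V → V →L[ℝ] H} (hX : IsFrame D Xm Xh) {y : V} (hy : y ≠ 0) :
    ContDiffAt ℝ ∞ (fun z : V × V => fderiv ℝ Xm z.1 z.2 z.2 + spray D F (Xm z.1 z.2) +
      D.act (Xh z.1 z.2) (Xm z.1 z.2)) (0, y) := by
  have hfst : ContDiffAt ℝ ∞ (fun z : V × V => z.1) (0, y) := contDiffAt_fst
  have hsnd : ContDiffAt ℝ ∞ (fun z : V × V => z.2) (0, y) := contDiffAt_snd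
  have hXm : ContDiffAt ℝ ∞ (fun z : V × V => Xm z.1 z.2) (0, y) :=
    (hX.smooth_m.contDiffAt.comp (0, y) hfst).clm_apply hsnd
  have hXh : ContDiffAt ℝ ∞ (fun z : V × V => Xh z.1 z.2) (0, y) :=
    (hX.smooth_h.contDiffAt.comp (0, y) hfst).clm_apply hsnd
  have hd : ContDiff ℝ ∞ (fderiv ℝ Xm) := hX.smooth_m.fderiv_right (by norm_cast)
  have h1 : ContDiffAt ℝ ∞ (fun z : V × V => fderiv ℝ Xm z.1 z.2 z.2) (0, y) :=
    ((hd.contDiffAt.comp (0, y) hfst).clm_apply hsnd).clm_apply hsnd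
  have h2 : ContDiffAt ℝ ∞ (fun z : V × V => spray D F (Xm z.1 z.2)) (0, y) := by
    have hs : ContDiffAt ℝ ∞ (spray D F) (Xm (0, y).1 (0, y).2) := by
      refine (spray_smooth D hF).contDiffAt (A4_open.mem_nhds ?_)
      show Xm 0 y ≠ 0
      rw [hX.zero_m]
      exact hy
    exact ContDiffAt.comp (g := spray D F) (f := fun z : V × V => Xm z.1 z.2) (0, y) hs hXm
  have h3 : ContDiffAt ℝ ∞ (fun z : V × V => D.act (Xh z.1 z.2) (Xm z.1 z.2)) (0, y) :=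
    (D.act.contDiff.contDiffAt.comp (0, y) hXh).clm_apply hXm
  exact (h1.add h2).add h3

theorem lG_smooth {D : RedData V H} {F : V → ℝ} (hF : IsMinkowski F)
    (hinv : ∀ A x, x ≠ 0 → fderiv ℝ (fun z => F z ^ 2 / 2) x (D.act A x) = 0)
    {Xm : V → V →L[ℝ] V} {Xh : V → V →L[ℝ] H} (hX : IsFrame D Xm Xh) {y : V} (hy : y ≠ 0) :
    ContDiffAt ℝ ∞ (fun z : V × V => lG (frameE F Xm) z.1 z.2) (0, y) := by
  have : CompleteSpace V := FiniteDimensional.complete ℝ V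
  have hT := N2_T_smooth hF hX hy
  have hfst : ContDiffAt ℝ ∞ (fun z : V × V => z.1) (0, y) := contDiffAt_fst
  have hXm : ContDiffAt ℝ ∞ (fun z : V × V => Xm z.1) (0, y) :=
    hX.smooth_m.contDiffAt.comp (0, y) hfst
  have hi : ContDiffAt ℝ ∞ ContinuousLinearMap.inverse (Xm (0, y).1) := by
    show ContDiffAt ℝ ∞ ContinuousLinearMap.inverse (Xm 0)
    rw [N1_zero hX]
    exact contDiffAt_map_inverse _
  have hI : ContDiffAt ℝ ∞ (fun z : V × V => ContinuousLinearMap.inverse (Xm z.1)) (0, y) :=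
    ContDiffAt.comp (g := ContinuousLinearMap.inverse) (f := fun z : V × V => Xm z.1) (0, y) hi hXm
  have h1 := (hI.clm_apply hT).const_smul (1 / 2 : ℝ)
  refine h1.congr_of_eventuallyEq ?_
  have e1 : ∀ᶠ z in 𝓝 ((0 : V), y), ∃ e : V ≃L[ℝ] V, (e : V →L[ℝ] V) = Xm z.1 :=
    (continuous_fst.tendsto ((0 : V), y)).eventually (N1_equiv hX)
  have e2 : ∀ᶠ z in 𝓝 ((0 : V), y), ∀ y', y' ≠ 0 → Xm z.1 ((2 : ℝ) • lG (frameE F Xm) z.1 y') =
      fderiv ℝ Xm z.1 y' y' + spray D F (Xm z.1 y') + D.act (Xh z.1 y') (Xm z.1 y') :=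
    (continuous_fst.tendsto ((0 : V), y)).eventually (lG_frame hF hinv hX)
  have e3 : ∀ᶠ z in 𝓝 ((0 : V), y), z.2 ≠ 0 :=
    (continuous_snd.tendsto ((0 : V), y)).eventually_ne hy
  filter_upwards [e1, e2, e3] with z h1 h2 h3
  obtain ⟨e, he⟩ := h1
  have h4 := h2 z.2 h3
  rw [← h4, ← he, ContinuousLinearMap.inverse_equiv]
  show lG (frameE F Xm) z.1 z.2 = (1 / 2 : ℝ) • e.symm (e ((2 : ℝ) • lG (frameE F Xm) z.1 z.2))
  rw [e.symm_apply_apply, smul_smul]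
  norm_num

theorem lG_zero {D : RedData V H} {F : V → ℝ} (hF : IsMinkowski F)
    (hinv : ∀ A x, x ≠ 0 → fderiv ℝ (fun z => F z ^ 2 / 2) x (D.act A x) = 0)
    {Xm : V → V →L[ℝ] V} {Xh : V → V →L[ℝ] H} (hX : IsFrame D Xm Xh) {y : V} (hy : y ≠ 0) :
    (2 : ℝ) • lG (frameE F Xm) 0 y = spray D F y := by
  have h := (lG_frame hF hinv hX).self_of_nhds y hy
  rw [hX.zero_m, hX.zero_m, hX.zero_h, hX.deriv_m, D.mm_self] at h
  simpa using h

theorem lG_dx {D : RedData V H} {F : V → ℝ} (hF : IsMinkowski F)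
    (hinv : ∀ A x, x ≠ 0 → fderiv ℝ (fun z => F z ^ 2 / 2) x (D.act A x) = 0)
    {Xm : V → V →L[ℝ] V} {Xh : V → V →L[ℝ] H} (hX : IsFrame D Xm Xh) {y : V} (hy : y ≠ 0) (w : V) :
    (2 : ℝ) • fderiv ℝ (fun v => lG (frameE F Xm) v y) 0 w =
      fderiv ℝ (fderiv ℝ Xm) 0 w y y - (1 / 2 : ℝ) • fderiv ℝ (spray D F) y (D.mm w y)
        - (1 / 2 : ℝ) • D.act (D.mh w y) y + (1 / 2 : ℝ) • D.mm w (spray D F y) := by
  -- the derivatives of the pieces
  have hXm : HasFDerivAt Xm (fderiv ℝ Xm 0) 0 :=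
    (hX.smooth_m.differentiable (by simp)).differentiableAt.hasFDerivAt
  have hXh : HasFDerivAt Xh (fderiv ℝ Xh 0) 0 :=
    (hX.smooth_h.differentiable (by simp)).differentiableAt.hasFDerivAt
  have hd : ContDiff ℝ ∞ (fderiv ℝ Xm) := hX.smooth_m.fderiv_right (by norm_cast)
  have hDXm : HasFDerivAt (fderiv ℝ Xm) (fderiv ℝ (fderiv ℝ Xm) 0) 0 :=
    (hd.differentiable (by simp)).differentiableAt.hasFDerivAt
  have hG : DifferentiableAt ℝ (fun v => lG (frameE F Xm) v y) 0 := by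
    have h1 : ContDiffAt ℝ ∞ (fun v : V => ((v, y) : V × V)) 0 :=
      contDiffAt_id.prodMk contDiffAt_const
    exact ((lG_smooth hF hinv hX hy).comp (0 : V) h1).differentiableAt (by simp)
  have hL : HasFDerivAt (fun v => Xm v ((2 : ℝ) • lG (frameE F Xm) v y)) _ 0 :=
    hXm.clm_apply (hG.hasFDerivAt.const_smul (2 : ℝ))
  have hXy : HasFDerivAt (fun v => Xm v y) _ 0 := hXm.clm_apply (hasFDerivAt_const y (0 : V))
  have hXhy : HasFDerivAt (fun v => Xh v y) _ 0 := hXh.clm_apply (hasFDerivAt_const y (0 : V))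
  have h1 : HasFDerivAt (fun v => fderiv ℝ Xm v y y) _ 0 :=
    (hDXm.clm_apply (hasFDerivAt_const y (0 : V))).clm_apply (hasFDerivAt_const y (0 : V))
  have hs : HasFDerivAt (spray D F) (fderiv ℝ (spray D F) y) (Xm 0 y) := by
    rw [hX.zero_m]
    exact (((spray_smooth D hF).contDiffAt (A4_open.mem_nhds hy)).differentiableAt
      (by simp)).hasFDerivAt
  have h2 : HasFDerivAt (fun v => spray D F (Xm v y)) _ 0 :=
    HasFDerivAt.comp (g := spray D F) (f := fun v : V => Xm v y) (0 : V) hs hXy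
  have h30 : HasFDerivAt (fun v => D.act (Xh v y)) _ 0 :=
    (D.act.hasFDerivAt (x := Xh 0 y)).comp (0 : V) hXhy
  have h3 : HasFDerivAt (fun v => D.act (Xh v y) (Xm v y)) _ 0 := h30.clm_apply hXy
  have hR := (h1.add h2).add h3
  have hev : (fun v => Xm v ((2 : ℝ) • lG (frameE F Xm) v y)) =ᶠ[𝓝 0]
      fun v => fderiv ℝ Xm v y y + spray D F (Xm v y) + D.act (Xh v y) (Xm v y) := by
    filter_upwards [lG_frame hF hinv hX] with v hv
    exact hv y hy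
  have hL2 := (hL.congr_of_eventuallyEq hev.symm).unique hR
  have h4 := congrArg (fun f : V →L[ℝ] V => f w) hL2
  have z0 := lG_zero hF hinv hX hy
  simp only [add_apply, ContinuousLinearMap.comp_apply, ContinuousLinearMap.flip_apply,
    smul_apply, zero_apply, map_zero, hX.zero_m, hX.zero_h, hX.deriv_m, hX.deriv_h, z0,
    zero_add, map_neg, map_smul, neg_apply] at h4
  have h5 : (2 : ℝ) • (fderiv ℝ (fun v => lG (frameE F Xm) v y) 0) w =
      ((2 : ℝ) • (fderiv ℝ (fun v => lG (frameE F Xm) v y) 0) w +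
        -((1 / 2 : ℝ) • (D.mm w) (spray D F y))) + (1 / 2 : ℝ) • D.mm w (spray D F y) := by
    abel
  rw [h5, h4]
  module

end HFinG
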