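import Pool.Agent.HFinG.Defs
import Pool.Agent.HFinG.Loc

/-! Frames: the left-trivialised derivative of a local section of `G → G/H`. -/

namespace HFinG

open scoped ContDiff Topology

variable {V H : Type*} [NormedAddCommGroup V] [NormedSpace ℝ V]
  [NormedAddCommGroup H] [NormedSpace ℝ H]

/-- `Xm v y`, `Xh v y` are the `𝔪`- and `𝔥`-components of `A(v)⁻¹ DA(v) y` for a local section
`A : V → G`, `A(0) = 1`, with `DA(0) y = y`, `D²A(0)(v,y) = (v y + y v)/2`; `mc` is the `𝔪`-part of the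
Maurer-Cartan equation. -/
structure IsFrame (D : RedData V H) (Xm : V → V →L[ℝ] V) (Xh : V → V →L[ℝ] H) : Prop where
  smooth_m : ContDiff ℝ ∞ Xm
  smooth_h : ContDiff ℝ ∞ Xh
  zero_m : ∀ y, Xm 0 y = y
  zero_h : ∀ y, Xh 0 y = 0
  deriv_m : ∀ w y, fderiv ℝ Xm 0 w y = -((1 / 2 : ℝ) • D.mm w y)
  deriv_h : ∀ w y, fderiv ℝ Xh 0 w y = -((1 / 2 : ℝ) • D.mh w y)
  mc : ∀ v y w, fderiv ℝ Xm v w y - fderiv ℝ Xm v y w =
    D.mm (Xm v y) (Xm v w) + D.act (Xh v y) (Xm v w) - D.act (Xh v w) (Xm v y)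

/-- The energy of the homogeneous metric in the coordinates `v ↦ A(v)·o`. -/
noncomputable def frameE (F : V → ℝ) (Xm : V → V →L[ℝ] V) (v y : V) : ℝ := F (Xm v y) ^ 2 / 2

/-- `E` is a smooth, strongly convex energy over the open set `U`. -/
structure IsEnergy (E : V → V → ℝ) (U : Set V) : Prop where
  isOpen : IsOpen U
  smooth : ContDiffOn ℝ ∞ (fun z : V × V => E z.1 z.2) (U ×ˢ {y | y ≠ 0})
  conv : ∀ v ∈ U, ∀ y u : V, y ≠ 0 → u ≠ 0 → 0 < lg E v y u u

/-- The energy in new coordinates. -/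
noncomputable def compE {V' : Type*} [NormedAddCommGroup V'] [NormedSpace ℝ V']
    (E : V → V → ℝ) (φ : V' → V) (v y : V') : ℝ := E (φ v) (fderiv ℝ φ v y)

end HFinG
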