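import Pool.Agent.HFinG.NDefs

/-! MODULE O1 (diff 3): transformation of the spray under a change of coordinates.

`φ : V' → V`, `E' v y = E (φ v) (Dφ(v) y)` (`compE`), `T = Dφ(v)`, all `v` near `x` (where `φ` is smooth
with bijective derivative — an open condition — and `φ v ∈ U`).
* `lg_comp`: `lg E' v y a b = lg E (φ v) (T y) (T a) (T b)`.
* `lG_comp`: `T (2 G'(v,y)) = 2 G(φ v, T y) + D²φ(v)(y,y)`.
  Proof: `E'_y u = E_y(φ v,Ty)(Tu)`; its `x`-derivative in the direction `y`: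
  `D_xE_y(Tu)[Ty] + g(D²φ(y,y), Tu) + E_y(D²φ(y,u))`; `E'_x[u] = E_x[Tu] + E_y(D²φ(u,y))`.
  Difference (`D²φ` symmetric) `= g(2G + D²φ(y,y), Tu)` by the defining property of `G`
  (`lG_spec`: holds because `lg` is positive definite, so the linear functional is represented), which is
  the defining property of `G'`, unique since `lg E'` is positive definite.
-/

namespace HFinG

open scoped ContDiff Topology

variable {V : Type*} [NormedAddCommGroup V] [NormedSpace ℝ V] [FiniteDimensional ℝ V]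
  {V' : Type*} [NormedAddCommGroup V'] [NormedSpace ℝ V'] [FiniteDimensional ℝ V']

section O1aux
variable {W : Type*} [NormedAddCommGroup W] [NormedSpace ℝ W]

lemma O1_py {E : W → W → ℝ} {v y : W}
    (h : DifferentiableAt ℝ (fun z : W × W => E z.1 z.2) (v, y)) :
    fderiv ℝ (E v) y =
      (fderiv ℝ (fun z : W × W => E z.1 z.2) (v, y)).comp (ContinuousLinearMap.inr ℝ W W) := by
  have h2 : HasFDerivAt (E v) ((fderiv ℝ (fun z : W × W => E z.1 z.2) (v, y)).comp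
      (ContinuousLinearMap.inr ℝ W W)) y :=
    HasFDerivAt.comp y (f := fun y' : W => (v, y')) h.hasFDerivAt (hasFDerivAt_prodMk_right v y)
  exact h2.fderiv

lemma O1_px {E : W → W → ℝ} {v y : W}
    (h : DifferentiableAt ℝ (fun z : W × W => E z.1 z.2) (v, y)) :
    fderiv ℝ (fun x' => E x' y) v =
      (fderiv ℝ (fun z : W × W => E z.1 z.2) (v, y)).comp (ContinuousLinearMap.inl ℝ W W) := by
  have h2 : HasFDerivAt (fun x' => E x' y) ((fderiv ℝ (fun z : W × W => E z.1 z.2) (v, y)).comp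
      (ContinuousLinearMap.inl ℝ W W)) v :=
    HasFDerivAt.comp v (f := fun x' : W => (x', y)) h.hasFDerivAt (hasFDerivAt_prodMk_left v y)
  exact h2.fderiv

lemma O1_ev {E : W → W → ℝ} {z : W × W}
    (h : ContDiffAt ℝ 2 (fun z : W × W => E z.1 z.2) z) :
    ∀ᶠ z' in 𝓝 z, DifferentiableAt ℝ (fun z : W × W => E z.1 z.2) z' := by
  have h1 : ContDiffAt ℝ 1 (fun z : W × W => E z.1 z.2) z := h.of_le (by norm_num)
  exact (h1.eventually (by simp)).mono fun z' hz' => hz'.differentiableAt (by simp)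

lemma O1_d2 {E : W → W → ℝ} {z : W × W}
    (h : ContDiffAt ℝ 2 (fun z : W × W => E z.1 z.2) z) :
    DifferentiableAt ℝ (fderiv ℝ (fun z : W × W => E z.1 z.2)) z :=
  (h.fderiv_right (m := 1) (by norm_num)).differentiableAt (by simp)

lemma O1_lg {E : W → W → ℝ} {v y : W}
    (h : ContDiffAt ℝ 2 (fun z : W × W => E z.1 z.2) (v, y)) (a b : W) :
    lg E v y a b = fderiv ℝ (fderiv ℝ (fun z : W × W => E z.1 z.2)) (v, y) (0, a) (0, b) := by
  have hc : Filter.Tendsto (fun y' : W => (v, y')) (𝓝 y) (𝓝 (v, y)) :=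
    (Continuous.prodMk_right v).tendsto y
  have hev : (fun y' => fderiv ℝ (E v) y') =ᶠ[𝓝 y] fun y' =>
      ((ContinuousLinearMap.compL ℝ W (W × W) ℝ).flip (ContinuousLinearMap.inr ℝ W W))
        (fderiv ℝ (fun z : W × W => E z.1 z.2) (v, y')) := by
    filter_upwards [hc (O1_ev h)] with y' hy'
    exact O1_py hy'
  have hH := (O1_d2 h).hasFDerivAt
  have h1 : HasFDerivAt (fun y' => fderiv ℝ (fun z : W × W => E z.1 z.2) (v, y'))
      ((fderiv ℝ (fderiv ℝ (fun z : W × W => E z.1 z.2)) (v, y)).comp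
        (ContinuousLinearMap.inr ℝ W W)) y :=
    HasFDerivAt.comp y (f := fun y' : W => (v, y')) hH (hasFDerivAt_prodMk_right v y)
  have h2 := (((ContinuousLinearMap.compL ℝ W (W × W) ℝ).flip
    (ContinuousLinearMap.inr ℝ W W)).hasFDerivAt (x := fderiv ℝ (fun z : W × W => E z.1 z.2)
      (v, y))).comp y h1
  unfold lg
  rw [hev.fderiv_eq]
  have h3 := h2.fderiv
  unfold Function.comp at h3
  rw [h3]
  simp

lemma O1_mix {E : W → W → ℝ} {v y : W}
    (h : ContDiffAt ℝ 2 (fun z : W × W => E z.1 z.2) (v, y)) (u w : W) :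
    fderiv ℝ (fun x' => fderiv ℝ (E x') y u) v w =
      fderiv ℝ (fderiv ℝ (fun z : W × W => E z.1 z.2)) (v, y) (w, 0) (0, u) := by
  have hc : Filter.Tendsto (fun x' : W => (x', y)) (𝓝 v) (𝓝 (v, y)) :=
    (Continuous.prodMk_left y).tendsto v
  have hev : (fun x' => fderiv ℝ (E x') y u) =ᶠ[𝓝 v] fun x' =>
      fderiv ℝ (fun z : W × W => E z.1 z.2) (x', y) (0, u) := by
    filter_upwards [hc (O1_ev h)] with x' hx'
    rw [O1_py hx']
    simp
  have hH := (O1_d2 h).hasFDerivAt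
  have h1 : HasFDerivAt (fun x' => fderiv ℝ (fun z : W × W => E z.1 z.2) (x', y))
      ((fderiv ℝ (fderiv ℝ (fun z : W × W => E z.1 z.2)) (v, y)).comp
        (ContinuousLinearMap.inl ℝ W W)) v :=
    HasFDerivAt.comp v (f := fun x' : W => (x', y)) hH (hasFDerivAt_prodMk_left v y)
  have h2 := h1.clm_apply (hasFDerivAt_const ((0, u) : W × W) v)
  rw [hev.fderiv_eq, h2.fderiv]
  simp

/-- a positive definite form is nondegenerate -/
lemma O1_inj {B : W →L[ℝ] W →L[ℝ] ℝ} (hB : ∀ u, u ≠ 0 → 0 < B u u) {u u' : W}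
    (h : ∀ v, B u v = B u' v) : u = u' := by
  by_contra hne
  have hd : u - u' ≠ 0 := sub_ne_zero.mpr hne
  have hpos := hB (u - u') hd
  have hz : B (u - u') (u - u') = 0 := by
    rw [map_sub B u u']
    change B u (u - u') - B u' (u - u') = 0
    rw [h (u - u'), sub_self]
  linarith

lemma O1_surj [FiniteDimensional ℝ W] {B : W →L[ℝ] W →L[ℝ] ℝ} (hB : ∀ u, u ≠ 0 → 0 < B u u)
    (f : W →ₗ[ℝ] ℝ) : ∃ e, ∀ v, B e v = f v := by
  let T : W →ₗ[ℝ] (W →ₗ[ℝ] ℝ) := (ContinuousLinearMap.coeLM ℝ).comp B.toLinearMap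
  have hTa : ∀ e v, T e v = B e v := fun e v => rfl
  have hinj : Function.Injective T := by
    intro u u' h
    refine O1_inj hB (fun v => ?_)
    rw [← hTa, ← hTa, h]
  have hsurj : Function.Surjective T :=
    (LinearMap.injective_iff_surjective_of_finrank_eq_finrank
      (Subspace.dual_finrank_eq (K := ℝ) (V := W)).symm).mp hinj
  obtain ⟨e, he⟩ := hsurj f
  refine ⟨e, fun v => ?_⟩
  rw [← hTa, he]

lemma O1_equiv [FiniteDimensional ℝ W] {B : W →L[ℝ] W →L[ℝ] ℝ} (hB : ∀ u, u ≠ 0 → 0 < B u u) :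
    ∃ e : W ≃L[ℝ] (W →L[ℝ] ℝ), (e : W →L[ℝ] (W →L[ℝ] ℝ)) = B := by
  have : CompleteSpace W := FiniteDimensional.complete ℝ W
  have hinj : (B : W →ₗ[ℝ] (W →L[ℝ] ℝ)).ker = ⊥ := by
    rw [LinearMap.ker_eq_bot]
    intro u u' h
    apply O1_inj hB
    intro v
    exact congrArg (fun f : W →L[ℝ] ℝ => f v) h
  have hsurj : (B : W →ₗ[ℝ] (W →L[ℝ] ℝ)).range = ⊤ := by
    rw [LinearMap.range_eq_top]
    intro g
    obtain ⟨e, he⟩ := O1_surj hB (g : W →ₗ[ℝ] ℝ)
    exact ⟨e, ContinuousLinearMap.ext he⟩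
  exact ⟨ContinuousLinearEquiv.ofBijective B hinj hsurj,
    ContinuousLinearEquiv.coe_ofBijective _ _ _⟩

lemma O1_le2 {E : W → W → ℝ} {z : W × W}
    (h : ContDiffAt ℝ ∞ (fun z : W × W => E z.1 z.2) z) :
    ContDiffAt ℝ 2 (fun z : W × W => E z.1 z.2) z := h.of_le (WithTop.coe_le_coe.mpr le_top)

/-- pointwise version of `lG_spec` -/
lemma O1_spec [FiniteDimensional ℝ W] {E : W → W → ℝ} {v y : W}
    (h : ContDiffAt ℝ 2 (fun z : W × W => E z.1 z.2) (v, y))
    (hpos : ∀ u : W, u ≠ 0 → 0 < lg E v y u u) (u : W) :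
    2 * lg E v y (lG E v y) u =
      fderiv ℝ (fun x' => fderiv ℝ (E x') y u) v y - fderiv ℝ (fun x' => E x' y) v u := by
  have hex : ∃ G, ∀ u, 2 * lg E v y G u =
      fderiv ℝ (fun x' => fderiv ℝ (E x') y u) v y - fderiv ℝ (fun x' => E x' y) v u := by
    obtain ⟨e, he⟩ := O1_surj hpos ((1 / 2 : ℝ) •
      (((fderiv ℝ (fderiv ℝ (fun z : W × W => E z.1 z.2)) (v, y) (y, 0)).comp
        (ContinuousLinearMap.inr ℝ W W)) -
      ((fderiv ℝ (fun z : W × W => E z.1 z.2) (v, y)).comp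
        (ContinuousLinearMap.inl ℝ W W))).toLinearMap)
    refine ⟨e, fun u => ?_⟩
    rw [he u, O1_mix h, O1_px (h.differentiableAt (by simp))]
    simp
  exact Classical.epsilon_spec hex u

/-- pointwise: characterisation of `lG` -/
lemma O1_unique [FiniteDimensional ℝ W] {E : W → W → ℝ} {v y : W}
    (h : ContDiffAt ℝ 2 (fun z : W × W => E z.1 z.2) (v, y))
    (hpos : ∀ u : W, u ≠ 0 → 0 < lg E v y u u) {G : W}
    (hG : ∀ u, 2 * lg E v y G u =
      fderiv ℝ (fun x' => fderiv ℝ (E x') y u) v y - fderiv ℝ (fun x' => E x' y) v u) :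
    lG E v y = G := by
  refine O1_inj hpos (fun u => ?_)
  have h1 := O1_spec h hpos u
  have h2 := hG u
  linarith

lemma O1_contDiffAt {E : W → W → ℝ} {U : Set W} (hE : IsEnergy E U) {v y : W} (hv : v ∈ U)
    (hy : y ≠ 0) : ContDiffAt ℝ ∞ (fun z : W × W => E z.1 z.2) (v, y) := by
  refine hE.smooth.contDiffAt ?_
  exact (hE.isOpen.prod isOpen_ne).mem_nhds ⟨hv, hy⟩

end O1aux

theorem lG_spec {E : V → V → ℝ} {U : Set V} (hE : IsEnergy E U) {v y : V} (hv : v ∈ U)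
    (hy : y ≠ 0) (u : V) : 2 * lg E v y (lG E v y) u =
      fderiv ℝ (fun x' => fderiv ℝ (E x') y u) v y - fderiv ℝ (fun x' => E x' y) v u :=
  O1_spec (O1_le2 (O1_contDiffAt hE hv hy)) (fun u hu => hE.conv v hv y u hy hu) u

/-- `G` is smooth. -/
theorem lG_contDiff {E : V → V → ℝ} {U : Set V} (hE : IsEnergy E U) :
    ContDiffOn ℝ ∞ (fun z : V × V => lG E z.1 z.2) (U ×ˢ {y | y ≠ 0}) := by
  have hcomp : CompleteSpace V := FiniteDimensional.complete ℝ V
  have hO : IsOpen (U ×ˢ {y : V | y ≠ 0}) := hE.isOpen.prod isOpen_ne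
  rintro ⟨v, y⟩ hvy
  apply ContDiffAt.contDiffWithinAt
  have hs : ContDiffAt ℝ ∞ (fun z : V × V => E z.1 z.2) (v, y) := O1_contDiffAt hE hvy.1 hvy.2
  have hs1 : ContDiffAt ℝ ∞ (fderiv ℝ (fun z : V × V => E z.1 z.2)) (v, y) :=
    hs.fderiv_right (by simp)
  have hs2 : ContDiffAt ℝ ∞ (fderiv ℝ (fderiv ℝ (fun z : V × V => E z.1 z.2))) (v, y) :=
    hs1.fderiv_right (by simp)
  set B : V × V → V →L[ℝ] V →L[ℝ] ℝ := fun z =>
    ((ContinuousLinearMap.compL ℝ V (V × V) ℝ).flip (ContinuousLinearMap.inr ℝ V V)).comp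
      ((fderiv ℝ (fderiv ℝ (fun z : V × V => E z.1 z.2)) z).comp
        (ContinuousLinearMap.inr ℝ V V)) with hB
  have hBa : ∀ z ∈ U ×ˢ {y : V | y ≠ 0}, lg E z.1 z.2 = B z := by
    rintro ⟨v', y'⟩ hz
    refine ContinuousLinearMap.ext fun a => ContinuousLinearMap.ext fun b => ?_
    rw [O1_lg (O1_le2 (O1_contDiffAt hE hz.1 hz.2))]
    simp [hB]
  set f : V × V → V →L[ℝ] ℝ := fun z =>
    (fderiv ℝ (fderiv ℝ (fun z : V × V => E z.1 z.2)) z
      ((ContinuousLinearMap.inl ℝ V V) z.2)).comp (ContinuousLinearMap.inr ℝ V V) -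
      (fderiv ℝ (fun z : V × V => E z.1 z.2) z).comp (ContinuousLinearMap.inl ℝ V V) with hf
  have hBs : ContDiffAt ℝ ∞ B (v, y) :=
    contDiffAt_const.clm_comp (hs2.clm_comp contDiffAt_const)
  have hfs : ContDiffAt ℝ ∞ f (v, y) := by
    refine ContDiffAt.sub ?_ (hs1.clm_comp contDiffAt_const)
    exact (hs2.clm_apply (((ContinuousLinearMap.inl ℝ V V).contDiff.contDiffAt).comp (v, y)
      contDiffAt_snd)).clm_comp contDiffAt_const
  have hpos : ∀ z ∈ U ×ˢ {y : V | y ≠ 0}, ∀ u, u ≠ 0 → 0 < B z u u := by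
    intro z hz u hu
    rw [← hBa z hz]
    exact hE.conv z.1 hz.1 z.2 u hz.2 hu
  obtain ⟨e₀, h0⟩ := O1_equiv (hpos (v, y) hvy)
  have h3 : ContDiffAt ℝ ∞ ContinuousLinearMap.inverse (B (v, y)) := by
    rw [← h0]
    exact contDiffAt_map_inverse e₀
  have h4 : ContDiffAt ℝ ∞ (fun z => (1 / 2 : ℝ) • ContinuousLinearMap.inverse (B z) (f z)) (v, y) :=
    ((h3.comp (v, y) hBs).clm_apply hfs).const_smul _
  refine h4.congr_of_eventuallyEq ?_
  filter_upwards [hO.mem_nhds hvy] with z hz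
  obtain ⟨e₁, he₁⟩ := O1_equiv (hpos z hz)
  rw [← he₁, ContinuousLinearMap.inverse_equiv]
  have hsz := O1_le2 (O1_contDiffAt hE hz.1 hz.2)
  apply O1_unique hsz (fun u hu => hE.conv z.1 hz.1 z.2 u hz.2 hu)
  intro u
  rw [hBa z hz, O1_mix hsz, O1_px (hsz.differentiableAt (by simp)), ← he₁]
  have h5 : (e₁ : V →L[ℝ] (V →L[ℝ] ℝ)) ((1 / 2 : ℝ) • (e₁.symm : (V →L[ℝ] ℝ) →L[ℝ] V) (f z)) =
      (1 / 2 : ℝ) • f z := by
    rw [map_smul]
    simp
  rw [h5]
  simp [hf]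

theorem lg_comp {E : V → V → ℝ} {U : Set V} (hE : IsEnergy E U) {φ : V' → V} {v : V'}
    (hφ : ContDiffAt ℝ 3 φ v) (hi : Function.Bijective (fderiv ℝ φ v)) (hv : φ v ∈ U)
    {y : V'} (hy : y ≠ 0) (a b : V') :
    lg (compE E φ) v y a b = lg E (φ v) (fderiv ℝ φ v y) (fderiv ℝ φ v a) (fderiv ℝ φ v b) := by
  set T := fderiv ℝ φ v with hT
  have hTy : T y ≠ 0 := by
    intro h
    exact hy (hi.1 (by rw [h, map_zero]))
  have hs := O1_le2 (O1_contDiffAt hE hv hTy)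
  have hev : ∀ᶠ y' in 𝓝 (T y), DifferentiableAt ℝ (E (φ v)) y' := by
    have hc : Filter.Tendsto (fun y' : V => (φ v, y')) (𝓝 (T y)) (𝓝 (φ v, T y)) :=
      (Continuous.prodMk_right (φ v)).tendsto _
    filter_upwards [hc (O1_ev hs)] with y' hy'
    exact (HasFDerivAt.comp y' (f := fun y' : V => (φ v, y')) hy'.hasFDerivAt
      (hasFDerivAt_prodMk_right (φ v) y')).differentiableAt
  have hev2 : (fun y' => fderiv ℝ (compE E φ v) y') =ᶠ[𝓝 y] fun y' =>
      ((ContinuousLinearMap.compL ℝ V' V ℝ).flip T) (fderiv ℝ (E (φ v)) (T y')) := by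
    filter_upwards [(T.continuous.tendsto y) hev] with y' hy'
    have h1 : HasFDerivAt (compE E φ v) ((fderiv ℝ (E (φ v)) (T y')).comp T) y' :=
      HasFDerivAt.comp y' (g := E (φ v)) (f := T) hy'.hasFDerivAt T.hasFDerivAt
    rw [h1.fderiv]
    rfl
  have hd : DifferentiableAt ℝ (fun y' => fderiv ℝ (E (φ v)) y') (T y) := by
    have hc : Filter.Tendsto (fun y' : V => (φ v, y')) (𝓝 (T y)) (𝓝 (φ v, T y)) :=
      (Continuous.prodMk_right (φ v)).tendsto _
    have hev3 : (fun y' => fderiv ℝ (E (φ v)) y') =ᶠ[𝓝 (T y)] fun y' =>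
        ((ContinuousLinearMap.compL ℝ V (V × V) ℝ).flip (ContinuousLinearMap.inr ℝ V V))
          (fderiv ℝ (fun z : V × V => E z.1 z.2) (φ v, y')) := by
      filter_upwards [hc (O1_ev hs)] with y' hy'
      exact O1_py hy'
    refine DifferentiableAt.congr_of_eventuallyEq ?_ hev3
    have h1 : HasFDerivAt (fun y' => fderiv ℝ (fun z : V × V => E z.1 z.2) (φ v, y'))
        ((fderiv ℝ (fderiv ℝ (fun z : V × V => E z.1 z.2)) (φ v, T y)).comp
          (ContinuousLinearMap.inr ℝ V V)) (T y) :=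
      HasFDerivAt.comp (T y) (f := fun y' : V => (φ v, y')) (O1_d2 hs).hasFDerivAt
        (hasFDerivAt_prodMk_right (φ v) (T y))
    exact (((ContinuousLinearMap.compL ℝ V (V × V) ℝ).flip
      (ContinuousLinearMap.inr ℝ V V)).hasFDerivAt.comp (T y) h1).differentiableAt
  have h1 : HasFDerivAt (fun y' => fderiv ℝ (E (φ v)) (T y'))
      ((fderiv ℝ (fun y' => fderiv ℝ (E (φ v)) y') (T y)).comp T) y :=
    HasFDerivAt.comp y (f := T) hd.hasFDerivAt T.hasFDerivAt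
  have h2 := (((ContinuousLinearMap.compL ℝ V' V ℝ).flip T).hasFDerivAt
    (x := fderiv ℝ (E (φ v)) (T y))).comp y h1
  unfold lg
  rw [hev2.fderiv_eq]
  have h3 := h2.fderiv
  unfold Function.comp at h3
  rw [h3]
  simp

/-- `Ψ (v, y) = (φ v, Dφ(v) y)` -/
lemma O1_psi {φ : V' → V} {v : V'} (hφ : ContDiffAt ℝ 3 φ v) (y : V') :
    ContDiffAt ℝ 2 (fun z : V' × V' => (φ z.1, fderiv ℝ φ z.1 z.2)) (v, y) := by
  have h1 : ContDiffAt ℝ 2 (fun z : V' × V' => φ z.1) (v, y) :=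
    ContDiffAt.comp (v, y) (g := φ) (f := fun z : V' × V' => z.1) (hφ.of_le (by norm_num))
      contDiffAt_fst
  have h2 : ContDiffAt ℝ 2 (fun z : V' × V' => fderiv ℝ φ z.1) (v, y) :=
    ContDiffAt.comp (v, y) (g := fderiv ℝ φ) (f := fun z : V' × V' => z.1)
      (hφ.fderiv_right (by norm_num)) contDiffAt_fst
  exact h1.prodMk (h2.clm_apply contDiffAt_snd)

lemma O1_comp_smooth {E : V → V → ℝ} {U : Set V} (hE : IsEnergy E U) {φ : V' → V} {v : V'}
    (hφ : ContDiffAt ℝ 3 φ v) (hi : Function.Bijective (fderiv ℝ φ v)) (hv : φ v ∈ U)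
    {y : V'} (hy : y ≠ 0) :
    ContDiffAt ℝ 2 (fun z : V' × V' => compE E φ z.1 z.2) (v, y) := by
  have hTy : fderiv ℝ φ v y ≠ 0 := by
    intro h
    exact hy (hi.1 (by rw [h, map_zero]))
  exact ContDiffAt.comp (v, y) (g := fun z : V × V => E z.1 z.2)
    (f := fun z : V' × V' => (φ z.1, fderiv ℝ φ z.1 z.2)) (O1_le2 (O1_contDiffAt hE hv hTy))
    (O1_psi hφ y)

theorem lG_comp {E : V → V → ℝ} {U : Set V} (hE : IsEnergy E U) {φ : V' → V} {v : V'}
    (hφ : ContDiffAt ℝ 3 φ v) (hi : Function.Bijective (fderiv ℝ φ v)) (hv : φ v ∈ U)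
    {y : V'} (hy : y ≠ 0) :
    fderiv ℝ φ v ((2 : ℝ) • lG (compE E φ) v y) =
      (2 : ℝ) • lG E (φ v) (fderiv ℝ φ v y) + fderiv ℝ (fderiv ℝ φ) v y y := by
  set T := fderiv ℝ φ v with hT
  have hTy : T y ≠ 0 := by
    intro h
    exact hy (hi.1 (by rw [h, map_zero]))
  have hs := O1_le2 (O1_contDiffAt hE hv hTy)
  have hs' := O1_comp_smooth hE hφ hi hv hy
  have hpos : ∀ u : V, u ≠ 0 → 0 < lg E (φ v) (T y) u u := fun u hu => hE.conv _ hv _ u hTy hu
  have hpos' : ∀ u : V', u ≠ 0 → 0 < lg (compE E φ) v y u u := by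
    intro u hu
    rw [lg_comp hE hφ hi hv hy]
    refine hpos _ ?_
    intro h
    exact hu (hi.1 (by rw [map_zero]; exact h))
  -- derivatives of the coordinate change
  have hd1 : HasFDerivAt φ T v := (hφ.differentiableAt (by simp)).hasFDerivAt
  have hd2 : HasFDerivAt (fderiv ℝ φ) (fderiv ℝ (fderiv ℝ φ) v) v :=
    ((hφ.fderiv_right (m := 2) (by norm_num)).differentiableAt (by simp)).hasFDerivAt
  have hφev : ∀ᶠ x' in 𝓝 v, DifferentiableAt ℝ φ x' := by
    have h1 : ContDiffAt ℝ 1 φ v := hφ.of_le (by norm_num)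
    exact (h1.eventually (by simp)).mono fun z' hz' => hz'.differentiableAt (by simp)
  have hsymm : ∀ a b : V', fderiv ℝ (fderiv ℝ φ) v a b = fderiv ℝ (fderiv ℝ φ) v b a := by
    intro a b
    have h1 : IsSymmSndFDerivAt ℝ φ v := hφ.isSymmSndFDerivAt (by
      rw [minSmoothness_of_isRCLikeNormedField]
      norm_num)
    exact h1 a b
  -- `x' ↦ Ψ(x', y)`
  have hψ : ∀ c : V', HasFDerivAt (fun x' : V' => fderiv ℝ φ x' c)
      ((fderiv ℝ (fderiv ℝ φ) v).flip c) v := by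
    intro c
    have := hd2.clm_apply (hasFDerivAt_const c v)
    refine this.congr_fderiv ?_
    ext a
    simp
  have hΨ : HasFDerivAt (fun x' : V' => (φ x', fderiv ℝ φ x' y))
      (T.prod ((fderiv ℝ (fderiv ℝ φ) v).flip y)) v := hd1.prodMk (hψ y)
  set DE := fderiv ℝ (fun z : V × V => E z.1 z.2) with hDE
  set HE := fderiv ℝ DE (φ v, T y) with hHE
  -- `x`-derivative
  have hA : ∀ u : V', fderiv ℝ (fun x' => compE E φ x' y) v u =
      DE (φ v, T y) (T u, fderiv ℝ (fderiv ℝ φ) v u y) := by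
    intro u
    have h1 : HasFDerivAt (fun x' => compE E φ x' y)
        ((DE (φ v, T y)).comp (T.prod ((fderiv ℝ (fderiv ℝ φ) v).flip y))) v :=
      HasFDerivAt.comp v (g := fun z : V × V => E z.1 z.2)
        (f := fun x' : V' => (φ x', fderiv ℝ φ x' y)) (hs.differentiableAt (by simp)).hasFDerivAt hΨ
    rw [h1.fderiv]
    simp
  -- mixed derivative
  have hBx : ∀ u : V', fderiv ℝ (fun x' => fderiv ℝ (compE E φ x') y u) v y =
      HE (T y, fderiv ℝ (fderiv ℝ φ) v y y) (0, T u) +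
        DE (φ v, T y) (0, fderiv ℝ (fderiv ℝ φ) v y u) := by
    intro u
    have hcont : Filter.Tendsto (fun x' : V' => (φ x', fderiv ℝ φ x' y)) (𝓝 v)
        (𝓝 (φ v, T y)) := hΨ.continuousAt
    have hev : (fun x' => fderiv ℝ (compE E φ x') y u) =ᶠ[𝓝 v] fun x' =>
        DE (φ x', fderiv ℝ φ x' y) ((ContinuousLinearMap.inr ℝ V V) (fderiv ℝ φ x' u)) := by
      filter_upwards [hcont (O1_ev hs)] with x' hx'
      have hx'' : DifferentiableAt ℝ (fun z : V × V => E z.1 z.2) (φ x', fderiv ℝ φ x' y) := hx'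
      have h1 : HasFDerivAt (compE E φ x')
          ((DE (φ x', fderiv ℝ φ x' y)).comp
            ((ContinuousLinearMap.inr ℝ V V).comp (fderiv ℝ φ x'))) y :=
        HasFDerivAt.comp y (g := fun z : V × V => E z.1 z.2)
          (f := fun y' : V' => (φ x', fderiv ℝ φ x' y')) hx''.hasFDerivAt
          (HasFDerivAt.comp y (g := fun y' : V => (φ x', y')) (f := fderiv ℝ φ x')
            (hasFDerivAt_prodMk_right (φ x') _) (fderiv ℝ φ x').hasFDerivAt)
      rw [h1.fderiv]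
      rfl
    have hDE' : HasFDerivAt DE HE (φ v, T y) := (O1_d2 hs).hasFDerivAt
    have h1 : HasFDerivAt (fun x' : V' => DE (φ x', fderiv ℝ φ x' y))
        (HE.comp (T.prod ((fderiv ℝ (fderiv ℝ φ) v).flip y))) v :=
      HasFDerivAt.comp v (g := DE) (f := fun x' : V' => (φ x', fderiv ℝ φ x' y)) hDE' hΨ
    have h2 : HasFDerivAt (fun x' : V' => (ContinuousLinearMap.inr ℝ V V) (fderiv ℝ φ x' u))
        ((ContinuousLinearMap.inr ℝ V V).comp ((fderiv ℝ (fderiv ℝ φ) v).flip u)) v :=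
      HasFDerivAt.comp v (g := (ContinuousLinearMap.inr ℝ V V))
        (f := fun x' : V' => fderiv ℝ φ x' u) (ContinuousLinearMap.inr ℝ V V).hasFDerivAt (hψ u)
    have h3 := h1.clm_apply h2
    rw [hev.fderiv_eq, h3.fderiv]
    simp
    ring
  refine O1_inj hpos (fun b => ?_)
  obtain ⟨u, rfl⟩ := hi.2 b
  have e1 := O1_spec hs' hpos' u
  rw [hA, hBx, lg_comp hE hφ hi hv hy] at e1
  have e2 := O1_spec hs hpos (T u)
  rw [O1_mix hs, O1_px (hs.differentiableAt (by simp))] at e2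
  have e3 : lg E (φ v) (T y) (fderiv ℝ (fderiv ℝ φ) v y y) (T u) =
      HE (0, fderiv ℝ (fderiv ℝ φ) v y y) (0, T u) := O1_lg hs _ _
  rw [map_smul, map_smul, map_add, map_smul]
  simp only [ContinuousLinearMap.add_apply, ContinuousLinearMap.smul_apply, smul_eq_mul]
  rw [e3]
  have e1' : 2 * lg E (φ v) (T y) (T (lG (compE E φ) v y)) (T u) = _ := e1
  rw [e1', e2]
  have e4 : HE (T y, fderiv ℝ (fderiv ℝ φ) v y y) (0, T u) =
      HE (T y, 0) (0, T u) + HE (0, fderiv ℝ (fderiv ℝ φ) v y y) (0, T u) := by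
    rw [← ContinuousLinearMap.add_apply, ← map_add]
    simp
  have e5 : DE (φ v, T y) (T u, fderiv ℝ (fderiv ℝ φ) v u y) =
      DE (φ v, T y) (T u, 0) + DE (φ v, T y) (0, fderiv ℝ (fderiv ℝ φ) v y u) := by
    rw [← map_add, hsymm u y]
    simp
  rw [e4, e5]
  simp only [ContinuousLinearMap.comp_apply, ContinuousLinearMap.inl_apply]
  ring

end HFinG
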