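import Pool.Agent.HFinG.Geo

/-! Basic facts about `ea, eb, Jn, Jt`. -/

namespace HFinG

open scoped RealInnerProductSpace

variable {n : ℕ}

lemma inner_ea_q (q : Wn n) : ⟪(ea : Wn n), q⟫ = q 0 := by
  simp [ea, EuclideanSpace.inner_single_left]

lemma inner_eb_q (q : Wn n) : ⟪(eb : Wn n), q⟫ = q 1 := by
  simp [eb, EuclideanSpace.inner_single_left]

@[simp] lemma inner_ea_ea : ⟪(ea : Wn n), ea⟫ = 1 := by rw [inner_ea_q]; simp [ea]
@[simp] lemma inner_eb_eb : ⟪(eb : Wn n), eb⟫ = 1 := by rw [inner_eb_q]; simp [eb]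
@[simp] lemma inner_ea_eb : ⟪(ea : Wn n), eb⟫ = 0 := by rw [inner_ea_q]; simp [eb]
@[simp] lemma inner_eb_ea : ⟪(eb : Wn n), ea⟫ = 0 := by rw [inner_eb_q]; simp [ea]

lemma Jn_apply_zero (u : En n) : Jn u 0 = 0 := rfl
lemma Jn_apply_one (u : En n) : Jn u 1 = 0 := rfl
lemma Jn_apply_succ (u : En n) (i : Fin n) : Jn u i.succ.succ = u i := rfl

@[simp] lemma inner_ea_Jn (u : En n) : ⟪(ea : Wn n), Jn u⟫ = 0 := by
  rw [inner_ea_q, Jn_apply_zero]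
@[simp] lemma inner_eb_Jn (u : En n) : ⟪(eb : Wn n), Jn u⟫ = 0 := by
  rw [inner_eb_q, Jn_apply_one]
@[simp] lemma inner_Jn_ea (u : En n) : ⟪Jn u, (ea : Wn n)⟫ = 0 := by
  rw [real_inner_comm, inner_ea_Jn]
@[simp] lemma inner_Jn_eb (u : En n) : ⟪Jn u, (eb : Wn n)⟫ = 0 := by
  rw [real_inner_comm, inner_eb_Jn]

lemma inner_Jn (u : En n) (q : Wn n) : ⟪Jn u, q⟫ = ⟪u, Jt q⟫ := by
  rw [PiLp.inner_apply, PiLp.inner_apply, Fin.sum_univ_succ, Fin.sum_univ_succ]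
  have h1 : ⟪Jn u (Fin.succ 0), q (Fin.succ 0)⟫ = 0 := by
    have : Jn u (Fin.succ 0) = 0 := rfl
    rw [this, inner_zero_left]
  rw [Jn_apply_zero, inner_zero_left, h1, zero_add, zero_add]
  rfl

lemma inner_Jn' (u : En n) (q : Wn n) : ⟪q, Jn u⟫ = ⟪Jt q, u⟫ := by
  rw [real_inner_comm, inner_Jn, real_inner_comm]

@[simp] lemma Jt_Jn (u : En n) : Jt (Jn u) = u := by
  ext i
  rfl
@[simp] lemma Jt_ea : Jt (ea : Wn n) = 0 := by
  ext i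
  rw [Jt_apply, ea]
  simp
@[simp] lemma Jt_eb : Jt (eb : Wn n) = 0 := by
  ext i
  rw [Jt_apply, eb]
  simp [Fin.ext_iff]

lemma decompW (q : Wn n) : q = ⟪ea, q⟫ • ea + ⟪eb, q⟫ • eb + Jn (Jt q) := by
  rw [inner_ea_q, inner_eb_q]
  ext i
  refine Fin.cases ?_ (fun i => Fin.cases ?_ (fun i => ?_) i) i
  · simp [ea, eb, Jn_apply_zero]
  · have : (Fin.succ 0 : Fin (n + 2)) = 1 := rfl
    simp [ea, eb, this, Jn_apply_one]
  · have h1 : (i.succ.succ : Fin (n + 2)) ≠ 1 := by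
      simp [Fin.ext_iff]
    simp [ea, eb, Jn_apply_succ, Jt_apply, h1]

lemma norm_ea : ‖(ea : Wn n)‖ = 1 := by simp [ea]
lemma norm_eb : ‖(eb : Wn n)‖ = 1 := by simp [eb]

lemma extW {x y : Wn n} (h1 : ⟪(ea : Wn n), x⟫ = ⟪(ea : Wn n), y⟫)
    (h2 : ⟪(eb : Wn n), x⟫ = ⟪(eb : Wn n), y⟫) (h3 : Jt x = Jt y) : x = y := by
  rw [decompW x, decompW y, h1, h2, h3]

/-- operators are determined by their values on `ea`, `eb` and the image of `Jn` -/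
lemma extOp {S T : Wn n →L[ℝ] Wn n} (h1 : S ea = T ea) (h2 : S eb = T eb)
    (h3 : ∀ u, S (Jn u) = T (Jn u)) : S = T := by
  ext1 q
  rw [decompW q]
  simp only [map_add, map_smul, h1, h2, h3]

end HFinG
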