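import Pool.Agent.HFinG.P0
import Pool.Agent.HFinG.J1

/-! MODULE P1 (diff 2-3): `𝔰𝔬(n+2) = 𝔪 ⊕ 𝔥` as operators. -/

namespace HFinG

open scoped RealInnerProductSpace

variable {n : ℕ}

theorem iota_ea (x : Vn n) : iotaL x ea = κ • (c0 x • eb + Jn (cu x)) := by
  rw [iotaL_apply]
  simp only [inner_ea_ea, inner_eb_ea, inner_Jn_ea, one_smul, zero_smul, sub_zero, add_zero]

theorem iota_eb (x : Vn n) : iotaL x eb = κ • (-(c0 x) • ea + Jn (cv x)) := by
  rw [iotaL_apply]
  simp only [inner_ea_eb, inner_eb_eb, inner_Jn_eb, one_smul, zero_smul, sub_zero, add_zero,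
    zero_sub, smul_neg, neg_smul]

theorem iota_Jn (x : Vn n) (w : En n) :
    iotaL x (Jn w) = -κ • (⟪cu x, w⟫ • ea + ⟪cv x, w⟫ • eb) := by
  rw [iotaL_apply]
  simp only [inner_ea_Jn, inner_eb_Jn, inner_Jn, Jt_Jn, zero_smul, sub_zero,
    zero_sub, smul_zero, zero_add]
  module

theorem hat_ea (A : Hn n) : hatL A ea = 0 := by
  rw [hatL_apply, Jt_ea, map_zero, map_zero]

theorem hat_eb (A : Hn n) : hatL A eb = 0 := by
  rw [hatL_apply, Jt_eb, map_zero, map_zero]

theorem hat_Jn (A : Hn n) (w : En n) : hatL A (Jn w) = Jn (skL A w) := by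
  rw [hatL_apply, Jt_Jn]

theorem iota_skew (x : Vn n) (q q' : Wn n) : ⟪iotaL x q, q'⟫ = -⟪q, iotaL x q'⟫ := by
  rw [iotaL_apply, iotaL_apply]
  simp only [inner_add_left, inner_add_right, inner_sub_left, inner_sub_right,
    real_inner_smul_left, real_inner_smul_right]
  rw [real_inner_comm ea q, real_inner_comm eb q, real_inner_comm (Jn (cu x)) q,
    real_inner_comm (Jn (cv x)) q]
  ring

theorem hat_skew (A : Hn n) (q q' : Wn n) : ⟪hatL A q, q'⟫ = -⟪q, hatL A q'⟫ := by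
  rw [hatL_apply, hatL_apply, inner_Jn, inner_Jn', skL_skew]

theorem comm_iota (x y : Vn n) : iotaL x * iotaL y - iotaL y * iotaL x =
    iotaL ((stf n).mm x y) + hatL ((stf n).mh x y) := by
  refine extOp ?_ ?_ ?_
  · change iotaL x (iotaL y ea) - iotaL y (iotaL x ea) =
      iotaL ((stf n).mm x y) ea + hatL ((stf n).mh x y) ea
    rw [hat_ea, iota_ea, iota_ea, iota_ea, stf_mm]
    simp only [map_smul, map_add, map_sub, iota_eb, iota_Jn, c0_mk3, cu_mk3, cv_mk3, smul_eq_mul]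
    rw [real_inner_comm (cu y) (cu x), real_inner_comm (cv y) (cu x)]
    module
  · change iotaL x (iotaL y eb) - iotaL y (iotaL x eb) =
      iotaL ((stf n).mm x y) eb + hatL ((stf n).mh x y) eb
    rw [hat_eb, iota_eb, iota_eb, iota_eb, stf_mm]
    simp only [map_smul, map_add, map_sub, iota_ea, iota_Jn, c0_mk3, cu_mk3, cv_mk3, smul_eq_mul]
    rw [real_inner_comm (cv y) (cv x), real_inner_comm (cu y) (cv x)]
    module
  · intro w
    change iotaL x (iotaL y (Jn w)) - iotaL y (iotaL x (Jn w)) =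
      iotaL ((stf n).mm x y) (Jn w) + hatL ((stf n).mh x y) (Jn w)
    rw [hat_Jn, iota_Jn, iota_Jn, iota_Jn, stf_mm, skL_mh, ← κ_sq]
    simp only [map_smul, map_add, map_sub, iota_ea, iota_eb, c0_mk3, cu_mk3, cv_mk3, smul_eq_mul,
      inner_sub_left, real_inner_smul_left]
    module

theorem comm_hat (A : Hn n) (x : Vn n) : hatL A * iotaL x - iotaL x * hatL A =
    iotaL ((stf n).act A x) := by
  refine extOp ?_ ?_ ?_
  · change hatL A (iotaL x ea) - iotaL x (hatL A ea) = iotaL ((stf n).act A x) ea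
    rw [hat_ea, map_zero, sub_zero, iota_ea, iota_ea, stf_act]
    simp only [map_smul, map_add, hat_eb, hat_Jn, c0_mk3, cu_mk3, smul_zero, zero_add, zero_smul]
  · change hatL A (iotaL x eb) - iotaL x (hatL A eb) = iotaL ((stf n).act A x) eb
    rw [hat_eb, map_zero, sub_zero, iota_eb, iota_eb, stf_act]
    simp only [map_smul, map_add, hat_ea, hat_Jn, c0_mk3, cv_mk3, smul_zero, zero_add, zero_smul,
      neg_zero]
  · intro w
    change hatL A (iotaL x (Jn w)) - iotaL x (hatL A (Jn w)) = iotaL ((stf n).act A x) (Jn w)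
    rw [hat_Jn, iota_Jn, iota_Jn, iota_Jn, stf_act]
    simp only [map_smul, map_add, hat_ea, hat_eb, cu_mk3, cv_mk3, smul_zero, zero_sub, add_zero,
      skL_skew]
    module

lemma P1_kk : κ⁻¹ * κ = 1 := inv_mul_cancel₀ κ_pos.ne'

theorem prm_iota (x : Vn n) : prm (iotaL x) = x := by
  rw [prm_apply, cmn_apply, iota_ea, iota_eb]
  simp only [map_smul, map_add, real_inner_smul_right, inner_add_right, inner_eb_eb, inner_eb_Jn,
    Jt_ea, Jt_eb, Jt_Jn, smul_zero, zero_add, add_zero, mul_one, mk3_smul, smul_smul]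
  rw [← mul_assoc, P1_kk, one_mul, one_smul, one_smul, mk3_eta]

theorem prm_hat (A : Hn n) : prm (hatL A) = 0 := by
  rw [prm_apply, hat_ea, hat_eb]
  exact map_zero cmn

theorem prm_hat_hat (A B : Hn n) : prm (hatL A * hatL B) = 0 := by
  rw [prm_apply]
  change cmn (hatL A (hatL B ea), hatL A (hatL B eb)) = 0
  rw [hat_ea, hat_eb, map_zero]
  exact map_zero cmn

theorem prh_iota (x : Vn n) : prh (iotaL x) = 0 := by
  ext ij
  rw [prh_apply, iota_Jn]
  simp only [real_inner_smul_right, inner_add_right, inner_Jn_ea, inner_Jn_eb, mul_zero, add_zero,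
    PiLp.zero_apply]

lemma P1_inner_skL (A : Hn n) (i j : Fin n) :
    ⟪(EuclideanSpace.single i (1 : ℝ) : En n), skL A (EuclideanSpace.single j 1)⟫ =
      (1 / 2 : ℝ) * (A (i, j) - A (j, i)) := by
  rw [EuclideanSpace.inner_single_left, skL_apply]
  simp

theorem prh_hat_mh (x y : Vn n) : prh (hatL ((stf n).mh x y)) = (stf n).mh x y := by
  ext ij
  rw [prh_apply, hat_Jn, inner_Jn, Jt_Jn, P1_inner_skL, stf_mh, stf_mh]
  ring

lemma P1_prh_skew {S : Wn n →L[ℝ] Wn n} (hS : ∀ q q', ⟪S q, q'⟫ = -⟪q, S q'⟫) (i j : Fin n) :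
    prh S (j, i) = - prh S (i, j) := by
  rw [prh_apply, prh_apply]
  dsimp only
  rw [← hS, real_inner_comm]

lemma P1_Jt_S {S : Wn n →L[ℝ] Wn n} (hS : ∀ q q', ⟪S q, q'⟫ = -⟪q, S q'⟫) (w : En n) :
    Jt (S (Jn w)) = skL (prh S) w := by
  have key : ∀ j : Fin n, Jt (S (Jn (EuclideanSpace.single j (1 : ℝ)))) =
      skL (prh S) (EuclideanSpace.single j 1) := by
    intro j
    ext i
    have h1 : (Jt (S (Jn (EuclideanSpace.single j (1 : ℝ))))) i =
        ⟪(EuclideanSpace.single i (1 : ℝ) : En n),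
          Jt (S (Jn (EuclideanSpace.single j (1 : ℝ))))⟫ := by
      rw [EuclideanSpace.inner_single_left]; simp
    have h2 : (skL (prh S) (EuclideanSpace.single j 1)) i =
        ⟪(EuclideanSpace.single i (1 : ℝ) : En n), skL (prh S) (EuclideanSpace.single j 1)⟫ := by
      rw [EuclideanSpace.inner_single_left]; simp
    rw [h1, h2, P1_inner_skL, P1_prh_skew hS i j, ← inner_Jn, prh_apply]
    ring
  have hw : w = ∑ j, w j • (EuclideanSpace.single j (1 : ℝ) : En n) := by
    ext i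
    simp [Finset.sum_apply, Pi.single_apply]
  rw [hw]
  simp only [map_sum, map_smul, key]

theorem decompS {S : Wn n →L[ℝ] Wn n} (hS : ∀ q q', ⟪S q, q'⟫ = -⟪q, S q'⟫) :
    S = iotaL (prm S) + hatL (prh S) := by
  have hkk : κ * κ⁻¹ = 1 := mul_inv_cancel₀ κ_pos.ne'
  have haa : ⟪(ea : Wn n), S ea⟫ = 0 := by
    have := hS ea ea
    rw [real_inner_comm] at this
    linarith
  have hbb : ⟪(eb : Wn n), S eb⟫ = 0 := by
    have := hS eb eb
    rw [real_inner_comm] at this
    linarith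
  have hab : ⟪(ea : Wn n), S eb⟫ = -⟪(eb : Wn n), S ea⟫ := by
    rw [← hS, real_inner_comm]
  have hc0 : c0 (prm S) = κ⁻¹ * ⟪(eb : Wn n), S ea⟫ := by
    rw [prm_apply, cmn_apply, map_smul, c0_mk3, smul_eq_mul]
  have hcu : cu (prm S) = κ⁻¹ • Jt (S ea) := by
    rw [prm_apply, cmn_apply, map_smul, cu_mk3]
  have hcv : cv (prm S) = κ⁻¹ • Jt (S eb) := by
    rw [prm_apply, cmn_apply, map_smul, cv_mk3]
  refine extOp ?_ ?_ ?_
  · change S ea = iotaL (prm S) ea + hatL (prh S) ea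
    rw [hat_ea, add_zero, iota_ea, hc0, hcu, map_smul, smul_add, smul_smul, smul_smul,
      ← mul_assoc, hkk, one_mul, one_smul]
    conv_lhs => rw [decompW (S ea), haa, zero_smul, zero_add]
  · change S eb = iotaL (prm S) eb + hatL (prh S) eb
    rw [hat_eb, add_zero, iota_eb, hc0, hcv, map_smul, smul_add, smul_smul, smul_smul,
      ← mul_neg, ← mul_assoc, hkk, one_mul, one_smul]
    conv_lhs => rw [decompW (S eb), hbb, zero_smul, add_zero, hab]
  · intro w
    change S (Jn w) = iotaL (prm S) (Jn w) + hatL (prh S) (Jn w)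
    rw [hat_Jn, iota_Jn, hcu, hcv, ← P1_Jt_S hS w]
    conv_lhs => rw [decompW (S (Jn w))]
    congr 1
    have h1 : ⟪(ea : Wn n), S (Jn w)⟫ = -⟪Jt (S ea), w⟫ := by
      rw [← inner_Jn' w (S ea), hS, neg_neg]
    have h2 : ⟪(eb : Wn n), S (Jn w)⟫ = -⟪Jt (S eb), w⟫ := by
      rw [← inner_Jn' w (S eb), hS, neg_neg]
    rw [h1, h2, real_inner_smul_left, real_inner_smul_left, smul_add, smul_smul, smul_smul]
    congr 2
    · rw [← mul_assoc, neg_mul, hkk]; ring
    · rw [← mul_assoc, neg_mul, hkk]; ring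

end HFinG
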