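import Pool.Agent.HFinG.P1

/-! MODULE P2 (diff 2-3): the Cayley transform.

`S = ι v` is skew (`iota_skew`), `P = (1 - ½S)⁻¹`, `Q = (1 + ½S)⁻¹`.
* `1 ∓ ½S` is injective (`⟪(1 ∓ ½S)q, q⟫ = ‖q‖²`), so a unit of `Wn n →L[ℝ] Wn n` (finite dimension), so
  `Ring.mul_inverse_cancel` etc. give `cayP_mul`, ....
* `cayP_smooth`: `contDiffAt_ringInverse`; derivative of `Ring.inverse` at a unit:
  `hasFDerivAt_ringInverse` (`-mulLeftRight`): `DP[w] = P (½ ι w) P`, `DQ[w] = -Q (½ ι w) Q`.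
* `cayPQ`: `P + Q = P((1 + ½S) + (1 - ½S))Q = 2PQ`; `P`, `Q`, `S` commute.
* `cayC_inner`: `C = (1 + ½S)P`; `⟪(1+½S)q, (1+½S)q'⟫ = ⟪(1-½S)q, (1-½S)q'⟫` (skew), apply with `Pq, Pq'`.
* `Xop_skew`: `⟪P q, q'⟫ = ⟪q, Q q'⟫` (as `(1 - ½S)` and `(1 + ½S)` are adjoint).
* `cayC_fderiv`: `DC[y] = ½YP + (1+½S)P½YP = ½[(1-½S) + (1+½S)]PYP = PYP` (`Y = ι y`,
  `(1-½S)P = 1`, commute) and `C X = (1+½S)PQYP = PYP` (`(1+½S)Q = 1`).
-/

namespace HFinG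

open scoped ContDiff RealInnerProductSpace

section P2gen

variable {E : Type*} [NormedAddCommGroup E] [InnerProductSpace ℝ E] [FiniteDimensional ℝ E]
  {V : Type*} [NormedAddCommGroup V] [NormedSpace ℝ V]

lemma P2_unit {S : E →L[ℝ] E} (hS : ∀ q q', ⟪S q, q'⟫ = -⟪q, S q'⟫) : IsUnit (1 - S) := by
  have : CompleteSpace E := FiniteDimensional.complete ℝ E
  rw [ContinuousLinearMap.isUnit_iff_bijective]
  have hinj : Function.Injective (1 - S : E →L[ℝ] E) := by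
    rw [injective_iff_map_eq_zero]
    intro q hq
    have h1 : ⟪(1 - S : E →L[ℝ] E) q, q⟫ = ⟪q, q⟫ := by
      have e : (1 - S : E →L[ℝ] E) q = q - S q := rfl
      rw [e, inner_sub_left]
      have h2 := hS q q
      have h3 : ⟪q, S q⟫ = ⟪S q, q⟫ := real_inner_comm _ _
      linarith
    rw [hq, inner_zero_left] at h1
    exact inner_self_eq_zero.mp h1.symm
  exact ⟨hinj, (LinearMap.injective_iff_surjective
    (f := ((1 - S : E →L[ℝ] E) : E →ₗ[ℝ] E))).mp hinj⟩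

/-- generic `P` -/
noncomputable def P2gP (f : V →L[ℝ] E →L[ℝ] E) (v : V) : E →L[ℝ] E :=
  Ring.inverse (1 - (1 / 2 : ℝ) • f v)
/-- generic `Q` -/
noncomputable def P2gQ (f : V →L[ℝ] E →L[ℝ] E) (v : V) : E →L[ℝ] E :=
  Ring.inverse (1 + (1 / 2 : ℝ) • f v)
/-- generic `C` -/
noncomputable def P2gC (f : V →L[ℝ] E →L[ℝ] E) (v : V) : E →L[ℝ] E :=
  (1 + (1 / 2 : ℝ) • f v) * P2gP f v

variable {f : V →L[ℝ] E →L[ℝ] E}

lemma P2_half_skew (hf : ∀ x q q', ⟪f x q, q'⟫ = -⟪q, f x q'⟫) (v : V) (q q' : E) :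
    ⟪((1 / 2 : ℝ) • f v) q, q'⟫ = -⟪q, ((1 / 2 : ℝ) • f v) q'⟫ := by
  have e : ∀ z, ((1 / 2 : ℝ) • f v) z = (1 / 2 : ℝ) • f v z := fun _ => rfl
  rw [e, e, real_inner_smul_left, real_inner_smul_right, hf]; ring

lemma P2_unitP (hf : ∀ x q q', ⟪f x q, q'⟫ = -⟪q, f x q'⟫) (v : V) :
    IsUnit (1 - (1 / 2 : ℝ) • f v) := P2_unit (P2_half_skew hf v)

lemma P2_unitQ (hf : ∀ x q q', ⟪f x q, q'⟫ = -⟪q, f x q'⟫) (v : V) :
    IsUnit (1 + (1 / 2 : ℝ) • f v) := by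
  have h := P2_unit (S := -((1 / 2 : ℝ) • f v)) (by
    intro q q'
    have h := P2_half_skew hf v q q'
    have e : ∀ z, (-((1 / 2 : ℝ) • f v)) z = -(((1 / 2 : ℝ) • f v) z) := fun _ => rfl
    rw [e, e, inner_neg_left, inner_neg_right, h])
  rwa [sub_neg_eq_add] at h

lemma P2_mulP (hf : ∀ x q q', ⟪f x q, q'⟫ = -⟪q, f x q'⟫) (v : V) :
    (1 - (1 / 2 : ℝ) • f v) * P2gP f v = 1 := Ring.mul_inverse_cancel _ (P2_unitP hf v)
lemma P2_Pmul (hf : ∀ x q q', ⟪f x q, q'⟫ = -⟪q, f x q'⟫) (v : V) :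
    P2gP f v * (1 - (1 / 2 : ℝ) • f v) = 1 := Ring.inverse_mul_cancel _ (P2_unitP hf v)
lemma P2_mulQ (hf : ∀ x q q', ⟪f x q, q'⟫ = -⟪q, f x q'⟫) (v : V) :
    (1 + (1 / 2 : ℝ) • f v) * P2gQ f v = 1 := Ring.mul_inverse_cancel _ (P2_unitQ hf v)
lemma P2_Qmul (hf : ∀ x q q', ⟪f x q, q'⟫ = -⟪q, f x q'⟫) (v : V) :
    P2gQ f v * (1 + (1 / 2 : ℝ) • f v) = 1 := Ring.inverse_mul_cancel _ (P2_unitQ hf v)

lemma P2_P0 : P2gP f 0 = 1 := by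
  unfold P2gP
  rw [map_zero, smul_zero, sub_zero, Ring.inverse_one]
lemma P2_Q0 : P2gQ f 0 = 1 := by
  unfold P2gQ
  rw [map_zero, smul_zero, add_zero, Ring.inverse_one]
lemma P2_C0 : P2gC f 0 = 1 := by
  unfold P2gC
  rw [P2_P0, map_zero, smul_zero, add_zero, mul_one]

lemma P2_smooth_half : ContDiff ℝ ∞ (fun v : V => (1 / 2 : ℝ) • f v) :=
  f.contDiff.const_smul _

lemma P2_smP (hf : ∀ x q q', ⟪f x q, q'⟫ = -⟪q, f x q'⟫) : ContDiff ℝ ∞ (P2gP f) := by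
  have : CompleteSpace E := FiniteDimensional.complete ℝ E
  rw [contDiff_iff_contDiffAt]
  intro v
  obtain ⟨u, hu⟩ := P2_unitP hf v
  have h1 : ContDiffAt ℝ ∞ Ring.inverse (1 - (1 / 2 : ℝ) • f v) := by
    rw [← hu]; exact contDiffAt_ringInverse ℝ u
  have h2 : ContDiffAt ℝ ∞ (fun v : V => (1 : E →L[ℝ] E) - (1 / 2 : ℝ) • f v) v :=
    (contDiff_const.sub P2_smooth_half).contDiffAt
  exact h1.comp v h2

lemma P2_smQ (hf : ∀ x q q', ⟪f x q, q'⟫ = -⟪q, f x q'⟫) : ContDiff ℝ ∞ (P2gQ f) := by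
  have : CompleteSpace E := FiniteDimensional.complete ℝ E
  rw [contDiff_iff_contDiffAt]
  intro v
  obtain ⟨u, hu⟩ := P2_unitQ hf v
  have h1 : ContDiffAt ℝ ∞ Ring.inverse (1 + (1 / 2 : ℝ) • f v) := by
    rw [← hu]; exact contDiffAt_ringInverse ℝ u
  have h2 : ContDiffAt ℝ ∞ (fun v : V => (1 : E →L[ℝ] E) + (1 / 2 : ℝ) • f v) v :=
    (contDiff_const.add P2_smooth_half).contDiffAt
  exact h1.comp v h2

lemma P2_smC (hf : ∀ x q q', ⟪f x q, q'⟫ = -⟪q, f x q'⟫) : ContDiff ℝ ∞ (P2gC f) := by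
  have h2 : ContDiff ℝ ∞ (fun v : V => (1 : E →L[ℝ] E) + (1 / 2 : ℝ) • f v) :=
    contDiff_const.add P2_smooth_half
  exact h2.mul (P2_smP hf)

lemma P2_hasHalf (v : V) : HasFDerivAt (fun v : V => (1 / 2 : ℝ) • f v)
    ((1 / 2 : ℝ) • f) v := by
  have h := (f.hasFDerivAt (x := v)).const_smul (1 / 2 : ℝ)
  exact h

lemma P2_hasP (hf : ∀ x q q', ⟪f x q, q'⟫ = -⟪q, f x q'⟫) (v : V) : HasFDerivAt (P2gP f)
    ((-ContinuousLinearMap.mulLeftRight ℝ (E →L[ℝ] E) (P2gP f v) (P2gP f v)).comp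
      (-((1 / 2 : ℝ) • f))) v := by
  have : CompleteSpace E := FiniteDimensional.complete ℝ E
  obtain ⟨u, hu⟩ := P2_unitP hf v
  have e : (↑u⁻¹ : E →L[ℝ] E) = P2gP f v := by
    unfold P2gP
    rw [← hu, Ring.inverse_unit]
  have h1 := hasFDerivAt_ringInverse (𝕜 := ℝ) u
  rw [e, hu] at h1
  have h2 : HasFDerivAt (fun v : V => (1 : E →L[ℝ] E) - (1 / 2 : ℝ) • f v)
      (-((1 / 2 : ℝ) • f)) v := (P2_hasHalf v).const_sub _
  exact h1.comp v h2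

lemma P2_hasQ (hf : ∀ x q q', ⟪f x q, q'⟫ = -⟪q, f x q'⟫) (v : V) : HasFDerivAt (P2gQ f)
    ((-ContinuousLinearMap.mulLeftRight ℝ (E →L[ℝ] E) (P2gQ f v) (P2gQ f v)).comp
      ((1 / 2 : ℝ) • f)) v := by
  have : CompleteSpace E := FiniteDimensional.complete ℝ E
  obtain ⟨u, hu⟩ := P2_unitQ hf v
  have e : (↑u⁻¹ : E →L[ℝ] E) = P2gQ f v := by
    unfold P2gQ
    rw [← hu, Ring.inverse_unit]
  have h1 := hasFDerivAt_ringInverse (𝕜 := ℝ) u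
  rw [e, hu] at h1
  have h2 : HasFDerivAt (fun v : V => (1 : E →L[ℝ] E) + (1 / 2 : ℝ) • f v)
      ((1 / 2 : ℝ) • f) v := (P2_hasHalf v).const_add _
  exact h1.comp v h2

lemma P2_fdP (hf : ∀ x q q', ⟪f x q, q'⟫ = -⟪q, f x q'⟫) (v w : V) :
    fderiv ℝ (P2gP f) v w = P2gP f v * ((1 / 2 : ℝ) • f w) * P2gP f v := by
  rw [(P2_hasP hf v).fderiv]
  show -(P2gP f v * (-((1 / 2 : ℝ) • f w)) * P2gP f v) = _
  rw [mul_neg, neg_mul, neg_neg]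

lemma P2_fdQ (hf : ∀ x q q', ⟪f x q, q'⟫ = -⟪q, f x q'⟫) (v w : V) :
    fderiv ℝ (P2gQ f) v w = -(P2gQ f v * ((1 / 2 : ℝ) • f w) * P2gQ f v) := by
  rw [(P2_hasQ hf v).fderiv]
  rfl

lemma P2_ab (v : V) : (1 - (1 / 2 : ℝ) • f v) * (1 + (1 / 2 : ℝ) • f v) =
    (1 + (1 / 2 : ℝ) • f v) * (1 - (1 / 2 : ℝ) • f v) := by
  generalize (1 / 2 : ℝ) • f v = S
  rw [sub_mul, mul_add, mul_add, mul_sub, add_mul, add_mul]
  simp only [one_mul, mul_one]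

lemma P2_comm (hf : ∀ x q q', ⟪f x q, q'⟫ = -⟪q, f x q'⟫) (v : V) :
    P2gP f v * P2gQ f v = P2gQ f v * P2gP f v := by
  have h1 := P2_mulP hf v
  have h2 := P2_Pmul hf v
  have h3 := P2_mulQ hf v
  have h4 := P2_Qmul hf v
  have h5 := P2_ab (f := f) v
  set a := (1 - (1 / 2 : ℝ) • f v : E →L[ℝ] E)
  set b := (1 + (1 / 2 : ℝ) • f v : E →L[ℝ] E)
  set P := P2gP f v
  set Q := P2gQ f v
  calc P * Q = P * Q * ((a * b) * (Q * P)) := by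
        have : (a * b) * (Q * P) = 1 := by
          calc (a * b) * (Q * P) = a * (b * Q) * P := by simp only [mul_assoc]
            _ = 1 := by rw [h3, mul_one, h1]
        rw [this, mul_one]
    _ = P * Q * ((b * a) * (Q * P)) := by rw [h5]
    _ = P * (Q * b) * (a * (Q * P)) := by simp only [mul_assoc]
    _ = (P * a) * (Q * P) := by rw [h4, mul_one, mul_assoc]
    _ = Q * P := by rw [h2, one_mul]

lemma P2_two (v : V) : (1 - (1 / 2 : ℝ) • f v : E →L[ℝ] E) + (1 + (1 / 2 : ℝ) • f v) =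
    (2 : ℝ) • 1 := by
  rw [two_smul]; abel

lemma P2_PQ (hf : ∀ x q q', ⟪f x q, q'⟫ = -⟪q, f x q'⟫) (v : V) :
    P2gP f v + P2gQ f v = (2 : ℝ) • (P2gP f v * P2gQ f v) := by
  have h2 := P2_Pmul hf v
  have h3 := P2_mulQ hf v
  have h6 := P2_two (f := f) v
  set a := (1 - (1 / 2 : ℝ) • f v : E →L[ℝ] E)
  set b := (1 + (1 / 2 : ℝ) • f v : E →L[ℝ] E)
  set P := P2gP f v
  set Q := P2gQ f v
  clear_value a b
  calc P + Q = P * (b * Q) + (P * a) * Q := by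
        rw [h2, h3, mul_one, one_mul]
    _ = P * (a + b) * Q := by
        rw [mul_add, add_mul, mul_assoc P b Q, add_comm]
    _ = (2 : ℝ) • (P * Q) := by
        rw [h6, mul_smul_comm, mul_one, smul_mul_assoc]

lemma P2_inner_pm (hf : ∀ x q q', ⟪f x q, q'⟫ = -⟪q, f x q'⟫) (v : V) (x y : E) :
    ⟪x, (1 - (1 / 2 : ℝ) • f v : E →L[ℝ] E) y⟫ =
      ⟪(1 + (1 / 2 : ℝ) • f v : E →L[ℝ] E) x, y⟫ := by
  have e1 : (1 - (1 / 2 : ℝ) • f v : E →L[ℝ] E) y =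
    y - ((1 / 2 : ℝ) • f v) y := rfl
  have e2 : (1 + (1 / 2 : ℝ) • f v : E →L[ℝ] E) x =
    x + ((1 / 2 : ℝ) • f v) x := rfl
  rw [e1, e2, inner_sub_right, inner_add_left, P2_half_skew hf]
  ring

lemma P2_app {S T : E →L[ℝ] E} (h : S * T = 1) (q : E) : S (T q) = q := by
  have := congrArg (fun f : E →L[ℝ] E => f q) h
  exact this

lemma P2_adj (hf : ∀ x q q', ⟪f x q, q'⟫ = -⟪q, f x q'⟫) (v : V) (x y : E) :
    ⟪P2gQ f v x, y⟫ = ⟪x, P2gP f v y⟫ := by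
  have h1 := P2_app (P2_mulP hf v) y
  have h2 := P2_app (P2_mulQ hf v) x
  have h3 := P2_inner_pm hf v (P2gQ f v x) (P2gP f v y)
  rw [h1, h2] at h3
  exact h3

lemma P2_adj' (hf : ∀ x q q', ⟪f x q, q'⟫ = -⟪q, f x q'⟫) (v : V) (x y : E) :
    ⟪P2gP f v x, y⟫ = ⟪x, P2gQ f v y⟫ := by
  rw [real_inner_comm, ← P2_adj hf, real_inner_comm]

lemma P2_Cinner (hf : ∀ x q q', ⟪f x q, q'⟫ = -⟪q, f x q'⟫) (v : V) (q q' : E) :
    ⟪P2gC f v q, P2gC f v q'⟫ = ⟪q, q'⟫ := by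
  have e : ∀ z, P2gC f v z = (1 + (1 / 2 : ℝ) • f v : E →L[ℝ] E) (P2gP f v z) := fun _ => rfl
  have h1 := P2_app (P2_mulP hf v) q
  have h2 := P2_app (P2_mulP hf v) q'
  have h3 := P2_ab (f := f) v
  have h4 : (1 - (1 / 2 : ℝ) • f v : E →L[ℝ] E)
      ((1 + (1 / 2 : ℝ) • f v : E →L[ℝ] E) (P2gP f v q')) =
      (1 + (1 / 2 : ℝ) • f v : E →L[ℝ] E)
      ((1 - (1 / 2 : ℝ) • f v : E →L[ℝ] E) (P2gP f v q')) := by
    rw [← mul_apply_eq_comp, ← mul_apply_eq_comp, h3, mul_apply_eq_comp, mul_apply_eq_comp]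
  have h5 := P2_inner_pm hf v (P2gP f v q)
    ((1 + (1 / 2 : ℝ) • f v : E →L[ℝ] E) (P2gP f v q'))
  have h6 := P2_inner_pm hf v q' (P2gP f v q)
  rw [h1] at h6
  rw [h4, h2] at h5
  rw [e, e, ← h5, real_inner_comm, ← h6, real_inner_comm]

lemma P2_Xskew (hf : ∀ x q q', ⟪f x q, q'⟫ = -⟪q, f x q'⟫) (v y : V) (q q' : E) :
    ⟪(P2gQ f v * f y * P2gP f v) q, q'⟫ = -⟪q, (P2gQ f v * f y * P2gP f v) q'⟫ := by
  have e : ∀ z, (P2gQ f v * f y * P2gP f v) z = P2gQ f v (f y (P2gP f v z)) := fun _ => rfl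
  rw [e, e, P2_adj hf, hf, P2_adj' hf]

lemma P2_Cfd (hf : ∀ x q q', ⟪f x q, q'⟫ = -⟪q, f x q'⟫) (v y : V) :
    fderiv ℝ (P2gC f) v y = P2gC f v * (P2gQ f v * f y * P2gP f v) := by
  have h1 : HasFDerivAt (fun v : V => (1 : E →L[ℝ] E) + (1 / 2 : ℝ) • f v)
      ((1 / 2 : ℝ) • f) v := (P2_hasHalf v).const_add _
  have h2 := h1.mul' (P2_hasP hf v)
  have h3 : fderiv ℝ (P2gC f) v y = (1 + (1 / 2 : ℝ) • f v) *
      (P2gP f v * ((1 / 2 : ℝ) • f y) * P2gP f v) + ((1 / 2 : ℝ) • f y) * P2gP f v := by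
    have e : P2gC f = (fun v : V =>
      ((1 : E →L[ℝ] E) + (1 / 2 : ℝ) • f v)) * P2gP f := rfl
    rw [e]
    rw [HasFDerivAt.fderiv h2]
    show (1 + (1 / 2 : ℝ) • f v) * (-(P2gP f v * (-((1 / 2 : ℝ) • f y)) * P2gP f v)) +
      ((1 / 2 : ℝ) • f y) * P2gP f v = _
    rw [mul_neg (P2gP f v), neg_mul, neg_neg]
  rw [h3]
  have h4 : P2gC f v * (P2gQ f v * f y * P2gP f v) = P2gP f v * f y * P2gP f v := by
    unfold P2gC
    calc (1 + (1 / 2 : ℝ) • f v) * P2gP f v * (P2gQ f v * f y * P2gP f v)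
        = (1 + (1 / 2 : ℝ) • f v) * (P2gP f v * P2gQ f v) * f y * P2gP f v := by
          simp only [mul_assoc]
      _ = ((1 + (1 / 2 : ℝ) • f v) * P2gQ f v) * P2gP f v * f y * P2gP f v := by
          rw [P2_comm hf]; simp only [mul_assoc]
      _ = P2gP f v * f y * P2gP f v := by rw [P2_mulQ hf, one_mul]
  rw [h4]
  have h6 := P2_two (f := f) v
  have h7 : ((1 / 2 : ℝ) • f y) * P2gP f v =
      (1 - (1 / 2 : ℝ) • f v) * (P2gP f v * ((1 / 2 : ℝ) • f y) * P2gP f v) := by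
    rw [mul_assoc (P2gP f v), ← mul_assoc _ (P2gP f v), P2_mulP hf, one_mul]
  rw [h7, ← add_mul, add_comm (1 + (1 / 2 : ℝ) • f v), h6]
  rw [mul_smul_comm, smul_mul_assoc, smul_mul_assoc, one_mul, smul_smul]
  norm_num

end P2gen

variable {n : ℕ}

theorem cayP_mul (v : Vn n) : (1 - (1 / 2 : ℝ) • iotaL v) * cayP v = 1 := P2_mulP iota_skew v
theorem mul_cayP (v : Vn n) : cayP v * (1 - (1 / 2 : ℝ) • iotaL v) = 1 := P2_Pmul iota_skew v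
theorem cayQ_mul (v : Vn n) : (1 + (1 / 2 : ℝ) • iotaL v) * cayQ v = 1 := P2_mulQ iota_skew v
theorem mul_cayQ (v : Vn n) : cayQ v * (1 + (1 / 2 : ℝ) • iotaL v) = 1 := P2_Qmul iota_skew v
theorem cayP_zero : cayP (0 : Vn n) = 1 := P2_P0 (f := iotaL (n := n))
theorem cayQ_zero : cayQ (0 : Vn n) = 1 := P2_Q0 (f := iotaL (n := n))
theorem cayC_zero : cayC (0 : Vn n) = 1 := P2_C0 (f := iotaL (n := n))

theorem cayP_smooth : ContDiff ℝ ∞ (cayP : Vn n → Wn n →L[ℝ] Wn n) := P2_smP iota_skew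
theorem cayQ_smooth : ContDiff ℝ ∞ (cayQ : Vn n → Wn n →L[ℝ] Wn n) := P2_smQ iota_skew
theorem cayC_smooth : ContDiff ℝ ∞ (cayC : Vn n → Wn n →L[ℝ] Wn n) := P2_smC iota_skew

theorem cayP_fderiv (v w : Vn n) :
    fderiv ℝ cayP v w = cayP v * ((1 / 2 : ℝ) • iotaL w) * cayP v := P2_fdP iota_skew v w
theorem cayQ_fderiv (v w : Vn n) :
    fderiv ℝ cayQ v w = -(cayQ v * ((1 / 2 : ℝ) • iotaL w) * cayQ v) := P2_fdQ iota_skew v w

theorem cayPQ_comm (v : Vn n) : cayP v * cayQ v = cayQ v * cayP v := P2_comm iota_skew v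
theorem cayPQ (v : Vn n) : cayP v + cayQ v = (2 : ℝ) • (cayP v * cayQ v) := P2_PQ iota_skew v

theorem cayC_inner (v : Vn n) (q q' : Wn n) : ⟪cayC v q, cayC v q'⟫ = ⟪q, q'⟫ :=
  P2_Cinner iota_skew v q q'
theorem Xop_skew (v y : Vn n) (q q' : Wn n) : ⟪Xop v y q, q'⟫ = -⟪q, Xop v y q'⟫ :=
  P2_Xskew iota_skew v y q q'
theorem cayC_fderiv (v y : Vn n) : fderiv ℝ cayC v y = cayC v * Xop v y := P2_Cfd iota_skew v y

end HFinG
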