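import Pool.Agent.HFinG.P2
import Pool.Agent.HFinG.NDefs

/-! MODULE P3 (diff 3): the Cayley section is a frame.

`X(v)y = Q Y P` (`Xop`), `Y = ι y`, `Xm = prm ∘ X`, `Xh = prh ∘ X` (`XmC_apply`, `XhC_apply`).
* smoothness of `v ↦ XmC v ∈ Vn →L Vn`: it suffices that `v ↦ XmC v y` is smooth for each `y`
  (`contDiff_clm_apply_iff`), and `v ↦ prm (Q v * ι y * P v)` is smooth (`cayP_smooth`,
  `cayQ_smooth`, multiplication is bilinear).
* `zero`: `X(0)y = ι y`; `prm_iota`, `prh_iota`.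
* derivative in the direction `w` (`cayP_fderiv`, `cayQ_fderiv`, `W = ι w`):
  `D_wX(y) = -½QWQYP + ½QYPWP`.  At `v = 0`: `½(YW - WY) = -½[W,Y] = -½(ι (mm w y) + hat (mh w y))`
  (`comm_iota`), so `deriv_m`, `deriv_h` (`prm_iota`, `prm_hat`, `prh_iota`, `prh_hat_mh`).
  `fderiv ℝ XmC v w y = prm (D_wX(y))` (`fderiv` of an operator valued map, applied to `y`).
* `mc`: `D_wX(y) - D_yX(w) = ½QY(P+Q)WP - ½QW(P+Q)YP = QY(PQ)WP - QW(PQ)YP` (`cayPQ`, `cayPQ_comm`)
  `= X(y)X(w) - X(w)X(y)` (`Xop`).  With `X(y) = ι (Xm y) + hat (Xh y)` (`decompS`, `Xop_skew`):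
  `prm [X(y),X(w)] = mm (Xm y) (Xm w) + act (Xh y) (Xm w) - act (Xh w) (Xm y)` (`comm_iota`,
  `comm_hat`, `prm_iota`, `prm_hat`, `prm_hat_hat`).
-/

namespace HFinG

open scoped ContDiff RealInnerProductSpace

section P3gen

variable {E : Type*} [NormedAddCommGroup E] [InnerProductSpace ℝ E] [FiniteDimensional ℝ E]
  {V : Type*} [NormedAddCommGroup V] [NormedSpace ℝ V] {f : V →L[ℝ] E →L[ℝ] E}

lemma P3_sm (hf : ∀ x q q', ⟪f x q, q'⟫ = -⟪q, f x q'⟫) (y : V) :
    ContDiff ℝ ∞ (fun v => P2gQ f v * f y * P2gP f v) :=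
  ((P2_smQ hf).mul contDiff_const).mul (P2_smP hf)

lemma P3_fd (hf : ∀ x q q', ⟪f x q, q'⟫ = -⟪q, f x q'⟫) (v w y : V) :
    fderiv ℝ (fun v => P2gQ f v * f y * P2gP f v) v w =
      (1 / 2 : ℝ) • (P2gQ f v * f y * (P2gP f v * f w * P2gP f v)) -
      (1 / 2 : ℝ) • (P2gQ f v * f w * (P2gQ f v * f y * P2gP f v)) := by
  have h1 := (P2_hasQ hf v).mul_const' (f y)
  have h2 := h1.mul' (P2_hasP hf v)
  have e : (fun v => P2gQ f v * f y * P2gP f v) =
    (fun y_1 => P2gQ f y_1 * f y) * P2gP f := rfl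
  rw [e, HasFDerivAt.fderiv h2]
  show (P2gQ f v * f y) * (-(P2gP f v * (-((1 / 2 : ℝ) • f w)) * P2gP f v)) +
    (-(P2gQ f v * ((1 / 2 : ℝ) • f w) * P2gQ f v) * f y) * P2gP f v = _
  rw [mul_neg (P2gP f v), neg_mul, neg_neg, neg_mul, neg_mul, ← sub_eq_add_neg]
  simp only [mul_smul_comm, smul_mul_assoc, mul_assoc]

lemma P3_mc (hf : ∀ x q q', ⟪f x q, q'⟫ = -⟪q, f x q'⟫) (v w y : V) :
    fderiv ℝ (fun v => P2gQ f v * f y * P2gP f v) v w -
      fderiv ℝ (fun v => P2gQ f v * f w * P2gP f v) v y =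
    (P2gQ f v * f y * P2gP f v) * (P2gQ f v * f w * P2gP f v) -
    (P2gQ f v * f w * P2gP f v) * (P2gQ f v * f y * P2gP f v) := by
  rw [P3_fd hf, P3_fd hf]
  have h := P2_PQ hf v
  have hc := P2_comm hf v
  have e : ∀ y w : V, (P2gQ f v * f y * P2gP f v) * (P2gQ f v * f w * P2gP f v) =
      (1 / 2 : ℝ) • (P2gQ f v * f y * (P2gP f v * f w * P2gP f v)) +
      (1 / 2 : ℝ) • (P2gQ f v * f y * (P2gQ f v * f w * P2gP f v)) := by
    intro y w
    have h1 : P2gP f v * P2gQ f v = (1 / 2 : ℝ) • (P2gP f v + P2gQ f v) := by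
      rw [h, smul_smul]; norm_num
    calc (P2gQ f v * f y * P2gP f v) * (P2gQ f v * f w * P2gP f v)
        = P2gQ f v * f y * ((P2gP f v * P2gQ f v) * (f w * P2gP f v)) := by
          simp only [mul_assoc]
      _ = _ := by
          rw [h1, smul_mul_assoc, mul_smul_comm, add_mul, mul_add, smul_add]
          simp only [mul_assoc]
  rw [e y w, e w y]
  abel

end P3gen

variable {n : ℕ}

lemma P3_smX (y : Vn n) : ContDiff ℝ ∞ (fun v : Vn n => Xop v y) := P3_sm iota_skew y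

lemma P3_fdX (v w y : Vn n) : fderiv ℝ (fun v : Vn n => Xop v y) v w =
      (1 / 2 : ℝ) • (cayQ v * iotaL y * (cayP v * iotaL w * cayP v)) -
      (1 / 2 : ℝ) • (cayQ v * iotaL w * (cayQ v * iotaL y * cayP v)) := P3_fd iota_skew v w y

lemma P3_mcX (v w y : Vn n) : fderiv ℝ (fun v : Vn n => Xop v y) v w -
      fderiv ℝ (fun v : Vn n => Xop v w) v y =
    Xop v y * Xop v w - Xop v w * Xop v y := P3_mc iota_skew v w y

lemma P3_dm (v w y : Vn n) : fderiv ℝ XmC v w y = prm (fderiv ℝ (fun v : Vn n => Xop v y) v w) := by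
  have hsm : ContDiff ℝ ∞ (XmC : Vn n → Vn n →L[ℝ] Vn n) := by
    rw [contDiff_clm_apply_iff]
    intro y
    exact prm.contDiff.comp (P3_smX y)
  have h1 : HasFDerivAt (fun v : Vn n => XmC v y) ((fderiv ℝ XmC v).flip y) v := by
    have h := ((hsm.differentiable (by simp)) v).hasFDerivAt
    have h2 := h.clm_apply (hasFDerivAt_const y v)
    rw [ContinuousLinearMap.comp_zero, zero_add] at h2
    exact h2
  have h3 : HasFDerivAt (fun v : Vn n => XmC v y)
      (prm.comp (fderiv ℝ (fun v : Vn n => Xop v y) v)) v :=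
    prm.hasFDerivAt.comp v (((P3_smX y).differentiable (by simp)) v).hasFDerivAt
  have h4 := h1.unique h3
  have h5 := congrArg (fun g : Vn n →L[ℝ] Vn n => g w) h4
  exact h5

lemma P3_dh (v w y : Vn n) : fderiv ℝ XhC v w y = prh (fderiv ℝ (fun v : Vn n => Xop v y) v w) := by
  have hsm : ContDiff ℝ ∞ (XhC : Vn n → Vn n →L[ℝ] Hn n) := by
    rw [contDiff_clm_apply_iff]
    intro y
    exact prh.contDiff.comp (P3_smX y)
  have h1 : HasFDerivAt (fun v : Vn n => XhC v y) ((fderiv ℝ XhC v).flip y) v := by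
    have h := ((hsm.differentiable (by simp)) v).hasFDerivAt
    have h2 := h.clm_apply (hasFDerivAt_const y v)
    rw [ContinuousLinearMap.comp_zero, zero_add] at h2
    exact h2
  have h3 : HasFDerivAt (fun v : Vn n => XhC v y)
      (prh.comp (fderiv ℝ (fun v : Vn n => Xop v y) v)) v :=
    prh.hasFDerivAt.comp v (((P3_smX y).differentiable (by simp)) v).hasFDerivAt
  have h4 := h1.unique h3
  have h5 := congrArg (fun g : Vn n →L[ℝ] Hn n => g w) h4
  exact h5

lemma P3_X0 (y : Vn n) : Xop 0 y = iotaL y := by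
  unfold Xop
  rw [cayP_zero, cayQ_zero, one_mul, mul_one]

lemma P3_fd0 (w y : Vn n) : fderiv ℝ (fun v : Vn n => Xop v y) 0 w =
    -((1 / 2 : ℝ) • (iotaL ((stf n).mm w y) + hatL ((stf n).mh w y))) := by
  rw [P3_fdX, cayP_zero, cayQ_zero, ← comm_iota]
  simp only [one_mul, mul_one]
  ext1 q
  show (1 / 2 : ℝ) • (iotaL y * iotaL w) q - (1 / 2 : ℝ) • (iotaL w * iotaL y) q =
    -((1 / 2 : ℝ) • ((iotaL w * iotaL y) q - (iotaL y * iotaL w) q))
  module

lemma P3_prm_mul (A B : Hn n) : prm (hatL A * hatL B) = 0 := prm_hat_hat A B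

theorem cay_frame (n : ℕ) : IsFrame (stf n) (XmC : Vn n → Vn n →L[ℝ] Vn n) XhC where
  smooth_m := by
    rw [contDiff_clm_apply_iff]
    intro y
    exact prm.contDiff.comp (P3_smX y)
  smooth_h := by
    rw [contDiff_clm_apply_iff]
    intro y
    exact prh.contDiff.comp (P3_smX y)
  zero_m := by
    intro y
    rw [XmC_apply, P3_X0, prm_iota]
  zero_h := by
    intro y
    rw [XhC_apply, P3_X0, prh_iota]
  deriv_m := by
    intro w y
    rw [P3_dm, P3_fd0, map_neg, map_smul, map_add, prm_iota, prm_hat, add_zero]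
  deriv_h := by
    intro w y
    rw [P3_dh, P3_fd0, map_neg, map_smul, map_add, prh_iota, prh_hat_mh, zero_add]
  mc := by
    intro v y w
    rw [P3_dm, P3_dm, ← map_sub, P3_mcX]
    have hy := decompS (Xop_skew v y)
    have hw := decompS (Xop_skew v w)
    rw [← XmC_apply, ← XhC_apply] at hy hw
    set a := XmC v y
    set A := XhC v y
    set b := XmC v w
    set B := XhC v w
    have h1 := comm_iota a b
    have h2 := comm_hat A b
    have h3 := comm_hat B a
    have key : Xop v y * Xop v w - Xop v w * Xop v y =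
        (iotaL a * iotaL b - iotaL b * iotaL a) + (hatL A * iotaL b - iotaL b * hatL A)
        - (hatL B * iotaL a - iotaL a * hatL B) + (hatL A * hatL B - hatL B * hatL A) := by
      rw [hy, hw, add_mul, mul_add, mul_add, add_mul, mul_add, mul_add]
      abel
    rw [key, h1, h2, h3]
    rw [map_add, map_sub, map_add, map_add, map_sub, prm_iota, prm_iota, prm_iota, prm_hat,
      P3_prm_mul, P3_prm_mul, sub_zero, add_zero, add_zero]

end HFinG
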