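import Pool.Agent.HFinG.P0

/-! MODULE P4 (diff 2): `O(n+2)` is transitive on the Stiefel manifold, and the isotropy action.

* `stiefel_trans`: `z.1, z.2` are orthonormal; extend them to an orthonormal basis indexed by
  `Fin (n+2)` with `b 0 = z.1`, `b 1 = z.2`
  (`Orthonormal.exists_orthonormalBasis_extension_of_card_eq`), and let `A` map the standard basis to
  `b` (`b.repr.symm`, or `(EuclideanSpace.basisFun _ _).equiv b (Equiv.refl _)`).
* `stab_iso`: if `B ea = ea`, `B eb = eb` then `B (J u) ⊥ ea, eb`, so `B (J u) = J (Jt (B (J u)))`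
  (`decompW`); `B' u := Jt (B (J u))` is a linear isometry of `En n` (same for `B⁻¹`), bijective.
  Also `Jt (B q) = B' (Jt q)` (write `q` by `decompW`).
* `cmn_stab`: `cmn (B w.1, B w.2) = (c0 ·, B' (cu ·), B' (cv ·))` of `cmn w` (`cmn_apply`;
  `⟪eb, B w.1⟫ = ⟪B eb, B w.1⟫ = ⟪eb, w.1⟫`).
-/

namespace HFinG

open scoped RealInnerProductSpace

variable {n : ℕ}

theorem stiefel_trans {z : Wn n × Wn n} (hz : z ∈ Stiefel (n + 2)) :
    ∃ A : Wn n ≃ₗᵢ[ℝ] Wn n, A ea = z.1 ∧ A eb = z.2 := by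
  obtain ⟨h1, h2, h3⟩ := hz
  have h3' : ⟪z.2, z.1⟫ = 0 := by rw [real_inner_comm]; exact h3
  have h01 : (1 : Fin (n + 2)) ≠ 0 := by simp
  have hv : Orthonormal ℝ (({0, 1} : Set (Fin (n + 2))).domRestrict
      (fun i : Fin (n + 2) => if i = 0 then z.1 else z.2)) := by
    constructor
    · rintro ⟨i, hi⟩
      simp only [Set.domRestrict_apply]
      split_ifs
      · exact h1
      · exact h2
    · rintro ⟨i, hi⟩ ⟨j, hj⟩ hij
      simp only [Set.mem_insert_iff, Set.mem_singleton_iff] at hi hj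
      simp only [Set.domRestrict_apply]
      rcases hi with rfl | rfl <;> rcases hj with rfl | rfl
      · exact absurd rfl hij
      · rw [if_pos rfl, if_neg h01]
        exact h3
      · rw [if_pos rfl, if_neg h01]
        exact h3'
      · exact absurd rfl hij
  obtain ⟨b, hb⟩ := hv.exists_orthonormalBasis_extension_of_card_eq (by simp)
  have hb0 := hb 0 (by simp)
  have hb1 := hb 1 (by simp)
  refine ⟨b.repr.symm, ?_, ?_⟩
  · unfold ea
    rw [OrthonormalBasis.repr_symm_single, hb0, if_pos rfl]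
  · unfold eb
    rw [OrthonormalBasis.repr_symm_single, hb1, if_neg h01]

theorem stiefel_mem (A : Wn n ≃ₗᵢ[ℝ] Wn n) : (A ea, A eb) ∈ Stiefel (n + 2) := by
  refine ⟨?_, ?_, ?_⟩
  · change ‖A ea‖ = 1
    rw [A.norm_map, norm_ea]
  · change ‖A eb‖ = 1
    rw [A.norm_map, norm_eb]
  · change ⟪A ea, A eb⟫ = 0
    rw [A.inner_map_map, inner_ea_eb]

lemma P4_norm_Jn (u : En n) : ‖Jn u‖ = ‖u‖ := by
  have h : ⟪Jn u, Jn u⟫ = ⟪u, u⟫ := by rw [inner_Jn, Jt_Jn]
  rw [real_inner_self_eq_norm_sq, real_inner_self_eq_norm_sq] at h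
  exact (sq_eq_sq₀ (norm_nonneg _) (norm_nonneg _)).1 h

lemma P4_BJ (B : Wn n ≃ₗᵢ[ℝ] Wn n) (ha : B ea = ea) (hb : B eb = eb) (u : En n) :
    B (Jn u) = Jn (Jt (B (Jn u))) := by
  have h := decompW (B (Jn u))
  have e1 : ⟪ea, B (Jn u)⟫ = 0 := by
    conv_lhs => rw [← ha]
    rw [B.inner_map_map, inner_ea_Jn]
  have e2 : ⟪eb, B (Jn u)⟫ = 0 := by
    conv_lhs => rw [← hb]
    rw [B.inner_map_map, inner_eb_Jn]
  rw [e1, e2, zero_smul, zero_smul, zero_add, zero_add] at h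
  exact h

theorem cmn_stab (B : Wn n ≃ₗᵢ[ℝ] Wn n) (ha : B ea = ea) (hb : B eb = eb) :
    ∃ B' : En n ≃ₗᵢ[ℝ] En n, ∀ w : Wn n × Wn n, cmn (B w.1, B w.2) = rotV B' (cmn w) := by
  let f : En n →ₗ[ℝ] En n :=
    (Jt.comp (B.toContinuousLinearEquiv.toContinuousLinearMap.comp Jn)).toLinearMap
  have hf : ∀ u, f u = Jt (B (Jn u)) := fun u => rfl
  let g : En n →ₗᵢ[ℝ] En n := ⟨f, by
    intro u
    rw [hf, ← P4_norm_Jn, ← P4_BJ B ha hb, B.norm_map, P4_norm_Jn]⟩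
  have hg : ∀ u, g u = Jt (B (Jn u)) := fun u => rfl
  let B' : En n ≃ₗᵢ[ℝ] En n := g.toLinearIsometryEquiv rfl
  have hB' : ∀ u, B' u = Jt (B (Jn u)) := fun u => rfl
  have key : ∀ q : Wn n, Jt (B q) = B' (Jt q) := by
    intro q
    rw [hB']
    conv_lhs => rw [decompW q]
    simp only [map_add, map_smul, ha, hb, Jt_ea, Jt_eb, smul_zero, zero_add]
  refine ⟨B', fun w => ?_⟩
  have e2 : ⟪eb, B w.1⟫ = ⟪eb, w.1⟫ := by
    conv_lhs => rw [← hb]
    rw [B.inner_map_map]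
  rw [cmn_apply, cmn_apply]
  simp only [e2, key]
  unfold rotV
  rw [mk3_smul, mk3_smul, c0_mk3, cu_mk3, cv_mk3, map_smul, map_smul]

end HFinG
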