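import Pool.Agent.HFinG.P3
import Pool.Agent.HFinG.P4
import Pool.Agent.HFinG.N1

/-! MODULE P5 (diff 2-3): the invariant metric and the charts `psi A`.

* `FS_eq`: the chosen `A₀` and `A` both map `(ea, eb)` to `z`; `B = A⁻¹A₀` fixes `ea, eb`, and
  `A⁻¹w = B (A₀⁻¹w)`; `cmn_stab` and `hrot`.
* `FS_inv`: choose `A` for `z` (`stiefel_trans`); `g∘A` works for `g z`; apply `FS_eq` twice.
* `psi_smooth`, `psi_mem` (`cayC_inner`; `cayC v` is norm preserving), `psi_zero` (`cayC_zero`).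
* `psi_fderiv` (`cayC_fderiv`): `Dpsi(v) y = (A (C (X ea)), A (C (X eb)))`, `X = Xop v y`.
* `FS_psi`: `A ∘ C(v)` is a linear isometry equivalence (finite dimension) mapping `ea, eb` to
  `psi A v`; `FS_eq` gives `Fm (cmn (X ea, X eb)) = Fm (prm X) = Fm (XmC v y)`.
* `psi_inj`: if `Dpsi(v) y = 0` then `X ea = X eb = 0`, so `XmC v y = prm X = 0`, so `y = 0` when
  `XmC v` is injective, which holds for `v` near `0` (`frame_inj`, `cay_frame`).
* `psi_param`: the set of `v` with `XmC v` injective contains an open neighbourhood of `0`.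
-/

namespace HFinG

open scoped ContDiff RealInnerProductSpace Topology

variable {n : ℕ}

theorem FS_eq {Fm : Vn n → ℝ} (hrot : ∀ (B : En n ≃ₗᵢ[ℝ] En n) x, Fm (rotV B x) = Fm x)
    (A : Wn n ≃ₗᵢ[ℝ] Wn n) {z : Wn n × Wn n} (ha : A ea = z.1) (hb : A eb = z.2)
    (w : Wn n × Wn n) : FS Fm z w = Fm (cmn (A.symm w.1, A.symm w.2)) := by
  have h : ∃ A : Wn n ≃ₗᵢ[ℝ] Wn n, A ea = z.1 ∧ A eb = z.2 := ⟨A, ha, hb⟩
  unfold FS
  rw [dif_pos h]
  obtain ⟨ha0, hb0⟩ := h.choose_spec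
  generalize h.choose = A0 at ha0 hb0
  obtain ⟨B', hB'⟩ := cmn_stab (A0.trans A.symm)
    (by rw [LinearIsometryEquiv.trans_apply, ha0, ← ha, A.symm_apply_apply])
    (by rw [LinearIsometryEquiv.trans_apply, hb0, ← hb, A.symm_apply_apply])
  have h1 := hB' (A0.symm w.1, A0.symm w.2)
  simp only [LinearIsometryEquiv.trans_apply, A0.apply_symm_apply] at h1
  rw [h1, hrot]

theorem FS_inv {Fm : Vn n → ℝ} (hrot : ∀ (B : En n ≃ₗᵢ[ℝ] En n) x, Fm (rotV B x) = Fm x) :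
    OInvariant (n + 2) (FS Fm) := by
  intro A z hz w _ _ _
  obtain ⟨B, hBa, hBb⟩ := stiefel_trans hz
  rw [FS_eq hrot (B.trans A) (z := (A z.1, A z.2))
    (by rw [LinearIsometryEquiv.trans_apply, hBa]) (by rw [LinearIsometryEquiv.trans_apply, hBb]),
    FS_eq hrot B hBa hBb]
  simp only [LinearIsometryEquiv.symm_trans, LinearIsometryEquiv.trans_apply,
    LinearIsometryEquiv.symm_apply_apply]

theorem psi_smooth (A : Wn n ≃ₗᵢ[ℝ] Wn n) : ContDiff ℝ ∞ (psi A) := by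
  have h1 : ContDiff ℝ ∞ fun v : Vn n => A (cayC v ea) :=
    A.contDiff.comp (cayC_smooth.clm_apply contDiff_const)
  have h2 : ContDiff ℝ ∞ fun v : Vn n => A (cayC v eb) :=
    A.contDiff.comp (cayC_smooth.clm_apply contDiff_const)
  exact h1.prodMk h2

/-- The Cayley transform as a linear isometry equivalence. -/
theorem P5_iso (v : Vn n) : ∃ G : Wn n ≃ₗᵢ[ℝ] Wn n, ∀ q, G q = cayC v q := by
  let f : Wn n →ₗᵢ[ℝ] Wn n :=
    LinearMap.isometryOfInner (cayC v : Wn n →ₗ[ℝ] Wn n) (fun q q' => cayC_inner v q q')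
  exact ⟨f.toLinearIsometryEquiv rfl, fun q => rfl⟩

theorem psi_mem (A : Wn n ≃ₗᵢ[ℝ] Wn n) (v : Vn n) : psi A v ∈ Stiefel (n + 2) := by
  obtain ⟨G, hG⟩ := P5_iso v
  have h := stiefel_mem (G.trans A)
  simpa [LinearIsometryEquiv.trans_apply, hG, psi] using h

theorem psi_zero (A : Wn n ≃ₗᵢ[ℝ] Wn n) : psi A 0 = (A ea, A eb) := by
  unfold psi
  rw [cayC_zero]
  rfl

theorem psi_fderiv (A : Wn n ≃ₗᵢ[ℝ] Wn n) (v y : Vn n) : fderiv ℝ (psi A) v y =
    (A (cayC v (Xop v y ea)), A (cayC v (Xop v y eb))) := by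
  have hd : HasFDerivAt cayC (fderiv ℝ cayC v) v :=
    ((cayC_smooth.contDiffAt (x := v)).differentiableAt (by simp)).hasFDerivAt
  have key : ∀ q : Wn n, HasFDerivAt (fun v' : Vn n => A (cayC v' q))
      (((A.toContinuousLinearEquiv : Wn n →L[ℝ] Wn n)).comp
        ((fderiv ℝ cayC v).flip q)) v := by
    intro q
    have h1 := hd.clm_apply (hasFDerivAt_const q v)
    have h2 := (A.toContinuousLinearEquiv : Wn n →L[ℝ] Wn n).hasFDerivAt.comp v h1
    refine h2.congr_fderiv ?_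
    ext1 y
    simp
  have h := (key ea).prodMk (key eb)
  have h3 : HasFDerivAt (psi A) _ v := h
  rw [h3.fderiv]
  have h4 := cayC_fderiv v y
  refine Prod.ext ?_ ?_
  · change A ((fderiv ℝ cayC v y) ea) = _
    rw [h4]
    rfl
  · change A ((fderiv ℝ cayC v y) eb) = _
    rw [h4]
    rfl

theorem FS_psi {Fm : Vn n → ℝ} (hrot : ∀ (B : En n ≃ₗᵢ[ℝ] En n) x, Fm (rotV B x) = Fm x)
    (A : Wn n ≃ₗᵢ[ℝ] Wn n) (v y : Vn n) :
    FS Fm (psi A v) (fderiv ℝ (psi A) v y) = Fm (XmC v y) := by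
  obtain ⟨G, hG⟩ := P5_iso v
  rw [FS_eq hrot (G.trans A) (z := psi A v) (by rw [LinearIsometryEquiv.trans_apply, hG]; rfl)
    (by rw [LinearIsometryEquiv.trans_apply, hG]; rfl), psi_fderiv]
  simp only [LinearIsometryEquiv.symm_trans, LinearIsometryEquiv.trans_apply,
    LinearIsometryEquiv.symm_apply_apply, ← hG]
  rfl

theorem FS_smul {Fm : Vn n → ℝ} (hF : IsMinkowski Fm)
    (hrot : ∀ (B : En n ≃ₗᵢ[ℝ] En n) x, Fm (rotV B x) = Fm x) {z : Wn n × Wn n}
    (hz : z ∈ Stiefel (n + 2)) (c : ℝ) (hc : 0 ≤ c) (w : Wn n × Wn n) :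
    FS Fm z (c • w) = c * FS Fm z w := by
  obtain ⟨A, ha, hb⟩ := stiefel_trans hz
  rw [FS_eq hrot A ha hb, FS_eq hrot A ha hb, ← hF.smul c _ hc, ← map_smul]
  simp only [Prod.smul_fst, Prod.smul_snd, map_smul, Prod.smul_mk]

theorem psi_param (A : Wn n ≃ₗᵢ[ℝ] Wn n) :
    ∃ U : Set (Vn n), (0 : Vn n) ∈ U ∧ IsParam (Stiefel (n + 2)) U (psi A) := by
  have h := frame_inj (cay_frame n)
  obtain ⟨U, hU, hUo, h0⟩ := mem_nhds_iff.1 h
  refine ⟨U, h0, hUo, (psi_smooth A).contDiffOn, fun v _ => psi_mem A v, fun v hv => ?_⟩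
  rw [injective_iff_map_eq_zero]
  intro y hy
  rw [psi_fderiv] at hy
  obtain ⟨G, hG⟩ := P5_iso v
  have h1 : Xop v y ea = 0 := by
    have := congrArg Prod.fst hy
    simp only [Prod.fst_zero, ← hG] at this
    exact (map_eq_zero_iff _ G.injective).1 ((map_eq_zero_iff _ A.injective).1 this)
  have h2 : Xop v y eb = 0 := by
    have := congrArg Prod.snd hy
    simp only [Prod.snd_zero, ← hG] at this
    exact (map_eq_zero_iff _ G.injective).1 ((map_eq_zero_iff _ A.injective).1 this)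
  have h3 : XmC v y = 0 := by
    rw [XmC_apply, prm_apply, h1, h2]
    exact map_zero cmn
  exact (injective_iff_map_eq_zero _).1 (hU hv) y h3

end HFinG
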